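import Pool.Agent.H49.KE.Base0

/-!
Root subgroups, and the hypothesis on the tops used in the proof.
-/

namespace H49KE

open H49KA H49KB

universe u v w

/-- upper unitriangular matrices -/
def up {F : Type} [Field F] (t : F) : Matrix.SpecialLinearGroup (Fin 2) F :=
  ⟨!![1, t; 0, 1], by simp⟩

/-- lower unitriangular matrices -/
def lo {F : Type} [Field F] (t : F) : Matrix.SpecialLinearGroup (Fin 2) F :=
  ⟨!![1, 0; t, 1], by simp⟩

section grp
variable {S : Type u} [Group S]

/-- `A` and `B` are the images of the groups of upper and lower unitriangular matrices under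
one homomorphism from `SL₂(F)` -/
def Opp (F : Type) [Field F] (A B : Subgroup S) : Prop :=
  ∃ φ : Matrix.SpecialLinearGroup (Fin 2) F →* S,
    (∀ x, x ∈ A ↔ ∃ t : F, φ (up t) = x) ∧ (∀ x, x ∈ B ↔ ∃ t : F, φ (lo t) = x)

/-- the commutators of nontrivial elements of `A` and of `B` are nontrivial elements of `C`,
and `C` commutes with `A` and `B` -/
def Spec (A B C : Subgroup S) : Prop :=
  ∀ a ∈ A, ∀ b ∈ B, a * b * a⁻¹ * b⁻¹ ∈ C ∧ (a * b * a⁻¹ * b⁻¹ = 1 → a = 1 ∨ b = 1) ∧
    ∀ c ∈ C, Commute a c ∧ Commute b c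

/-- `R` is a class of root subgroups of `S`, parametrised by the field `F`, modulo the normal
subgroup `Z` -/
structure RootGrp (c : ℕ) (F : Type) [Field F] (Z : Subgroup S) (R : Set (Subgroup S)) :
    Prop where
  ne : R.Nonempty
  card : ∀ A ∈ R, Nat.card A = Nat.card F
  nt : ∀ A ∈ R, ∃ a ∈ A, a ∉ Z
  conj : ∀ A ∈ R, ∀ g : S, A.map (MulAut.conj g).toMonoidHom ∈ R
  rand : ∀ A ∈ R, Nat.card F *
    Nat.card {g : S // ¬ Opp F A (A.map (MulAut.conj g).toMonoidHom)} ≤ c * Nat.card S
  fix : ∀ x : S, x ∉ Z → ∃ A ∈ R, A.map (MulAut.conj x).toMonoidHom ≠ A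
  pairs : ∀ A ∈ R, ∀ B ∈ R, A ≠ B → Opp F A B ∨ (∃ C ∈ R, Spec A B C) ∨
    ((∀ a ∈ A, ∀ b ∈ B, Commute a b) ∧ ∃ D ∈ R, (∀ d ∈ D, ∀ b ∈ B, Commute d b) ∧
      (Opp F A D ∨ ∃ C ∈ R, Spec A D C))

end grp

variable {G : Type u} [Group G]

/-- `T / C` is a group with root subgroups over a finite field `F` whose order is at most
`|F| ^ d` -/
def RootSec (d : ℕ) (T C : Subgroup G) : Prop :=
  ∃ (S : Type) (_ : Group S) (_ : Finite S) (F : Type) (_ : Field F) (_ : Finite F)
    (π : T →* S) (R : Set (Subgroup S)), Function.Surjective π ∧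
    (∀ t : T, π t = 1 ↔ (t : G) ∈ C) ∧ Nat.card S ≤ Nat.card F ^ d ∧ RootGrp d F ⊥ R

/-- every almost simple quotient `X / C` of a perfect normal subgroup `X` of a member has
alternating socle, or is simple and classical over a finite field, or has root subgroups over a
finite field and bounded rank, or has small character ratios, or has bounded order, or (for
groups which are not linear) is projectively linear of bounded degree -/
def TopsF (d : ℕ) (𝓛 : Set (Subgroup G)) : Prop :=
  ∀ K ∈ 𝓛, ∀ X ≤ K, NormIn K X → ⁅X, X⁆ = X →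
    ∀ T C : Subgroup G, AlmostSimpleSec X T C →
      AltSec T C ∨ (T = X ∧ (StdSec X C ∨ RootSec d X C ∨ RatioSec d X C ∨
        Nat.card X ≤ d * Nat.card C ∨ (¬ LinearGrp G ∧ LinSec d X C)))

end H49KE
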