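import Pool.Agent.H49.KD.Defs

/-!
Definitions for the complete criterion: groups which are finitary over a finite field, linear
groups, classical sections, sections with small character ratios, and the hypothesis on the tops
of a local system.
-/

namespace H49KE

open H49KA H49KB

universe u v w

/-- `G` is finitary linear over a finite field: it has a faithful representation over a finite
field in which every element differs from the identity by a map of finite rank -/
def FinFin (G : Type u) [Group G] : Prop :=
  ∃ (k : Type u) (_ : Field k) (_ : Finite k) (V : Type u) (_ : AddCommGroup V)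
    (_ : Module k V) (ρ : G →* Module.End k V), Function.Injective ρ ∧
      ∀ g : G, FiniteDimensional k (LinearMap.range (ρ g - 1))

/-- `G` is a linear group: it has a faithful representation of finite degree over a field -/
def LinearGrp (G : Type u) [Group G] : Prop :=
  ∃ (k : Type u) (_ : Field k) (V : Type u) (_ : AddCommGroup V) (_ : Module k V)
    (_ : FiniteDimensional k V) (ρ : G →* Module.End k V), Function.Injective ρ

/-- the classical groups, orthogonal groups in dimension at least seven only -/
def StdClassical {k : Type v} [Field k] {V : Type w} [AddCommGroup V] [Module k V]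
    (Γ : Subgroup (V ≃ₗ[k] V)) : Prop :=
  IsSL Γ ∨ IsSp Γ ∨ IsSU Γ ∨ (IsOm Γ ∧ 7 ≤ Module.finrank k V)

variable {G : Type u} [Group G]

/-- `T / C` is isomorphic to the quotient of a standard classical group over a finite field by
its subgroup of scalars -/
def StdSec (T C : Subgroup G) : Prop :=
  ∃ (k : Type) (_ : Field k) (_ : Finite k) (V : Type) (_ : AddCommGroup V) (_ : Module k V)
    (_ : FiniteDimensional k V) (Γ : Subgroup (V ≃ₗ[k] V)) (p : T →* PGrp k V),
    StdClassical Γ ∧ (∀ t : T, p t = 1 ↔ (t : G) ∈ C) ∧
      p.range = Γ.map (QuotientGroup.mk' (Scal k V))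

/-- for some number `q` the order of `X / C` is at most `q ^ d`, and in every complex
representation of `X / C` without nonzero fixed vectors the ratio of the character values at
nontrivial elements to the degree is at most `d / √q` -/
def RatioSec (d : ℕ) (X C : Subgroup G) : Prop :=
  ∃ q : ℕ, Nat.card X ≤ q ^ d * Nat.card C ∧
    ∀ (n : ℕ) (ρ : X →* Matrix (Fin n) (Fin n) ℂ), (∀ x : X, (x : G) ∈ C → ρ x = 1) →
      (∀ v : Fin n → ℂ, (∀ x, (ρ x).mulVec v = v) → v = 0) →
      ∀ x : X, (x : G) ∉ C → Real.sqrt q * ‖(ρ x).trace‖ ≤ d * n

/-- every almost simple quotient `X / C` of a perfect normal subgroup `X` of a member has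
alternating socle, or is simple and: classical over a finite field, or with small character
ratios, or (for groups which are not linear) projectively linear of bounded degree -/
def AllTops (d : ℕ) (𝓛 : Set (Subgroup G)) : Prop :=
  ∀ K ∈ 𝓛, ∀ X ≤ K, NormIn K X → ⁅X, X⁆ = X →
    ∀ T C : Subgroup G, AlmostSimpleSec X T C →
      AltSec T C ∨ (T = X ∧ (StdSec X C ∨ RatioSec d X C ∨ (¬ LinearGrp G ∧ LinSec d X C)))

end H49KE
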