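import Pool.Agent.H49.KE.Defs

namespace H49KE

open H49KA H49KB H49KC

universe u v w

variable {K : Type u} [Group K]

private theorem mem_cj_iff {g x : K} {M : Subgroup K} : x ∈ cj g M ↔ g⁻¹ * x * g ∈ M := by
  constructor
  · rintro ⟨y, hy, rfl⟩
    have : g⁻¹ * ((MulAut.conj g).toMonoidHom y) * g = y := by
      simp [MulAut.conj_apply, mul_assoc]
    rw [this]
    exact hy
  · intro h
    exact ⟨g⁻¹ * x * g, h, by simp [MulAut.conj_apply, mul_assoc]⟩

private theorem le_cj_iff {g : K} {N M : Subgroup K} (hN : N.Normal) : N ≤ cj g M ↔ N ≤ M := by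
  constructor
  · intro h x hx
    have h1 := mem_cj_iff.1 (h (hN.conj_mem x hx g))
    have : g⁻¹ * (g * x * g⁻¹) * g = x := by group
    rwa [this] at h1
  · intro h x hx
    rw [mem_cj_iff]
    have h1 := hN.conj_mem x hx g⁻¹
    rw [inv_inv] at h1
    exact h h1

theorem pigeon (s : ℕ) (f : Fin s → K) (U : Subgroup K)
    (hconf : ∀ g : K, ∃ i, g * f i * g⁻¹ ∈ U) (h : Fin (s + 1) → K) :
    ∃ (i : Fin s) (j j' : Fin (s + 1)), j ≠ j' ∧
      h j * f i * (h j)⁻¹ * (h j' * f i * (h j')⁻¹)⁻¹ ∈ U := by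
  choose F hF using fun j => hconf (h j)
  obtain ⟨j, j', hne, he⟩ := Fintype.exists_ne_map_eq_of_card_lt F (by simp)
  refine ⟨F j, j, j', hne, U.mul_mem (hF j) (U.inv_mem ?_)⟩
  rw [he]
  exact hF j'

theorem cdata_conj {Z : Subgroup K → Prop} {s b c q : ℕ} {f : Fin s → K} {Y X U : Subgroup K}
    (hd : CData Z s b c q f Y X U) (g : K) : CData Z s b c q f Y X (cj g U) where
  finK := hd.finK
  hs := hd.hs
  hfY := hd.hfY
  hf1 := hd.hf1
  hYX := hd.hYX
  hXn := hd.hXn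
  hX := hd.hX
  tY := hd.tY
  d1 := hd.d1
  nab := hd.nab
  big := hd.big
  hXU := fun h => hd.hXU ((le_cj_iff hd.hXn).1 h)
  maxU := by
    intro U' hU' hne
    have h1 : U ≤ cj g⁻¹ U' := by
      intro x hx
      rw [mem_cj_iff]
      refine hU' (mem_cj_iff.2 ?_)
      have : g⁻¹ * (g⁻¹⁻¹ * x * g⁻¹) * g = x := by group
      rwa [this]
    have h2 : cj g⁻¹ U' ≠ U := by
      intro h
      apply hne
      ext x
      rw [mem_cj_iff, ← h, mem_cj_iff]
      have : g⁻¹⁻¹ * (g⁻¹ * x * g) * g⁻¹ = x := by group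
      rw [this]
    exact (le_cj_iff hd.hXn).1 (hd.maxU _ h1 h2)
  conf := by
    intro g'
    obtain ⟨i, hi⟩ := hd.conf (g⁻¹ * g')
    refine ⟨i, mem_cj_iff.2 ?_⟩
    have : g⁻¹ * (g' * f i * g'⁻¹) * g = g⁻¹ * g' * f i * (g⁻¹ * g')⁻¹ := by group
    rwa [this]
  rk := hd.rk
  tops := hd.tops

theorem chf_conj {X U N N₀ : Subgroup K} (hXn : X.Normal) (hN : Chf X U N N₀) (g : K) :
    Chf X (cj g U) N N₀ where
  nN := hN.nN
  nN₀ := hN.nN₀
  le := hN.le
  NX := hN.NX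
  NU := fun h => hN.NU ((le_cj_iff hN.nN).1 h)
  N₀U := (le_cj_iff hN.nN₀).2 hN.N₀U
  min := hN.min
  comm := hN.comm
  XUN := by
    have h1 : X ≤ cj g (U ⊔ N) := (le_cj_iff hXn).2 hN.XUN
    refine h1.trans ?_
    unfold cj
    rw [Subgroup.map_sup]
    refine sup_le_sup le_rfl ?_
    rintro x ⟨y, hy, rfl⟩
    exact hN.nN.conj_mem y hy g

theorem nab_of_chf {Z : Subgroup K → Prop} {s b c q : ℕ} {f : Fin s → K} {Y X U : Subgroup K}
    (hd : CData Z s b c q f Y X U) {N N₀ : Subgroup K} (hN : Chf X U N N₀)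
    (hperf : ⁅N, N⁆ = N) : NAb N N₀ where
  finK := hd.finK
  nN := hN.nN
  nN₀ := hN.nN₀
  le := hN.le
  ne := fun h => hN.NU (h ▸ hN.N₀U)
  min := hN.min
  perf := hperf

end H49KE
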