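import Pool.Agent.H49.KE.Defs
import Pool.Agent.H49.KC.GR
import Pool.Agent.H49.KE.PI

namespace H49KE

open H49KA H49KB H49KC

universe u v w

variable {K : Type u} [Group K]

private theorem c1_norm {X U N N₀ : Subgroup K} (hN : Chf X U N N₀) (hab : ⁅N, N⁆ ≤ N₀) :
    ∀ x ∈ X, ∀ q, q ∈ U → q ∈ N → x * q * x⁻¹ ∈ U := by
  have := hN.nN
  intro x hx q hqU hqN
  have h1 : x ∈ ((U ⊔ N : Subgroup K) : Set K) := hN.XUN hx
  rw [Subgroup.mul_normal] at h1
  obtain ⟨u, hu, n, hn, rfl⟩ := h1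
  have h2 : n * q * n⁻¹ * q⁻¹ ∈ U := hN.N₀U (hab (Subgroup.commutator_mem_commutator hn hqN))
  have h3 : n * q * n⁻¹ ∈ U := by
    have := U.mul_mem h2 hqU
    simpa using this
  have h4 := U.mul_mem (U.mul_mem hu h3) (U.inv_mem hu)
  have e : u * n * q * (u * n)⁻¹ = u * (n * q * n⁻¹) * u⁻¹ := by group
  change u * n * q * (u * n)⁻¹ ∈ U
  rw [e]
  exact h4

/-- the elements of `X` centralising `N` modulo `U ⊓ N` -/
private def c1_CW (X U N N₀ : Subgroup K) (hN : Chf X U N N₀) (hab : ⁅N, N⁆ ≤ N₀) :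
    Subgroup K where
  carrier := {x | x ∈ X ∧ ∀ n ∈ N, x * n * x⁻¹ * n⁻¹ ∈ U}
  mul_mem' := by
    rintro x y ⟨hx1, hx2⟩ ⟨hy1, hy2⟩
    refine ⟨X.mul_mem hx1 hy1, fun n hn => ?_⟩
    have h := U.mul_mem (hx2 _ (hN.nN.conj_mem n hn y)) (hy2 n hn)
    have e : x * (y * n * y⁻¹) * x⁻¹ * (y * n * y⁻¹)⁻¹ * (y * n * y⁻¹ * n⁻¹) =
      x * y * n * (x * y)⁻¹ * n⁻¹ := by group
    rwa [e] at h
  one_mem' := ⟨X.one_mem, fun n hn => by simp⟩
  inv_mem' := by
    rintro x ⟨hx1, hx2⟩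
    refine ⟨X.inv_mem hx1, fun n hn => ?_⟩
    have h := U.inv_mem (hx2 _ (hN.nN.conj_mem n hn x⁻¹))
    have e : (x * (x⁻¹ * n * x⁻¹⁻¹) * x⁻¹ * (x⁻¹ * n * x⁻¹⁻¹)⁻¹)⁻¹ =
      x⁻¹ * n * x⁻¹⁻¹ * n⁻¹ := by group
    rwa [e] at h

private theorem c1_CW_norm (X U N N₀ : Subgroup K) (hN : Chf X U N N₀) (hab : ⁅N, N⁆ ≤ N₀) :
    NormIn X (c1_CW X U N N₀ hN hab) := by
  rintro x hx t ⟨ht1, ht2⟩
  refine ⟨X.mul_mem (X.mul_mem hx ht1) (X.inv_mem hx), fun n hn => ?_⟩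
  have hn' := hN.nN.conj_mem n hn x⁻¹
  have h1 := ht2 _ hn'
  have h2 : t * (x⁻¹ * n * x⁻¹⁻¹) * t⁻¹ * (x⁻¹ * n * x⁻¹⁻¹)⁻¹ ∈ N :=
    N.mul_mem (hN.nN.conj_mem _ hn' t) (N.inv_mem hn')
  have h3 := c1_norm hN hab x hx _ h1 h2
  have e : x * (t * (x⁻¹ * n * x⁻¹⁻¹) * t⁻¹ * (x⁻¹ * n * x⁻¹⁻¹)⁻¹) * x⁻¹ =
      x * t * x⁻¹ * n * (x * t * x⁻¹)⁻¹ * n⁻¹ := by group
  rwa [e] at h3

private theorem mem_cj {g a : K} {U : Subgroup K} (h : a ∈ cj g U) : g⁻¹ * a * g ∈ U := by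
  obtain ⟨b, hb, rfl⟩ := h
  have e : g⁻¹ * ((MulAut.conj g).toMonoidHom b) * g = b := by
    change g⁻¹ * (g * b * g⁻¹) * g = b
    group
  rw [e]
  exact hb

private theorem c1_reduce {Z : Subgroup K → Prop} {s b c q : ℕ} {f : Fin s → K} {Y X U : Subgroup K}
    (hd : CData Z s b c q f Y X U) {N N₀ : Subgroup K} (hN : Chf X U N N₀) (hab : ⁅N, N⁆ ≤ N₀) :
    ∃ g : K, ∀ y ∈ Y, (∀ n ∈ N, y * n * y⁻¹ * n⁻¹ ∈ cj g U) → y = 1 := by
  by_contra hcon
  push Not at hcon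
  have h1 : ∀ g : K, ∀ y ∈ Y, ∀ n ∈ N, y * n * y⁻¹ * n⁻¹ ∈ cj g U := by
    intro g y hy n hn
    have hN' := chf_conj hd.hXn hN g
    have hd' := cdata_conj hd g
    obtain ⟨y', hy', h2, h3⟩ := hcon g
    have h4 := hd'.tY (c1_CW X (cj g U) N N₀ hN' hab) (c1_CW_norm X (cj g U) N N₀ hN' hab)
      ⟨y', hy', h3, hd.hYX hy', h2⟩
    exact (h4 hy).2 n hn
  have hcore : N ⊓ U.normalCore ≤ N₀ := by
    have := hN.nN
    rcases hN.min (N ⊓ U.normalCore) inferInstance inf_le_left with h | h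
    · exfalso
      apply hN.NU
      rw [← h]
      exact inf_le_right.trans U.normalCore_le
    · exact h
  have h2 : ∀ y ∈ Y, ∀ n ∈ N, y * n * y⁻¹ * n⁻¹ ∈ N₀ := by
    intro y hy n hn
    apply hcore
    refine ⟨N.mul_mem (hN.nN.conj_mem n hn y) (N.inv_mem hn), fun g => ?_⟩
    have h3 := mem_cj (h1 g⁻¹ y hy n hn)
    simpa using h3
  let Z : Subgroup K :=
    { carrier := {x | ∀ n ∈ N, x * n * x⁻¹ * n⁻¹ ∈ N₀}
      mul_mem' := by
        intro x y hx hy n hn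
        have h := N₀.mul_mem (hx _ (hN.nN.conj_mem n hn y)) (hy n hn)
        have e : x * (y * n * y⁻¹) * x⁻¹ * (y * n * y⁻¹)⁻¹ * (y * n * y⁻¹ * n⁻¹) =
          x * y * n * (x * y)⁻¹ * n⁻¹ := by group
        rwa [e] at h
      one_mem' := by
        intro n hn
        simp
      inv_mem' := by
        intro x hx n hn
        have h := N₀.inv_mem (hx _ (hN.nN.conj_mem n hn x⁻¹))
        have e : (x * (x⁻¹ * n * x⁻¹⁻¹) * x⁻¹ * (x⁻¹ * n * x⁻¹⁻¹)⁻¹)⁻¹ =
          x⁻¹ * n * x⁻¹⁻¹ * n⁻¹ := by group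
        rwa [e] at h }
  have hZ : Z.Normal := by
    constructor
    intro t ht x n hn
    have hn' := hN.nN.conj_mem n hn x⁻¹
    have h3 := hN.nN₀.conj_mem _ (ht _ hn') x
    have e : x * (t * (x⁻¹ * n * x⁻¹⁻¹) * t⁻¹ * (x⁻¹ * n * x⁻¹⁻¹)⁻¹) * x⁻¹ =
      x * t * x⁻¹ * n * (x * t * x⁻¹)⁻¹ * n⁻¹ := by group
    rwa [e] at h3
  obtain ⟨a, ha, a', ha', hne⟩ := hd.nab
  have ha1 : a ≠ 1 := by
    rintro rfl
    exact hne (by simp)
  have hXZ : X ≤ Z := hd.d1 Z hZ ⟨a, ha, ha1, fun n hn => h2 a ha n hn⟩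
  have hNN : N ≤ N₀ := by
    rw [← hN.comm, Subgroup.commutator_le]
    intro n hn x hx
    have h3 := N₀.inv_mem (hXZ hx n hn)
    have e : (x * n * x⁻¹ * n⁻¹)⁻¹ = n * x * n⁻¹ * x⁻¹ := by group
    rw [e] at h3
    exact h3
  exact hN.NU (hNN.trans hN.N₀U)

private theorem c1_prime (hK : Finite K) {N N₀ : Subgroup K} (nN : N.Normal) (nN₀ : N₀.Normal)
    (hne : ¬ N ≤ N₀)
    (hmin : ∀ M : Subgroup K, M.Normal → M ≤ N → M = N ∨ M ≤ N₀) (hab : ⁅N, N⁆ ≤ N₀) :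
    ∃ p : ℕ, p.Prime ∧ ∀ n ∈ N, n ^ p ∈ N₀ := by
  obtain ⟨x, hxN, hx0⟩ := SetLike.not_le_iff_exists.1 hne
  set r := orderOf (x : K ⧸ N₀) with hr
  have hr1 : r ≠ 1 := by
    rw [hr, Ne, orderOf_eq_one_iff, QuotientGroup.eq_one_iff]
    exact hx0
  have hr0 : 0 < r := orderOf_pos _
  set p := r.minFac with hp
  have hpp : p.Prime := Nat.minFac_prime hr1
  have hpr : p ∣ r := Nat.minFac_dvd r
  have hy1 : (x ^ (r / p)) ^ p ∈ N₀ := by
    rw [← pow_mul, Nat.div_mul_cancel hpr, ← QuotientGroup.eq_one_iff, QuotientGroup.mk_pow, hr]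
    exact pow_orderOf_eq_one _
  have hy2 : x ^ (r / p) ∉ N₀ := by
    rw [← QuotientGroup.eq_one_iff, QuotientGroup.mk_pow]
    intro h
    have h1 := orderOf_dvd_of_pow_eq_one h
    rw [← hr] at h1
    have h2 : r / p < r := Nat.div_lt_self hr0 hpp.one_lt
    have h3 : 0 < r / p := Nat.div_pos (Nat.le_of_dvd hr0 hpr) hpp.pos
    exact absurd (Nat.le_of_dvd h3 h1) (by omega)
  have hcomm : ∀ a ∈ N, ∀ b ∈ N, Commute (a : K ⧸ N₀) (b : K ⧸ N₀) := by
    intro a ha b hb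
    have h1 : ((a * b * a⁻¹ * b⁻¹ : K) : K ⧸ N₀) = 1 := by
      rw [QuotientGroup.eq_one_iff]
      exact hab (Subgroup.commutator_mem_commutator ha hb)
    rw [QuotientGroup.mk_mul, QuotientGroup.mk_mul, QuotientGroup.mk_mul, QuotientGroup.mk_inv,
      QuotientGroup.mk_inv, mul_inv_eq_one, mul_inv_eq_iff_eq_mul] at h1
    exact h1
  let M : Subgroup K :=
    { carrier := {n | n ∈ N ∧ n ^ p ∈ N₀}
      mul_mem' := by
        rintro a b ⟨ha1, ha2⟩ ⟨hb1, hb2⟩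
        refine ⟨N.mul_mem ha1 hb1, ?_⟩
        rw [← QuotientGroup.eq_one_iff, QuotientGroup.mk_pow, QuotientGroup.mk_mul,
          (hcomm a ha1 b hb1).mul_pow, ← QuotientGroup.mk_pow, ← QuotientGroup.mk_pow,
          (QuotientGroup.eq_one_iff _).2 ha2, (QuotientGroup.eq_one_iff _).2 hb2, one_mul]
      one_mem' := ⟨N.one_mem, by simp⟩
      inv_mem' := by
        rintro a ⟨ha1, ha2⟩
        refine ⟨N.inv_mem ha1, ?_⟩
        rw [inv_pow]
        exact N₀.inv_mem ha2 }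
  have hM : M.Normal := by
    constructor
    rintro n ⟨hn1, hn2⟩ g
    refine ⟨nN.conj_mem n hn1 g, ?_⟩
    rw [conj_pow]
    exact nN₀.conj_mem _ hn2 g
  rcases hmin M hM (fun n hn => hn.1) with h | h
  · refine ⟨p, hpp, fun n hn => ?_⟩
    rw [← h] at hn
    exact hn.2
  · exact absurd (h ⟨N.pow_mem hxN _, hy1⟩) hy2

private theorem c1_basis' {A : Type u} [AddCommGroup A] [Finite A] {p : ℕ} [Fact p.Prime]
    [Module (ZMod p) A] : ∃ m : ℕ, Nonempty (A ≃+ (Fin m → ZMod p)) := by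
  have hf : Module.Finite (ZMod p) A := Module.Finite.of_finite
  exact ⟨_, ⟨(Module.finBasis (ZMod p) A).equivFun.toAddEquiv⟩⟩

private theorem c1_basis {A : Type u} [AddCommGroup A] [Finite A] {p : ℕ} (hp : p.Prime)
    (htor : ∀ x : A, p • x = 0) : ∃ m : ℕ, Nonempty (A ≃+ (Fin m → ZMod p)) :=
  @c1_basis' A _ _ p ⟨hp⟩ (AddCommGroup.zmodModule htor)

private theorem c1_theta [Finite K] {N Q : Subgroup K}
    (hab : ∀ a ∈ N, ∀ b ∈ N, a * b * a⁻¹ * b⁻¹ ∈ Q) {p : ℕ} (hp : p.Prime)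
    (hpow : ∀ n ∈ N, n ^ p ∈ Q) :
    ∃ (m : ℕ) (θ : N → (Fin m → ZMod p)), Function.Surjective θ ∧
      (∀ a b : N, θ (a * b) = θ a + θ b) ∧ (∀ n : N, θ n = 0 ↔ (n : K) ∈ Q) := by
  have : Fact p.Prime := ⟨hp⟩
  have hnor : (Q.subgroupOf N).Normal := by
    constructor
    intro n hn g
    rw [Subgroup.mem_subgroupOf] at hn ⊢
    have h1 := hab g g.2 n n.2
    have h2 := Q.mul_mem h1 hn
    simpa using h2
  let : CommGroup (N ⧸ Q.subgroupOf N) :=
    { (inferInstance : Group (N ⧸ Q.subgroupOf N)) with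
      mul_comm := by
        intro a b
        obtain ⟨a, rfl⟩ := QuotientGroup.mk_surjective a
        obtain ⟨b, rfl⟩ := QuotientGroup.mk_surjective b
        have h1 : ((a * b * a⁻¹ * b⁻¹ : N) : N ⧸ Q.subgroupOf N) = 1 := by
          rw [QuotientGroup.eq_one_iff, Subgroup.mem_subgroupOf]
          exact hab a a.2 b b.2
        rw [QuotientGroup.mk_mul, QuotientGroup.mk_mul, QuotientGroup.mk_mul,
          QuotientGroup.mk_inv, QuotientGroup.mk_inv, mul_inv_eq_one,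
          mul_inv_eq_iff_eq_mul] at h1
        exact h1 }
  have htor : ∀ x : Additive (N ⧸ Q.subgroupOf N), p • x = 0 := by
    intro x
    obtain ⟨n, hn⟩ := QuotientGroup.mk_surjective (Additive.toMul x)
    have h1 : (Additive.toMul x) ^ p = 1 := by
      rw [← hn, ← QuotientGroup.mk_pow, QuotientGroup.eq_one_iff, Subgroup.mem_subgroupOf]
      exact hpow n n.2
    exact congrArg Additive.ofMul h1
  obtain ⟨m, ⟨e⟩⟩ := c1_basis hp htor
  refine ⟨m, fun n => e (Additive.ofMul (n : N ⧸ Q.subgroupOf N)), ?_, ?_, ?_⟩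
  · intro v
    obtain ⟨x, rfl⟩ := e.surjective v
    obtain ⟨n, hn⟩ := QuotientGroup.mk_surjective (Additive.toMul x)
    exact ⟨n, congrArg e (congrArg Additive.ofMul hn)⟩
  · intro a b
    rw [← map_add]
    rfl
  · intro n
    rw [EmbeddingLike.map_eq_zero_iff, ofMul_eq_zero, QuotientGroup.eq_one_iff,
      Subgroup.mem_subgroupOf]

private theorem c1_rho {N Q X : Subgroup K} (nN : N.Normal)
    (hXQ : ∀ x ∈ X, ∀ q, q ∈ Q → x * q * x⁻¹ ∈ Q) {p m : ℕ}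
    {θ : N → (Fin m → ZMod p)} (hs : Function.Surjective θ)
    (hmul : ∀ a b : N, θ (a * b) = θ a + θ b) (hker : ∀ n : N, θ n = 0 ↔ (n : K) ∈ Q) :
    ∃ ρ : X →* ((Fin m → ZMod p) ≃ₗ[ZMod p] (Fin m → ZMod p)), ∀ (x : X) (n : N),
      ρ x (θ n) = θ ⟨(x : K) * n * (x : K)⁻¹, nN.conj_mem n n.2 x⟩ := by
  have h1 : θ 1 = 0 := by
    have := hmul 1 1
    simpa using this
  have hinv : ∀ a, θ a⁻¹ = - θ a := fun a => by
    have := hmul a⁻¹ a
    rw [inv_mul_cancel, h1] at this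
    exact eq_neg_of_add_eq_zero_left this.symm
  let c : X → N → N := fun x n => ⟨(x : K) * n * (x : K)⁻¹, nN.conj_mem n n.2 x⟩
  have hcm : ∀ x n n', c x (n * n') = c x n * c x n' := by
    intro x n n'
    apply Subtype.ext
    change (x : K) * (n * n') * (x : K)⁻¹ = (x : K) * n * (x : K)⁻¹ * ((x : K) * n' * (x : K)⁻¹)
    group
  have hci : ∀ x n, c x n⁻¹ = (c x n)⁻¹ := by
    intro x n
    apply Subtype.ext
    change (x : K) * (n : K)⁻¹ * (x : K)⁻¹ = ((x : K) * n * (x : K)⁻¹)⁻¹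
    group
  have hc1 : ∀ n, c 1 n = n := by
    intro n
    apply Subtype.ext
    change (1 : K) * n * (1 : K)⁻¹ = n
    group
  have hcc : ∀ x y n, c (x * y) n = c x (c y n) := by
    intro x y n
    apply Subtype.ext
    change (x : K) * y * n * ((x : K) * y)⁻¹ = (x : K) * ((y : K) * n * (y : K)⁻¹) * (x : K)⁻¹
    group
  have hwd : ∀ (x : X) (n n' : N), θ n = θ n' → θ (c x n) = θ (c x n') := by
    intro x n n' h
    have h2 : θ (n * n'⁻¹) = 0 := by rw [hmul, hinv, h, add_neg_cancel]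
    have h3 := (hker _).1 h2
    have h4 := hXQ x x.2 _ h3
    have h5 : θ (c x (n * n'⁻¹)) = 0 := (hker _).2 h4
    rw [hcm, hmul, hci, hinv] at h5
    exact add_neg_eq_zero.1 h5
  obtain ⟨g, hg⟩ := hs.hasRightInverse
  let T : X → ((Fin m → ZMod p) →+ (Fin m → ZMod p)) := fun x =>
    { toFun := fun v => θ (c x (g v))
      map_zero' := by
        rw [hwd x (g 0) 1 (by rw [hg, h1])]
        have : c x 1 = 1 := by
          apply Subtype.ext
          change (x : K) * 1 * (x : K)⁻¹ = 1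
          group
        rw [this, h1]
      map_add' := by
        intro v w
        rw [hwd x (g (v + w)) (g v * g w) (by rw [hmul, hg, hg, hg]), hcm, hmul] }
  have hT : ∀ x n, T x (θ n) = θ (c x n) := fun x n => hwd x _ _ (hg _)
  let L : X → ((Fin m → ZMod p) →ₗ[ZMod p] (Fin m → ZMod p)) := fun x =>
    (T x).toZModLinearMap p
  have hL : ∀ x n, L x (θ n) = θ (c x n) := hT
  have hL1 : L 1 = LinearMap.id := by
    apply LinearMap.ext
    intro v
    obtain ⟨n, rfl⟩ := hs v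
    rw [hL, hc1]
    rfl
  have hLm : ∀ x y, L x ∘ₗ L y = L (x * y) := by
    intro x y
    apply LinearMap.ext
    intro v
    obtain ⟨n, rfl⟩ := hs v
    rw [LinearMap.comp_apply, hL, hL, hL, hcc]
  let ρ : X →* ((Fin m → ZMod p) ≃ₗ[ZMod p] (Fin m → ZMod p)) :=
    { toFun := fun x => LinearEquiv.ofLinear (L x) (L x⁻¹)
        (by rw [hLm, mul_inv_cancel, hL1]) (by rw [hLm, inv_mul_cancel, hL1])
      map_one' := by
        apply LinearEquiv.ext
        intro v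
        change L 1 v = v
        rw [hL1]
        rfl
      map_mul' := by
        intro x y
        apply LinearEquiv.ext
        intro v
        change L (x * y) v = L x (L y v)
        rw [← hLm]
        rfl }
  exact ⟨ρ, fun x n => hL x n⟩

private theorem c1_small {k : Type} [Field k] {V : Type} [AddCommGroup V] [Module k V] [Finite V]
    (g : V ≃ₗ[k] V) (c : ℕ) (hc : Nat.card (Set.range fun v => g v - v) ≤ c) :
    SmallRank c g 1 := by
  classical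
  let e := Finite.equivFin (Set.range fun v => g v - v)
  refine ⟨fun i => if h : (i : ℕ) < Nat.card (Set.range fun v => g v - v) then
    (e.symm ⟨i, h⟩ : V) else 0, fun v => ?_⟩
  let r : Set.range fun v => g v - v := ⟨g v - v, v, rfl⟩
  let j : Fin c := ⟨(e r : ℕ), lt_of_lt_of_le (e r).2 hc⟩
  refine ⟨Pi.single j 1, ?_⟩
  rw [Finset.sum_eq_single j]
  · have hj : (j : ℕ) < Nat.card (Set.range fun v => g v - v) := (e r).2
    rw [Pi.single_eq_same, one_smul, one_smul]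
    beta_reduce
    rw [dif_pos hj]
    have : (⟨(j : ℕ), hj⟩ : Fin (Nat.card (Set.range fun v => g v - v))) = e r := rfl
    rw [this, Equiv.symm_apply_apply]
  · intro i _ hij
    rw [Pi.single_eq_of_ne hij, zero_smul]
  · intro h
    exact absurd (Finset.mem_univ j) h

/-- the map `n ↦ T (θ n) - θ n` -/
private def c1_delta {N : Type u} [Group N] {V : Type} [AddCommGroup V] (θ : N → V)
    (hmul : ∀ a b : N, θ (a * b) = θ a + θ b) (T : V →+ V) : N →* Multiplicative V :=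
  MonoidHom.mk' (fun n => Multiplicative.ofAdd (T (θ n) - θ n)) (by
    intro a b
    rw [← ofAdd_add, hmul, map_add]
    congr 1
    abel)

private theorem c1_index {N : Type u} [Group N] {V : Type} [AddCommGroup V] (θ : N → V)
    (hs : Function.Surjective θ) (hmul : ∀ a b : N, θ (a * b) = θ a + θ b) (T : V →+ V) :
    (c1_delta θ hmul T).ker.index = Nat.card (Set.range fun v => T v - v) := by
  rw [Subgroup.index_ker]
  refine Nat.card_congr (Equiv.subtypeEquiv Multiplicative.toAdd fun v => ?_)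
  constructor
  · rintro ⟨n, rfl⟩
    exact ⟨θ n, rfl⟩
  · rintro ⟨w, hw⟩
    obtain ⟨n, rfl⟩ := hs w
    exact ⟨n, hw⟩

theorem case1 {Z : Subgroup K → Prop} {s b c q : ℕ} {f : Fin s → K} {Y X U : Subgroup K}
    (hd : CData Z s b c q f Y X U) (hb : (s ^ 2) ^ (s ^ 2) ≤ b) (hc : s ^ 2 ≤ c)
    (hq : s ^ 2 ≤ q) {N N₀ : Subgroup K} (hN : Chf X U N N₀) : ⁅N, N⁆ = N := by
  by_contra hne
  have nN := hN.nN
  have finK := hd.finK
  have hab : ⁅N, N⁆ ≤ N₀ := by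
    rcases hN.min ⁅N, N⁆ inferInstance (Subgroup.commutator_le_right N N) with h | h
    · exact absurd h hne
    · exact h
  have hNN₀ : ¬ N ≤ N₀ := fun h => hN.NU (h.trans hN.N₀U)
  obtain ⟨p, hp, hpow⟩ := c1_prime hd.finK hN.nN hN.nN₀ hNN₀ hN.min hab
  obtain ⟨g, hg⟩ := c1_reduce hd hN hab
  have hd' := cdata_conj hd g
  have hN' := chf_conj hd.hXn hN g
  set U' := cj g U with hU'
  have hcomm : ∀ a ∈ N, ∀ b ∈ N, a * b * a⁻¹ * b⁻¹ ∈ U' := fun a ha b hb =>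
    hN'.N₀U (hab (Subgroup.commutator_mem_commutator ha hb))
  obtain ⟨m, θ, hs, hmul, hker⟩ := c1_theta (N := N) (Q := U' ⊓ N)
    (fun a ha b hb => ⟨hcomm a ha b hb,
      N.mul_mem (nN.conj_mem b hb a) (N.inv_mem hb)⟩) hp
    (fun n hn => ⟨hN'.N₀U (hpow n hn), N.pow_mem hn p⟩)
  obtain ⟨ρ, hρ⟩ := c1_rho (X := X) (Q := U' ⊓ N) nN (fun x hx q hq =>
    ⟨c1_norm hN' hab x hx q hq.1 hq.2, nN.conj_mem q hq.2 x⟩) hs hmul hker
  have : Fact p.Prime := ⟨hp⟩
  have h1 : θ 1 = 0 := by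
    have := hmul 1 1
    simpa using this
  have hinv : ∀ a, θ a⁻¹ = - θ a := fun a => by
    have := hmul a⁻¹ a
    rw [inv_mul_cancel, h1] at this
    exact eq_neg_of_add_eq_zero_left this.symm
  -- fixed vectors
  have hfix : ∀ (x : X) (n : N), ρ x (θ n) = θ n ↔ (x : K) * n * (x : K)⁻¹ * (n : K)⁻¹ ∈ U' := by
    intro x n
    rw [hρ, ← sub_eq_zero, sub_eq_add_neg, ← hinv, ← hmul, hker]
    exact ⟨fun h => h.1, fun h => ⟨h, N.mul_mem (nN.conj_mem n n.2 x) (N.inv_mem n.2)⟩⟩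
  let x : Fin s → X := fun i => ⟨f i, hd.hYX (hd.hfY i)⟩
  let δ : Fin s → (N →* Multiplicative (Fin m → ZMod p)) := fun i =>
    c1_delta θ hmul (ρ (x i)).toLinearMap.toAddMonoidHom
  have hidx : ∀ i, (δ i).ker.index = Nat.card (Set.range fun v => ρ (x i) v - v) := fun i =>
    c1_index θ hs hmul _
  have hmem : ∀ i n, n ∈ (δ i).ker ↔ ρ (x i) (θ n) = θ n := by
    intro i n
    rw [MonoidHom.mem_ker, ← sub_eq_zero (a := ρ (x i) (θ n))]
    exact Iff.rfl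
  obtain ⟨i, hi⟩ : ∃ i, (δ i).ker.index ≤ s ^ 2 := by
    by_contra hcon
    push Not at hcon
    obtain ⟨h, hh⟩ := greedy s (fun i => (δ i).ker) hcon
    obtain ⟨i, j, j', hjj, hU⟩ := pigeon s f U' hd'.conf (fun j => (h j : K))
    refine hh i j j' hjj ((hmem i _).2 ((hfix _ _).2 ?_))
    change f i * ((h j : K)⁻¹ * h j') * (f i)⁻¹ * ((h j : K)⁻¹ * h j')⁻¹ ∈ U'
    set z := (h j : K) * f i * (h j : K)⁻¹ * ((h j' : K) * f i * (h j' : K)⁻¹)⁻¹ with hz
    have hzN : z ∈ N := by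
      have e : z = (h j : K) * (f i * ((h j : K)⁻¹ * h j') * (f i)⁻¹) * (h j' : K)⁻¹ := by
        rw [hz]
        group
      rw [e]
      exact N.mul_mem (N.mul_mem (h j).2 (nN.conj_mem _ (N.mul_mem (N.inv_mem (h j).2) (h j').2) _))
        (N.inv_mem (h j').2)
    have h2 := U'.mul_mem (hcomm _ (N.inv_mem (h j).2) _ hzN) hU
    have e : (h j : K)⁻¹ * z * (h j : K)⁻¹⁻¹ * z⁻¹ * z =
      f i * ((h j : K)⁻¹ * h j') * (f i)⁻¹ * ((h j : K)⁻¹ * h j')⁻¹ := by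
      rw [hz]
      group
    rwa [e] at h2
  rw [hidx] at hi
  -- the prime is small
  have hpq : p ≤ q := by
    refine le_trans ?_ hq
    refine le_trans ?_ hi
    obtain ⟨n, hn⟩ : ∃ n : N, ρ (x i) (θ n) ≠ θ n := by
      by_contra hcon
      push Not at hcon
      apply hd.hf1 i
      exact hg (f i) (hd.hfY i) fun n hn => (hfix (x i) ⟨n, hn⟩).1 (hcon ⟨n, hn⟩)
    set w := ρ (x i) (θ n) - θ n with hw
    have hw0 : w ≠ 0 := sub_ne_zero.2 hn
    have hinj : Function.Injective (fun a : ZMod p =>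
        (⟨a • w, ⟨a • θ n, by
          change ρ (x i) (a • θ n) - a • θ n = a • w
          rw [map_smul, ← smul_sub]⟩⟩ : Set.range fun v => ρ (x i) v - v)) := by
      intro a b hab'
      have h2 : a • w = b • w := congrArg Subtype.val hab'
      have h3 : (a - b) • w = 0 := by rw [sub_smul, h2, sub_self]
      rcases smul_eq_zero.1 h3 with h4 | h4
      · exact sub_eq_zero.1 h4
      · exact absurd h4 hw0
    have h2 := Nat.card_le_card_of_injective _ hinj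
    rwa [Nat.card_zmod] at h2
  by_cases hsc : ρ (x i) ∈ Scal (ZMod p) (Fin m → ZMod p)
  · -- scalar case
    obtain ⟨l, hl⟩ := hsc
    have hl1 : l ≠ 1 := by
      rintro rfl
      apply hd.hf1 i
      refine hg (f i) (hd.hfY i) fun n hn => ?_
      exact (hfix (x i) ⟨n, hn⟩).1 (by rw [hl, one_smul])
    have hcard : Nat.card (Fin m → ZMod p) ≤ s ^ 2 := by
      have hsur : (Set.range fun v => ρ (x i) v - v) = Set.univ := by
        rw [Set.eq_univ_iff_forall]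
        intro v
        refine ⟨(l - 1)⁻¹ • v, ?_⟩
        change ρ (x i) ((l - 1)⁻¹ • v) - (l - 1)⁻¹ • v = v
        have h8 : l • ((l - 1)⁻¹ • v) - (l - 1)⁻¹ • v = (l - 1) • ((l - 1)⁻¹ • v) := by
          rw [sub_smul, one_smul]
        rw [hl, h8, smul_smul, mul_inv_cancel₀ (sub_ne_zero.2 hl1), one_smul]
      rw [hsur, Nat.card_univ] at hi
      exact hi
    have hinj : Function.Injective (fun (y : Y) => (fun v => ρ ⟨y, hd.hYX y.2⟩ v :
        (Fin m → ZMod p) → (Fin m → ZMod p))) := by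
      intro y y' hyy
      have h3 : ∀ v, ρ (⟨y, hd.hYX y.2⟩⁻¹ * ⟨y', hd.hYX y'.2⟩) v = v := by
        intro v
        rw [map_mul, map_inv, LinearEquiv.mul_apply]
        have h4 : ρ ⟨y', hd.hYX y'.2⟩ v = ρ ⟨y, hd.hYX y.2⟩ v := (congrFun hyy v).symm
        rw [h4, ← LinearEquiv.mul_apply, inv_mul_cancel]
        rfl
      have h5 := hg ((y : K)⁻¹ * y') (Y.mul_mem (Y.inv_mem y.2) y'.2) fun n hn =>
        (hfix (⟨y, hd.hYX y.2⟩⁻¹ * ⟨y', hd.hYX y'.2⟩) ⟨n, hn⟩).1 (h3 _)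
      exact Subtype.ext (inv_mul_eq_one.1 h5)
    have h6 := Nat.card_le_card_of_injective _ hinj
    rw [Nat.card_fun] at h6
    have hs0 : 0 < s ^ 2 := pow_pos hd.hs 2
    have h7 : Nat.card (Fin m → ZMod p) ^ Nat.card (Fin m → ZMod p) ≤ (s ^ 2) ^ (s ^ 2) :=
      (Nat.pow_le_pow_left hcard _).trans (Nat.pow_le_pow_right hs0 hcard)
    exact absurd hd.big (not_lt.2 ((h6.trans h7).trans hb))
  · refine hd.rk (ZMod p) (by rw [Nat.card_zmod]; exact hpq) (Fin m → ZMod p)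
      ((QuotientGroup.mk' (Scal (ZMod p) (Fin m → ZMod p))).comp ρ) (x i) i rfl ?_
      (ρ (x i)) 1 rfl (c1_small _ _ (hi.trans hc))
    intro h
    exact hsc ((QuotientGroup.eq_one_iff _).1 h)

end H49KE
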