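import Pool.Agent.H49.KE.Defs

namespace H49KE

open H49KA H49KB H49KC
open scoped commutatorElement

universe u v w

variable {K : Type u} [Group K]

theorem chf_exists {Z : Subgroup K → Prop} {s b c q : ℕ} {f : Fin s → K} {Y X U : Subgroup K}
    (hd : CData Z s b c q f Y X U) : ∃ N N₀, Chf X U N N₀ := by
  have := hd.finK
  have hXn := hd.hXn
  have hfin : ({N : Subgroup K | N.Normal ∧ N ≤ X ∧ ¬ N ≤ U} : Set (Subgroup K)).Finite :=
    Set.toFinite _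
  obtain ⟨N, hN, hmin⟩ := hfin.exists_minimal ⟨X, hXn, le_rfl, hd.hXU⟩
  obtain ⟨hNn, hNX, hNU⟩ := hN
  have := hNn
  have hcore : U.normalCore ≤ U := Subgroup.normalCore_le U
  have hXUN : X ≤ U ⊔ N := by
    refine hd.maxU (U ⊔ N) le_sup_left ?_
    intro h
    exact hNU (sup_eq_left.1 h)
  have hM : ∀ M : Subgroup K, M.Normal → M ≤ N → M = N ∨ M ≤ N ⊓ U.normalCore := by
    intro M hMn hMN
    by_cases hMU : M ≤ U
    · have := hMn
      exact Or.inr (le_inf hMN (Subgroup.normal_le_normalCore.2 hMU))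
    · exact Or.inl (le_antisymm hMN (hmin ⟨hMn, hMN.trans hNX, hMU⟩ hMN))
  refine ⟨N, N ⊓ U.normalCore, hNn, inferInstance, inf_le_left, hNX, hNU,
    inf_le_right.trans hcore, hM, ?_, hXUN⟩
  rcases hM ⁅N, X⁆ inferInstance (Subgroup.commutator_le_left N X) with h | h
  · exact h
  · exfalso
    have hc : ∀ n ∈ N, ∀ x ∈ X, n * x * n⁻¹ * x⁻¹ ∈ U := by
      intro n hn x hx
      have h1 : ⁅n, x⁆ ∈ ⁅N, X⁆ := Subgroup.commutator_mem_commutator hn hx
      exact hcore (h h1).2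
    have hdec : ∀ x ∈ X, ∃ v ∈ U, ∃ n ∈ N, v ∈ X ∧ x = v * n := by
      intro x hx
      have h1 : x ∈ ((U ⊔ N : Subgroup K) : Set K) := hXUN hx
      rw [Subgroup.mul_normal] at h1
      obtain ⟨v, hv, n, hn, rfl⟩ := Set.mem_mul.1 h1
      refine ⟨v, hv, n, hn, ?_, rfl⟩
      have h2 := X.mul_mem hx (X.inv_mem (hNX hn))
      rwa [mul_inv_cancel_right] at h2
    apply hd.hXU
    rw [← hd.hX, Subgroup.commutator_le]
    intro x hx y hy
    obtain ⟨v, hv, n, hn, hvX, rfl⟩ := hdec x hx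
    obtain ⟨w, hw, m, hm, hwX, rfl⟩ := hdec y hy
    have h1 : n * (w * m) * n⁻¹ * (w * m)⁻¹ ∈ U := hc n hn _ hy
    have h2 : m * v * m⁻¹ * v⁻¹ ∈ U := hc m hm v hvX
    have e : ⁅v * n, w * m⁆ = v * (n * (w * m) * n⁻¹ * (w * m)⁻¹) * v⁻¹ *
        ((v * w * v⁻¹) * (m * v * m⁻¹ * v⁻¹)⁻¹ * w⁻¹) := by
      rw [commutatorElement_def]
      group
    rw [e]
    exact U.mul_mem (U.mul_mem (U.mul_mem hv h1) (U.inv_mem hv))
      (U.mul_mem (U.mul_mem (U.mul_mem (U.mul_mem hv hw) (U.inv_mem hv)) (U.inv_mem h2))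
        (U.inv_mem hw))

end H49KE
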