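import Pool.Agent.H49.KE.Base

/-!
Further definitions for project KE.
-/

namespace H49KE

open H49KA H49KB H49KC

universe u v w

section rep
variable {S : Type u} [Group S] {E : Type v} [AddCommGroup E] [Module ℂ E]

/-- fixed vectors -/
def Fx (ρ : S →* Module.End ℂ E) (A : Subgroup S) : Submodule ℂ E where
  carrier := {v | ∀ a ∈ A, ρ a v = v}
  add_mem' := by
    intro v w hv hw a ha
    rw [map_add, hv a ha, hw a ha]
  zero_mem' := fun a _ => map_zero _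
  smul_mem' := by
    intro c v hv a ha
    rw [map_smul, hv a ha]

/-- the average of a subgroup -/
noncomputable def av (ρ : S →* Module.End ℂ E) (A : Subgroup S) : Module.End ℂ E :=
  (Nat.card A : ℂ)⁻¹ • ∑ᶠ a : A, ρ (a : S)

/-- irreducible representations -/
def Irr (ρ : S →* Module.End ℂ E) : Prop :=
  Nontrivial E ∧ ∀ W : Submodule ℂ E, (∀ g, ∀ w ∈ W, ρ g w ∈ W) → W = ⊥ ∨ W = ⊤

/-- the representation on an invariant subspace -/
def subRep (ρ : S →* Module.End ℂ E) (W : Submodule ℂ E) (hW : ∀ g, ∀ w ∈ W, ρ g w ∈ W) :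
    S →* Module.End ℂ W where
  toFun g := (ρ g).restrict (hW g)
  map_one' := by
    ext w
    simp [LinearMap.restrict_apply]
  map_mul' g h := by
    ext w
    simp [LinearMap.restrict_apply]

/-- the conjugation action on the endomorphisms -/
def cjr (ρ : S →* Module.End ℂ E) : S →* Module.End ℂ (Module.End ℂ E) where
  toFun g := (LinearMap.mulLeft ℂ (ρ g)).comp (LinearMap.mulRight ℂ (ρ g⁻¹))
  map_one' := by
    ext T v
    simp
  map_mul' g h := by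
    ext T v
    simp [mul_assoc]

end rep

variable {G : Type u} [Group G]

/-- representations of `X / C` without fixed vectors have small characters -/
def RatSec (m : ℕ) (X C : Subgroup G) : Prop :=
  ∀ (n : ℕ) (ρ : X →* Matrix (Fin n) (Fin n) ℂ), (∀ x : X, (x : G) ∈ C → ρ x = 1) →
    (∀ v : Fin n → ℂ, (∀ x, (ρ x).mulVec v = v) → v = 0) →
    ∀ x : X, (x : G) ∉ C → m * ‖(ρ x).trace‖ ≤ n

/-- standard classical sections over fields of order at most `q` -/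
def SmallSec (q : ℕ) (T C : Subgroup G) : Prop :=
  ∃ (k : Type) (_ : Field k) (_ : Finite k) (V : Type) (_ : AddCommGroup V) (_ : Module k V)
    (_ : FiniteDimensional k V) (Γ : Subgroup (V ≃ₗ[k] V)) (p : T →* PGrp k V),
    Nat.card k ≤ q ∧ StdClassical Γ ∧ (∀ t : T, p t = 1 ↔ (t : G) ∈ C) ∧
      p.range = Γ.map (QuotientGroup.mk' (Scal k V))

/-- Condition (F): as condition (E), or small characters -/
def HypF (𝓛 : Set (Subgroup G)) : Prop :=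
  ∀ F L : Subgroup G, Finite L → F ≠ ⊥ → F ≤ L →
    ∃ M : Subgroup G, Finite M ∧ L ≤ M ∧
      ∀ K ∈ 𝓛, ∀ X ≤ K, NormIn K X → ⁅X, X⁆ = X → M ≤ X → ∀ T C : Subgroup G,
        AlmostSimpleSec X T C → ¬ F ≤ C →
        (∃ E : Subgroup G, C ≤ E ∧ E ≤ T ∧ NormIn L E ∧
          (∀ a ∈ E, ∀ b ∈ E, a * b * a⁻¹ * b⁻¹ ∈ C) ∧
          ∃ a ∈ E, ∃ f ∈ F, a * f * a⁻¹ * f⁻¹ ∉ C) ∨
        (T = X ∧ F ⊓ C = ⊥ ∧ RatSec (3 * Nat.card F ^ 2) X C ∧
          (3 * Nat.card F ^ 2) ^ 2 * Nat.card C ≤ Nat.card X)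

/-- the finite data used at the level of one finite subgroup `K` -/
structure KData (K : Type u) [Group K] (F P D L X : Subgroup K) : Prop where
  finK : Finite K
  hFP : F ≤ P
  hPD : P ≤ D
  hDL : D ≤ L
  hLX : L ≤ X
  hXn : X.Normal
  hX : ⁅X, X⁆ = X
  hP : ⁅P, P⁆ = P
  roD : ∀ H : Subgroup K, ¬ F ≤ H → ∃ k ∈ L, ∀ d ∈ D, k⁻¹ * d * k ∈ H → d = 1
  tD : ∀ N : Subgroup K, NormIn L N → F ≤ N → D ≤ N
  gr : ∀ f ∈ F, f ≠ 1 → ∃ (t : ℕ) (d : Fin t → K), (∀ i, d i ∈ D) ∧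
    ((Nat.card F) ^ 2) ^ t <
      Nat.card (Subgroup.closure (Set.range fun i => d i * f * (d i)⁻¹))
  roL : ∀ H : Subgroup K, ¬ F ≤ H → ∃ k : K, ∀ l ∈ L, k⁻¹ * l * k ∈ H → l = 1
  d1 : ∀ N : Subgroup K, N.Normal → F ≤ N → X ≤ N
  d4 : ∀ T C : Subgroup K, AlmostSimpleSec X T C → ¬ F ≤ C →
    (∃ E : Subgroup K, C ≤ E ∧ E ≤ T ∧ NormIn L E ∧
      (∀ a ∈ E, ∀ b ∈ E, a * b * a⁻¹ * b⁻¹ ∈ C) ∧
      ∃ a ∈ E, ∃ f ∈ F, a * f * a⁻¹ * f⁻¹ ∉ C) ∨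
    (T = X ∧ F ⊓ C = ⊥ ∧ RatSec (3 * Nat.card F ^ 2) X C ∧
      (3 * Nat.card F ^ 2) ^ 2 * Nat.card C ≤ Nat.card X)

section fin

variable {K : Type u} [Group K]

/-- the finite situation coming from a proper confined subgroup -/
structure CData (Z : Subgroup K → Prop) (s b c q : ℕ) (f : Fin s → K) (Y X U : Subgroup K) :
    Prop where
  finK : Finite K
  hs : 0 < s
  hfY : ∀ i, f i ∈ Y
  hf1 : ∀ i, f i ≠ 1
  hYX : Y ≤ X
  hXn : X.Normal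
  hX : ⁅X, X⁆ = X
  tY : ∀ N : Subgroup K, NormIn X N → (∃ y ∈ Y, y ≠ 1 ∧ y ∈ N) → Y ≤ N
  d1 : ∀ N : Subgroup K, N.Normal → (∃ y ∈ Y, y ≠ 1 ∧ y ∈ N) → X ≤ N
  nab : ∃ a ∈ Y, ∃ b ∈ Y, a * b ≠ b * a
  big : b < Nat.card Y
  hXU : ¬ X ≤ U
  maxU : ∀ U' : Subgroup K, U ≤ U' → U' ≠ U → X ≤ U'
  conf : ∀ g : K, ∃ i, g * f i * g⁻¹ ∈ U
  rk : ∀ (k : Type) [Field k] [Finite k], Nat.card k ≤ q → ∀ (V : Type) [AddCommGroup V]
    [Module k V] (p : X →* PGrp k V) (x : X) (i : Fin s), (x : K) = f i → p x ≠ 1 →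
    ∀ (g : V ≃ₗ[k] V) (a : k), p x = (g : PGrp k V) → ¬ SmallRank c g a
  tops : ∀ T C : Subgroup K, AlmostSimpleSec X T C → Y ⊓ C = ⊥ → T = X ∧ Z C

end fin

section geo

variable {k : Type} [Field k] {V : Type} [AddCommGroup V] [Module k V]

/-- the group of all transvections in `Γ` with given centre and axis -/
def tvg (Γ : Subgroup (V ≃ₗ[k] V)) (v : V) (φ : Module.Dual k V) : Subgroup Γ :=
  Subgroup.closure {x : Γ | ∃ t : k, ∀ y, (x : V ≃ₗ[k] V) y = y + (t * φ y) • v}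

/-- the transvection groups of the special linear group -/
def SgSL (Γ : Subgroup (V ≃ₗ[k] V)) : Set (Subgroup Γ) :=
  {A | ∃ (v : V) (φ : Module.Dual k V), v ≠ 0 ∧ φ ≠ 0 ∧ φ v = 0 ∧ A = tvg Γ v φ}

/-- the geometry of symplectic and unitary groups -/
structure HSp (Γ : Subgroup (V ≃ₗ[k] V)) (σ : k →+* k) (ε : k) (B : V →ₗ[k] V →ₛₗ[σ] k) :
    Prop where
  hσ : ∀ a, σ (σ a) = a
  hε : ε = 1 ∨ ε = -1
  symm : ∀ x y, B y x = ε * σ (B x y)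
  nondeg : ∀ x, (∀ y, B x y = 0) → x = 0
  alt : (∀ a, σ a = a) → ∀ x, B x x = 0
  uni : (∃ a, σ a ≠ a) → ε = 1
  pres : ∀ g ∈ Γ, ∀ x y, B (g x) (g y) = B x y
  tr : ∀ v, B v v = 0 → ∀ t, σ t = -ε * t → ∃ x ∈ Γ, ∀ y, x y = y + (t * B y v) • v
  e : ∃ e, e ≠ 0 ∧ σ e = -ε * e
  hyp : ∀ v w, LinearIndependent k ![v, w] → B v v = 0 → B w w = 0 → B v w = 0 →
    ∃ y, B y y = 0 ∧ B v y = 1 ∧ B w y = 0
  hyp1 : ∀ v, v ≠ 0 → B v v = 0 → ∃ y, B y y = 0 ∧ B v y = 1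
  iso : ∃ v, v ≠ 0 ∧ B v v = 0

/-- the fixed field -/
abbrev FixF (σ : k →+* k) : Type := RingHom.eqLocusField σ (RingHom.id k)

/-- the transvection group of an isotropic vector -/
def tvh (Γ : Subgroup (V ≃ₗ[k] V)) {σ : k →+* k} (ε : k) (B : V →ₗ[k] V →ₛₗ[σ] k) (v : V) :
    Subgroup Γ :=
  Subgroup.closure {x : Γ | ∃ t : k, σ t = -ε * t ∧ ∀ y, (x : V ≃ₗ[k] V) y = y + (t * B y v) • v}

/-- the transvection groups of a symplectic or unitary group -/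
def SgHU (Γ : Subgroup (V ≃ₗ[k] V)) {σ : k →+* k} (ε : k) (B : V →ₗ[k] V →ₛₗ[σ] k) :
    Set (Subgroup Γ) :=
  {A | ∃ v : V, v ≠ 0 ∧ B v v = 0 ∧ A = tvh Γ ε B v}

/-- the root group of the totally singular line spanned by `u` and `w` -/
def sgg (Γ : Subgroup (V ≃ₗ[k] V)) (Q : QuadraticForm k V) (u w : V) : Subgroup Γ :=
  Subgroup.closure {x : Γ | ∃ t : k, ∀ y, (x : V ≃ₗ[k] V) y =
    y + (t * QuadraticMap.polar Q y u) • w - (t * QuadraticMap.polar Q y w) • u}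

/-- totally singular pairs -/
def TS (Q : QuadraticForm k V) (u w : V) : Prop :=
  LinearIndependent k ![u, w] ∧ Q u = 0 ∧ Q w = 0 ∧ QuadraticMap.polar Q u w = 0

/-- the root groups of an orthogonal group -/
def SgOm (Γ : Subgroup (V ≃ₗ[k] V)) (Q : QuadraticForm k V) : Set (Subgroup Γ) :=
  {A | ∃ u w : V, TS Q u w ∧ A = sgg Γ Q u w}

end geo

end H49KE
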