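import Pool.Agent.H49.KE.Defs

namespace H49KE

open H49KA H49KB H49KC

universe u v w

private theorem card_fib {H : Type u} {Ω : Type v} [Group H] [MulAction H Ω] (x : Ω)
    (S : Set Ω) (hS : ∀ y, y ∈ S ↔ ∃ h : H, h • x = y) (P : Ω → Prop) :
    Nat.card {h : H // P (h • x)} =
      Nat.card {y : Ω // y ∈ S ∧ P y} * Nat.card (MulAction.stabilizer H x) := by
  have hr : ∀ y : {y : Ω // y ∈ S}, ∃ h : H, h • x = y.1 := fun y => (hS y.1).1 y.2
  choose r hr using hr
  rw [← Nat.card_prod]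
  refine Nat.card_congr
    { toFun := fun h => (⟨h.1 • x, (hS _).2 ⟨h.1, rfl⟩, h.2⟩,
        ⟨(r ⟨h.1 • x, (hS _).2 ⟨h.1, rfl⟩⟩)⁻¹ * h.1, by
          rw [MulAction.mem_stabilizer_iff, mul_smul, inv_smul_eq_iff, hr]⟩)
      invFun := fun q => ⟨r ⟨q.1.1, q.1.2.1⟩ * q.2.1, by
        rw [mul_smul, MulAction.mem_stabilizer_iff.1 q.2.2, hr]
        exact q.1.2.2⟩
      left_inv := fun h => by
        ext
        simp
      right_inv := fun q => by
        obtain ⟨⟨y, hy, hP⟩, ⟨s, hs⟩⟩ := q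
        have h1 : (r ⟨y, hy⟩ * s) • x = y := by
          rw [mul_smul, MulAction.mem_stabilizer_iff.1 hs, hr]
        have h2 : r ⟨(r ⟨y, hy⟩ * s) • x, (hS _).2 ⟨_, rfl⟩⟩ = r ⟨y, hy⟩ := by
          congr 1
          exact Subtype.ext h1
        refine Prod.ext (Subtype.ext h1) (Subtype.ext ?_)
        change (r ⟨(r ⟨y, hy⟩ * s) • x, (hS _).2 ⟨_, rfl⟩⟩)⁻¹ * (r ⟨y, hy⟩ * s) = s
        rw [h2, inv_mul_cancel_left] }

/-- Proof. The map `h ↦ h • x` from `H` onto `S` has fibres which all have the same number `m` of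
elements (`#{h | h • x = y} = #{h | h • x = x}` by translation, for `y ∈ S`). So
`#{h | P (h • x)} = m * #{y ∈ S | P y}` and `|H| = m * |S|`. (If `Ω` is infinite note that `S` is
finite, being the image of `H`.) -/
theorem orbit_count {H : Type u} {Ω : Type v} [Group H] [Finite H] [MulAction H Ω] (x : Ω)
    (S : Set Ω) (hS : ∀ y, y ∈ S ↔ ∃ h : H, h • x = y) (P : Ω → Prop) (a b : ℕ)
    (h : a * Nat.card {y : Ω // y ∈ S ∧ P y} ≤ b * Nat.card S) :
    a * Nat.card {h : H // P (h • x)} ≤ b * Nat.card H := by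
  have h1 := card_fib x S hS P
  have h2 := card_fib x S hS fun _ => True
  have h3 : Nat.card {_h : H // True} = Nat.card H :=
    Nat.card_congr (Equiv.subtypeUnivEquiv fun _ => trivial)
  have h4 : Nat.card {y : Ω // y ∈ S ∧ True} = Nat.card S :=
    Nat.card_congr (Equiv.subtypeEquivRight fun y => by simp)
  rw [h3, h4] at h2
  rw [h1, h2, ← mul_assoc, ← mul_assoc]
  exact Nat.mul_le_mul_right _ h

end H49KE
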