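import Pool.Agent.H49.KE.Defs

namespace H49KE

open H49KA H49KB H49KC

universe u v w

/-- transport of `RatSec` to the subgroup `K`. Proof. Compose with the isomorphism between `X` and
`X.subgroupOf K` (`Subgroup.subgroupOfEquivOfLe hXK`). -/
theorem ratSec_sub {G : Type u} [Group G] (K X : Subgroup G) (hXK : X ≤ K) (C : Subgroup K)
    (m : ℕ) : RatSec m X (C.map K.subtype) ↔ RatSec m (X.subgroupOf K) C := by
  have hmem : ∀ y : X.subgroupOf K, (((Subgroup.subgroupOfEquivOfLe hXK) y : X) : G) =
      ((y : K) : G) := fun y => rfl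
  have hC : ∀ y : X.subgroupOf K, (((Subgroup.subgroupOfEquivOfLe hXK) y : X) : G) ∈
      C.map K.subtype ↔ (y : K) ∈ C := by
    intro y
    rw [hmem]
    constructor
    · rintro ⟨z, hz, hzy⟩
      have : z = (y : K) := Subtype.ext hzy
      rw [← this]
      exact hz
    · intro hy
      exact ⟨_, hy, rfl⟩
  constructor
  · intro h n ρ hρC hρ y hy
    have h1 := h n (ρ.comp (Subgroup.subgroupOfEquivOfLe hXK).symm.toMonoidHom) ?_ ?_
      ((Subgroup.subgroupOfEquivOfLe hXK) y) (fun h2 => hy ((hC y).1 h2))
    · simpa using h1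
    · intro x hx
      have h2 : (((Subgroup.subgroupOfEquivOfLe hXK) ((Subgroup.subgroupOfEquivOfLe hXK).symm x) : X)
          : G) ∈ C.map K.subtype := by
        rw [MulEquiv.apply_symm_apply]
        exact hx
      exact hρC _ ((hC _).1 h2)
    · intro v hv
      refine hρ v fun x => ?_
      have h2 := hv ((Subgroup.subgroupOfEquivOfLe hXK) x)
      simpa using h2
  · intro h n ρ hρC hρ x hx
    have h1 := h n (ρ.comp (Subgroup.subgroupOfEquivOfLe hXK).toMonoidHom) ?_ ?_
      ((Subgroup.subgroupOfEquivOfLe hXK).symm x) ?_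
    · simpa using h1
    · intro y hy
      exact hρC _ ((hC y).2 hy)
    · intro v hv
      refine hρ v fun z => ?_
      have h2 := hv ((Subgroup.subgroupOfEquivOfLe hXK).symm z)
      simpa using h2
    · intro h2
      have h3 := (hC _).2 h2
      rw [MulEquiv.apply_symm_apply] at h3
      exact hx h3

end H49KE
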