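import Pool.Agent.H49.KE.Defs
import Pool.Agent.H49.KA.A6
import Pool.Agent.H49.KE.T6

open Equiv
open scoped commutatorElement

namespace H49KE

open H49KA H49KB H49KC

universe u v w

variable {G : Type u} [Group G]

private lemma fin_closure (hG : LocFin G) (S : Set G) (hS : S.Finite) :
    Finite (Subgroup.closure S) := by
  have := hG hS.toFinset
  rwa [Set.Finite.coe_toFinset] at this

private lemma fin_sup (hG : LocFin G) (A B : Subgroup G) [Finite A] [Finite B] :
    Finite (A ⊔ B : Subgroup G) := by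
  have h : A ⊔ B = Subgroup.closure ((A : Set G) ∪ B) := by
    rw [Subgroup.closure_union, Subgroup.closure_eq, Subgroup.closure_eq]
  rw [h]
  exact fin_closure hG _ (Set.Finite.union (Set.toFinite _) (Set.toFinite _))

private lemma mem_mapK {K : Subgroup G} (Y : Subgroup K) (x : G) :
    x ∈ Y.map K.subtype ↔ ∃ h : x ∈ K, (⟨x, h⟩ : K) ∈ Y := by
  rw [Subgroup.mem_map]
  constructor
  · rintro ⟨y, hy, rfl⟩
    exact ⟨y.2, hy⟩
  · rintro ⟨h, hy⟩
    exact ⟨⟨x, h⟩, hy, rfl⟩

private lemma subOf_le {K : Subgroup G} (Y : Subgroup G) (Z : Subgroup K)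
    (h : Y ≤ Z.map K.subtype) : Y.subgroupOf K ≤ Z := by
  intro x hx
  rw [Subgroup.mem_subgroupOf] at hx
  obtain ⟨_, h'⟩ := (mem_mapK Z _).mp (h hx)
  exact h'

private lemma normIn_map {K : Subgroup G} (X N : Subgroup K) (h : NormIn X N) :
    NormIn (X.map K.subtype) (N.map K.subtype) := by
  intro x hx n hn
  obtain ⟨hxK, hx'⟩ := (mem_mapK _ _).mp hx
  obtain ⟨hnK, hn'⟩ := (mem_mapK _ _).mp hn
  exact (mem_mapK _ _).mpr ⟨K.mul_mem (K.mul_mem hxK hnK) (K.inv_mem hxK), h _ hx' _ hn'⟩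

/-- transport of almost simple sections -/
private lemma ass_map {K : Subgroup G} (X : Subgroup G) (hXK : X ≤ K) (T C : Subgroup K)
    (h : AlmostSimpleSec (X.subgroupOf K) T C) :
    AlmostSimpleSec X (T.map K.subtype) (C.map K.subtype) := by
  obtain ⟨hTX, hXC, hXT, ⟨hCT, hTC, hmin, a, ha, b, hb, hab⟩, hcen⟩ := h
  have hmapX : (X.subgroupOf K).map K.subtype = X := Subgroup.map_subgroupOf_eq_of_le hXK
  refine ⟨?_, ?_, ?_, ⟨Subgroup.map_mono hCT, normIn_map _ _ hTC, ?_, ?_⟩, ?_⟩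
  · rw [← hmapX]; exact Subgroup.map_mono hTX
  · have := normIn_map _ _ hXC; rwa [hmapX] at this
  · have := normIn_map _ _ hXT; rwa [hmapX] at this
  · intro N hCN hNT hTN
    have hNK : N ≤ K := hNT.trans (by
      intro x hx
      obtain ⟨h, _⟩ := (mem_mapK _ _).mp hx
      exact h)
    have hmapN : (N.subgroupOf K).map K.subtype = N := Subgroup.map_subgroupOf_eq_of_le hNK
    have h1 : C ≤ N.subgroupOf K := by
      intro x hx
      rw [Subgroup.mem_subgroupOf]
      exact hCN ((mem_mapK _ _).mpr ⟨x.2, hx⟩)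
    have h2 : N.subgroupOf K ≤ T := subOf_le _ _ hNT
    have h3 : NormIn T (N.subgroupOf K) := by
      intro t ht x hx
      rw [Subgroup.mem_subgroupOf] at hx ⊢
      exact hTN t ((mem_mapK _ _).mpr ⟨t.2, ht⟩) x hx
    rcases hmin _ h1 h2 h3 with h4 | h4
    · left; rw [← h4, hmapN]
    · right; rw [← h4, hmapN]
  · refine ⟨a, (mem_mapK _ _).mpr ⟨a.2, ha⟩, b, (mem_mapK _ _).mpr ⟨b.2, hb⟩, ?_⟩
    intro h
    obtain ⟨_, h'⟩ := (mem_mapK _ _).mp h
    exact hab h'
  · intro x hx h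
    refine (mem_mapK _ _).mpr ⟨hXK hx, ?_⟩
    apply hcen ⟨x, hXK hx⟩ (by rw [Subgroup.mem_subgroupOf]; exact hx)
    intro t ht
    obtain ⟨_, h'⟩ := (mem_mapK _ _).mp (h t ((mem_mapK _ _).mpr ⟨t.2, ht⟩))
    exact h'

/-- Copy of `H49KA.exists_kdata`; the only change is the second alternative in `d4`, which is
transported to `K` by `ratSec_sub`. -/
theorem exists_kdata (hG : LocFin G) [IsSimpleGroup G] [Infinite G] (hC : NoConf G)
    (𝓛 : Set (Subgroup G)) (h𝓛 : LocalSystem 𝓛) (hE : HypF 𝓛)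
    (F : Subgroup G) [Finite F] (hF : F ≠ ⊥) :
    ∃ K ∈ 𝓛, F ≤ K ∧ ∃ P D L X : Subgroup K, KData K (F.subgroupOf K) P D L X := by
  classical
  obtain ⟨⟨f₀, hf₀⟩, hf₀1'⟩ := Subgroup.ne_bot_iff_exists_ne_one.mp hF
  have hf₀1 : f₀ ≠ 1 := fun h => hf₀1' (Subtype.ext h)
  -- P
  obtain ⟨L0, hL0fin, hFL0, htop⟩ := exists_top hG F
  obtain ⟨P, _, hPL0, _, hFP, hPP, _, _⟩ := htop L0 hL0fin le_rfl
  have hPfin : Finite P := Finite.of_injective _ (Subgroup.inclusion_injective hPL0)
  -- growth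
  have hgr : ∀ f : {f : F // f ≠ 1}, ∃ (t : ℕ) (g : Fin t → G),
      ((Nat.card F) ^ 2) ^ t <
        Nat.card (Subgroup.closure (Set.range fun i => g i * (f : F) * (g i)⁻¹)) := by
    intro f
    exact growth hG ((f : F) : G) (fun h => f.2 (Subtype.ext h)) _
  choose t g hg using hgr
  have hDfin0 : Finite (Subgroup.closure (⋃ f, Set.range (g f))) :=
    fin_closure hG _ (Set.finite_iUnion fun f => Set.finite_range _)
  let D : Subgroup G := P ⊔ Subgroup.closure (⋃ f, Set.range (g f))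
  have hDfin : Finite D := fin_sup hG _ _
  have hPD : P ≤ D := le_sup_left
  have hgD : ∀ f i, g f i ∈ D := fun f i =>
    (le_sup_right : _ ≤ D) (Subgroup.subset_closure (Set.mem_iUnion.mpr ⟨f, i, rfl⟩))
  -- L
  obtain ⟨KD, hKDfin, hDKD, hroD⟩ := exists_ro hG hC D
  obtain ⟨Dp, hDpfin, hDDp, htD⟩ := exists_plus hG D
  let L : Subgroup G := KD ⊔ Dp
  have hLfin : Finite L := fin_sup hG _ _
  have hDL : D ≤ L := hDKD.trans le_sup_left
  have hFD : F ≤ D := hFP.trans hPD
  have hFL : F ≤ L := hFD.trans hDL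
  obtain ⟨M, hMfin, hLM, hM⟩ := hE F L hLfin hF hFL
  -- M plays the role of L2
  obtain ⟨Mp, hMpfin, hMMp, htM⟩ := exists_plus hG M
  obtain ⟨KL, hKLfin, hLKL, hroL⟩ := exists_ro hG hC L
  have hfin3 : Finite (Mp ⊔ KL : Subgroup G) := fin_sup hG _ _
  obtain ⟨K, hK𝓛, hKsub⟩ := h𝓛.2 (Set.toFinite ((Mp ⊔ KL : Subgroup G) : Set G)).toFinset
  rw [Set.Finite.coe_toFinset] at hKsub
  have hKsub' : Mp ⊔ KL ≤ K := hKsub
  have hKfin : Finite K := h𝓛.1 K hK𝓛
  have hMpK : Mp ≤ K := le_sup_left.trans hKsub'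
  have hKLK : KL ≤ K := le_sup_right.trans hKsub'
  have hMK : M ≤ K := hMMp.trans hMpK
  have hLK : L ≤ K := hLM.trans hMK
  have hDK : D ≤ K := hDL.trans hLK
  have hPK : P ≤ K := hPD.trans hDK
  have hFK : F ≤ K := hFP.trans hPK
  -- X
  let X : Subgroup G := Subgroup.closure {x | ∃ k ∈ K, ∃ l ∈ M, x = k * l * k⁻¹}
  have hXK : X ≤ K := by
    rw [Subgroup.closure_le]
    rintro x ⟨k, hk, l, hl, rfl⟩
    exact K.mul_mem (K.mul_mem hk (hMK hl)) (K.inv_mem hk)
  have hMX : M ≤ X := by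
    intro l hl
    exact Subgroup.subset_closure ⟨1, K.one_mem, l, hl, by simp⟩
  have hKX : NormIn K X := by
    intro k hk x hx
    have : X ≤ X.comap (MulAut.conj k).toMonoidHom := by
      rw [Subgroup.closure_le]
      rintro y ⟨k', hk', l, hl, rfl⟩
      refine Subgroup.subset_closure ⟨k * k', K.mul_mem hk hk', l, hl, ?_⟩
      simp [MulAut.conj_apply, mul_assoc]
    exact this hx
  have hXmin : ∀ N : Subgroup G, NormIn K N → (∃ y ∈ M, y ≠ 1 ∧ y ∈ N) → X ≤ N := by
    intro N hN hy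
    have h1 : M ≤ N := htM N (fun x hx => hN x (hMpK hx)) hy
    rw [Subgroup.closure_le]
    rintro y ⟨k, hk, l, hl, rfl⟩
    exact hN k hk l (h1 hl)
  have hXX : ⁅X, X⁆ = X := by
    apply le_antisymm
    · rw [Subgroup.commutator_le]
      intro a ha b hb
      exact X.mul_mem (X.mul_mem (X.mul_mem ha hb) (X.inv_mem ha)) (X.inv_mem hb)
    · apply hXmin
      · intro k hk x hx
        have : ⁅X, X⁆ ≤ ⁅X, X⁆.comap (MulAut.conj k).toMonoidHom := by
          rw [Subgroup.commutator_le]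
          intro a ha b hb
          rw [Subgroup.mem_comap, map_commutatorElement]
          exact Subgroup.commutator_mem_commutator (hKX k hk a ha) (hKX k hk b hb)
        exact this hx
      · -- a nontrivial commutator in P
        by_contra hcon
        push Not at hcon
        have hP1 : P = ⊥ := by
          rw [eq_bot_iff, ← hPP, Subgroup.commutator_le]
          intro a ha b hb
          rw [Subgroup.mem_bot]
          by_contra hne
          have hPM : P ≤ M := hPD.trans (hDL.trans hLM)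
          have hmem : ⁅a, b⁆ ∈ M := by
            apply hPM
            rw [← hPP]
            exact Subgroup.commutator_mem_commutator ha hb
          exact hcon _ hmem hne (Subgroup.commutator_mem_commutator (hMX (hPM ha))
            (hMX (hPM hb)))
        apply hF
        rw [eq_bot_iff, ← hP1]
        exact hFP
  have mapX : (X.subgroupOf K).map K.subtype = X := Subgroup.map_subgroupOf_eq_of_le hXK
  have mapP : (P.subgroupOf K).map K.subtype = P := Subgroup.map_subgroupOf_eq_of_le hPK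
  have mapL : (L.subgroupOf K).map K.subtype = L := Subgroup.map_subgroupOf_eq_of_le hLK
  have mapD : (D.subgroupOf K).map K.subtype = D := Subgroup.map_subgroupOf_eq_of_le hDK
  have mapF : (F.subgroupOf K).map K.subtype = F := Subgroup.map_subgroupOf_eq_of_le hFK
  have cardF : Nat.card (F.subgroupOf K) = Nat.card F :=
    Nat.card_congr (Subgroup.subgroupOfEquivOfLe hFK).toEquiv
  refine ⟨K, hK𝓛, hFK, P.subgroupOf K, D.subgroupOf K, L.subgroupOf K, X.subgroupOf K, ?_⟩
  refine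
    { finK := hKfin
      hFP := fun x hx => hFP hx
      hPD := fun x hx => hPD hx
      hDL := fun x hx => hDL hx
      hLX := fun x hx => (hLM.trans hMX) hx
      hXn := ⟨fun x hx k => hKX k k.2 x hx⟩
      hX := ?_
      hP := ?_
      roD := ?_
      tD := ?_
      gr := ?_
      roL := ?_
      d1 := ?_
      d4 := ?_ }
  · apply Subgroup.map_injective K.subtype_injective
    rw [Subgroup.map_commutator, mapX, hXX]
  · apply Subgroup.map_injective K.subtype_injective
    rw [Subgroup.map_commutator, mapP, hPP]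
  · intro H hFH
    have h1 : ¬ D ≤ H.map K.subtype := by
      intro h
      exact hFH (subOf_le _ _ (hFD.trans h))
    obtain ⟨k, hk, hreg⟩ := hroD _ h1
    have hkL : k ∈ L := (le_sup_left : KD ≤ L) hk
    refine ⟨⟨k, hLK hkL⟩, hkL, ?_⟩
    intro d hd hdk
    apply Subtype.ext
    exact hreg d hd ((mem_mapK _ _).mpr ⟨_, hdk⟩)
  · intro N hN hFN
    apply subOf_le
    apply htD
    · intro x hx n hn
      have hxL : x ∈ L := (le_sup_right : Dp ≤ L) hx
      obtain ⟨hnK, hn'⟩ := (mem_mapK _ _).mp hn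
      exact (mem_mapK _ _).mpr ⟨_, hN ⟨x, hLK hxL⟩ hxL _ hn'⟩
    · exact ⟨f₀, hFD hf₀, hf₀1, (mem_mapK _ _).mpr ⟨hFK hf₀, hFN hf₀⟩⟩
  · intro f hf hf1
    let f' : {f : F // f ≠ 1} := ⟨⟨(f : G), hf⟩, fun h => hf1 (by
      apply Subtype.ext
      have h0 : ((⟨(f : G), hf⟩ : F) : G) = ((1 : F) : G) := congrArg Subtype.val h
      exact h0)⟩
    refine ⟨t f', fun i => ⟨g f' i, hDK (hgD f' i)⟩, fun i => hgD f' i, ?_⟩
    rw [cardF]
    refine lt_of_lt_of_eq (hg f') ?_
    have e1 : (Subgroup.closure (Set.range fun i =>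
        (⟨g f' i, hDK (hgD f' i)⟩ : K) * f * (⟨g f' i, hDK (hgD f' i)⟩ : K)⁻¹)).map K.subtype =
        Subgroup.closure (Set.range fun i => g f' i * ((f' : F) : G) * (g f' i)⁻¹) := by
      rw [MonoidHom.map_closure]
      congr 1
      ext x
      constructor
      · rintro ⟨_, ⟨i, rfl⟩, rfl⟩
        exact ⟨i, rfl⟩
      · rintro ⟨i, rfl⟩
        exact ⟨_, ⟨i, rfl⟩, rfl⟩
    rw [← e1]
    exact (Nat.card_congr (Subgroup.equivMapOfInjective _ K.subtype
      K.subtype_injective).toEquiv).symm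
  · intro H hFH
    have h1 : ¬ L ≤ H.map K.subtype := by
      intro h
      exact hFH (subOf_le _ _ (hFL.trans h))
    obtain ⟨k, hk, hreg⟩ := hroL _ h1
    refine ⟨⟨k, hKLK hk⟩, ?_⟩
    intro l hl hlk
    apply Subtype.ext
    exact hreg l hl ((mem_mapK _ _).mpr ⟨_, hlk⟩)
  · intro N hN hFN
    apply subOf_le
    apply hXmin
    · intro k hk n hn
      obtain ⟨hnK, hn'⟩ := (mem_mapK _ _).mp hn
      exact (mem_mapK _ _).mpr ⟨_, hN.conj_mem _ hn' ⟨k, hk⟩⟩
    · exact ⟨f₀, hLM (hFL hf₀), hf₀1, (mem_mapK _ _).mpr ⟨hFK hf₀, hFN hf₀⟩⟩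
  · intro T C hTC hFC
    have h1 : ¬ F ≤ C.map K.subtype := fun h => hFC (subOf_le _ _ h)
    rcases hM K hK𝓛 X hXK hKX hXX hMX _ _ (ass_map X hXK T C hTC) h1 with
      ⟨E, hCE, hET, hLE, hEE, a, ha, f, hf, haf⟩ | ⟨hTX, hFC0, hrat, hcard⟩
    · left
      have hTK : T.map K.subtype ≤ K := by
        intro x hx
        obtain ⟨h, _⟩ := (mem_mapK _ _).mp hx
        exact h
      have hEK : E ≤ K := hET.trans hTK
      refine ⟨E.subgroupOf K, ?_, subOf_le _ _ hET, ?_, ?_, ⟨a, hEK ha⟩, ha, ⟨f, hFK hf⟩, hf, ?_⟩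
      · intro x hx
        rw [Subgroup.mem_subgroupOf]
        exact hCE ((mem_mapK _ _).mpr ⟨x.2, hx⟩)
      · intro l hl x hx
        exact hLE l hl x hx
      · intro x hx y hy
        obtain ⟨_, h⟩ := (mem_mapK _ _).mp (hEE x hx y hy)
        exact h
      · intro h
        exact haf ((mem_mapK _ _).mpr ⟨_, h⟩)
    · right
      have cardX : Nat.card (X.subgroupOf K) = Nat.card X :=
        Nat.card_congr (Subgroup.subgroupOfEquivOfLe hXK).toEquiv
      have cardC : Nat.card (C.map K.subtype : Subgroup G) = Nat.card C :=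
        (Nat.card_congr (Subgroup.equivMapOfInjective _ K.subtype
          K.subtype_injective).toEquiv).symm
      refine ⟨?_, ?_, ?_, ?_⟩
      · apply Subgroup.map_injective K.subtype_injective
        rw [mapX, hTX]
      · rw [eq_bot_iff]
        rintro x ⟨hxF, hxC⟩
        rw [Subgroup.mem_bot]
        have hx : (x : G) ∈ (F ⊓ C.map K.subtype : Subgroup G) :=
          ⟨hxF, (mem_mapK _ _).mpr ⟨x.2, hxC⟩⟩
        rw [hFC0, Subgroup.mem_bot] at hx
        exact Subtype.ext hx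
      · rw [cardF]
        exact (ratSec_sub K X hXK C _).mp hrat
      · rw [cardF, cardX, ← cardC]
        exact hcard

end H49KE
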