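import Pool.Agent.H49.KE.Defs

namespace H49KE

open H49KA H49KB H49KC

universe u v w

variable {k : Type} [Field k] [Finite k] {V : Type} [AddCommGroup V] [Module k V]
  [FiniteDimensional k V]

omit [Finite k] in
private lemma h1_mem (σ : k →+* k) (a : k) :
    a ∈ (RingHom.eqLocusField σ (RingHom.id k)) ↔ σ a = a := Iff.rfl

omit [Finite k] in
private lemma h1_two (σ : k →+* k) (ε : k) (e : k) (he : e ≠ 0) (hσe : σ e = -ε * e)
    (hε : ε = 1 ∨ ε = -1) (t : k) : σ t = -ε * t ↔ ∃ a : FixF σ, t = (a : k) * e := by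
  have hε0 : ε ≠ 0 := by
    rcases hε with h | h <;> rw [h] <;> simp
  constructor
  · intro ht
    have h1 : σ (t / e) = t / e := by
      rw [map_div₀, ht, hσe, mul_div_mul_left _ _ (neg_ne_zero.2 hε0)]
    exact ⟨⟨t / e, (h1_mem σ _).2 h1⟩, (div_mul_cancel₀ t he).symm⟩
  · rintro ⟨a, rfl⟩
    have ha : σ (a : k) = a := a.2
    rw [map_mul, ha, hσe]
    ring

omit [Finite k] in
private lemma h1_data (σ : k →+* k) (hσ : ∀ a, σ (σ a) = a) (hn : ∃ a, σ a ≠ a) :
    ∃ u e : k, u + σ u = 1 ∧ e ≠ 0 ∧ σ e = -e := by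
  obtain ⟨a0, ha0⟩ := hn
  obtain ⟨a1, ha1⟩ : ∃ a1, a1 + σ a1 ≠ 0 := by
    by_contra hcon
    push Not at hcon
    have h1 := hcon 1
    rw [map_one] at h1
    have h2 := hcon a0
    apply ha0
    have h3 : σ a0 = -a0 := eq_neg_of_add_eq_zero_right h2
    have h4 : a0 + a0 = 0 := by
      have : a0 + a0 = a0 * (1 + 1) := by ring
      rw [this, h1, mul_zero]
    rw [h3]
    exact neg_eq_of_add_eq_zero_left h4
  have hs : σ (a1 + σ a1) = a1 + σ a1 := by
    rw [map_add, hσ, add_comm]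
  refine ⟨a1 / (a1 + σ a1), a0 - σ a0, ?_, sub_ne_zero.2 (Ne.symm ha0), ?_⟩
  · rw [map_div₀, hs, ← add_div, div_self ha1]
  · rw [map_sub, hσ, neg_sub]

/-- Proof. Let `F = FixF σ` (the subfield fixed by `σ`). (2) If `σ t = -ε t` and `σ e = -ε e` then
`t / e` is fixed (`ε² = 1`). (3) Let `σ ≠ id`. The map `T a = a + σ a` goes from `k` to `F` and is
`F`-linear; it is not zero (otherwise `σ a = -a` for all `a`, so `1 = -1` and `σ = id`), so it is
onto. Its kernel is `F * e` with `e = a₀ - σ a₀ ≠ 0`, so `|k| = |F| ^ 2` and all fibres of `T` have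
`|F|` elements. For `b ≠ 0` the map `a ↦ a σ(b) + b σ(a) = T (a σ(b))` is `T` after a bijection of
`k`. (1) follows from (3), and if `σ = id` then `F = k`. -/
theorem fix_card (σ : k →+* k) (ε : k) (hσ : ∀ a, σ (σ a) = a) :
    Nat.card k ≤ Nat.card (FixF σ) ^ 2 ∧
    (∀ e, e ≠ 0 → σ e = -ε * e → ε = 1 ∨ ε = -1 → ∀ t, σ t = -ε * t ↔
      ∃ a : FixF σ, t = (a : k) * e) ∧
    ((∃ a, σ a ≠ a) → Nat.card k = Nat.card (FixF σ) ^ 2 ∧ ∀ b : k, b ≠ 0 → ∀ c : FixF σ,
      Nat.card {a : k // a * σ b + b * σ a = c} = Nat.card (FixF σ)) := by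
  have h3 : (∃ a, σ a ≠ a) → Nat.card k = Nat.card (FixF σ) ^ 2 ∧ ∀ b : k, b ≠ 0 →
      ∀ c : FixF σ, Nat.card {a : k // a * σ b + b * σ a = c} = Nat.card (FixF σ) := by
    intro hn
    obtain ⟨u, e, hu, he, hσe⟩ := h1_data σ hσ hn
    have hker : ∀ t, t + σ t = 0 → ∃ a : FixF σ, t = (a : k) * e := by
      intro t ht
      refine (h1_two σ 1 e he (by rw [hσe]; ring) (Or.inl rfl) t).1 ?_
      rw [neg_one_mul]
      exact eq_neg_of_add_eq_zero_right ht
    have hT : ∀ x y : FixF σ, ((x : k) * u + y * e) + σ ((x : k) * u + y * e) = x := by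
      intro x y
      have hx : σ (x : k) = x := x.2
      have hy : σ (y : k) = y := y.2
      rw [map_add, map_mul, map_mul, hx, hy, hσe]
      have h5 : (x : k) * u + y * e + ((x : k) * σ u + y * -e) = x * (u + σ u) := by ring
      rw [h5, hu, mul_one]
    have hfix : ∀ a, σ (a + σ a) = a + σ a := fun a => by rw [map_add, hσ, add_comm]
    have hsur : ∀ a (x : FixF σ), a + σ a = x → ∃ y : FixF σ, a = (x : k) * u + y * e := by
      intro a x hx
      have hx' : σ (x : k) = x := x.2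
      obtain ⟨y, hy⟩ := hker (a - x * u) (by
        rw [map_sub, map_mul, hx']
        have h5 : a - (x : k) * u + (σ a - x * σ u) = a + σ a - x * (u + σ u) := by ring
        rw [h5, hx, hu, mul_one, sub_self])
      exact ⟨y, by rw [← hy]; ring⟩
    refine ⟨?_, fun b hb c => ?_⟩
    · rw [sq, ← Nat.card_prod]
      refine (Nat.card_congr (Equiv.ofBijective
        (fun p : FixF σ × FixF σ => (p.1 : k) * u + p.2 * e) ⟨?_, ?_⟩)).symm
      · rintro ⟨x, y⟩ ⟨x', y'⟩ h4
        simp only at h4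
        have h5 := hT x y
        rw [h4, hT x' y'] at h5
        have h6 : x = x' := Subtype.ext h5.symm
        subst h6
        have h7 : (y : k) * e = y' * e := add_left_cancel h4
        have h8 : y = y' := Subtype.ext (mul_right_cancel₀ he h7)
        rw [h8]
      · intro a
        obtain ⟨y, hy⟩ := hsur a ⟨a + σ a, (h1_mem σ _).2 (hfix a)⟩ rfl
        exact ⟨(⟨a + σ a, (h1_mem σ _).2 (hfix a)⟩, y), hy.symm⟩
    · have hb' : σ b ≠ 0 := fun h4 => hb (by rw [← hσ b, h4, map_zero])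
      have hc' : ∀ a, a * σ b + b * σ a = a * σ b + σ (a * σ b) := by
        intro a
        rw [map_mul, hσ, mul_comm b]
      refine (Nat.card_congr (Equiv.ofBijective
        (fun y : FixF σ => (⟨((c : k) * u + y * e) / σ b, ?_⟩ :
          {a : k // a * σ b + b * σ a = c})) ⟨?_, ?_⟩)).symm
      · rw [hc', div_mul_cancel₀ _ hb']
        exact hT c y
      · intro y y' h4
        have h5 : ((c : k) * u + y * e) / σ b = ((c : k) * u + y' * e) / σ b :=
          congrArg Subtype.val h4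
        have h6 := (div_left_inj' hb').1 h5
        exact Subtype.ext (mul_right_cancel₀ he (add_left_cancel h6))
      · rintro ⟨a, ha⟩
        rw [hc'] at ha
        obtain ⟨y, hy⟩ := hsur (a * σ b) c ha
        refine ⟨y, Subtype.ext ?_⟩
        show ((c : k) * u + y * e) / σ b = a
        rw [← hy, mul_div_cancel_right₀ _ hb']
  refine ⟨?_, fun e he hσe hε t => h1_two σ ε e he hσe hε t, h3⟩
  by_cases hn : ∃ a, σ a ≠ a
  · exact (h3 hn).1.le
  · push Not at hn
    have h4 : Nat.card (FixF σ) = Nat.card k :=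
      Nat.card_congr (Equiv.ofBijective (fun a : FixF σ => (a : k))
        ⟨Subtype.val_injective, fun a => ⟨⟨a, (h1_mem σ a).2 (hn a)⟩, rfl⟩⟩)
    rw [h4]
    exact Nat.le_self_pow two_ne_zero _

end H49KE
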