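import Pool.Agent.H49.KE.Defs

namespace H49KE

open H49KA H49KB H49KC

universe u v w

variable {k : Type} [Field k] [Finite k] {V : Type} [AddCommGroup V] [Module k V]
  [FiniteDimensional k V]

omit [Finite k] [FiniteDimensional k V] in
private theorem h10_skew (B : V →ₗ[k] V →ₗ[k] k) (hB : ∀ x, B x x = 0) (x y : V) :
    B y x = - B x y := by
  have h := hB (x + y)
  simp only [map_add, LinearMap.add_apply, hB, zero_add, add_zero] at h
  exact eq_neg_of_add_eq_zero_left h

omit [Finite k] [FiniteDimensional k V] in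
private theorem h10_tv (B : V →ₗ[k] V →ₗ[k] k) (hB : ∀ x, B x x = 0) (v : V) (t : k) :
    ∃ x : V ≃ₗ[k] V, (∀ y, x y = y + (t * B y v) • v) ∧
      ∀ y z, B (x y) (x z) = B y z := by
  set N : V →ₗ[k] V := (t • B.flip v).smulRight v with hN
  have hNa : ∀ y, N y = (t * B y v) • v := fun y => rfl
  have hNN : ∀ y, N (N y) = 0 := by
    intro y
    rw [hNa (N y), hNa y]
    simp [hB]
  refine ⟨LinearEquiv.ofLinearMap (LinearMap.id + N) (LinearMap.id - N) ?_ ?_, fun y => ?_,
    fun y z => ?_⟩
  · ext y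
    simp [hNN]
  · ext y
    simp [hNN]
  · change y + N y = _
    rw [hNa]
  · change B (y + N y) (z + N z) = _
    rw [hNa, hNa]
    have h1 := h10_skew B hB z v
    simp only [map_add, map_smul, LinearMap.add_apply, LinearMap.smul_apply, smul_eq_mul, hB, h1]
    ring

omit [Finite k] in
private theorem h10_rep (B : V →ₗ[k] V →ₗ[k] k) (hB : ∀ x, B x x = 0)
    (hn : ∀ x, (∀ y, B x y = 0) → x = 0) (g : Module.Dual k V) :
    ∃ v : V, ∀ u : V, B u v = g u := by
  have hinj : Function.Injective B.flip := by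
    rw [← LinearMap.ker_eq_bot, LinearMap.ker_eq_bot']
    intro v hv
    refine hn v fun y => ?_
    rw [h10_skew B hB y v]
    have h := congrArg (fun f : V →ₗ[k] k => f y) hv
    simp only [LinearMap.flip_apply, LinearMap.zero_apply] at h
    rw [h, neg_zero]
  have hfr : Module.finrank k V = Module.finrank k (V →ₗ[k] k) :=
    (Subspace.dual_finrank_eq (K := k) (V := V)).symm
  have hsur := (LinearMap.injective_iff_surjective_of_finrank_eq_finrank hfr).1 hinj
  obtain ⟨v, hv⟩ := hsur g
  refine ⟨v, fun u => ?_⟩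
  rw [← hv, LinearMap.flip_apply]

/-- Proof. `B` is the form of `IsSp`; `σ = id`, `ε = -1`. `symm`: alternating. `tr`: the map
`y ↦ y + (t * B y v) • v` is a linear equivalence preserving `B`. `e`: `e = 1`. `hyp`, `hyp1`: a vector
`y` with prescribed values `B v y`, `B w y` exists since `B` is nondegenerate and the vectors are
independent (`B` induces an injective, hence bijective map from `V` to its dual, and a functional
can be prescribed on independent vectors). `iso`: any nonzero vector. `uni` is vacuous. Compare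
`Pool/Agent/H49/KC/HS.lean` and `FS.lean`. -/
theorem hsp_Sp (Γ : Subgroup (V ≃ₗ[k] V)) (hΓ : IsSp Γ) (hdim : 2 ≤ Module.finrank k V) :
    ∃ B : V →ₗ[k] V →ₗ[k] k, HSp Γ (RingHom.id k) (-1) B := by
  obtain ⟨B, hB, hn, hg⟩ := hΓ
  refine ⟨B, ?_⟩
  refine
    { hσ := fun _ => rfl
      hε := Or.inr rfl
      symm := fun x y => ?_
      nondeg := hn
      alt := fun _ x => hB x
      uni := fun h => ?_
      pres := fun g h => (hg g).1 h
      tr := fun v _ t _ => ?_
      e := ⟨1, one_ne_zero, by simp⟩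
      hyp := fun v w hvw _ _ _ => ?_
      hyp1 := fun v hv _ => ?_
      iso := ?_ }
  · rw [h10_skew B hB x y, RingHom.id_apply, neg_one_mul]
  · obtain ⟨a, ha⟩ := h
    exact absurd rfl ha
  · obtain ⟨x, h1, h2⟩ := h10_tv B hB v t
    exact ⟨x, (hg x).2 h2, h1⟩
  · have hv : v ∉ Submodule.span k {w} := by
      intro hmem
      obtain ⟨c, hc⟩ := Submodule.mem_span_singleton.1 hmem
      have h := LinearIndependent.pair_iff.1 hvw 1 (-c) (by rw [one_smul, neg_smul, hc]; simp)
      exact one_ne_zero h.1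
    obtain ⟨f, hf, hker⟩ := Submodule.exists_le_ker_of_notMem hv
    obtain ⟨y, hy⟩ := h10_rep B hB hn ((f v)⁻¹ • f)
    refine ⟨y, hB y, ?_, ?_⟩
    · rw [hy, LinearMap.smul_apply, smul_eq_mul, inv_mul_cancel₀ hf]
    · rw [hy, LinearMap.smul_apply, smul_eq_mul]
      have : f w = 0 := hker (Submodule.mem_span_singleton_self w)
      rw [this, mul_zero]
  · have h : ∃ y, B v y ≠ 0 := by
      by_contra hcon
      push Not at hcon
      exact hv (hn v hcon)
    obtain ⟨y, hy⟩ := h
    refine ⟨(B v y)⁻¹ • y, hB _, ?_⟩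
    rw [map_smul, smul_eq_mul, inv_mul_cancel₀ hy]
  · obtain ⟨v, hv⟩ := (Module.finrank_pos_iff_exists_ne_zero (R := k) (M := V)).1 (by omega)
    exact ⟨v, hv, hB v⟩

end H49KE
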