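import Pool.Agent.H49.KE.Defs
import Pool.Agent.H49.KE.H1
import Pool.Agent.H49.KB.CW
import Pool.Agent.H49.KC.HU

namespace H49KE

open H49KA H49KB H49KC

universe u v w

variable {k : Type} [Field k] [Finite k] {V : Type} [AddCommGroup V] [Module k V]
  [FiniteDimensional k V]

private theorem H11_mem (σ : k →+* k) (a : k) : a ∈ RingHom.eqLocusField σ (RingHom.id k) ↔
    σ a = a := Iff.rfl

/-- the bilinear trace form over the fixed field -/
private def H11_trB (σ : k →+* k) (h : V →ₗ[k] V →ₛₗ[σ] k) (hσ2 : ∀ a, σ (σ a) = a) (c : k) :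
    V →ₗ[FixF σ] V →ₗ[FixF σ] (FixF σ) :=
  LinearMap.mk₂ (FixF σ)
    (fun x y => ⟨c * h x y + σ (c * h x y), by
      rw [H11_mem, map_add, hσ2, add_comm]⟩)
    (by
      intro x x' y
      apply Subtype.ext
      simp only [map_add, LinearMap.add_apply, mul_add, Subfield.coe_add]
      ring)
    (by
      intro a x y
      apply Subtype.ext
      have ha : σ (a : k) = a := a.2
      have h1 : h (a • x) y = (a : k) * h x y := by
        have : (a • x : V) = (a : k) • x := rfl
        rw [this, map_smul, LinearMap.smul_apply, smul_eq_mul]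
      simp only [h1, map_mul, ha, smul_eq_mul, Subfield.coe_mul]
      ring)
    (by
      intro x y y'
      apply Subtype.ext
      simp only [map_add, mul_add, Subfield.coe_add]
      ring)
    (by
      intro a x y
      apply Subtype.ext
      have ha : σ (a : k) = a := a.2
      have h1 : h x (a • y) = (a : k) * h x y := by
        have : (a • y : V) = (a : k) • y := rfl
        rw [this, LinearMap.map_smulₛₗ, smul_eq_mul, ha]
      simp only [h1, map_mul, ha, smul_eq_mul, Subfield.coe_mul]
      ring)

/-- hermitian forms in dimension at least two have isotropic vectors -/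
private theorem H11_iso (σ : k →+* k) (h : V →ₗ[k] V →ₛₗ[σ] k) (hσ : ∃ a, σ a ≠ a)
    (hσ2 : ∀ a, σ (σ a) = a) (hs : ∀ x y, h y x = σ (h x y))
    (hdim : 2 ≤ Module.finrank k V) : ∃ v, v ≠ 0 ∧ h v v = 0 := by
  classical
  obtain ⟨z, hz⟩ : ∃ z, z + σ z ≠ 0 := by
    by_contra hcon
    push Not at hcon
    obtain ⟨a, ha⟩ := hσ
    apply ha
    have h1 := hcon 1
    rw [map_one] at h1
    have h2 := hcon a
    have h3 : a + a = 0 := by
      have : a + a = a * (1 + 1) := by ring
      rw [this, h1, mul_zero]
    have : a + σ a = a + a := by rw [h2, h3]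
    exact add_left_cancel this
  obtain ⟨ξ, hξ⟩ := hσ
  have : IsScalarTower (FixF σ) k V := ⟨fun a b x => by
    change ((a : k) * b) • x = (a : k) • (b • x)
    rw [mul_smul]⟩
  have : FiniteDimensional (FixF σ) k := Module.Finite.of_finite
  have : FiniteDimensional (FixF σ) V := Module.Finite.trans k V
  have h2 : 2 ≤ Module.finrank (FixF σ) k := by
    have hli : LinearIndependent (FixF σ) ![(1 : k), ξ] := by
      rw [LinearIndependent.pair_iff]
      intro s t hst
      have hst' : (s : k) + (t : k) * ξ = 0 := by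
        have := hst
        rw [Subfield.smul_def, Subfield.smul_def, smul_eq_mul, smul_eq_mul, mul_one] at this
        exact this
      have hs : σ (s : k) = s := s.2
      have ht : σ (t : k) = t := t.2
      have h3 : (s : k) + (t : k) * σ ξ = 0 := by
        have := congrArg σ hst'
        rw [map_add, map_mul, hs, ht, map_zero] at this
        exact this
      have h4 : (t : k) * (σ ξ - ξ) = 0 := by
        linear_combination h3 - hst'
      have h5 : (t : k) = 0 := by
        rcases mul_eq_zero.1 h4 with h | h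
        · exact h
        · exact absurd (sub_eq_zero.1 h) hξ
      have h6 : (s : k) = 0 := by
        rw [h5, zero_mul, add_zero] at hst'
        exact hst'
      exact ⟨Subtype.ext h6, Subtype.ext h5⟩
    have := hli.fintype_card_le_finrank
    simpa using this
  have hfr : 2 * Module.finrank k V ≤ Module.finrank (FixF σ) V := by
    rw [← Module.finrank_mul_finrank (FixF σ) k V]
    exact Nat.mul_le_mul_right _ h2
  have hcard : 2 * Nat.card Unit < Module.finrank (FixF σ) V := by
    rw [Nat.card_unique]
    omega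
  obtain ⟨v, hv0, hv⟩ := chev_warn (k := FixF σ) V
    (fun _ : Unit => LinearMap.BilinMap.toQuadraticMap (H11_trB σ h hσ2 z)) hcard
  refine ⟨v, hv0, ?_⟩
  have e1 := congrArg (Subtype.val) (hv ())
  have e2 : z * h v v + σ (z * h v v) = 0 := e1
  rw [map_mul, ← hs v v, ← add_mul] at e2
  exact (mul_eq_zero.1 e2).resolve_left hz

/-- Proof. `σ` and `B = h` are the data of `IsSU`, `ε = 1`. `alt` is vacuous. `pres`: clear.
`tr`: the map `x y = y + (t * B y v) • v` is a transvection (`B v v = 0`), so it has determinant `1`,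
and it preserves `B` when `σ t = -t`. `e`: `e = a - σ a` with `σ a ≠ a`. `hyp`: choose `y₀` with
`B v y₀ = 1`, `B w y₀ = 0` (nondegeneracy and independence, `B` is semilinear in the second
variable) and put `y = y₀ + c v`: `B y y = B y₀ y₀ + c + σ c`, which vanishes for suitable `c`
(`fix_card` (3), `B y₀ y₀` is fixed by `σ`), and `B v y = 1`, `B w y = 0` still hold. `hyp1`: the same.
`iso`: hermitian forms in dimension at least two over a finite field have isotropic vectors:
`x ↦ B x x` is a quadratic form over the field `F = FixF σ` on the `F`-space `V` of dimension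
`2 * finrank k V ≥ 4`, so `H49KB.chev_warn` (`Pool/Agent/H49/KB/CW.lean`, over `F`, with one form)
gives a nonzero zero. (Alternatively orthogonalise and use that the norm `c ↦ c σ(c)` is onto.)
The quadratic form over `F`: compare `trB` in `Pool/Agent/H49/KB/HZ.lean`. -/
theorem hsp_SU (Γ : Subgroup (V ≃ₗ[k] V)) (hΓ : IsSU Γ) (hdim : 2 ≤ Module.finrank k V) :
    ∃ (σ : k →+* k) (B : V →ₗ[k] V →ₛₗ[σ] k), HSp Γ σ 1 B := by
  classical
  obtain ⟨σ, h, hσ1, hσ, hs, hn, hmem⟩ := hΓ
  refine ⟨σ, h, ?_⟩
  have key : ∀ P : Submodule k V, (∀ x ∈ P, ∀ y ∈ P, h x y = 0) → ∀ φ : Module.Dual k P,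
      ∃ y, h y y = 0 ∧ ∀ u : P, h (u : V) y = φ u := by
    intro P hP φ
    obtain ⟨w, -, -, h3, h4⟩ := hyp_SU σ h hσ1 hσ hs hn P hP
    exact ⟨w φ, h4 φ φ, fun u => h3 φ u⟩
  refine
    { hσ := hσ
      hε := Or.inl rfl
      symm := fun x y => by rw [one_mul]; exact hs x y
      nondeg := hn
      alt := fun hid => ?_
      uni := fun _ => rfl
      pres := fun g hg => ((hmem g).1 hg).2
      tr := ?_
      e := ?_
      hyp := ?_
      hyp1 := ?_
      iso := H11_iso σ h hσ1 hσ hs hdim }
  · obtain ⟨a, ha⟩ := hσ1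
    exact absurd (hid a) ha
  · intro v hvv t ht
    let φ : Module.Dual k V :=
      { toFun := fun y => t * h y v
        map_add' := fun y z => by rw [map_add, LinearMap.add_apply, mul_add]
        map_smul' := fun c y => by
          rw [map_smul, LinearMap.smul_apply, smul_eq_mul, smul_eq_mul, RingHom.id_apply]
          ring }
    have hφ : ∀ y, φ y = t * h y v := fun y => rfl
    have hφv : φ v = 0 := by rw [hφ, hvv, mul_zero]
    let x : V ≃ₗ[k] V := LinearEquiv.transvection hφv
    have hx : ∀ y, x y = y + (t * h y v) • v := fun y => rfl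
    refine ⟨x, ?_, hx⟩
    rw [hmem]
    refine ⟨?_, ?_⟩
    · have h1 := LinearEquiv.transvection.det_eq_one hφv
      have h2 := congrArg Units.val h1
      rwa [LinearEquiv.coe_det, Units.val_one] at h2
    · intro y z
      have e1 : h (y + (t * h y v) • v) = h y + (t * h y v) • h v := by
        rw [map_add, map_smul]
      have e2 : ∀ w : V, h w (z + (t * h z v) • v) = h w z + σ (t * h z v) * h w v := by
        intro w
        rw [map_add, LinearMap.map_smulₛₗ, smul_eq_mul]
      rw [hx, hx, e1, LinearMap.add_apply, LinearMap.smul_apply, e2, e2, hvv, map_mul, ht,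
        ← hs z v, smul_eq_mul]
      ring
  · obtain ⟨a, ha⟩ := hσ1
    refine ⟨a - σ a, fun h0 => ha (sub_eq_zero.1 h0).symm, ?_⟩
    rw [map_sub, hσ]
    ring
  · intro v w hvw hv hw hvw0
    have hwv : h w v = 0 := by rw [hs v w, hvw0, map_zero]
    have hP : ∀ x ∈ Submodule.span k {v, w}, ∀ y ∈ Submodule.span k {v, w}, h x y = 0 := by
      intro x hx y hy
      rw [Submodule.mem_span_pair] at hx hy
      obtain ⟨a, b, rfl⟩ := hx
      obtain ⟨c, d, rfl⟩ := hy
      simp only [map_add, map_smul, LinearMap.add_apply, LinearMap.smul_apply,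
        LinearMap.map_smulₛₗ, hv, hw, hvw0, hwv, smul_zero, add_zero]
    -- the functional
    have hnotin : v ∉ Submodule.span k {w} := by
      intro hmem'
      rw [Submodule.mem_span_singleton] at hmem'
      obtain ⟨a, ha⟩ := hmem'
      rw [LinearIndependent.pair_iff] at hvw
      have := hvw 1 (-a) (by rw [one_smul, neg_smul, ha, add_neg_cancel])
      exact one_ne_zero this.1
    obtain ⟨f, hf1, hf2⟩ := Submodule.exists_dual_map_eq_bot_of_notMem hnotin inferInstance
    have hfw : f w = 0 := by
      have h1 : f w ∈ (Submodule.span k {w}).map f :=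
        Submodule.mem_map_of_mem (Submodule.mem_span_singleton_self w)
      rw [hf2] at h1
      exact (Submodule.mem_bot k).1 h1
    obtain ⟨y, hy1, hy2⟩ := key _ hP (((f v)⁻¹ • f).comp (Submodule.span k {v, w}).subtype)
    refine ⟨y, hy1, ?_, ?_⟩
    · have h1 := hy2 ⟨v, Submodule.subset_span (by simp)⟩
      rw [LinearMap.comp_apply, Submodule.subtype_apply, LinearMap.smul_apply, smul_eq_mul,
        inv_mul_cancel₀ hf1] at h1
      exact h1
    · have h1 := hy2 ⟨w, Submodule.subset_span (by simp)⟩
      rw [LinearMap.comp_apply, Submodule.subtype_apply, LinearMap.smul_apply, smul_eq_mul,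
        hfw, mul_zero] at h1
      exact h1
  · intro v hv0 hv
    have hP : ∀ x ∈ Submodule.span k {v}, ∀ y ∈ Submodule.span k {v}, h x y = 0 := by
      intro x hx y hy
      rw [Submodule.mem_span_singleton] at hx hy
      obtain ⟨a, rfl⟩ := hx
      obtain ⟨c, rfl⟩ := hy
      simp only [map_smul, LinearMap.smul_apply, LinearMap.map_smulₛₗ, hv, smul_zero]
    obtain ⟨f, hf1⟩ : ∃ f : Module.Dual k V, f v ≠ 0 := by
      by_contra hcon
      push Not at hcon
      exact hv0 ((Module.forall_dual_apply_eq_zero_iff k v).1 hcon)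
    obtain ⟨y, hy1, hy2⟩ := key _ hP (((f v)⁻¹ • f).comp (Submodule.span k {v}).subtype)
    refine ⟨y, hy1, ?_⟩
    have h1 := hy2 ⟨v, Submodule.mem_span_singleton_self v⟩
    rw [LinearMap.comp_apply, Submodule.subtype_apply, LinearMap.smul_apply, smul_eq_mul,
      inv_mul_cancel₀ hf1] at h1
    exact h1

end H49KE
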