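import Pool.Agent.H49.KE.Defs
import Pool.Agent.H49.KE.H1

namespace H49KE

open H49KA H49KB H49KC

universe u v w

variable {k : Type} [Field k] [Finite k] {V : Type} [AddCommGroup V] [Module k V]
  [FiniteDimensional k V] {Γ : Subgroup (V ≃ₗ[k] V)} {σ : k →+* k} {ε : k}
  {B : V →ₗ[k] V →ₛₗ[σ] k}

omit [Finite k] [FiniteDimensional k V] in
private theorem h2_mem (_h : HSp Γ σ ε B) (v : V) (hv' : B v v = 0) (x : Γ) :
    x ∈ tvh Γ ε B v ↔ ∃ t : k, σ t = -ε * t ∧ ∀ y, (x : V ≃ₗ[k] V) y = y + (t * B y v) • v := by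
  constructor
  · intro hx
    unfold tvh at hx
    induction hx using Subgroup.closure_induction with
    | mem x hx => exact hx
    | one =>
      refine ⟨0, by simp, fun y => ?_⟩
      simp
    | mul a b _ _ ha hb =>
      obtain ⟨s, hs, hs2⟩ := ha
      obtain ⟨t, ht, ht2⟩ := hb
      refine ⟨s + t, ?_, fun y => ?_⟩
      · rw [map_add, hs, ht]
        ring
      · rw [Subgroup.coe_mul, LinearEquiv.mul_apply, ht2, hs2, map_add, LinearMap.add_apply,
          map_smul, LinearMap.smul_apply, hv', smul_zero, add_zero, add_assoc, ← add_smul]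
        congr 2
        ring
    | inv a _ ha =>
      obtain ⟨t, ht, ht2⟩ := ha
      refine ⟨-t, ?_, fun y => ?_⟩
      · rw [map_neg, ht]
        ring
      · apply (a : V ≃ₗ[k] V).injective
        have h1 : (a : V ≃ₗ[k] V) (((a⁻¹ : Γ) : V ≃ₗ[k] V) y) = y := by
          rw [← LinearEquiv.mul_apply, ← Subgroup.coe_mul, mul_inv_cancel, Subgroup.coe_one]
          rfl
        rw [h1, ht2, map_add, LinearMap.add_apply,
          map_smul, LinearMap.smul_apply, hv', smul_zero, add_zero, add_assoc, ← add_smul]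
        have h2 : -t * B y v + t * B y v = 0 := by ring
        rw [h2, zero_smul, add_zero]
  · intro hx
    exact Subgroup.subset_closure hx

omit [Finite k] [FiniteDimensional k V] in
private theorem h2_ne (h : HSp Γ σ ε B) (v : V) (hv : v ≠ 0) : ∃ y, B y v ≠ 0 := by
  by_contra hcon
  push Not at hcon
  apply hv
  apply h.nondeg v
  intro y
  have h1 := h.symm y v
  rw [hcon y, map_zero, mul_zero] at h1
  exact h1

/-- Proof. (1) The set of all `x : Γ` of the given form is a subgroup: the maps with `s` and `t`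
compose to the map with `s + t` since `B v v = 0`. (2) By `h.tr` there is such an `x` for every
`t` with `σ t = -ε t`, different `t` give different maps (`B y v ≠ 0` for some `y` by `nondeg` and
`symm`), and by `fix_card` (2) (with `h.e`) there are `|FixF σ|` such `t`. (3)
`g x g⁻¹ y = y + (t * B (g⁻¹ y) v) • g v = y + (t * B y (g v)) • g v` by `h.pres`. (4) For `c • v` the
coefficient is `t σ(c) c B y v`, and `t ↦ t σ(c) c` is a bijection of `{t | σ t = -ε t}`. -/
theorem tvh_basic (h : HSp Γ σ ε B) (v : V) (hv : v ≠ 0) (hv' : B v v = 0) :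
    (∀ x : Γ, x ∈ tvh Γ ε B v ↔
      ∃ t : k, σ t = -ε * t ∧ ∀ y, (x : V ≃ₗ[k] V) y = y + (t * B y v) • v) ∧
    Nat.card (tvh Γ ε B v) = Nat.card (FixF σ) ∧
    (∀ g : Γ, (tvh Γ ε B v).map (MulAut.conj g).toMonoidHom =
      tvh Γ ε B ((g : V ≃ₗ[k] V) v)) ∧
    (∀ c : k, c ≠ 0 → tvh Γ ε B (c • v) = tvh Γ ε B v) := by
  refine ⟨fun x => h2_mem h v hv' x, ?_, ?_, ?_⟩
  · obtain ⟨e, he, he2⟩ := h.e
    have hfix := (fix_card σ ε h.hσ).2.1 e he he2 h.hε
    obtain ⟨y, hy⟩ := h2_ne h v hv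
    have hex : ∀ a : FixF σ, ∃ x : Γ, x ∈ tvh Γ ε B v ∧
        ∀ y, (x : V ≃ₗ[k] V) y = y + (((a : k) * e) * B y v) • v := by
      intro a
      have h1 : σ ((a : k) * e) = -ε * ((a : k) * e) := (hfix _).2 ⟨a, rfl⟩
      obtain ⟨x, hx, hx2⟩ := h.tr v hv' _ h1
      exact ⟨⟨x, hx⟩, (h2_mem h v hv' _).2 ⟨_, h1, hx2⟩, hx2⟩
    choose X hX hX2 using hex
    symm
    refine Nat.card_eq_of_bijective (fun a : FixF σ => (⟨X a, hX a⟩ : tvh Γ ε B v)) ⟨?_, ?_⟩
    · intro a b hab
      have h1 : X a = X b := congrArg Subtype.val hab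
      have h2 := hX2 a y
      rw [h1, hX2 b y] at h2
      have h3 := add_left_cancel h2
      have h4 : (((b : k) * e) * B y v - ((a : k) * e) * B y v) • v = 0 := by
        rw [sub_smul, h3, sub_self]
      rcases smul_eq_zero.1 h4 with h5 | h5
      · have h6 : (((b : k) - (a : k)) * (e * B y v)) = 0 := by
          rw [← h5]
          ring
        rcases mul_eq_zero.1 h6 with h7 | h7
        · exact Subtype.ext (sub_eq_zero.1 h7).symm
        · exact absurd h7 (mul_ne_zero he hy)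
      · exact absurd h5 hv
    · rintro ⟨x, hx⟩
      obtain ⟨t, ht, ht2⟩ := (h2_mem h v hv' x).1 hx
      obtain ⟨a, ha⟩ := (hfix t).1 ht
      refine ⟨a, ?_⟩
      apply Subtype.ext
      apply Subtype.ext
      apply LinearEquiv.ext
      intro z
      show (X a : V ≃ₗ[k] V) z = (x : V ≃ₗ[k] V) z
      rw [hX2 a z, ht2 z, ha]
  · intro g
    have hgv : B ((g : V ≃ₗ[k] V) v) ((g : V ≃ₗ[k] V) v) = 0 := by
      rw [h.pres g g.2, hv']
    have hinv : ∀ z, (g : V ≃ₗ[k] V) (((g⁻¹ : Γ) : V ≃ₗ[k] V) z) = z := by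
      intro z
      rw [← LinearEquiv.mul_apply, ← Subgroup.coe_mul, mul_inv_cancel, Subgroup.coe_one]
      rfl
    have hinv' : ∀ z, (((g⁻¹ : Γ) : V ≃ₗ[k] V) ((g : V ≃ₗ[k] V) z)) = z := by
      intro z
      rw [← LinearEquiv.mul_apply, ← Subgroup.coe_mul, inv_mul_cancel, Subgroup.coe_one]
      rfl
    ext x
    rw [Subgroup.mem_map, h2_mem h _ hgv]
    constructor
    · rintro ⟨x', hx', rfl⟩
      obtain ⟨t, ht, ht2⟩ := (h2_mem h v hv' x').1 hx'
      refine ⟨t, ht, fun z => ?_⟩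
      have h1 : (((MulAut.conj g).toMonoidHom x' : Γ) : V ≃ₗ[k] V) z =
          (g : V ≃ₗ[k] V) ((x' : V ≃ₗ[k] V) (((g⁻¹ : Γ) : V ≃ₗ[k] V) z)) := by
        rw [← LinearEquiv.mul_apply, ← LinearEquiv.mul_apply, ← Subgroup.coe_mul,
          ← Subgroup.coe_mul]
        rfl
      rw [h1, ht2, map_add, map_smul, hinv, ← h.pres g g.2 (((g⁻¹ : Γ) : V ≃ₗ[k] V) z) v, hinv]
    · rintro ⟨t, ht, ht2⟩
      refine ⟨g⁻¹ * x * g, (h2_mem h v hv' _).2 ⟨t, ht, fun z => ?_⟩, ?_⟩
      · have h1 : ((g⁻¹ * x * g : Γ) : V ≃ₗ[k] V) z =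
            (((g⁻¹ : Γ) : V ≃ₗ[k] V) ((x : V ≃ₗ[k] V) ((g : V ≃ₗ[k] V) z))) := by
          rw [← LinearEquiv.mul_apply, ← LinearEquiv.mul_apply, ← Subgroup.coe_mul,
            ← Subgroup.coe_mul]
        rw [h1, ht2, map_add, map_smul, hinv', hinv', h.pres g g.2]
      · show g * (g⁻¹ * x * g) * g⁻¹ = x
        group
  · intro c hc
    have hcv : B (c • v) (c • v) = 0 := by
      rw [LinearMap.map_smulₛₗ, LinearMap.map_smul, LinearMap.smul_apply, hv', smul_zero, smul_zero]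
    have hσc : σ c ≠ 0 := (map_ne_zero σ).2 hc
    ext x
    rw [h2_mem h _ hcv, h2_mem h v hv']
    constructor
    · rintro ⟨t, ht, ht2⟩
      refine ⟨t * σ c * c, ?_, fun y => ?_⟩
      · rw [map_mul, map_mul, h.hσ, ht]
        ring
      · rw [ht2, LinearMap.map_smulₛₗ, smul_smul, smul_eq_mul]
        congr 2
        ring
    · rintro ⟨t, ht, ht2⟩
      refine ⟨t * (σ c)⁻¹ * c⁻¹, ?_, fun y => ?_⟩
      · rw [map_mul, map_mul, map_inv₀, map_inv₀, h.hσ, ht]
        ring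
      · rw [ht2, LinearMap.map_smulₛₗ, smul_smul, smul_eq_mul]
        congr 2
        field_simp

end H49KE
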