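import Pool.Agent.H49.KE.Defs

namespace H49KE

open H49KA H49KB H49KC

universe u v w

variable {F : Type} [Field F] [Finite F]

/-- Proof. Generation: let `g = (a b; c d)`. If `c ≠ 0` then
`g = up ((a - 1) / c) * lo c * up ((d - 1) / c)`. If `c = 0` then `d ≠ 0` and `g * lo 1` has lower left
entry `d ≠ 0`. For the fourth part `w = (0 1; -1 0)`, for the fifth `h = diag (s, s⁻¹)`. -/
theorem sl2_gen : Subgroup.closure (Set.range (up : F → _) ∪ Set.range (lo : F → _)) = ⊤ ∧
    (∀ s t : F, (up s : Matrix.SpecialLinearGroup (Fin 2) F) * up t = up (s + t)) ∧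
    (∀ s t : F, (lo s : Matrix.SpecialLinearGroup (Fin 2) F) * lo t = lo (s + t)) ∧
    (∃ w : Matrix.SpecialLinearGroup (Fin 2) F, ∀ t : F, w * up t * w⁻¹ = lo (-t)) ∧
    (∀ s : F, s ≠ 0 → ∃ h : Matrix.SpecialLinearGroup (Fin 2) F,
      ∀ t : F, h * up t * h⁻¹ = up (s ^ 2 * t)) := by
  have upm : ∀ s t : F, (up s : Matrix.SpecialLinearGroup (Fin 2) F) * up t = up (s + t) := by
    intro s t
    ext i j
    fin_cases i <;> fin_cases j <;> simp [up, Matrix.mul_apply, Fin.sum_univ_two, add_comm]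
  have lom : ∀ s t : F, (lo s : Matrix.SpecialLinearGroup (Fin 2) F) * lo t = lo (s + t) := by
    intro s t
    ext i j
    fin_cases i <;> fin_cases j <;> simp [lo, Matrix.mul_apply, Fin.sum_univ_two, add_comm]
  have hc : ∀ g : Matrix.SpecialLinearGroup (Fin 2) F, g 1 0 ≠ 0 →
      g ∈ Subgroup.closure (Set.range (up : F → _) ∪ Set.range (lo : F → _)) := by
    intro g hg
    have hdet : g 0 0 * g 1 1 - g 0 1 * g 1 0 = 1 := by
      have := g.det_coe
      rwa [Matrix.det_fin_two] at this
    have e : g = up ((g 0 0 - 1) / g 1 0) * lo (g 1 0) * up ((g 1 1 - 1) / g 1 0) := by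
      ext i j
      fin_cases i <;> fin_cases j
      · simp [up, lo, Matrix.mul_apply, Fin.sum_univ_two]
        field_simp
        ring
      · simp [up, lo, Matrix.mul_apply, Fin.sum_univ_two]
        field_simp
        linear_combination -hdet
      · simp [up, lo, Matrix.mul_apply, Fin.sum_univ_two]
      · simp [up, lo, Matrix.mul_apply, Fin.sum_univ_two]
        field_simp
        ring
    rw [e]
    exact Subgroup.mul_mem _ (Subgroup.mul_mem _
      (Subgroup.subset_closure (Or.inl ⟨_, rfl⟩)) (Subgroup.subset_closure (Or.inr ⟨_, rfl⟩)))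
      (Subgroup.subset_closure (Or.inl ⟨_, rfl⟩))
  refine ⟨?_, upm, lom, ?_, ?_⟩
  · rw [eq_top_iff]
    intro g _
    by_cases h : g 1 0 = 0
    · have hdet : g 0 0 * g 1 1 - g 0 1 * g 1 0 = 1 := by
        have := g.det_coe
        rwa [Matrix.det_fin_two] at this
      let l : Matrix.SpecialLinearGroup (Fin 2) F := lo 1
      have hd : g 1 1 ≠ 0 := by
        intro h0
        rw [h, h0] at hdet
        simp at hdet
      have h1 : (g * l) 1 0 ≠ 0 := by
        have : (g * l) 1 0 = g 1 0 + g 1 1 := by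
          simp [l, lo, Matrix.mul_apply, Fin.sum_univ_two]
        rw [this, h, zero_add]
        exact hd
      have h2 := hc _ h1
      have h3 : l ∈
          Subgroup.closure (Set.range (up : F → _) ∪ Set.range (lo : F → _)) :=
        Subgroup.subset_closure (Or.inr ⟨_, rfl⟩)
      have h4 := Subgroup.mul_mem _ h2 (Subgroup.inv_mem _ h3)
      rwa [mul_inv_cancel_right] at h4
    · exact hc g h
  · refine ⟨⟨!![0, 1; -1, 0], by simp⟩, fun t => ?_⟩
    rw [mul_inv_eq_iff_eq_mul]
    ext i j
    fin_cases i <;> fin_cases j <;> simp [up, lo, Matrix.mul_apply, Fin.sum_univ_two]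
  · intro s hs
    refine ⟨⟨!![s, 0; 0, s⁻¹], by simp [hs]⟩, fun t => ?_⟩
    rw [mul_inv_eq_iff_eq_mul]
    ext i j
    fin_cases i <;> fin_cases j
    · simp [up, Matrix.mul_apply, Fin.sum_univ_two]
    · simp [up, Matrix.mul_apply, Fin.sum_univ_two]
      field_simp
    · simp [up, Matrix.mul_apply, Fin.sum_univ_two]
    · simp [up, Matrix.mul_apply, Fin.sum_univ_two]

end H49KE
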