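import Pool.Agent.H49.KE.Defs
import Pool.Agent.H49.KE.G1

namespace H49KE

open H49KA H49KB H49KC

universe u v w

variable {F : Type} [Field F] [Finite F]

/-- Proof. The preimage of `Γ` under `φ` contains the generators of `sl2_gen`. -/
theorem sl2_lift {H : Type v} [Group H] (φ : Matrix.SpecialLinearGroup (Fin 2) F →* H)
    (Γ : Subgroup H) (h1 : ∀ t : F, φ (up t) ∈ Γ) (h2 : ∀ t : F, φ (lo t) ∈ Γ)
    (g : Matrix.SpecialLinearGroup (Fin 2) F) : φ g ∈ Γ := by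
  have h : (⊤ : Subgroup (Matrix.SpecialLinearGroup (Fin 2) F)) ≤ Γ.comap φ := by
    rw [← (sl2_gen (F := F)).1, Subgroup.closure_le]
    rintro x (⟨t, rfl⟩ | ⟨t, rfl⟩)
    · exact h1 t
    · exact h2 t
  exact h (Subgroup.mem_top g)

/-- The linear map of `sl2_plane`. -/
private def planeMap {k : Type} [Field k] (ι : F →+* k) {V : Type} [AddCommGroup V] [Module k V]
    (v w : V) (α γ : Module.Dual k V) (κ : k) (g : Matrix.SpecialLinearGroup (Fin 2) F) :
    V →ₗ[k] V :=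
  LinearMap.id + (((ι (g.1 0 0) - 1) • α + (ι (g.1 0 1) * κ) • γ).smulRight v +
    ((ι (g.1 1 0) * κ⁻¹) • α + (ι (g.1 1 1) - 1) • γ).smulRight w)

omit [Finite F] in
private theorem planeMap_apply {k : Type} [Field k] (ι : F →+* k) {V : Type} [AddCommGroup V]
    [Module k V] (v w : V) (α γ : Module.Dual k V) (κ : k)
    (g : Matrix.SpecialLinearGroup (Fin 2) F) (y : V) :
    planeMap ι v w α γ κ g y =
      y + ((ι (g.1 0 0) - 1) * α y + ι (g.1 0 1) * κ * γ y) • v +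
        (ι (g.1 1 0) * κ⁻¹ * α y + (ι (g.1 1 1) - 1) * γ y) • w := by
  simp [planeMap, add_assoc]

/-- Proof. Let `f g y` be the right hand side. `f g` is linear in `y`, `f 1 = id`, and
`f (g * h) y = f g (f h y)` by a computation with `α (f h y)` and `γ (f h y)` (use `h1`, ..., `h4` and
`κ κ⁻¹ = 1`). So `φ g` is the linear equivalence with inverse `f g⁻¹`
(`LinearEquiv.ofLinear`), or use `MonoidHom.toHomUnits`. -/
theorem sl2_plane {k : Type} [Field k] (ι : F →+* k) {V : Type} [AddCommGroup V] [Module k V]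
    (v w : V) (α γ : Module.Dual k V) (κ : k) (hκ : κ ≠ 0) (h1 : α v = 1) (h2 : α w = 0)
    (h3 : γ v = 0) (h4 : γ w = 1) :
    ∃ φ : Matrix.SpecialLinearGroup (Fin 2) F →* (V ≃ₗ[k] V), ∀ g y, φ g y =
      y + ((ι (g.1 0 0) - 1) * α y + ι (g.1 0 1) * κ * γ y) • v +
        (ι (g.1 1 0) * κ⁻¹ * α y + (ι (g.1 1 1) - 1) * γ y) • w := by
  have hone : planeMap ι v w α γ κ (1 : Matrix.SpecialLinearGroup (Fin 2) F) = 1 := by
    ext y
    rw [planeMap_apply]
    simp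
  have hα : ∀ (g : Matrix.SpecialLinearGroup (Fin 2) F) (y : V),
      α (planeMap ι v w α γ κ g y) = ι (g.1 0 0) * α y + ι (g.1 0 1) * κ * γ y := by
    intro g y
    rw [planeMap_apply]
    simp only [map_add, map_smul, h1, h2, smul_eq_mul]
    ring
  have hγ : ∀ (g : Matrix.SpecialLinearGroup (Fin 2) F) (y : V),
      γ (planeMap ι v w α γ κ g y) = ι (g.1 1 0) * κ⁻¹ * α y + ι (g.1 1 1) * γ y := by
    intro g y
    rw [planeMap_apply]
    simp only [map_add, map_smul, h3, h4, smul_eq_mul]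
    ring
  have hmul : ∀ g h : Matrix.SpecialLinearGroup (Fin 2) F,
      planeMap ι v w α γ κ (g * h) = planeMap ι v w α γ κ g * planeMap ι v w α γ κ h := by
    intro g h
    ext y
    rw [Module.End.mul_apply, planeMap_apply ι v w α γ κ g, hα, hγ, planeMap_apply ι v w α γ κ h,
      planeMap_apply]
    have e00 : (g * h).1 0 0 = g.1 0 0 * h.1 0 0 + g.1 0 1 * h.1 1 0 := by
      simp [Matrix.mul_apply, Fin.sum_univ_two]
    have e01 : (g * h).1 0 1 = g.1 0 0 * h.1 0 1 + g.1 0 1 * h.1 1 1 := by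
      simp [Matrix.mul_apply, Fin.sum_univ_two]
    have e10 : (g * h).1 1 0 = g.1 1 0 * h.1 0 0 + g.1 1 1 * h.1 1 0 := by
      simp [Matrix.mul_apply, Fin.sum_univ_two]
    have e11 : (g * h).1 1 1 = g.1 1 0 * h.1 0 1 + g.1 1 1 * h.1 1 1 := by
      simp [Matrix.mul_apply, Fin.sum_univ_two]
    rw [e00, e01, e10, e11]
    simp only [map_add, map_mul]
    have c1 : ((ι (g.1 0 0) * ι (h.1 0 0) + ι (g.1 0 1) * ι (h.1 1 0) - 1) * α y +
        (ι (g.1 0 0) * ι (h.1 0 1) + ι (g.1 0 1) * ι (h.1 1 1)) * κ * γ y) =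
        ((ι (h.1 0 0) - 1) * α y + ι (h.1 0 1) * κ * γ y) +
        ((ι (g.1 0 0) - 1) * (ι (h.1 0 0) * α y + ι (h.1 0 1) * κ * γ y) +
          ι (g.1 0 1) * κ * (ι (h.1 1 0) * κ⁻¹ * α y + ι (h.1 1 1) * γ y)) := by
      field_simp
      ring
    have c2 : ((ι (g.1 1 0) * ι (h.1 0 0) + ι (g.1 1 1) * ι (h.1 1 0)) * κ⁻¹ * α y +
        (ι (g.1 1 0) * ι (h.1 0 1) + ι (g.1 1 1) * ι (h.1 1 1) - 1) * γ y) =
        (ι (h.1 1 0) * κ⁻¹ * α y + (ι (h.1 1 1) - 1) * γ y) +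
        (ι (g.1 1 0) * κ⁻¹ * (ι (h.1 0 0) * α y + ι (h.1 0 1) * κ * γ y) +
          (ι (g.1 1 1) - 1) * (ι (h.1 1 0) * κ⁻¹ * α y + ι (h.1 1 1) * γ y)) := by
      field_simp
      ring
    rw [c1, c2]
    module
  refine ⟨(LinearMap.GeneralLinearGroup.generalLinearEquiv k V).toMonoidHom.comp
    (MonoidHom.toHomUnits
      (MonoidHom.mk ⟨fun g => planeMap ι v w α γ κ g, hone⟩ hmul)), fun g y => ?_⟩
  rw [← planeMap_apply]
  rfl

end H49KE
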