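import Pool.Agent.H49.KE.Defs
import Pool.Agent.H49.KE.G5
import Pool.Agent.H49.KE.H1
import Pool.Agent.H49.KE.H2

namespace H49KE

open H49KA H49KB H49KC

universe u v w

variable {k : Type} [Field k] [Finite k] {V : Type} [AddCommGroup V] [Module k V]
  [FiniteDimensional k V] {Γ : Subgroup (V ≃ₗ[k] V)} {σ : k →+* k} {ε : k}
  {B : V →ₗ[k] V →ₛₗ[σ] k}

private theorem H3_up {F : Type} [Field F] (t : F) :
    (up t).1 0 0 = 1 ∧ (up t).1 0 1 = t ∧ (up t).1 1 0 = 0 ∧ (up t).1 1 1 = 1 := by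
  refine ⟨rfl, rfl, rfl, rfl⟩

private theorem H3_lo {F : Type} [Field F] (t : F) :
    (lo t).1 0 0 = 1 ∧ (lo t).1 0 1 = 0 ∧ (lo t).1 1 0 = t ∧ (lo t).1 1 1 = 1 := by
  refine ⟨rfl, rfl, rfl, rfl⟩

/-- Proof. Let `e` be as in `h.e`, `b = B v w`. Apply `sl2_plane` with `F = FixF σ`, `ι` the
inclusion, the vectors `v, w`, `α y = B y w / B v w`, `γ y = B y v / B w v`, `κ = e * B w v`. Then
`φ (up t) y = y + (t e B y v) • v` and `σ (t e) = -ε (t e)`; and
`φ (lo t) y = y + (t / (e * B w v * B v w) * B y w) • w`. Here `B w v * B v w = ε N` with `N = b σ(b)`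
fixed by `σ`, so `t' = t / (e ε N)` satisfies `σ t' = -ε t'` (`ε² = 1`), and every such `t'` occurs, with
`t = t' e ε N` (fixed by `σ`). By `tvh_basic` (1) and `fix_card` (2) the images are the two
groups. By `h.tr` and `sl2_lift` the values of `φ` lie in `Γ`; restrict the codomain. -/
theorem HU_opp (h : HSp Γ σ ε B) (v w : V) (hv : B v v = 0) (hw : B w w = 0)
    (hvw : B v w ≠ 0) : Opp (FixF σ) (tvh Γ ε B v) (tvh Γ ε B w) := by
  obtain ⟨e, he0, he⟩ := h.e
  have hv0 : v ≠ 0 := by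
    rintro rfl
    exact hvw (by rw [map_zero, LinearMap.zero_apply])
  have hw0 : w ≠ 0 := by
    rintro rfl
    exact hvw (map_zero _)
  have hε2 : ε * ε = 1 := by
    rcases h.hε with h1 | h1
    · rw [h1, one_mul]
    · rw [h1, neg_mul_neg, one_mul]
  have hε0 : ε ≠ 0 := left_ne_zero_of_mul_eq_one hε2
  have hσε : σ ε = ε := by
    rcases h.hε with h1 | h1
    · rw [h1, map_one]
    · rw [h1, map_neg, map_one]
  have hwv : B w v = ε * σ (B v w) := h.symm v w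
  have hwv0 : B w v ≠ 0 := by
    rw [hwv]
    exact mul_ne_zero hε0 ((map_ne_zero σ).2 hvw)
  obtain ⟨e', he'⟩ : ∃ e', e' = (e * B w v * B v w)⁻¹ := ⟨_, rfl⟩
  have he'0 : e' ≠ 0 := by
    rw [he']
    exact inv_ne_zero (mul_ne_zero (mul_ne_zero he0 hwv0) hvw)
  have hσe' : σ e' = -ε * e' := by
    have h1 : σ (e * B w v * B v w) = -ε * (e * B w v * B v w) := by
      rw [map_mul, map_mul, he, hwv, map_mul, h.hσ, hσε]
      ring
    have h2 : (-ε)⁻¹ = -ε := by
      rw [inv_neg, inv_eq_of_mul_eq_one_left hε2]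
    rw [he', map_inv₀, h1, mul_inv, h2]
  obtain ⟨_, f2, _⟩ := fix_card σ ε h.hσ
  have t1 := f2 e he0 he h.hε
  have t2 := f2 e' he'0 hσe' h.hε
  obtain ⟨φ, hφ⟩ := sl2_plane (F := FixF σ) (Subfield.subtype _) v w ((B v w)⁻¹ • B.flip w)
    ((B w v)⁻¹ • B.flip v) (e * B w v) (mul_ne_zero he0 hwv0)
    (by rw [LinearMap.smul_apply, LinearMap.flip_apply, smul_eq_mul, inv_mul_cancel₀ hvw])
    (by rw [LinearMap.smul_apply, LinearMap.flip_apply, smul_eq_mul, hw, mul_zero])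
    (by rw [LinearMap.smul_apply, LinearMap.flip_apply, smul_eq_mul, hv, mul_zero])
    (by rw [LinearMap.smul_apply, LinearMap.flip_apply, smul_eq_mul, inv_mul_cancel₀ hwv0])
  have up_eq : ∀ (a : FixF σ) (y : V), φ (up a) y = y + ((a : k) * e * B y v) • v := by
    intro a y
    obtain ⟨u1, u2, u3, u4⟩ := H3_up a
    rw [hφ, u1, u2, u3, u4, map_one, map_zero, sub_self, zero_mul, zero_mul, zero_mul, zero_mul,
      zero_add, zero_add, zero_smul, add_zero, LinearMap.smul_apply, LinearMap.flip_apply,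
      smul_eq_mul]
    congr 2
    show (a : k) * (e * B w v) * ((B w v)⁻¹ * B y v) = (a : k) * e * B y v
    field_simp
  have lo_eq : ∀ (a : FixF σ) (y : V), φ (lo a) y = y + ((a : k) * e' * B y w) • w := by
    intro a y
    obtain ⟨u1, u2, u3, u4⟩ := H3_lo a
    rw [hφ, u1, u2, u3, u4, map_one, map_zero, sub_self, zero_mul, zero_mul, zero_mul,
      add_zero, add_zero, zero_smul, add_zero, LinearMap.smul_apply, LinearMap.flip_apply,
      smul_eq_mul]
    congr 2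
    show (a : k) * (e * B w v)⁻¹ * ((B v w)⁻¹ * B y w) = (a : k) * e' * B y w
    rw [he']
    field_simp
  have upm : ∀ a : FixF σ, φ (up a) ∈ Γ := fun a => by
    obtain ⟨x, hx, hxy⟩ := h.tr v hv ((a : k) * e) ((t1 _).2 ⟨a, rfl⟩)
    have : φ (up a) = x := by
      ext y
      rw [up_eq, hxy]
    rw [this]
    exact hx
  have lom : ∀ a : FixF σ, φ (lo a) ∈ Γ := fun a => by
    obtain ⟨x, hx, hxy⟩ := h.tr w hw ((a : k) * e') ((t2 _).2 ⟨a, rfl⟩)
    have : φ (lo a) = x := by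
      ext y
      rw [lo_eq, hxy]
    rw [this]
    exact hx
  have hΓ : ∀ g, φ g ∈ Γ := sl2_lift φ Γ upm lom
  refine ⟨φ.codRestrict Γ hΓ, fun x => ?_, fun x => ?_⟩
  · rw [(tvh_basic h v hv0 hv).1 x]
    constructor
    · rintro ⟨t, ht, hx⟩
      obtain ⟨a, rfl⟩ := (t1 t).1 ht
      refine ⟨a, ?_⟩
      apply Subtype.ext
      ext y
      rw [hx]
      exact up_eq a y
    · rintro ⟨a, rfl⟩
      exact ⟨(a : k) * e, (t1 _).2 ⟨a, rfl⟩, fun y => up_eq a y⟩
  · rw [(tvh_basic h w hw0 hw).1 x]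
    constructor
    · rintro ⟨t, ht, hx⟩
      obtain ⟨a, rfl⟩ := (t2 t).1 ht
      refine ⟨a, ?_⟩
      apply Subtype.ext
      ext y
      rw [hx]
      exact lo_eq a y
    · rintro ⟨a, rfl⟩
      exact ⟨(a : k) * e', (t2 _).2 ⟨a, rfl⟩, fun y => lo_eq a y⟩

end H49KE
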