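import Pool.Agent.H49.KE.Defs
import Pool.Agent.H49.KE.H1

namespace H49KE

open H49KA H49KB H49KC

universe u v w

variable {k : Type} [Field k] [Finite k] {V : Type} [AddCommGroup V] [Module k V]
  [FiniteDimensional k V] {Γ : Subgroup (V ≃ₗ[k] V)} {σ : k →+* k} {ε : k}
  {B : V →ₗ[k] V →ₛₗ[σ] k}

omit [Finite k] [FiniteDimensional k V] in
/-- the case of two vectors which are not orthogonal -/
private theorem HU_trans_aux (h : HSp Γ σ ε B) (v w : V) (hv' : B v v = 0)
    (hw' : B w w = 0) (hvw : B v w ≠ 0) : ∃ g ∈ Γ, ∃ c : k, c ≠ 0 ∧ g v = c • w := by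
  obtain ⟨t, ht0, ht⟩ := h.e
  have hεε : ε * ε = 1 := by
    rcases h.hε with h1 | h1 <;> rw [h1] <;> ring
  have hε0 : ε ≠ 0 := by
    intro h0
    rw [h0, mul_zero] at hεε
    exact zero_ne_one hεε
  have hσε : σ ε = ε := by
    rcases h.hε with h1 | h1
    · rw [h1, map_one]
    · rw [h1, map_neg, map_one]
  have hwv : B w v ≠ 0 := by
    rw [h.symm v w]
    exact mul_ne_zero hε0 ((map_ne_zero σ).mpr hvw)
  set s : k := -(t * B v w * B w v)⁻¹ with hs
  have hD : t * B v w * B w v ≠ 0 := mul_ne_zero (mul_ne_zero ht0 hvw) hwv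
  have hσD : σ (t * B v w * B w v) = -ε * (t * B v w * B w v) := by
    have h1 : σ (B w v) = ε * B v w := by
      rw [h.symm v w, map_mul, hσε, h.hσ]
    have h2 : σ (B v w) = ε * B w v := by
      rw [h.symm w v, map_mul, hσε, h.hσ]
    rw [map_mul, map_mul, ht, h1, h2]
    calc -ε * t * (ε * B w v) * (ε * B v w) = (ε * ε) * (-ε * (t * B v w * B w v)) := by ring
      _ = -ε * (t * B v w * B w v) := by rw [hεε, one_mul]
  have hσs : σ s = -ε * s := by
    rw [hs, map_neg, map_inv₀, hσD, mul_inv]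
    have h3 : (-ε)⁻¹ = -ε := by
      rw [inv_eq_iff_eq_inv, eq_comm, inv_eq_of_mul_eq_one_right]
      rw [neg_mul_neg]
      exact hεε
    rw [h3]
    ring
  obtain ⟨x, hx, hx'⟩ := h.tr w hw' t ht
  obtain ⟨y, hy, hy'⟩ := h.tr v hv' s hσs
  refine ⟨y * x, Γ.mul_mem hy hx, t * B v w, mul_ne_zero ht0 hvw, ?_⟩
  rw [LinearEquiv.mul_apply, hx', hy', map_add, map_smul, LinearMap.add_apply,
    LinearMap.smul_apply, hv', zero_add, smul_eq_mul, hs, neg_mul, inv_mul_cancel₀ hD, neg_smul,
    one_smul]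
  abel

/-- Proof. (i) `B v w ≠ 0`: choose `t ≠ 0` with `σ t = -ε t` (`h.e`); the map with centre `w` and
parameter `t` maps `v` to `v + t B(v,w) w`; then the map with centre `v` and parameter
`s = -1 / (t B(v,w) B(w,v))` (it satisfies `σ s = -ε s`, since `B(v,w) B(w,v) = ε b σ(b)`) maps this to
`t B(v,w) w`. (ii) `w` is a multiple of `v`: `g = 1`. (iii) `v, w` independent, `B v w = 0`: by
`h.hyp v (w - v)` there is an isotropic `y` with `B v y = 1`, `B (w - v) y = 0`, so `B w y = 1`; apply
(i) to `v, y` and to `y, w` and compose. -/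
theorem HU_trans (h : HSp Γ σ ε B) (v w : V) (hv : v ≠ 0) (hw : w ≠ 0) (hv' : B v v = 0)
    (hw' : B w w = 0) : ∃ g ∈ Γ, ∃ c : k, c ≠ 0 ∧ g v = c • w := by
  by_cases hvw : B v w = 0
  · by_cases hlin : LinearIndependent k ![v, w]
    · have hε0 : ε ≠ 0 := by
        rcases h.hε with h1 | h1 <;> rw [h1]
        · exact one_ne_zero
        · exact neg_ne_zero.mpr one_ne_zero
      have hwv : B w v = 0 := by
        rw [h.symm v w, hvw, map_zero, mul_zero]
      have hlin' : LinearIndependent k ![v, w - v] := by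
        rw [LinearIndependent.pair_iff] at hlin ⊢
        intro a b hab
        have h1 : (a - b) • v + b • w = 0 := by
          rw [← hab]
          module
        obtain ⟨h2, h3⟩ := hlin _ _ h1
        refine ⟨?_, h3⟩
        rw [h3, sub_zero] at h2
        exact h2
      obtain ⟨y, hy, hvy, hwy⟩ := h.hyp v (w - v) hlin' hv' (by
        rw [map_sub, map_sub, LinearMap.sub_apply, LinearMap.sub_apply, hw', hwv, hvw, hv']
        ring) (by rw [map_sub, hvw, hv', sub_zero])
      have hwy' : B w y = 1 := by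
        rw [map_sub, LinearMap.sub_apply, hvy] at hwy
        exact sub_eq_zero.mp hwy
      have hyw : B y w ≠ 0 := by
        rw [h.symm w y, hwy', map_one, mul_one]
        exact hε0
      obtain ⟨g1, hg1, c1, hc1, h1⟩ := HU_trans_aux h v y hv' hy (by
        rw [hvy]
        exact one_ne_zero)
      obtain ⟨g2, hg2, c2, hc2, h2⟩ := HU_trans_aux h y w hy hw' hyw
      refine ⟨g2 * g1, Γ.mul_mem hg2 hg1, c1 * c2, mul_ne_zero hc1 hc2, ?_⟩
      rw [LinearEquiv.mul_apply, h1, map_smul, h2, smul_smul]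
    · rw [LinearIndependent.pair_iff] at hlin
      push Not at hlin
      obtain ⟨a, b, hab, hne⟩ := hlin
      have ha : a ≠ 0 := by
        intro ha
        rw [ha, zero_smul, zero_add] at hab
        rcases smul_eq_zero.mp hab with hb | hb
        · exact hne ha hb
        · exact hw hb
      have hb : b ≠ 0 := by
        intro hb
        rw [hb, zero_smul, add_zero] at hab
        rcases smul_eq_zero.mp hab with h1 | h1
        · exact ha h1
        · exact hv h1
      refine ⟨1, Γ.one_mem, -(a⁻¹ * b), neg_ne_zero.mpr (mul_ne_zero (inv_ne_zero ha) hb), ?_⟩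
      have h1 : a • v = -(b • w) := eq_neg_of_add_eq_zero_left hab
      have h2 : v = a⁻¹ • (a • v) := by rw [smul_smul, inv_mul_cancel₀ ha, one_smul]
      rw [LinearEquiv.coe_one, id_eq, neg_smul, mul_smul, ← smul_neg, ← h1]
      exact h2
  · exact HU_trans_aux h v w hv' hw' hvw

end H49KE
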