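import Pool.Agent.H49.KE.Defs
import Pool.Agent.H49.KE.H1

namespace H49KE

open H49KA H49KB H49KC

universe u v w

variable {k : Type} [Field k] [Finite k] {V : Type} [AddCommGroup V] [Module k V]
  [FiniteDimensional k V] {Γ : Subgroup (V ≃ₗ[k] V)} {σ : k →+* k} {ε : k}
  {B : V →ₗ[k] V →ₛₗ[σ] k}

private theorem HU_count_id (h : HSp Γ σ ε B) (hid : ∀ a, σ a = a) (v : V) (hv : v ≠ 0)
    (hv' : B v v = 0) :
    Nat.card (FixF σ) * Nat.card {w : V // B w w = 0 ∧ B v w = 0} ≤
      2 * Nat.card {w : V // B w w = 0} := by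
  obtain ⟨y, hyy, hvy⟩ := h.hyp1 v hv hv'
  have : Finite V := Module.finite_of_finite k
  let f : FixF σ × {w : V // B w w = 0 ∧ B v w = 0} → {w : V // B w w = 0} :=
    fun p => ⟨(p.1 : k) • y + p.2.1, h.alt hid _⟩
  have hf : Function.Injective f := by
    rintro ⟨a, w⟩ ⟨a', w'⟩ hp
    have h1 : (a : k) • y + w.1 = (a' : k) • y + w'.1 := congrArg Subtype.val hp
    have h2 := congrArg (fun x => B v x) h1
    simp only [map_add, LinearMap.map_smulₛₗ, hvy, w.2.2, w'.2.2, smul_eq_mul, mul_one,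
      add_zero, hid] at h2
    have h3 : a = a' := Subtype.ext h2
    subst h3
    have h4 : w = w' := Subtype.ext (add_left_cancel h1)
    rw [h4]
  have h5 := Nat.card_le_card_of_injective f hf
  rw [Nat.card_prod] at h5
  omega

private theorem HU_count_ne (h : HSp Γ σ ε B) (hσ : ∃ a, σ a ≠ a) (v : V) (hv : v ≠ 0)
    (hv' : B v v = 0) :
    Nat.card (FixF σ) * Nat.card {w : V // B w w = 0 ∧ B v w = 0} ≤
      2 * Nat.card {w : V // B w w = 0} := by
  classical
  obtain ⟨y, hyy, hvy⟩ := h.hyp1 v hv hv'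
  have : Finite V := Module.finite_of_finite k
  have hε : ε = 1 := h.uni hσ
  have hsymm : ∀ x y, B y x = σ (B x y) := fun x y => by rw [h.symm x y, hε, one_mul]
  have hyv : B y v = 1 := by rw [hsymm v y, hvy, map_one]
  have hfix := ((fix_card σ ε h.hσ).2.2 hσ).2
  -- the orthogonal complement
  set V₁ : Type := {u : V // B u v = 0 ∧ B u y = 0} with hV₁
  have hvu : ∀ u : V₁, B v u.1 = 0 := fun u => by rw [hsymm u.1 v, u.2.1, map_zero]
  have hyu : ∀ u : V₁, B y u.1 = 0 := fun u => by rw [hsymm u.1 y, u.2.2, map_zero]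
  -- first count
  have h1 : Nat.card {w : V // B w w = 0 ∧ B v w = 0} ≤ Nat.card k * Nat.card V₁ := by
    let f : {w : V // B w w = 0 ∧ B v w = 0} → k × V₁ := fun w =>
      (B w.1 y, ⟨w.1 - B w.1 y • v, by
        constructor
        · rw [map_sub, map_smul, LinearMap.sub_apply, LinearMap.smul_apply, hv', smul_zero,
            sub_zero, hsymm v w.1, w.2.2, map_zero]
        · rw [map_sub, map_smul, LinearMap.sub_apply, LinearMap.smul_apply, hvy, smul_eq_mul,
            mul_one, sub_self]⟩)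
    have hf : Function.Injective f := by
      intro w w' hp
      have h2 : B w.1 y = B w'.1 y := congrArg Prod.fst hp
      have h3 : w.1 - B w.1 y • v = w'.1 - B w'.1 y • v :=
        congrArg (fun p : k × V₁ => p.2.1) hp
      rw [h2] at h3
      exact Subtype.ext (sub_left_injective h3)
    have h4 := Nat.card_le_card_of_injective f hf
    rwa [Nat.card_prod] at h4
  -- second count
  have hc : ∀ u : V₁, -B u.1 u.1 ∈ RingHom.eqLocusField σ (RingHom.id k) := by
    intro u
    rw [neg_mem_iff]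
    show σ (B u.1 u.1) = B u.1 u.1
    exact (hsymm u.1 u.1).symm
  let T : (p : {b : k // b ≠ 0} × V₁) → Type := fun p =>
    {a : k // a * σ p.1.1 + p.1.1 * σ a = ((⟨-B p.2.1 p.2.1, hc p.2⟩ : FixF σ) : k)}
  have hval : ∀ (b : k) (u : V₁) (a : k), a * σ b + b * σ a = -B u.1 u.1 →
      B (a • v + b • y + u.1) (a • v + b • y + u.1) = 0 := by
    intro b u a hab
    simp only [map_add, LinearMap.add_apply, map_smul, LinearMap.smul_apply,
      LinearMap.map_smulₛₗ, hv', hvy, hyv, hyy, hvu, hyu, u.2.1, u.2.2, smul_eq_mul, mul_zero,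
      mul_one, zero_add, add_zero]
    linear_combination hab
  have h2 : (Nat.card k - 1) * Nat.card V₁ * Nat.card (FixF σ) ≤
      Nat.card {w : V // B w w = 0} := by
    let g : (Σ p : {b : k // b ≠ 0} × V₁, T p) → {w : V // B w w = 0} := fun q =>
      ⟨q.2.1 • v + q.1.1.1 • y + q.1.2.1, hval _ _ _ q.2.2⟩
    have hB1 : ∀ (a b : k) (u : V₁), B (a • v + b • y + u.1) y = a := by
      intro a b u
      simp only [map_add, LinearMap.add_apply, map_smul, LinearMap.smul_apply, hvy, hyy, u.2.2,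
        smul_eq_mul, mul_zero, mul_one, add_zero]
    have hB2 : ∀ (a b : k) (u : V₁), B v (a • v + b • y + u.1) = σ b := by
      intro a b u
      simp only [map_add, LinearMap.map_smulₛₗ, hv', hvy, hvu, smul_eq_mul, mul_zero, mul_one,
        zero_add, add_zero]
    have hg : Function.Injective g := by
      rintro ⟨⟨⟨b, hb⟩, u⟩, ⟨a, ha⟩⟩ ⟨⟨⟨b', hb'⟩, u'⟩, ⟨a', ha'⟩⟩ hq
      have h3 : a • v + b • y + u.1 = a' • v + b' • y + u'.1 := congrArg Subtype.val hq
      have h4 : a = a' := by
        rw [← hB1 a b u, h3, hB1]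
      have h5 : σ b = σ b' := by
        rw [← hB2 a b u, h3, hB2]
      have h6 : b = b' := by
        rw [← h.hσ b, h5, h.hσ]
      subst h4 h6
      have h7 : u = u' := Subtype.ext (add_left_cancel h3)
      subst h7
      rfl
    have h3 := Nat.card_le_card_of_injective g hg
    have : Finite V₁ := Subtype.finite
    have : ∀ p, Finite (T p) := fun p => Subtype.finite
    have := Fintype.ofFinite k
    have := Fintype.ofFinite V₁
    rw [Nat.card_sigma] at h3
    have h4 : ∀ p : {b : k // b ≠ 0} × V₁, Nat.card (T p) = Nat.card (FixF σ) := fun p =>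
      hfix p.1.1 p.1.2 ⟨-B p.2.1 p.2.1, hc p.2⟩
    have h5 : Nat.card {b : k // b ≠ 0} = Nat.card k - 1 := by
      rw [Nat.card_eq_fintype_card, Nat.card_eq_fintype_card, Fintype.card_subtype_compl,
        Fintype.card_subtype_eq]
    have h6 : Nat.card ({b : k // b ≠ 0} × V₁) = (Nat.card k - 1) * Nat.card V₁ := by
      rw [Nat.card_prod, h5]
    rw [Finset.sum_congr rfl fun p _ => h4 p, Finset.sum_const, Finset.card_univ, smul_eq_mul,
      ← Nat.card_eq_fintype_card, h6] at h3
    exact h3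
  have hk : 2 ≤ Nat.card k := by
    have := Finite.one_lt_card (α := k)
    omega
  have h3 : Nat.card k ≤ 2 * (Nat.card k - 1) := by omega
  calc Nat.card (FixF σ) * Nat.card {w : V // B w w = 0 ∧ B v w = 0}
      ≤ Nat.card (FixF σ) * (Nat.card k * Nat.card V₁) := Nat.mul_le_mul_left _ h1
    _ ≤ Nat.card (FixF σ) * (2 * (Nat.card k - 1) * Nat.card V₁) :=
        Nat.mul_le_mul_left _ (Nat.mul_le_mul_right _ h3)
    _ = 2 * ((Nat.card k - 1) * Nat.card V₁ * Nat.card (FixF σ)) := by ring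
    _ ≤ 2 * Nat.card {w : V // B w w = 0} := Nat.mul_le_mul_left _ h2

/-- Proof. If `σ = id` then `B` is alternating (`h.alt`), `FixF σ = k`, all vectors are isotropic and
`#{w | B v w = 0} = |V| / |k|`. Now let `σ ≠ id`, so `ε = 1`. Let `y` be as in `h.hyp1` and
`V₁ = {u | B u v = 0 ∧ B u y = 0}` (`V = ⟨v, y⟩ ⊕ V₁`: the map `k × k × V₁ → V`,
`(a, b, u) ↦ a v + b y + u` is bijective, its inverse uses `B`). For `w = a v + b y + u`:
`B w w = a σ(b) + b σ(a) + B u u` and `B v w = σ b`. So `#{w | B w w = 0, B v w = 0} ≤ |k| |V₁|`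
(`b = 0`, `a` and `u` arbitrary with `B u u = 0`), while for each `b ≠ 0` and `u` there are exactly
`|FixF σ|` values of `a` by `fix_card` (3) (`c = - B u u` is fixed by `σ` by `symm`), so
`#{w | B w w = 0} ≥ (|k| - 1) |FixF σ| |V₁|`; and `|k| ≤ 2 (|k| - 1)`. -/
theorem HU_count (h : HSp Γ σ ε B) (v : V) (hv : v ≠ 0) (hv' : B v v = 0) :
    Nat.card (FixF σ) * Nat.card {w : V // B w w = 0 ∧ B v w = 0} ≤
      2 * Nat.card {w : V // B w w = 0} := by
  by_cases hid : ∀ a, σ a = a
  · exact HU_count_id h hid v hv hv'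
  · push Not at hid
    exact HU_count_ne h hid v hv hv'

end H49KE
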