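import Pool.Agent.H49.KE.Defs
import Pool.Agent.H49.KE.E1
import Pool.Agent.H49.KE.H4
import Pool.Agent.H49.KE.H5

namespace H49KE

open H49KA H49KB H49KC

universe u v w

variable {k : Type} [Field k] [Finite k] {V : Type} [AddCommGroup V] [Module k V]
  [FiniteDimensional k V] {Γ : Subgroup (V ≃ₗ[k] V)} {σ : k →+* k} {ε : k}
  {B : V →ₗ[k] V →ₛₗ[σ] k}

/-- the action of `Γ × kˣ` on `V` -/
private abbrev actGU (Γ : Subgroup (V ≃ₗ[k] V)) : MulAction (Γ × kˣ) V where
  smul h w := (h.2 : k) • ((h.1 : V ≃ₗ[k] V) w)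
  one_smul w := by
    change ((1 : kˣ) : k) • (((1 : Γ) : V ≃ₗ[k] V) w) = w
    simp
  mul_smul a b w := by
    change ((a.2 * b.2 : kˣ) : k) • (((a.1 * b.1 : Γ) : V ≃ₗ[k] V) w) =
      (a.2 : k) • ((a.1 : V ≃ₗ[k] V) ((b.2 : k) • ((b.1 : V ≃ₗ[k] V) w)))
    rw [map_smul, smul_smul]
    simp [LinearEquiv.mul_apply]

/-- Proof. The group `H = Γ × kˣ` acts on `V` by `(g, c) • w = c • g w` (define the action, or use
`MulAction.compHom`); by `HU_trans` the orbit of `v` is the set `S` of nonzero isotropic vectors.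
With `I = #{w | B w w = 0}`, `I₀ = #{w | B w w = 0, B v w = 0}`, `f = |FixF σ|`: `f I₀ ≤ 2 I`
(`HU_count`), `|S| = I - 1 ≥ 1`, so `f (I₀ - 1) ≤ f I₀ ≤ 2 I ≤ 4 (I - 1)`. `orbit_count` with
`P y : B v y = 0` gives `f #{(g, c) | B v (c g v) = 0} ≤ 4 |Γ| |kˣ|`, and the left side is
`f #{g | B v (g v) = 0} |kˣ|`. -/
theorem HU_rand (h : HSp Γ σ ε B) (v : V) (hv : v ≠ 0) (hv' : B v v = 0) :
    Nat.card (FixF σ) * Nat.card {g : Γ // B v ((g : V ≃ₗ[k] V) v) = 0} ≤
      16 * Nat.card Γ := by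
  classical
  haveI : Finite V := Module.finite_of_finite k
  haveI : Finite (V ≃ₗ[k] V) :=
    Finite.of_injective (fun e : V ≃ₗ[k] V => (e : V → V)) DFunLike.coe_injective
  letI : MulAction (Γ × kˣ) V := actGU Γ
  have hsm : ∀ (a : Γ × kˣ) (w : V), a • w = (a.2 : k) • ((a.1 : V ≃ₗ[k] V) w) :=
    fun a w => rfl
  set S : Set V := {w | w ≠ 0 ∧ B w w = 0} with hSdef
  have hS : ∀ y, y ∈ S ↔ ∃ a : Γ × kˣ, a • v = y := by
    intro y
    constructor
    · rintro ⟨hy, hy'⟩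
      obtain ⟨g, hg, c, hc, hgc⟩ := HU_trans h v y hv hy hv' hy'
      refine ⟨(⟨g, hg⟩, (Units.mk0 c hc)⁻¹), ?_⟩
      rw [hsm]
      simp [hgc, smul_smul, hc]
    · rintro ⟨a, rfl⟩
      rw [hsm]
      refine ⟨?_, ?_⟩
      · simp [hv]
      · have hB : B ((a.2 : k) • ((a.1 : V ≃ₗ[k] V) v)) =
            (a.2 : k) • B ((a.1 : V ≃ₗ[k] V) v) := map_smul B _ _
        rw [hB, LinearMap.smul_apply, LinearMap.map_smulₛₗ, h.pres _ a.1.2, hv']
        simp
  -- the counts
  have hcount := HU_count h v hv hv'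
  have hI : Nat.card {w : V // B w w = 0} = Nat.card S + 1 := by
    have h0 : {w : V | B w w = 0} = insert 0 S := by
      ext w
      simp only [Set.mem_ofPred_eq, Set.mem_insert_iff, hSdef]
      constructor
      · intro hw
        by_cases hw0 : w = 0
        · exact Or.inl hw0
        · exact Or.inr ⟨hw0, hw⟩
      · rintro (rfl | ⟨_, hw⟩)
        · simp
        · exact hw
    have h1 : Nat.card {w : V // B w w = 0} = Set.ncard {w : V | B w w = 0} := rfl
    rw [h1, h0, Set.ncard_insert_of_notMem (by simp [hSdef]) (Set.toFinite _)]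
    rfl
  have hS1 : 1 ≤ Nat.card S := by
    have : Nonempty S := ⟨⟨v, hv, hv'⟩⟩
    exact Nat.card_pos
  have hle : Nat.card {y : V // y ∈ S ∧ B v y = 0} ≤
      Nat.card {w : V // B w w = 0 ∧ B v w = 0} := by
    refine Nat.card_le_card_of_injective (fun y => ⟨y.1, y.2.1.2, y.2.2⟩) ?_
    intro a b hab
    simpa [Subtype.ext_iff] using hab
  have hkey : Nat.card (FixF σ) * Nat.card {y : V // y ∈ S ∧ B v y = 0} ≤
      4 * Nat.card S := by
    calc Nat.card (FixF σ) * Nat.card {y : V // y ∈ S ∧ B v y = 0}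
        ≤ Nat.card (FixF σ) * Nat.card {w : V // B w w = 0 ∧ B v w = 0} :=
          Nat.mul_le_mul_left _ hle
      _ ≤ 2 * Nat.card {w : V // B w w = 0} := hcount
      _ ≤ 4 * Nat.card S := by rw [hI]; omega
  have horb := orbit_count (H := Γ × kˣ) (Ω := V) v S hS (fun y => B v y = 0)
    (Nat.card (FixF σ)) 4 hkey
  have hcong : Nat.card {a : Γ × kˣ // B v (a • v) = 0} =
      Nat.card {g : Γ // B v ((g : V ≃ₗ[k] V) v) = 0} * Nat.card kˣ := by
    rw [← Nat.card_prod]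
    refine Nat.card_congr
      { toFun := fun a => (⟨a.1.1, ?_⟩, a.1.2)
        invFun := fun b => ⟨(b.1.1, b.2), ?_⟩
        left_inv := ?_
        right_inv := ?_ }
    · have ha := a.2
      rw [hsm, LinearMap.map_smulₛₗ, smul_eq_mul, mul_eq_zero] at ha
      rcases ha with ha | ha
      · exact absurd ((map_eq_zero σ).1 ha) a.1.2.ne_zero
      · exact ha
    · rw [hsm, LinearMap.map_smulₛₗ]
      change σ _ • B v ((b.1.1 : V ≃ₗ[k] V) v) = 0
      rw [b.1.2, smul_zero]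
    · intro a
      rfl
    · intro b
      rfl
  rw [hcong, Nat.card_prod] at horb
  have hpos : 0 < Nat.card kˣ := Nat.card_pos
  have h4 : Nat.card (FixF σ) * Nat.card {g : Γ // B v ((g : V ≃ₗ[k] V) v) = 0} ≤
      4 * Nat.card Γ := by
    refine Nat.le_of_mul_le_mul_right ?_ hpos
    calc _ = Nat.card (FixF σ) * (Nat.card {g : Γ // B v ((g : V ≃ₗ[k] V) v) = 0} *
          Nat.card kˣ) := by ring
      _ ≤ 4 * (Nat.card Γ * Nat.card kˣ) := horb
      _ = _ := by ring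
  omega

end H49KE
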