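import Pool.Agent.H49.KE.Defs
import Pool.Agent.H49.KE.H2
import Pool.Agent.H49.KE.H3

namespace H49KE

open H49KA H49KB H49KC

universe u v w

variable {k : Type} [Field k] [Finite k] {V : Type} [AddCommGroup V] [Module k V]
  [FiniteDimensional k V] {Γ : Subgroup (V ≃ₗ[k] V)} {σ : k →+* k} {ε : k}
  {B : V →ₗ[k] V →ₛₗ[σ] k}

omit [Finite k] [FiniteDimensional k V] in
private theorem HU_zero (h : HSp Γ σ ε B) {v w : V} (hvw : B v w = 0) : B w v = 0 := by
  rw [h.symm v w, hvw, map_zero, mul_zero]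

private theorem HU_comm (h : HSp Γ σ ε B) {v w : V} (hv : v ≠ 0) (hw : w ≠ 0) (hv' : B v v = 0)
    (hw' : B w w = 0) (hvw : B v w = 0) (a : Γ) (ha : a ∈ tvh Γ ε B v) (b : Γ)
    (hb : b ∈ tvh Γ ε B w) : Commute a b := by
  have hwv := HU_zero h hvw
  obtain ⟨s, -, hs⟩ := ((tvh_basic h v hv hv').1 a).1 ha
  obtain ⟨t, -, ht⟩ := ((tvh_basic h w hw hw').1 b).1 hb
  show a * b = b * a
  apply Subtype.ext
  apply LinearEquiv.ext
  intro y
  show (a : V ≃ₗ[k] V) ((b : V ≃ₗ[k] V) y) = (b : V ≃ₗ[k] V) ((a : V ≃ₗ[k] V) y)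
  have h1 : B ((b : V ≃ₗ[k] V) y) v = B y v := by
    rw [ht y, map_add, map_smul, LinearMap.add_apply, LinearMap.smul_apply, hwv, smul_zero,
      add_zero]
  have h2 : B ((a : V ≃ₗ[k] V) y) w = B y w := by
    rw [hs y, map_add, map_smul, LinearMap.add_apply, LinearMap.smul_apply, hvw, smul_zero,
      add_zero]
  rw [hs ((b : V ≃ₗ[k] V) y), ht ((a : V ≃ₗ[k] V) y), h1, h2, hs y, ht y]
  abel

/-- Proof. Let `P = tvh v`, `Q = tvh w`. If `B v w ≠ 0`: `HU_opp`. If `B v w = 0` (then `B w v = 0` by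
`symm`): by `tvh_basic` (4) `v` and `w` are linearly independent, the two groups commute (by the
description in `tvh_basic` (1)), and with `y` from `h.hyp v w` the group `D = tvh y` satisfies
`Opp P D` (`B v y = 1`) and commutes with `Q` (`B w y = 0`). -/
theorem HU_pairs (h : HSp Γ σ ε B) (P Q : Subgroup Γ) (hP : P ∈ SgHU Γ ε B)
    (hQ : Q ∈ SgHU Γ ε B) (hPQ : P ≠ Q) : Opp (FixF σ) P Q ∨
    ((∀ a ∈ P, ∀ b ∈ Q, Commute a b) ∧ ∃ D ∈ SgHU Γ ε B,
      (∀ d ∈ D, ∀ b ∈ Q, Commute d b) ∧ Opp (FixF σ) P D) := by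
  obtain ⟨v, hv, hv', rfl⟩ := hP
  obtain ⟨w, hw, hw', rfl⟩ := hQ
  by_cases hvw : B v w = 0
  · right
    have hli : LinearIndependent k ![v, w] := by
      rw [LinearIndependent.pair_iff' hv]
      intro c hc
      have hc0 : c ≠ 0 := by
        rintro rfl
        rw [zero_smul] at hc
        exact hw hc.symm
      apply hPQ
      rw [← hc, (tvh_basic h v hv hv').2.2.2 c hc0]
    obtain ⟨y, hy, hvy, hwy⟩ := h.hyp v w hli hv' hw' hvw
    have hy0 : y ≠ 0 := by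
      rintro rfl
      rw [map_zero] at hvy
      exact zero_ne_one hvy
    refine ⟨fun a ha b hb => HU_comm h hv hw hv' hw' hvw a ha b hb, tvh Γ ε B y,
      ⟨y, hy0, hy, rfl⟩, fun d hd b hb => HU_comm h hy0 hw hy hw' (HU_zero h hwy) d hd b hb,
      HU_opp h v y hv' hy ?_⟩
    rw [hvy]
    exact one_ne_zero
  · exact Or.inl (HU_opp h v w hv' hw' hvw)

end H49KE
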