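import Pool.Agent.H49.KE.Defs
import Pool.Agent.H49.KE.H1

namespace H49KE

open H49KA H49KB H49KC

universe u v w

variable {k : Type} [Field k] [Finite k] {V : Type} [AddCommGroup V] [Module k V]
  [FiniteDimensional k V] {Γ : Subgroup (V ≃ₗ[k] V)} {σ : k →+* k} {ε : k}
  {B : V →ₗ[k] V →ₛₗ[σ] k}

/-- Proof. Suppose every isotropic vector is an eigenvector of `x`. Let `v, w` be nonzero
isotropic vectors, not multiples of each other, with eigenvalues `λ`, `μ`. If `B v w = 0` then
`v + w` is isotropic, so an eigenvector, and `λ = μ`. If `B v w ≠ 0` choose `t ≠ 0` with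
`σ t = -ε t`; then `v + (t B(v,w)) w` is isotropic (it is the image of `v` under the isometry with
centre `w`), so an eigenvector and `λ = μ`. Let `v` be isotropic (`h.iso`) and `y` as in `h.hyp1`.
Every `u` with `B u v = 0 = B u y` is a combination of isotropic vectors: `u + a v + y` is
isotropic when `a + ε σ(a) = - B u u`, which is solvable (`a = 0` if `σ = id`, when `B` is alternating;
if `σ ≠ id` then `ε = 1` and `fix_card` (3) with `b = 1` applies). Since `V` is spanned by `v`, `y` and
these `u`, it is spanned by isotropic vectors, so `x` is a scalar, a contradiction. -/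
theorem HU_fix (h : HSp Γ σ ε B) (x : Γ) (hx : (x : V ≃ₗ[k] V) ∉ Scal k V) :
    ∃ v, v ≠ 0 ∧ B v v = 0 ∧ ∀ c : k, (x : V ≃ₗ[k] V) v ≠ c • v := by
  by_contra hcon
  push Not at hcon
  set g : V ≃ₗ[k] V := (x : V ≃ₗ[k] V) with hg
  have hε2 : ε * ε = 1 := by
    rcases h.hε with h1 | h1 <;> rw [h1] <;> ring
  obtain ⟨v, hv0, hv⟩ := h.iso
  obtain ⟨lam, hlam⟩ := hcon v hv0 hv
  -- a common eigenvalue
  have hcomb : ∀ (w : V) (s : k), w ≠ 0 → B w w = 0 → s ≠ 0 → LinearIndependent k ![v, w] →
      B (v + s • w) (v + s • w) = 0 → g w = lam • w := by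
    intro w s hw0 hw hs hli hu
    obtain ⟨mu, hmu⟩ := hcon w hw0 hw
    have hu0 : v + s • w ≠ 0 := by
      intro h0
      have := (LinearIndependent.pair_iff.mp hli) 1 s (by rw [one_smul]; exact h0)
      exact one_ne_zero this.1
    obtain ⟨nu, hnu⟩ := hcon _ hu0 hu
    rw [map_add, map_smul, hlam, hmu, smul_add, smul_smul, smul_smul] at hnu
    have h1 : (lam - nu) • v + (s * mu - nu * s) • w = 0 := by
      rw [sub_smul, sub_smul]
      have : lam • v + (s * mu) • w - (nu • v + (nu * s) • w) = 0 := sub_eq_zero.mpr hnu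
      rw [← this]
      abel
    obtain ⟨h2, h3⟩ := (LinearIndependent.pair_iff.mp hli) _ _ h1
    have h4 : s * (mu - lam) = 0 := by
      have : lam = nu := sub_eq_zero.mp h2
      rw [this]
      linear_combination h3
    have h5 : mu = lam := by
      rcases mul_eq_zero.mp h4 with h6 | h6
      · exact absurd h6 hs
      · exact sub_eq_zero.mp h6
    rw [hmu, h5]
  have hall : ∀ w, B w w = 0 → g w = lam • w := by
    intro w hw
    by_cases hw0 : w = 0
    · rw [hw0, map_zero, smul_zero]
    by_cases hli : LinearIndependent k ![v, w]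
    · by_cases hB : B v w = 0
      · refine hcomb w 1 hw0 hw one_ne_zero hli ?_
        have hB' : B w v = 0 := by rw [h.symm v w, hB, map_zero, mul_zero]
        simp only [one_smul, map_add, LinearMap.add_apply, hv, hw, hB, hB', add_zero]
      · obtain ⟨t, ht0, ht⟩ := h.e
        obtain ⟨y, hyΓ, hy⟩ := h.tr w hw t ht
        refine hcomb w (t * B v w) hw0 hw (mul_ne_zero ht0 hB) hli ?_
        rw [← hy v, h.pres y hyΓ, hv]
    · rw [LinearIndependent.pair_iff] at hli
      push Not at hli
      obtain ⟨a, b, hab, hne⟩ := hli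
      have hb : b ≠ 0 := by
        intro hb
        rw [hb, zero_smul, add_zero] at hab
        rcases smul_eq_zero.mp hab with h1 | h1
        · exact hne h1 hb
        · exact hv0 h1
      have hw' : w = (-(b⁻¹ * a)) • v := by
        have h1 : b • w = -(a • v) := by
          rw [eq_neg_iff_add_eq_zero, add_comm]; exact hab
        calc w = b⁻¹ • (b • w) := by rw [smul_smul, inv_mul_cancel₀ hb, one_smul]
          _ = (-(b⁻¹ * a)) • v := by rw [h1, smul_neg, smul_smul, neg_smul]
      rw [hw', map_smul, hlam, smul_smul, smul_smul, mul_comm]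
  obtain ⟨y, hyy, hvy⟩ := h.hyp1 v hv0 hv
  have hyv : B y v = ε := by rw [h.symm v y, hvy, map_one, mul_one]
  -- vectors orthogonal to `v` and `y`
  have horth : ∀ u, B u v = 0 → B u y = 0 → g u = lam • u := by
    intro u huv huy
    have hvu : B v u = 0 := by rw [h.symm u v, huv, map_zero, mul_zero]
    have hyu : B y u = 0 := by rw [h.symm u y, huy, map_zero, mul_zero]
    have hsolve : ∃ a : k, a + ε * σ a = -(B u u) := by
      by_cases hσ : ∃ a, σ a ≠ a
      · have hε1 := h.uni hσ
        have hfix : σ (-(B u u)) = -(B u u) := by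
          have h1 := h.symm u u
          rw [hε1, one_mul] at h1
          rw [map_neg, ← h1]
        obtain ⟨-, -, h3⟩ := fix_card σ ε h.hσ
        have h4 := (h3 hσ).2 1 one_ne_zero
          (⟨-(B u u), hfix⟩ : FixF σ)
        have h5 : 0 < Nat.card (FixF σ) := by
          have : Finite (FixF σ) := inferInstance
          exact Nat.card_pos
        rw [← h4] at h5
        obtain ⟨⟨a, ha⟩⟩ := (Nat.card_pos_iff.mp h5).1
        refine ⟨a, ?_⟩
        rw [hε1, one_mul]
        simpa using ha
      · push Not at hσ
        exact ⟨0, by rw [h.alt hσ u, map_zero]; ring⟩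
    obtain ⟨a, ha⟩ := hsolve
    have hiso : B (u + a • v + y) (u + a • v + y) = 0 := by
      simp only [map_add, LinearMap.add_apply, map_smul, LinearMap.smul_apply,
        LinearMap.map_smulₛₗ, smul_eq_mul, hv, hyy, hvy, hyv, huv, huy, hvu, hyu]
      linear_combination ha
    have h1 := hall _ hiso
    rw [map_add, map_add, map_smul, hlam, hall y hyy, smul_add, smul_add, smul_comm a lam v] at h1
    exact add_right_cancel (add_right_cancel h1)
  apply hx
  refine ⟨lam, fun z => ?_⟩
  have hu1 : B (z - (B z y) • v - (ε * B z v) • y) v = 0 := by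
    simp only [map_sub, LinearMap.sub_apply, map_smul, LinearMap.smul_apply, smul_eq_mul, hv, hyv]
    linear_combination (-(B z v)) * hε2
  have hu2 : B (z - (B z y) • v - (ε * B z v) • y) y = 0 := by
    simp only [map_sub, LinearMap.sub_apply, map_smul, LinearMap.smul_apply, smul_eq_mul, hvy, hyy]
    ring
  have h1 := horth _ hu1 hu2
  rw [map_sub, map_sub, map_smul, map_smul, hlam, hall y hyy, smul_sub, smul_sub,
    smul_comm (B z y) lam v, smul_comm (ε * B z v) lam y] at h1
  have h2 := sub_left_injective (sub_left_injective h1)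
  exact h2

end H49KE
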