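import Pool.Agent.H49.KE.Defs
import Pool.Agent.H49.KE.H2
import Pool.Agent.H49.KE.H3
import Pool.Agent.H49.KE.H6
import Pool.Agent.H49.KE.H7
import Pool.Agent.H49.KE.H8

namespace H49KE

open H49KA H49KB H49KC

universe u v w

variable {k : Type} [Field k] [Finite k] {V : Type} [AddCommGroup V] [Module k V]
  [FiniteDimensional k V] {Γ : Subgroup (V ≃ₗ[k] V)} {σ : k →+* k} {ε : k}
  {B : V →ₗ[k] V →ₛₗ[σ] k}

/-- Proof. `ne`: `h.iso`. `card`, `conj`: `tvh_basic` and `h.pres`. `nt`: the element with parameter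
`e` (`h.e`) is not scalar: it fixes `v`, so the scalar would be `1`, and then `B y v = 0` for all `y`.
`rand`: `A = tvh v`, `A_g = tvh (g v)`; if `Opp` fails then `B v (g v) = 0` by `HU_opp`; `HU_rand`.
`fix`: by `HU_fix` there is an isotropic `v` with `x v` not a multiple of `v`; `A = tvh v`,
`x A x⁻¹ = tvh (x v)`; if they are equal, a nontrivial element has centre `v` and centre `x v`.
`pairs`: `HU_pairs`. -/
theorem rootGrp_HU (h : HSp Γ σ ε B) :
    RootGrp 16 (FixF σ) ((Scal k V).subgroupOf Γ) (SgHU Γ ε B) := by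
  have : Finite V := Module.finite_of_finite k
  have : Finite (V ≃ₗ[k] V) :=
    Finite.of_injective (fun g : V ≃ₗ[k] V => (g : V → V)) DFunLike.coe_injective
  have hvy : ∀ v : V, v ≠ 0 → ∃ y, B y v ≠ 0 := by
    intro v hv
    by_contra hne
    push Not at hne
    apply hv
    apply h.nondeg v
    intro y
    rw [h.symm y v, hne y, map_zero, mul_zero]
  have hgv : ∀ (g : Γ) (v : V), v ≠ 0 → (g : V ≃ₗ[k] V) v ≠ 0 := by
    intro g v hv h0
    exact hv ((g : V ≃ₗ[k] V).map_eq_zero_iff.1 h0)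
  have hgi : ∀ (g : Γ) (v : V), B v v = 0 →
      B ((g : V ≃ₗ[k] V) v) ((g : V ≃ₗ[k] V) v) = 0 := by
    intro g v hv
    rw [h.pres _ g.2, hv]
  refine ⟨?_, ?_, ?_, ?_, ?_, ?_, ?_⟩
  · obtain ⟨v, hv, hv'⟩ := h.iso
    exact ⟨tvh Γ ε B v, v, hv, hv', rfl⟩
  · rintro A ⟨v, hv, hv', rfl⟩
    exact (tvh_basic h v hv hv').2.1
  · rintro A ⟨v, hv, hv', rfl⟩
    obtain ⟨e, he, he'⟩ := h.e
    obtain ⟨x, hxΓ, hx⟩ := h.tr v hv' e he'
    refine ⟨⟨x, hxΓ⟩, ((tvh_basic h v hv hv').1 _).2 ⟨e, he', hx⟩, ?_⟩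
    intro hmem
    rw [Subgroup.mem_subgroupOf] at hmem
    obtain ⟨c, hc⟩ := hmem
    have hc' : ∀ y : V, x y = c • y := hc
    have h1 : c • v = (1 : k) • v := by
      rw [← hc' v, hx v, hv', mul_zero, zero_smul, add_zero, one_smul]
    have hc1 : c = 1 := smul_left_injective k hv h1
    obtain ⟨y, hy⟩ := hvy v hv
    have h3 := hx y
    rw [hc' y, hc1, one_smul, left_eq_add, smul_eq_zero] at h3
    rcases h3 with h3 | h3
    · exact (mul_ne_zero he hy) h3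
    · exact hv h3
  · rintro A ⟨v, hv, hv', rfl⟩ g
    rw [(tvh_basic h v hv hv').2.2.1 g]
    exact ⟨_, hgv g v hv, hgi g v hv', rfl⟩
  · rintro A ⟨v, hv, hv', rfl⟩
    refine le_trans (Nat.mul_le_mul_left _ ?_) (HU_rand h v hv hv')
    refine Nat.card_le_card_of_injective
      (fun g : {g : Γ // ¬ Opp (FixF σ) (tvh Γ ε B v)
        ((tvh Γ ε B v).map (MulAut.conj g).toMonoidHom)} =>
        (⟨g.1, ?_⟩ : {g : Γ // B v ((g : V ≃ₗ[k] V) v) = 0})) ?_
    · by_contra hne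
      apply g.2
      rw [(tvh_basic h v hv hv').2.2.1 g.1]
      exact HU_opp h v _ hv' (hgi g.1 v hv') hne
    · intro a b hab
      have h1 := congrArg Subtype.val hab
      exact Subtype.ext h1
  · intro x hx
    obtain ⟨v, hv, hv', hvx⟩ := HU_fix h x hx
    refine ⟨tvh Γ ε B v, ⟨v, hv, hv', rfl⟩, ?_⟩
    intro heq
    rw [(tvh_basic h v hv hv').2.2.1 x] at heq
    obtain ⟨e, he, he'⟩ := h.e
    obtain ⟨z, hzΓ, hz⟩ := h.tr v hv' e he'
    have hmem : (⟨z, hzΓ⟩ : Γ) ∈ tvh Γ ε B v :=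
      ((tvh_basic h v hv hv').1 _).2 ⟨e, he', hz⟩
    rw [← heq, (tvh_basic h _ (hgv x v hv) (hgi x v hv')).1] at hmem
    obtain ⟨t, _, ht⟩ := hmem
    obtain ⟨y, hy⟩ := hvy v hv
    have h3 := ht y
    have h4 : ((⟨z, hzΓ⟩ : Γ) : V ≃ₗ[k] V) y = y + (e * B y v) • v := hz y
    rw [h4, add_right_inj] at h3
    have h5 : e * B y v ≠ 0 := mul_ne_zero he hy
    have h6 : t * B y ((x : V ≃ₗ[k] V) v) ≠ 0 := by
      intro h0
      rw [h0, zero_smul, smul_eq_zero] at h3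
      rcases h3 with h3 | h3
      · exact h5 h3
      · exact hv h3
    apply hvx ((t * B y ((x : V ≃ₗ[k] V) v))⁻¹ * (e * B y v))
    rw [mul_smul, h3, smul_smul, inv_mul_cancel₀ h6, one_smul]
  · intro P hP Q hQ hPQ
    rcases HU_pairs h P Q hP hQ hPQ with h1 | ⟨h1, D, hD, h2, h3⟩
    · exact Or.inl h1
    · exact Or.inr (Or.inr ⟨h1, D, hD, h2, Or.inl h3⟩)

end H49KE
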