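import Pool.Agent.H49.KE.Defs

namespace H49KE

open H49KA H49KB H49KC

universe u v w

variable {k : Type} [Field k] [Finite k] {V : Type} [AddCommGroup V] [Module k V]
  [FiniteDimensional k V]

omit [Finite k] [FiniteDimensional k V] in
private lemma tvg_mem (Γ : Subgroup (V ≃ₗ[k] V)) (v : V) (φ : Module.Dual k V) (h : φ v = 0)
    (x : Γ) : x ∈ tvg Γ v φ ↔ ∃ t : k, ∀ y, (x : V ≃ₗ[k] V) y = y + (t * φ y) • v := by
  constructor
  · intro hx
    refine Subgroup.closure_induction (p := fun (x : Γ) _ => ∃ t : k, ∀ y, (x : V ≃ₗ[k] V) y =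
      y + (t * φ y) • v) (fun x hx => hx) ?_ ?_ ?_ hx
    · refine ⟨0, fun y => ?_⟩
      rw [zero_mul, zero_smul, add_zero]
      rfl
    · rintro x y - - ⟨s, hs⟩ ⟨t, ht⟩
      refine ⟨s + t, fun z => ?_⟩
      have h1 : ((x * y : Γ) : V ≃ₗ[k] V) z = (x : V ≃ₗ[k] V) ((y : V ≃ₗ[k] V) z) := rfl
      rw [h1, ht, hs, map_add, map_smul, h, smul_eq_mul, mul_zero, add_zero, add_mul, add_smul]
      abel
    · rintro x - ⟨t, ht⟩
      refine ⟨-t, fun z => ?_⟩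
      have h1 : (x : V ≃ₗ[k] V) (z + (-t * φ z) • v) = z := by
        rw [ht, map_add, map_smul, h, smul_eq_mul, mul_zero, add_zero, neg_mul, neg_smul]
        abel
      have h2 : ((x⁻¹ : Γ) : V ≃ₗ[k] V) ((x : V ≃ₗ[k] V) (z + (-t * φ z) • v)) =
          z + (-t * φ z) • v := by
        have h3 : ((x⁻¹ * x : Γ) : V ≃ₗ[k] V) (z + (-t * φ z) • v) = z + (-t * φ z) • v := by
          rw [inv_mul_cancel]
          rfl
        exact h3
      rw [h1] at h2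
      exact h2
  · intro hx
    exact Subgroup.subset_closure hx

omit [Finite k] in
private lemma tvg_ex (Γ : Subgroup (V ≃ₗ[k] V)) (hΓ : IsSL Γ) (v : V) (φ : Module.Dual k V)
    (h : φ v = 0) (t : k) : ∃ x : Γ, ∀ y, (x : V ≃ₗ[k] V) y = y + (t * φ y) • v := by
  have h' : (t • φ) v = 0 := by
    rw [LinearMap.smul_apply, h, smul_zero]
  refine ⟨⟨LinearEquiv.transvection h', ?_⟩, fun y => ?_⟩
  · rw [hΓ]
    change LinearMap.det (LinearMap.transvection (t • φ) v) = 1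
    rw [LinearMap.transvection.det, h', add_zero]
  · exact LinearEquiv.transvection.apply h' y

/-- Proof. (1) The set of all `x : Γ` of the given form is a subgroup, since
`(y + s φ(y) v)` followed by the map with `t` is the map with `s + t` (`φ v = 0`). (2) The map
`y ↦ y + (t * φ y) • v` is a linear equivalence of determinant one (Mathlib:
`LinearEquiv.transvection`, or `LinearMap.det` of a transvection; compare
`Pool/Agent/H49/KB/RSL.lean` where this is done). (3) `t ↦` that map is injective as `φ ≠ 0`,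
`v ≠ 0`. (4) `g x g⁻¹ y = y + (t * φ (g⁻¹ y)) • g v`. -/
theorem tvg_basic (Γ : Subgroup (V ≃ₗ[k] V)) (hΓ : IsSL Γ) (v : V) (φ : Module.Dual k V)
    (hv : v ≠ 0) (hφ : φ ≠ 0) (h : φ v = 0) :
    (∀ x : Γ, x ∈ tvg Γ v φ ↔ ∃ t : k, ∀ y, (x : V ≃ₗ[k] V) y = y + (t * φ y) • v) ∧
    (∀ t : k, ∃ x : Γ, ∀ y, (x : V ≃ₗ[k] V) y = y + (t * φ y) • v) ∧
    Nat.card (tvg Γ v φ) = Nat.card k ∧
    (∀ g : Γ, (tvg Γ v φ).map (MulAut.conj g).toMonoidHom =
      tvg Γ ((g : V ≃ₗ[k] V) v) (φ.comp (((g⁻¹ : Γ) : V ≃ₗ[k] V) : V →ₗ[k] V))) := by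
  have hinv : ∀ (g : Γ) (y : V), (g : V ≃ₗ[k] V) (((g⁻¹ : Γ) : V ≃ₗ[k] V) y) = y := by
    intro g y
    have h3 : ((g * g⁻¹ : Γ) : V ≃ₗ[k] V) y = y := by
      rw [mul_inv_cancel]
      rfl
    exact h3
  have hinv' : ∀ (g : Γ) (y : V), ((g⁻¹ : Γ) : V ≃ₗ[k] V) ((g : V ≃ₗ[k] V) y) = y := by
    intro g y
    have h3 : ((g⁻¹ * g : Γ) : V ≃ₗ[k] V) y = y := by
      rw [inv_mul_cancel]
      rfl
    exact h3
  have hconj : ∀ (g x : Γ) (y : V), ((g * x * g⁻¹ : Γ) : V ≃ₗ[k] V) y =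
      (g : V ≃ₗ[k] V) ((x : V ≃ₗ[k] V) (((g⁻¹ : Γ) : V ≃ₗ[k] V) y)) := fun g x y => rfl
  have hmem := tvg_mem Γ v φ h
  have hex := tvg_ex Γ hΓ v φ h
  refine ⟨hmem, hex, ?_, ?_⟩
  · choose T hT using hex
    symm
    refine Nat.card_congr (Equiv.ofBijective
      (fun t : k => (⟨T t, (hmem _).2 ⟨t, hT t⟩⟩ : tvg Γ v φ)) ⟨?_, ?_⟩)
    · intro s t hst
      have h1 : T s = T t := congrArg Subtype.val hst
      obtain ⟨y, hy⟩ : ∃ y, φ y ≠ 0 := by
        by_contra hcon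
        push Not at hcon
        exact hφ (LinearMap.ext hcon)
      have h2 := hT s y
      rw [h1, hT t y] at h2
      have h3 : (t * φ y) • v = (s * φ y) • v := add_left_cancel h2
      have h4 : (t * φ y - s * φ y) • v = 0 := by
        rw [sub_smul, h3, sub_self]
      rcases smul_eq_zero.1 h4 with h5 | h5
      · rw [← sub_mul] at h5
        rcases mul_eq_zero.1 h5 with h6 | h6
        · exact (sub_eq_zero.1 h6).symm
        · exact absurd h6 hy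
      · exact absurd h5 hv
    · rintro ⟨x, hx⟩
      obtain ⟨t, ht⟩ := (hmem x).1 hx
      refine ⟨t, Subtype.ext (Subtype.ext (LinearEquiv.ext fun y => ?_))⟩
      exact (hT t y).trans (ht y).symm
  · intro g
    have h' : (φ.comp (((g⁻¹ : Γ) : V ≃ₗ[k] V) : V →ₗ[k] V)) ((g : V ≃ₗ[k] V) v) = 0 := by
      show φ (((g⁻¹ : Γ) : V ≃ₗ[k] V) ((g : V ≃ₗ[k] V) v)) = 0
      rw [hinv', h]
    have hmem' := tvg_mem Γ ((g : V ≃ₗ[k] V) v) _ h'
    ext x
    rw [hmem', Subgroup.mem_map]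
    constructor
    · rintro ⟨z, hz, rfl⟩
      obtain ⟨t, ht⟩ := (hmem z).1 hz
      refine ⟨t, fun y => ?_⟩
      show ((g * z * g⁻¹ : Γ) : V ≃ₗ[k] V) y = y + (t * φ (((g⁻¹ : Γ) : V ≃ₗ[k] V) y)) • _
      rw [hconj, ht, map_add, map_smul, hinv]
    · rintro ⟨t, ht⟩
      refine ⟨g⁻¹ * x * g, (hmem _).2 ⟨t, fun y => ?_⟩, ?_⟩
      · show ((g⁻¹ : Γ) : V ≃ₗ[k] V) ((x : V ≃ₗ[k] V) ((g : V ≃ₗ[k] V) y)) = _
        rw [ht]
        show ((g⁻¹ : Γ) : V ≃ₗ[k] V) ((g : V ≃ₗ[k] V) y +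
          (t * φ (((g⁻¹ : Γ) : V ≃ₗ[k] V) ((g : V ≃ₗ[k] V) y))) • (g : V ≃ₗ[k] V) v) = _
        rw [map_add, map_smul, hinv', hinv']
      · show g * (g⁻¹ * x * g) * g⁻¹ = x
        group

end H49KE
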