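import Pool.Agent.H49.KE.Defs
import Pool.Agent.H49.KE.L1
import Pool.Agent.H49.KE.G5

namespace H49KE

open H49KA H49KB H49KC

universe u v w

variable {k : Type} [Field k] [Finite k] {V : Type} [AddCommGroup V] [Module k V]
  [FiniteDimensional k V]

theorem SL_opp (Γ : Subgroup (V ≃ₗ[k] V)) (hΓ : IsSL Γ) (v w : V) (φ ψ : Module.Dual k V)
    (h1 : φ v = 0) (h2 : ψ w = 0) (h3 : φ w ≠ 0) (h4 : ψ v ≠ 0) :
    Opp k (tvg Γ v φ) (tvg Γ w ψ) := by
  have hv0 : v ≠ 0 := by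
    rintro rfl
    exact h4 (map_zero _)
  have hw0 : w ≠ 0 := by
    rintro rfl
    exact h3 (map_zero _)
  have hφ0 : φ ≠ 0 := by
    rintro rfl
    exact h3 rfl
  have hψ0 : ψ ≠ 0 := by
    rintro rfl
    exact h4 rfl
  obtain ⟨m1, e1, -, -⟩ := tvg_basic Γ hΓ v φ hv0 hφ0 h1
  obtain ⟨m2, e2, -, -⟩ := tvg_basic Γ hΓ w ψ hw0 hψ0 h2
  obtain ⟨θ, hθ⟩ := sl2_plane (F := k) (RingHom.id k) v w ((ψ v)⁻¹ • ψ) ((φ w)⁻¹ • φ) 1
    one_ne_zero
    (by rw [LinearMap.smul_apply, smul_eq_mul, inv_mul_cancel₀ h4])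
    (by rw [LinearMap.smul_apply, smul_eq_mul, h2, mul_zero])
    (by rw [LinearMap.smul_apply, smul_eq_mul, h1, mul_zero])
    (by rw [LinearMap.smul_apply, smul_eq_mul, inv_mul_cancel₀ h3])
  have up_eq : ∀ (a : k) (y : V), θ (up a) y = y + (a * (φ w)⁻¹ * φ y) • v := by
    intro a y
    have u1 : (up a).1 0 0 = 1 := rfl
    have u2 : (up a).1 0 1 = a := rfl
    have u3 : (up a).1 1 0 = 0 := rfl
    have u4 : (up a).1 1 1 = 1 := rfl
    rw [hθ, u1, u2, u3, u4]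
    simp only [RingHom.id_apply, LinearMap.smul_apply, smul_eq_mul, sub_self, zero_mul, zero_add,
      mul_one, zero_smul, add_zero, mul_assoc]
  have lo_eq : ∀ (a : k) (y : V), θ (lo a) y = y + (a * (ψ v)⁻¹ * ψ y) • w := by
    intro a y
    have u1 : (lo a).1 0 0 = 1 := rfl
    have u2 : (lo a).1 0 1 = 0 := rfl
    have u3 : (lo a).1 1 0 = a := rfl
    have u4 : (lo a).1 1 1 = 1 := rfl
    rw [hθ, u1, u2, u3, u4]
    simp only [RingHom.id_apply, LinearMap.smul_apply, smul_eq_mul, sub_self, zero_mul,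
      mul_one, zero_smul, add_zero, inv_one, mul_assoc]
  have upm : ∀ a : k, θ (up a) ∈ Γ := by
    intro a
    obtain ⟨x, hx⟩ := e1 (a * (φ w)⁻¹)
    have : θ (up a) = x := by
      ext y
      rw [up_eq, hx]
    rw [this]
    exact x.2
  have lom : ∀ a : k, θ (lo a) ∈ Γ := by
    intro a
    obtain ⟨x, hx⟩ := e2 (a * (ψ v)⁻¹)
    have : θ (lo a) = x := by
      ext y
      rw [lo_eq, hx]
    rw [this]
    exact x.2
  have hΓ' : ∀ g, θ g ∈ Γ := sl2_lift θ Γ upm lom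
  refine ⟨θ.codRestrict Γ hΓ', fun x => ?_, fun x => ?_⟩
  · rw [m1 x]
    constructor
    · rintro ⟨t, hx⟩
      refine ⟨t * φ w, ?_⟩
      apply Subtype.ext
      ext y
      rw [hx]
      change θ (up (t * φ w)) y = _
      rw [up_eq, mul_inv_cancel_right₀ h3]
    · rintro ⟨a, rfl⟩
      exact ⟨a * (φ w)⁻¹, fun y => up_eq a y⟩
  · rw [m2 x]
    constructor
    · rintro ⟨t, hx⟩
      refine ⟨t * ψ v, ?_⟩
      apply Subtype.ext
      ext y
      rw [hx]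
      change θ (lo (t * ψ v)) y = _
      rw [lo_eq, mul_inv_cancel_right₀ h4]
    · rintro ⟨a, rfl⟩
      exact ⟨a * (ψ v)⁻¹, fun y => lo_eq a y⟩

end H49KE
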