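import Pool.Agent.H49.KE.Defs
import Pool.Agent.H49.KE.E1
import Pool.Agent.H49.KE.L1

namespace H49KE

open H49KA H49KB H49KC

universe u v w

variable {k : Type} [Field k] [Finite k] {V : Type} [AddCommGroup V] [Module k V]
  [FiniteDimensional k V]

omit [Finite k] [FiniteDimensional k V] in
/-- moving one vector to an independent one -/
private theorem exists_map_of_indep (Γ : Subgroup (V ≃ₗ[k] V))
    (hT : ∀ (v : V) (φ : Module.Dual k V), v ≠ 0 → φ ≠ 0 → φ v = 0 → ∀ t : k,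
      ∃ x : Γ, ∀ y, (x : V ≃ₗ[k] V) y = y + (t * φ y) • v)
    (v u : V) (hv : v ≠ 0) (hu : ∀ c : k, u ≠ c • v) :
    ∃ x : Γ, (x : V ≃ₗ[k] V) v = u := by
  classical
  have hd : u - v ≠ 0 := by
    intro h0
    apply hu 1
    rw [one_smul]
    exact sub_eq_zero.mp h0
  have hnm : v ∉ Submodule.span k {u - v} := by
    intro hm
    obtain ⟨c, hc⟩ := Submodule.mem_span_singleton.mp hm
    by_cases hc0 : c = 0
    · rw [hc0, zero_smul] at hc
      exact hv hc.symm
    · apply hu (c⁻¹ + 1)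
      have h1 : u - v = c⁻¹ • v := by
        have h2 := congrArg (fun z : V => c⁻¹ • z) hc
        simp only [smul_smul, inv_mul_cancel₀ hc0, one_smul] at h2
        exact h2
      rw [add_smul, one_smul, ← h1, sub_add_cancel]
  obtain ⟨θ, hθ1, hθ2⟩ := Submodule.exists_le_ker_of_notMem hnm
  have hθd : θ (u - v) = 0 := by
    have := hθ2 (Submodule.mem_span_singleton_self (u - v))
    simpa using this
  have hθ0 : θ ≠ 0 := by
    intro h0
    apply hθ1
    rw [h0]
    rfl
  obtain ⟨x, hx⟩ := hT (u - v) θ hd hθ0 hθd (θ v)⁻¹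
  refine ⟨x, ?_⟩
  rw [hx v, inv_mul_cancel₀ hθ1, one_smul]
  abel

omit [Finite k] [FiniteDimensional k V] in
private theorem exists_map_vec (Γ : Subgroup (V ≃ₗ[k] V))
    (hT : ∀ (v : V) (φ : Module.Dual k V), v ≠ 0 → φ ≠ 0 → φ v = 0 → ∀ t : k,
      ∃ x : Γ, ∀ y, (x : V ≃ₗ[k] V) y = y + (t * φ y) • v)
    (hdim : 2 ≤ Module.finrank k V) (v u : V) (hv : v ≠ 0) (hu : u ≠ 0) :
    ∃ x : Γ, (x : V ≃ₗ[k] V) v = u := by
  classical
  by_cases h : ∃ c : k, u = c • v
  · obtain ⟨c, hc⟩ := h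
    have hc0 : c ≠ 0 := by
      rintro rfl
      apply hu
      rw [hc, zero_smul]
    -- a vector independent of `v`
    have hw : ∃ w : V, ∀ a : k, w ≠ a • v := by
      by_contra hcon
      push Not at hcon
      have hle : Module.finrank k V ≤ 1 :=
        finrank_le_one v (fun w => by
          obtain ⟨a, ha⟩ := hcon w
          exact ⟨a, ha.symm⟩)
      omega
    obtain ⟨w, hw⟩ := hw
    have hw0 : w ≠ 0 := by
      intro h0
      apply hw 0
      rw [h0, zero_smul]
    obtain ⟨x, hx⟩ := exists_map_of_indep Γ hT v w hv hw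
    have hu' : ∀ a : k, u ≠ a • w := by
      intro a ha
      have ha0 : a ≠ 0 := by
        rintro rfl
        apply hu
        rw [ha, zero_smul]
      apply hw (a⁻¹ * c)
      rw [← smul_smul, ← hc, ha, smul_smul, inv_mul_cancel₀ ha0, one_smul]
    obtain ⟨z, hz⟩ := exists_map_of_indep Γ hT w u hw0 hu'
    refine ⟨z * x, ?_⟩
    rw [Subgroup.coe_mul, LinearEquiv.mul_apply, hx, hz]
  · push Not at h
    exact exists_map_of_indep Γ hT v u hv h

private theorem ker_count (φ : Module.Dual k V) (hφ : φ ≠ 0) :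
    Nat.card k * Nat.card {y : V // y ∈ {y : V | y ≠ 0} ∧ φ y = 0} ≤
      1 * Nat.card ({y : V | y ≠ 0} : Set V) := by
  classical
  have : Finite V := Module.finite_of_finite k
  have hV : Nat.card V = Nat.card k ^ Module.finrank k V := Module.natCard_eq_pow_finrank
  have hK : Nat.card (LinearMap.ker φ) = Nat.card k ^ Module.finrank k (LinearMap.ker φ) :=
    Module.natCard_eq_pow_finrank
  have hr : Module.finrank k (LinearMap.ker φ) + 1 = Module.finrank k V :=
    Module.Dual.finrank_ker_add_one_of_ne_zero hφ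
  have hq : 0 < Nat.card k := Nat.card_pos
  have e1 : Nat.card ({y : V | y ≠ 0} : Set V) = Nat.card V - 1 := by
    have h1 : ({y : V | y ≠ 0} : Set V) = Set.univ \ {0} := by
      ext y
      simp
    rw [Nat.card_coe_set_eq, h1, Set.ncard_sdiff_singleton_of_mem (Set.mem_univ _), Set.ncard_univ]
  have e2 : Nat.card {y : V // y ∈ {y : V | y ≠ 0} ∧ φ y = 0} = Nat.card (LinearMap.ker φ) - 1 := by
    have h1 : ({y : V | y ∈ {y : V | y ≠ 0} ∧ φ y = 0} : Set V)
        = (LinearMap.ker φ : Set V) \ {0} := by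
      ext y
      simp [and_comm]
    have h2 : Nat.card {y : V // y ∈ {y : V | y ≠ 0} ∧ φ y = 0}
        = ({y : V | y ∈ {y : V | y ≠ 0} ∧ φ y = 0} : Set V).ncard := rfl
    rw [h2, h1, Set.ncard_sdiff_singleton_of_mem (by simp)]
    rfl
  rw [e1, e2, one_mul, hV, hK, ← hr, pow_succ, Nat.mul_sub, mul_one, mul_comm (Nat.card k)]
  omega

/-- Proof. `Γ` acts on `V`, and the orbit of `v` is the set `S` of all nonzero vectors: if `u ≠ 0` is
not a multiple of `v`, choose a functional `θ` with `θ v = 1`, `θ (u - v) = 0`; the transvection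
`y ↦ y + θ y • (u - v)` (in `Γ` by `tvg_basic`, part 2) maps `v` to `u`; if `u` is a multiple of `v`,
go through a vector independent of `v`. Apply `orbit_count` with `a = q = |k|`, `b = 1`,
`P y : φ y = 0`: with `n = finrank V`, `#{y ≠ 0 | φ y = 0} = q ^ (n - 1) - 1` and
`q (q ^ (n-1) - 1) ≤ q ^ n - 1`. The second inequality follows by the bijection `g ↦ g⁻¹`. -/
theorem SL_count (Γ : Subgroup (V ≃ₗ[k] V)) (hΓ : IsSL Γ) (hdim : 2 ≤ Module.finrank k V)
    (v : V) (hv : v ≠ 0) (φ : Module.Dual k V) (hφ : φ ≠ 0) :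
    Nat.card k * Nat.card {g : Γ // φ ((g : V ≃ₗ[k] V) v) = 0} ≤ Nat.card Γ ∧
    Nat.card k * Nat.card {g : Γ // φ (((g⁻¹ : Γ) : V ≃ₗ[k] V) v) = 0} ≤ Nat.card Γ := by
  classical
  have : Finite V := Module.finite_of_finite k
  have : Finite (V ≃ₗ[k] V) :=
    Finite.of_injective (fun g : V ≃ₗ[k] V => (g : V → V)) DFunLike.coe_injective
  have hT : ∀ (v : V) (φ : Module.Dual k V), v ≠ 0 → φ ≠ 0 → φ v = 0 → ∀ t : k,
      ∃ x : Γ, ∀ y, (x : V ≃ₗ[k] V) y = y + (t * φ y) • v :=
    fun v φ hv hφ h t => (tvg_basic Γ hΓ v φ hv hφ h).2.1 t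
  have key : Nat.card k * Nat.card {g : Γ // φ ((g : V ≃ₗ[k] V) v) = 0} ≤ Nat.card Γ := by
    have h := orbit_count (H := Γ) (Ω := V) v ({y : V | y ≠ 0}) (by
      intro y
      constructor
      · intro hy
        obtain ⟨x, hx⟩ := exists_map_vec Γ hT hdim v y hv hy
        exact ⟨x, hx⟩
      · rintro ⟨g, hg⟩
        intro h0
        rw [h0] at hg
        apply hv
        have h1 : (g : V ≃ₗ[k] V) v = 0 := hg
        exact (LinearEquiv.map_eq_zero_iff (g : V ≃ₗ[k] V)).mp h1)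
      (fun y => φ y = 0) (Nat.card k) 1 (ker_count φ hφ)
    rw [one_mul] at h
    exact h
  refine ⟨key, ?_⟩
  have e : Nat.card {g : Γ // φ (((g⁻¹ : Γ) : V ≃ₗ[k] V) v) = 0}
      = Nat.card {g : Γ // φ ((g : V ≃ₗ[k] V) v) = 0} := by
    refine Nat.card_congr ((Equiv.inv Γ).subtypeEquiv ?_)
    intro g
    rfl
  rw [e]
  exact key

end H49KE
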