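import Pool.Agent.H49.KE.Defs
import Pool.Agent.H49.KE.L1
import Pool.Agent.H49.KE.L2

namespace H49KE

open H49KA H49KB H49KC

universe u v w

variable {k : Type} [Field k] [Finite k] {V : Type} [AddCommGroup V] [Module k V]
  [FiniteDimensional k V]

omit [Finite k] [FiniteDimensional k V] in
private lemma l4_eq {Γ : Subgroup (V ≃ₗ[k] V)} {x z : Γ}
    (h : ∀ y, (x : V ≃ₗ[k] V) y = (z : V ≃ₗ[k] V) y) : x = z :=
  Subtype.ext (LinearEquiv.ext h)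

omit [Finite k] [FiniteDimensional k V] in
private lemma l4_comm {Γ : Subgroup (V ≃ₗ[k] V)} {v w : V} {φ ψ : Module.Dual k V}
    (h1 : φ w = 0) (h2 : ψ v = 0) {x z : Γ} {s t : k}
    (hx : ∀ y, (x : V ≃ₗ[k] V) y = y + (s * φ y) • v)
    (hz : ∀ y, (z : V ≃ₗ[k] V) y = y + (t * ψ y) • w) : Commute x z := by
  refine l4_eq fun y => ?_
  have e1 : ((x * z : Γ) : V ≃ₗ[k] V) y = (x : V ≃ₗ[k] V) ((z : V ≃ₗ[k] V) y) := rfl
  have e2 : ((z * x : Γ) : V ≃ₗ[k] V) y = (z : V ≃ₗ[k] V) ((x : V ≃ₗ[k] V) y) := rfl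
  rw [e1, e2, hx, hz, hz, hx, map_add, map_add, map_smul, map_smul, h1, h2, smul_zero, smul_zero,
    add_zero, add_zero]
  abel

/-- commutation of the groups -/
private lemma l4_commG (Γ : Subgroup (V ≃ₗ[k] V)) (hΓ : IsSL Γ) {v w : V} {φ ψ : Module.Dual k V}
    (hv : v ≠ 0) (hφ : φ ≠ 0) (h : φ v = 0) (hw : w ≠ 0) (hψ : ψ ≠ 0) (h' : ψ w = 0)
    (h1 : φ w = 0) (h2 : ψ v = 0) : ∀ a ∈ tvg Γ v φ, ∀ b ∈ tvg Γ w ψ, Commute a b := by
  intro a ha b hb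
  obtain ⟨s, hs⟩ := ((tvg_basic Γ hΓ v φ hv hφ h).1 a).1 ha
  obtain ⟨t, ht⟩ := ((tvg_basic Γ hΓ w ψ hw hψ h').1 b).1 hb
  exact l4_comm h1 h2 hs ht

omit [Finite k] [FiniteDimensional k V] in
private lemma l4_one {Γ : Subgroup (V ≃ₗ[k] V)} {v : V} {φ : Module.Dual k V} {x : Γ}
    (hx : ∀ y, (x : V ≃ₗ[k] V) y = y + ((0 : k) * φ y) • v) : x = 1 := by
  refine l4_eq fun y => ?_
  rw [hx, zero_mul, zero_smul, add_zero]
  rfl

private lemma l4_spec (Γ : Subgroup (V ≃ₗ[k] V)) (hΓ : IsSL Γ) {v w : V} {φ ψ : Module.Dual k V}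
    (hv : v ≠ 0) (hφ : φ ≠ 0) (h : φ v = 0) (hw : w ≠ 0) (hψ : ψ ≠ 0) (h' : ψ w = 0)
    (h1 : φ w ≠ 0) (h2 : ψ v = 0) : Spec (tvg Γ v φ) (tvg Γ w ψ) (tvg Γ v ψ) := by
  intro a ha b hb
  obtain ⟨s, hs⟩ := ((tvg_basic Γ hΓ v φ hv hφ h).1 a).1 ha
  obtain ⟨t, ht⟩ := ((tvg_basic Γ hΓ w ψ hw hψ h').1 b).1 hb
  obtain ⟨c, hc⟩ := (tvg_basic Γ hΓ v ψ hv hψ h2).2.1 (t * s * φ w)
  have hcC : c ∈ tvg Γ v ψ := ((tvg_basic Γ hΓ v ψ hv hψ h2).1 c).2 ⟨_, hc⟩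
  have e : a * b = c * (b * a) := by
    refine l4_eq fun y => ?_
    have e1 : ((a * b : Γ) : V ≃ₗ[k] V) y = (a : V ≃ₗ[k] V) ((b : V ≃ₗ[k] V) y) := rfl
    have e2 : ((c * (b * a) : Γ) : V ≃ₗ[k] V) y =
      (c : V ≃ₗ[k] V) ((b : V ≃ₗ[k] V) ((a : V ≃ₗ[k] V) y)) := rfl
    rw [e1, e2, hs, ht, hc, ht, hs]
    simp only [map_add, map_smul, h2, h', smul_eq_mul, mul_zero, add_zero]
    module
  have e' : a * b * a⁻¹ * b⁻¹ = c := by
    rw [e]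
    group
  refine ⟨e' ▸ hcC, fun h3 => ?_, fun d hd => ?_⟩
  · rw [e'] at h3
    obtain ⟨y, hy⟩ : ∃ y, ψ y ≠ 0 := by
      by_contra hcon
      push Not at hcon
      exact hψ (LinearMap.ext hcon)
    have h4 := hc y
    rw [h3] at h4
    have h5 : ((1 : Γ) : V ≃ₗ[k] V) y = y := rfl
    rw [h5] at h4
    have h6 : (t * s * φ w * ψ y) • v = 0 := by
      have := add_left_cancel (a := y) (b := 0) (c := (t * s * φ w * ψ y) • v)
        (by rw [add_zero]; exact h4)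
      exact this.symm
    have h7 : t * s * φ w * ψ y = 0 := (smul_eq_zero.1 h6).resolve_right hv
    have h8 : t * s = 0 := by
      rcases mul_eq_zero.1 h7 with h9 | h9
      · exact (mul_eq_zero.1 h9).resolve_right h1
      · exact absurd h9 hy
    rcases mul_eq_zero.1 h8 with h9 | h9
    · right
      rw [h9] at ht
      exact l4_one ht
    · left
      rw [h9] at hs
      exact l4_one hs
  · obtain ⟨r, hr⟩ := ((tvg_basic Γ hΓ v ψ hv hψ h2).1 d).1 hd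
    exact ⟨l4_comm h h2 hs hr, l4_comm h2 h' ht hr⟩

private lemma l4_spec_symm {S : Type} [Group S] {A B C : Subgroup S} (h : Spec B A C) :
    Spec A B C := by
  intro a ha b hb
  obtain ⟨h1, h2, h3⟩ := h b hb a ha
  have e : a * b * a⁻¹ * b⁻¹ = (b * a * b⁻¹ * a⁻¹)⁻¹ := by group
  refine ⟨?_, fun h4 => ?_, fun c hc => ⟨(h3 c hc).2, (h3 c hc).1⟩⟩
  · rw [e]
    exact C.inv_mem h1
  · rw [e, inv_eq_one] at h4
    exact (h2 h4).symm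

omit [Finite k] [FiniteDimensional k V] in
private lemma l4_congr (Γ : Subgroup (V ≃ₗ[k] V)) (v : V) (φ : Module.Dual k V) (c d : k)
    (hc : c ≠ 0) (hd : d ≠ 0) : tvg Γ (c • v) (d • φ) = tvg Γ v φ := by
  unfold tvg
  congr 1
  ext x
  constructor
  · rintro ⟨t, ht⟩
    refine ⟨t * c * d, fun y => ?_⟩
    rw [ht, LinearMap.smul_apply, smul_eq_mul, smul_smul]
    congr 2
    ring
  · rintro ⟨t, ht⟩
    refine ⟨t / (c * d), fun y => ?_⟩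
    rw [ht, LinearMap.smul_apply, smul_eq_mul, smul_smul]
    congr 2
    field_simp

/-- Proof. Write `A = tvg Γ v φ`, `B = tvg Γ w ψ` and use the description of the elements in
`tvg_basic`: `x y = y + s φ(y) v`, `z y = y + t ψ(y) w`.
(i) `φ w ≠ 0`, `ψ v ≠ 0`: `SL_opp`.
(ii) `φ w ≠ 0`, `ψ v = 0`: `x z x⁻¹ z⁻¹` is the map `y ↦ y + t s φ(w) ψ(y) v`, so `Spec A B C` with
`C = tvg Γ v ψ` (`C` commutes with `A` and `B` since `φ v = ψ v = ψ w = 0`).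
(iii) `φ w = 0`, `ψ v ≠ 0`: `x z x⁻¹ z⁻¹` is `y ↦ y - t s ψ(v) φ(y) w`, `C = tvg Γ w φ`.
(iv) `φ w = 0 = ψ v`: `A` and `B` commute. If `ψ` is not a multiple of `φ`, choose `y` with
`ψ y = 0`, `φ y ≠ 0` and `D = tvg Γ y ψ`: it commutes with `B` (`ψ y = ψ w = 0`), and `Spec A D C` by
(ii), with `C = tvg Γ v ψ`. If `ψ = λ φ` then `w` is not a multiple of `v` (otherwise `A = B`);
choose `η` with `η w = 0`, `η v ≠ 0` and `D = tvg Γ w η`: it commutes with `B` (`ψ w = η w = 0`), and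
`Spec A D C` by (iii), with `C = tvg Γ w φ`. -/
theorem SL_pairs (Γ : Subgroup (V ≃ₗ[k] V)) (hΓ : IsSL Γ) (A B : Subgroup Γ) (hA : A ∈ SgSL Γ)
    (hB : B ∈ SgSL Γ) (hAB : A ≠ B) : Opp k A B ∨ (∃ C ∈ SgSL Γ, Spec A B C) ∨
    ((∀ a ∈ A, ∀ b ∈ B, Commute a b) ∧ ∃ D ∈ SgSL Γ, (∀ d ∈ D, ∀ b ∈ B, Commute d b) ∧
      (Opp k A D ∨ ∃ C ∈ SgSL Γ, Spec A D C)) := by
  obtain ⟨v, φ, hv, hφ, h, rfl⟩ := hA
  obtain ⟨w, ψ, hw, hψ, h', rfl⟩ := hB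
  by_cases h1 : φ w = 0
  · by_cases h2 : ψ v = 0
    · refine Or.inr (Or.inr ⟨l4_commG Γ hΓ hv hφ h hw hψ h' h1 h2, ?_⟩)
      by_cases h3 : ∃ y, ψ y = 0 ∧ φ y ≠ 0
      · obtain ⟨y, hy1, hy2⟩ := h3
        have hy0 : y ≠ 0 := fun h4 => hy2 (by rw [h4, map_zero])
        refine ⟨tvg Γ y ψ, ⟨y, ψ, hy0, hψ, hy1, rfl⟩,
          l4_commG Γ hΓ hy0 hψ hy1 hw hψ h' h' hy1, Or.inr ⟨tvg Γ v ψ, ⟨v, ψ, hv, hψ, h2, rfl⟩,
          l4_spec Γ hΓ hv hφ h hy0 hψ hy1 hy2 h2⟩⟩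
      · push Not at h3
        obtain ⟨y, hy⟩ : ∃ y, ψ y ≠ 0 := by
          by_contra hcon
          push Not at hcon
          exact hψ (LinearMap.ext hcon)
        have hφψ : φ = (φ y / ψ y) • ψ := by
          refine LinearMap.ext fun z => ?_
          have h4 : ψ (z - (ψ z / ψ y) • y) = 0 := by
            rw [map_sub, map_smul, smul_eq_mul, div_mul_cancel₀ _ hy, sub_self]
          have h5 := h3 _ h4
          rw [map_sub, map_smul, smul_eq_mul, sub_eq_zero] at h5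
          rw [h5, LinearMap.smul_apply, smul_eq_mul]
          ring
        have hd : φ y / ψ y ≠ 0 := fun h4 => hφ (by rw [hφψ, h4, zero_smul])
        have hvw : v ∉ Submodule.span k {w} := by
          intro h4
          obtain ⟨c, rfl⟩ := Submodule.mem_span_singleton.1 h4
          have hc : c ≠ 0 := fun h5 => hv (by rw [h5, zero_smul])
          apply hAB
          rw [hφψ]
          exact l4_congr Γ w ψ c _ hc hd
        obtain ⟨η, hη1, hη2⟩ := Submodule.exists_le_ker_of_notMem hvw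
        have hηw : η w = 0 := hη2 (Submodule.mem_span_singleton_self w)
        have hη0 : η ≠ 0 := fun h4 => hη1 (by rw [h4, LinearMap.zero_apply])
        refine ⟨tvg Γ w η, ⟨w, η, hw, hη0, hηw, rfl⟩,
          l4_commG Γ hΓ hw hη0 hηw hw hψ h' hηw h', Or.inr ⟨tvg Γ w φ, ⟨w, φ, hw, hφ, h1, rfl⟩,
          l4_spec_symm (l4_spec Γ hΓ hw hη0 hηw hv hφ h hη1 h1)⟩⟩
    · refine Or.inr (Or.inl ⟨tvg Γ w φ, ⟨w, φ, hw, hφ, h1, rfl⟩,
        l4_spec_symm (l4_spec Γ hΓ hw hψ h' hv hφ h h2 h1)⟩)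
  · by_cases h2 : ψ v = 0
    · exact Or.inr (Or.inl ⟨tvg Γ v ψ, ⟨v, ψ, hv, hψ, h2, rfl⟩,
        l4_spec Γ hΓ hv hφ h hw hψ h' h1 h2⟩)
    · exact Or.inl (SL_opp Γ hΓ v w φ ψ h h' h1 h2)

end H49KE
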