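import Pool.Agent.H49.KE.Defs
import Pool.Agent.H49.KE.L2
import Pool.Agent.H49.KE.L3
import Pool.Agent.H49.KE.L4
import Mathlib.LinearAlgebra.Center

namespace H49KE

open H49KA H49KB H49KC

universe u v w

variable {k : Type} [Field k] [Finite k] {V : Type} [AddCommGroup V] [Module k V]
  [FiniteDimensional k V]

omit [Finite k] [FiniteDimensional k V] in
private lemma l5_pair (v : V) (hdim : 2 ≤ Module.finrank k V) :
    ∃ φ : Module.Dual k V, φ ≠ 0 ∧ φ v = 0 := by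
  have h1 : Submodule.span k {v} < ⊤ := by
    rw [lt_top_iff_ne_top]
    intro h2
    have h3 := finrank_span_le_card (R := k) ({v} : Set V)
    rw [h2, finrank_top] at h3
    simp at h3
    omega
  obtain ⟨φ, hφ, h2⟩ := Submodule.exists_le_ker_of_lt_top _ h1
  exact ⟨φ, hφ, h2 (Submodule.mem_span_singleton_self v)⟩

/-- Proof. `ne`: take `v ≠ 0` and `φ ≠ 0` with `φ v = 0` (`finrank V ≥ 2`). `card`, `conj`: `tvg_basic`.
`nt`: the transvection with `t = 1` is not scalar (it fixes `v`, so the scalar would be `1`, but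
`φ ≠ 0`). `rand`: by `SL_opp` and `tvg_basic` (4), if `Opp k A A_g` fails then `φ (g v) = 0` or
`φ (g⁻¹ v) = 0`; use `SL_count` (this gives the constant `2 ≤ 16`). `fix`: if `x` is not scalar
there is `v` with `x v` not a multiple of `v` (an exercise: if every vector is an eigenvector then
`x` is scalar; compare `Pool/Agent/H49` files or do it directly); take `φ ≠ 0` with `φ v = 0`,
`A = tvg Γ v φ`; if `x A x⁻¹ = A` then the nontrivial element with centre `v` has centre `x v`, so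
`x v` is a multiple of `v`. `pairs`: `SL_pairs`. -/
theorem rootGrp_SL (Γ : Subgroup (V ≃ₗ[k] V)) (hΓ : IsSL Γ) (hdim : 2 ≤ Module.finrank k V) :
    RootGrp 16 k ((Scal k V).subgroupOf Γ) (SgSL Γ) := by
  classical
  have : Finite V := Module.finite_of_finite k
  have : Finite (V ≃ₗ[k] V) :=
    Finite.of_injective (fun g : V ≃ₗ[k] V => (g : V → V)) DFunLike.coe_injective
  have hy : ∀ φ : Module.Dual k V, φ ≠ 0 → ∃ y, φ y ≠ 0 := by
    intro φ hφ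
    by_contra hcon
    push Not at hcon
    exact hφ (LinearMap.ext hcon)
  have hgv : ∀ (g : Γ) (v : V), v ≠ 0 → (g : V ≃ₗ[k] V) v ≠ 0 := by
    intro g v hv h0
    exact hv ((g : V ≃ₗ[k] V).map_eq_zero_iff.1 h0)
  have hinv' : ∀ (g : Γ) (y : V), ((g⁻¹ : Γ) : V ≃ₗ[k] V) ((g : V ≃ₗ[k] V) y) = y := by
    intro g y
    have h3 : ((g⁻¹ * g : Γ) : V ≃ₗ[k] V) y = y := by
      rw [inv_mul_cancel]
      rfl
    exact h3
  have hcz : ∀ (g : Γ) (φ : Module.Dual k V), φ ≠ 0 →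
      (φ.comp (((g⁻¹ : Γ) : V ≃ₗ[k] V) : V →ₗ[k] V)) ≠ 0 := by
    intro g φ hφ h0
    obtain ⟨y, hy1⟩ := hy φ hφ
    apply hy1
    have h1 := LinearMap.congr_fun h0 ((g : V ≃ₗ[k] V) y)
    have h2 : φ (((g⁻¹ : Γ) : V ≃ₗ[k] V) ((g : V ≃ₗ[k] V) y)) = 0 := h1
    rwa [hinv'] at h2
  have hcv : ∀ (g : Γ) (φ : Module.Dual k V) (v : V), φ v = 0 →
      (φ.comp (((g⁻¹ : Γ) : V ≃ₗ[k] V) : V →ₗ[k] V)) ((g : V ≃ₗ[k] V) v) = 0 := by
    intro g φ v h
    show φ (((g⁻¹ : Γ) : V ≃ₗ[k] V) ((g : V ≃ₗ[k] V) v)) = 0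
    rw [hinv', h]
  refine ⟨?_, ?_, ?_, ?_, ?_, ?_, ?_⟩
  · obtain ⟨v, hv⟩ : ∃ v : V, v ≠ 0 := by
      have h0 : 0 < Module.finrank k V := by omega
      have := Module.finrank_pos_iff.1 h0
      exact exists_ne 0
    obtain ⟨φ, hφ, h⟩ := l5_pair v hdim
    exact ⟨tvg Γ v φ, v, φ, hv, hφ, h, rfl⟩
  · rintro A ⟨v, φ, hv, hφ, h, rfl⟩
    exact (tvg_basic Γ hΓ v φ hv hφ h).2.2.1
  · rintro A ⟨v, φ, hv, hφ, h, rfl⟩
    obtain ⟨x, hx⟩ := (tvg_basic Γ hΓ v φ hv hφ h).2.1 1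
    refine ⟨x, ((tvg_basic Γ hΓ v φ hv hφ h).1 _).2 ⟨1, hx⟩, ?_⟩
    intro hmem
    rw [Subgroup.mem_subgroupOf] at hmem
    obtain ⟨c, hc⟩ := hmem
    have hc' : ∀ y : V, (x : V ≃ₗ[k] V) y = c • y := hc
    have h1 : c • v = (1 : k) • v := by
      rw [← hc' v, hx v, h, mul_zero, zero_smul, add_zero, one_smul]
    have hc1 : c = 1 := smul_left_injective k hv h1
    obtain ⟨y, hy1⟩ := hy φ hφ
    have h3 := hx y
    rw [hc' y, hc1, one_smul, left_eq_add, smul_eq_zero, one_mul] at h3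
    rcases h3 with h3 | h3
    · exact hy1 h3
    · exact hv h3
  · rintro A ⟨v, φ, hv, hφ, h, rfl⟩ g
    rw [(tvg_basic Γ hΓ v φ hv hφ h).2.2.2 g]
    exact ⟨_, _, hgv g v hv, hcz g φ hφ, hcv g φ v h, rfl⟩
  · rintro A ⟨v, φ, hv, hφ, h, rfl⟩
    obtain ⟨hc1, hc2⟩ := SL_count Γ hΓ hdim v hv φ hφ
    have h1 : Nat.card {g : Γ // ¬ Opp k (tvg Γ v φ)
        ((tvg Γ v φ).map (MulAut.conj g).toMonoidHom)} ≤
        Nat.card {g : Γ // φ ((g : V ≃ₗ[k] V) v) = 0} +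
        Nat.card {g : Γ // φ (((g⁻¹ : Γ) : V ≃ₗ[k] V) v) = 0} := by
      rw [← Nat.card_sum]
      have h2 : ∀ g : {g : Γ // ¬ Opp k (tvg Γ v φ)
          ((tvg Γ v φ).map (MulAut.conj g).toMonoidHom)},
          φ ((g.1 : V ≃ₗ[k] V) v) = 0 ∨ φ (((g.1⁻¹ : Γ) : V ≃ₗ[k] V) v) = 0 := by
        intro g
        by_contra hcon
        push Not at hcon
        apply g.2
        rw [(tvg_basic Γ hΓ v φ hv hφ h).2.2.2 g.1]
        exact SL_opp Γ hΓ v _ φ _ h (hcv g.1 φ v h) hcon.1 hcon.2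
      refine Nat.card_le_card_of_injective
        (fun g : {g : Γ // ¬ Opp k (tvg Γ v φ)
          ((tvg Γ v φ).map (MulAut.conj g).toMonoidHom)} =>
          if h3 : φ ((g.1 : V ≃ₗ[k] V) v) = 0 then
            (Sum.inl ⟨g.1, h3⟩ : {g : Γ // φ ((g : V ≃ₗ[k] V) v) = 0} ⊕
              {g : Γ // φ (((g⁻¹ : Γ) : V ≃ₗ[k] V) v) = 0})
          else Sum.inr ⟨g.1, (h2 g).resolve_left h3⟩) ?_
      intro a b hab
      dsimp only at hab
      split_ifs at hab with ha hb hb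
      · have h4 := Sum.inl.inj hab
        have h5 := congrArg Subtype.val h4
        exact Subtype.ext h5
      · have h4 := Sum.inr.inj hab
        have h5 := congrArg Subtype.val h4
        exact Subtype.ext h5
    calc Nat.card k * _ ≤ Nat.card k * _ := Nat.mul_le_mul_left _ h1
      _ ≤ Nat.card Γ + Nat.card Γ := by rw [mul_add]; exact add_le_add hc1 hc2
      _ ≤ 16 * Nat.card Γ := by omega
  · intro x hx
    obtain ⟨v, hli⟩ : ∃ v : V, LinearIndependent k ![v, (x : V ≃ₗ[k] V) v] := by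
      by_contra hcon
      push Not at hcon
      obtain ⟨a, ha⟩ := LinearMap.exists_eq_smul_id_of_forall_notLinearIndependent
        (f := ((x : V ≃ₗ[k] V) : V →ₗ[k] V)) hcon
      apply hx
      rw [Subgroup.mem_subgroupOf]
      refine ⟨a, fun y => ?_⟩
      have h1 := LinearMap.congr_fun ha y
      exact h1
    have hv : v ≠ 0 := hli.ne_zero 0
    have hvx : ∀ c : k, c • v ≠ (x : V ≃ₗ[k] V) v := by
      intro c hc
      have h1 := LinearIndependent.pair_iff.1 hli c (-1) (by rw [hc]; simp)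
      have h2 := h1.2
      simp at h2
    obtain ⟨φ, hφ, h⟩ := l5_pair v hdim
    refine ⟨tvg Γ v φ, ⟨v, φ, hv, hφ, h, rfl⟩, ?_⟩
    intro heq
    rw [(tvg_basic Γ hΓ v φ hv hφ h).2.2.2 x] at heq
    obtain ⟨z, hz⟩ := (tvg_basic Γ hΓ v φ hv hφ h).2.1 1
    have hmem : z ∈ tvg Γ v φ := ((tvg_basic Γ hΓ v φ hv hφ h).1 _).2 ⟨1, hz⟩
    rw [← heq, (tvg_basic Γ hΓ _ _ (hgv x v hv) (hcz x φ hφ) (hcv x φ v h)).1] at hmem
    obtain ⟨t, ht⟩ := hmem
    obtain ⟨y, hy1⟩ := hy φ hφ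
    have h3 := ht y
    rw [hz y, add_right_inj] at h3
    have h5 : 1 * φ y ≠ 0 := mul_ne_zero one_ne_zero hy1
    have h6 : t * (φ.comp (((x⁻¹ : Γ) : V ≃ₗ[k] V) : V →ₗ[k] V)) y ≠ 0 := by
      intro h0
      rw [h0, zero_smul, smul_eq_zero] at h3
      rcases h3 with h3 | h3
      · exact h5 h3
      · exact hv h3
    apply hvx ((t * (φ.comp (((x⁻¹ : Γ) : V ≃ₗ[k] V) : V →ₗ[k] V)) y)⁻¹ * (1 * φ y))
    rw [mul_smul, h3, smul_smul, inv_mul_cancel₀ h6, one_smul]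
  · intro P hP Q hQ hPQ
    rcases SL_pairs Γ hΓ P Q hP hQ hPQ with h1 | h1 | ⟨h1, D, hD, h2, h3⟩
    · exact Or.inl h1
    · exact Or.inr (Or.inl h1)
    · exact Or.inr (Or.inr ⟨h1, D, hD, h2, h3⟩)

end H49KE
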