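import Pool.Agent.H49.KE.Defs
import Pool.Agent.H49.KB.CW

namespace H49KE

open H49KA H49KB H49KC

universe u v w

variable {k : Type} [Field k] [Finite k] {V : Type} [AddCommGroup V] [Module k V]
  [FiniteDimensional k V]

omit [Finite k] in
/-- a vector with prescribed values of the polar form -/
private theorem O1_dual (Q : QuadraticForm k V)
    (hQ : ∀ x, (∀ y, QuadraticMap.polar Q x y = 0) → x = 0) (φ : Module.Dual k V) :
    ∃ y, ∀ u, QuadraticMap.polar Q u y = φ u := by
  have hinj : Function.Injective (QuadraticMap.polarBilin Q) := by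
    rw [injective_iff_map_eq_zero]
    intro x hx
    exact hQ x fun y => LinearMap.congr_fun hx y
  have hsurj : Function.Surjective (QuadraticMap.polarBilin Q) :=
    (LinearMap.injective_iff_surjective_of_finrank_eq_finrank
      (Subspace.dual_finrank_eq (K := k) (V := V)).symm).1 hinj
  obtain ⟨y, hy⟩ := hsurj φ
  refine ⟨y, fun u => ?_⟩
  rw [QuadraticMap.polar_comm]
  exact LinearMap.congr_fun hy u

omit [Finite k] [FiniteDimensional k V] in
/-- a functional with prescribed values on a linearly independent family -/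
private theorem O1_fun {n : ℕ} (v : Fin n → V) (hv : LinearIndependent k v) (c : Fin n → k) :
    ∃ φ : Module.Dual k V, ∀ i, φ (v i) = c i := by
  have hinj : LinearMap.ker (Fintype.linearCombination k v) = ⊥ := by
    rw [LinearMap.ker_eq_bot]
    exact linearIndependent_iff_injective_fintypeLinearCombination.1 hv
  obtain ⟨g, hg⟩ := LinearMap.exists_leftInverse_of_injective _ hinj
  refine ⟨(Fintype.linearCombination k c).comp g, fun i => ?_⟩
  have h1 : v i = Fintype.linearCombination k v (Pi.single i 1) := by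
    simp [Fintype.linearCombination_apply_single]
  have h2 : g (v i) = Pi.single i 1 := by
    rw [h1]
    exact LinearMap.congr_fun hg _
  rw [LinearMap.comp_apply, h2]
  simp [Fintype.linearCombination_apply_single]

omit [Finite k] [FiniteDimensional k V] in
private theorem O1_add (Q : QuadraticForm k V) (y u : V) (hu : Q u = 0) (c : k) :
    Q (y + c • u) = Q y + c * QuadraticMap.polar Q u y := by
  have h := QuadraticMap.map_add Q y (c • u)
  rw [h, QuadraticMap.map_smul, hu, QuadraticMap.polar_smul_right, smul_zero, add_zero,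
    smul_eq_mul, QuadraticMap.polar_comm]

/-- Proof. `u, w` are independent, so some `y₀` has `polar Q u y₀ = a`, `polar Q w y₀ = b`
(nondegeneracy: `y ↦ polar Q · y` is a bijection onto the dual, as in `ROm_dual` of
`Pool/Agent/H49/KB/ROm.lean`). If `a = b = 0` take `y = 0`. If `a ≠ 0` take
`y = y₀ - (Q y₀ / a) u`, if `b ≠ 0` take `y = y₀ - (Q y₀ / b) w`: `Q (y₀ + c u) = Q y₀ + c a`, and the
values of the polar form are not changed. The second part is the same. -/
theorem Om_hyp (Q : QuadraticForm k V)
    (hQ : ∀ x, (∀ y, QuadraticMap.polar Q x y = 0) → x = 0) :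
    (∀ u w : V, TS Q u w → ∀ a b : k,
      ∃ y, Q y = 0 ∧ QuadraticMap.polar Q u y = a ∧ QuadraticMap.polar Q w y = b) ∧
    (∀ u : V, u ≠ 0 → Q u = 0 → ∀ a : k, ∃ y, Q y = 0 ∧ QuadraticMap.polar Q u y = a) := by
  constructor
  · rintro u w ⟨hli, hu, hw, huw⟩ a b
    obtain ⟨φ, hφ⟩ := O1_fun ![u, w] hli ![a, b]
    obtain ⟨y, hy⟩ := O1_dual Q hQ φ
    have hφ0 : φ u = a := by simpa using hφ 0
    have hφ1 : φ w = b := by simpa using hφ 1
    have hwu : QuadraticMap.polar Q w u = 0 := by rw [QuadraticMap.polar_comm, huw]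
    have huu : QuadraticMap.polar Q u u = 0 := by
      rw [QuadraticMap.polar_self, hu, smul_zero]
    have hww : QuadraticMap.polar Q w w = 0 := by
      rw [QuadraticMap.polar_self, hw, smul_zero]
    by_cases ha : a = 0
    · by_cases hb : b = 0
      · refine ⟨0, by simp, ?_, ?_⟩
        · rw [ha, QuadraticMap.polar_zero_right]
        · rw [hb, QuadraticMap.polar_zero_right]
      · refine ⟨y + (-(Q y / b)) • w, ?_, ?_, ?_⟩
        · rw [O1_add Q y w hw, hy, hφ1]
          field_simp
          ring
        · rw [QuadraticMap.polar_add_right, QuadraticMap.polar_smul_right, huw, hy, hφ0,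
            smul_zero, add_zero]
        · rw [QuadraticMap.polar_add_right, QuadraticMap.polar_smul_right, hww, hy, hφ1,
            smul_zero, add_zero]
    · refine ⟨y + (-(Q y / a)) • u, ?_, ?_, ?_⟩
      · rw [O1_add Q y u hu, hy, hφ0]
        field_simp
        ring
      · rw [QuadraticMap.polar_add_right, QuadraticMap.polar_smul_right, huu, hy, hφ0,
          smul_zero, add_zero]
      · rw [QuadraticMap.polar_add_right, QuadraticMap.polar_smul_right, hwu, hy, hφ1,
          smul_zero, add_zero]
  · intro u hu0 hu a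
    by_cases ha : a = 0
    · exact ⟨0, by simp, by rw [ha, QuadraticMap.polar_zero_right]⟩
    have hli : LinearIndependent k ![u] := by
      rw [linearIndependent_unique_iff]
      simpa using hu0
    obtain ⟨φ, hφ⟩ := O1_fun ![u] hli ![a]
    obtain ⟨y, hy⟩ := O1_dual Q hQ φ
    have hφ0 : φ u = a := by simpa using hφ 0
    have huu : QuadraticMap.polar Q u u = 0 := by
      rw [QuadraticMap.polar_self, hu, smul_zero]
    refine ⟨y + (-(Q y / a)) • u, ?_, ?_⟩
    · rw [O1_add Q y u hu, hy, hφ0]
      field_simp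
      ring
    · rw [QuadraticMap.polar_add_right, QuadraticMap.polar_smul_right, huu, hy, hφ0,
        smul_zero, add_zero]

/-- Proof. Let `W = {z | ∀ u ∈ U, polar Q u z = 0}`; `finrank W = finrank V - finrank U ≥ 3`, so
`H49KB.chev_warn` gives `0 ≠ z₁ ∈ W` with `Q z₁ = 0`. There is `y` with `polar Q z₁ y ≠ 0`; since
`V = U ⊕ W` (`U` is nondegenerate) we may take `y ∈ W`. Then `z = y + c z₁` has
`Q z = Q y + c polar Q z₁ y`, choose `c`. For `a = 0` take `z = z₁`. -/
theorem Om_univ (Q : QuadraticForm k V)
    (hQ : ∀ x, (∀ y, QuadraticMap.polar Q x y = 0) → x = 0) (U : Submodule k V)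
    (hU : Module.finrank k U + 3 ≤ Module.finrank k V)
    (hnd : ∀ x ∈ U, (∀ y ∈ U, QuadraticMap.polar Q x y = 0) → x = 0) (a : k) :
    ∃ z, z ≠ 0 ∧ (∀ u ∈ U, QuadraticMap.polar Q u z = 0) ∧ Q z = a := by
  classical
  let L : V →ₗ[k] Module.Dual k U :=
    { toFun := fun y => (QuadraticMap.polarBilin Q y).comp U.subtype
      map_add' := fun x y => by ext u; simp
      map_smul' := fun c x => by ext u; simp }
  have hL : ∀ y, L y = 0 ↔ ∀ u ∈ U, QuadraticMap.polar Q u y = 0 := by
    intro y
    constructor
    · intro h u hu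
      have := LinearMap.congr_fun h ⟨u, hu⟩
      rw [QuadraticMap.polar_comm]
      simpa [L] using this
    · intro h
      ext u
      have := h u u.2
      rw [QuadraticMap.polar_comm] at this
      simpa [L] using this
  have hrank := LinearMap.finrank_range_add_finrank_ker L
  have hrange : Module.finrank k (LinearMap.range L) ≤ Module.finrank k U := by
    have h := Submodule.finrank_le (LinearMap.range L)
    rwa [Subspace.dual_finrank_eq] at h
  have hker : 2 * Nat.card Unit < Module.finrank k (LinearMap.ker L) := by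
    have : Nat.card Unit = 1 := by simp
    omega
  obtain ⟨z₁, hz₁, hz₁'⟩ := H49KB.chev_warn (LinearMap.ker L)
    (fun _ : Unit => Q.comp (LinearMap.ker L).subtype) hker
  have hQz : Q (z₁ : V) = 0 := by simpa using hz₁' ()
  have hz0 : (z₁ : V) ≠ 0 := fun h => hz₁ (Subtype.ext h)
  have hzU : ∀ u ∈ U, QuadraticMap.polar Q u (z₁ : V) = 0 := (hL _).1 z₁.2
  by_cases ha : a = 0
  · exact ⟨z₁, hz0, hzU, by rw [hQz, ha]⟩
  obtain ⟨y, hy⟩ : ∃ y, QuadraticMap.polar Q (z₁ : V) y ≠ 0 := by
    by_contra hcon
    push Not at hcon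
    exact hz0 (hQ _ hcon)
  -- the restriction of L to U is bijective
  have hinj : Function.Injective (L.comp U.subtype) := by
    rw [injective_iff_map_eq_zero]
    intro x hx
    apply Subtype.ext
    refine hnd x x.2 fun y hy => ?_
    have := (hL x).1 hx y hy
    rw [QuadraticMap.polar_comm]
    exact this
  have hsurj : Function.Surjective (L.comp U.subtype) :=
    (LinearMap.injective_iff_surjective_of_finrank_eq_finrank
      (Subspace.dual_finrank_eq (K := k) (V := U)).symm).1 hinj
  obtain ⟨u₀, hu₀⟩ := hsurj (L y)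
  have hw : ∀ u ∈ U, QuadraticMap.polar Q u (y - u₀) = 0 := by
    rw [← hL, map_sub, sub_eq_zero]
    exact hu₀.symm
  have hzw : QuadraticMap.polar Q (z₁ : V) (y - u₀) ≠ 0 := by
    rw [QuadraticMap.polar_sub_right]
    have : QuadraticMap.polar Q (z₁ : V) (u₀ : V) = 0 := by
      rw [QuadraticMap.polar_comm]
      exact hzU _ u₀.2
    rwa [this, sub_zero]
  set w₀ := y - (u₀ : V) with hw₀
  refine ⟨w₀ + ((a - Q w₀) / QuadraticMap.polar Q (z₁ : V) w₀) • (z₁ : V), ?_, ?_, ?_⟩
  · intro h0
    have h1 := O1_add Q w₀ (z₁ : V) hQz ((a - Q w₀) / QuadraticMap.polar Q (z₁ : V) w₀)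
    rw [h0, QuadraticMap.map_zero, div_mul_cancel₀ _ hzw] at h1
    apply ha
    rw [add_sub_cancel] at h1
    exact h1.symm
  · intro u hu
    rw [QuadraticMap.polar_add_right, QuadraticMap.polar_smul_right, hw u hu, hzU u hu,
      smul_zero, add_zero]
  · rw [O1_add Q w₀ (z₁ : V) hQz, div_mul_cancel₀ _ hzw, add_sub_cancel]

/-- Proof. Let `u* ` be singular with `polar Q u u* = 1` (`Om_hyp`) and `U = ⟨u, u*⟩`; `Om_univ` with
`a = 0` gives `w`. It is not a multiple of `u` (`polar Q w u* = 0`). -/
theorem TS_exists (Q : QuadraticForm k V)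
    (hQ : ∀ x, (∀ y, QuadraticMap.polar Q x y = 0) → x = 0) (hdim : 5 ≤ Module.finrank k V)
    (u : V) (hu : u ≠ 0) (hu' : Q u = 0) : ∃ w, TS Q u w := by
  obtain ⟨v, hv, huv⟩ := (Om_hyp Q hQ).2 u hu hu' 1
  have hvu : QuadraticMap.polar Q v u = 1 := by rw [QuadraticMap.polar_comm, huv]
  have huu : QuadraticMap.polar Q u u = 0 := by
    rw [QuadraticMap.polar_self, hu', smul_zero]
  have hvv : QuadraticMap.polar Q v v = 0 := by
    rw [QuadraticMap.polar_self, hv, smul_zero]
  have hdimU : Module.finrank k (Submodule.span k ({u, v} : Set V)) ≤ 2 := by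
    classical
    have h := finrank_span_le_card (R := k) ({u, v} : Set V)
    refine h.trans ?_
    have : ({u, v} : Set V).toFinset = ({u, v} : Finset V) := by ext; simp
    rw [this]
    exact Finset.card_le_two
  obtain ⟨w, hw0, hwU, hQw⟩ := Om_univ Q hQ (Submodule.span k {u, v}) (by omega) (by
    intro x hx hx'
    rw [Submodule.mem_span_pair] at hx
    obtain ⟨a, b, rfl⟩ := hx
    have h1 := hx' u (Submodule.subset_span (by simp))
    have h2 := hx' v (Submodule.subset_span (by simp))
    rw [QuadraticMap.polar_add_left, QuadraticMap.polar_smul_left,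
      QuadraticMap.polar_smul_left, huu, hvu] at h1
    rw [QuadraticMap.polar_add_left, QuadraticMap.polar_smul_left,
      QuadraticMap.polar_smul_left, huv, hvv] at h2
    have hb : b = 0 := by simpa using h1
    have ha : a = 0 := by simpa using h2
    rw [ha, hb]
    simp) 0
  have huw : QuadraticMap.polar Q u w = 0 := hwU u (Submodule.subset_span (by simp))
  have hvw : QuadraticMap.polar Q v w = 0 := hwU v (Submodule.subset_span (by simp))
  refine ⟨w, ?_, hu', hQw, huw⟩
  rw [LinearIndependent.pair_iff]
  intro a b hab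
  have h1 := congrArg (QuadraticMap.polar Q v) hab
  rw [QuadraticMap.polar_add_right, QuadraticMap.polar_smul_right,
    QuadraticMap.polar_smul_right, hvu, hvw, QuadraticMap.polar_zero_right] at h1
  have ha : a = 0 := by simpa using h1
  rw [ha, zero_smul, zero_add] at hab
  exact ⟨ha, (smul_eq_zero.1 hab).resolve_right hw0⟩

end H49KE
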