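import Pool.Agent.H49.KE.Defs
import Pool.Agent.H49.KC.FO

namespace H49KE

open H49KA H49KB H49KC

universe u v w

variable {k : Type} [Field k] [Finite k] {V : Type} [AddCommGroup V] [Module k V]
  [FiniteDimensional k V]

section aux

variable {Q : QuadraticForm k V} {u w : V}

private def EE (Q : QuadraticForm k V) (u w : V) (t : k) (x : V ≃ₗ[k] V) : Prop :=
  ∀ y, x y = y + (t * QuadraticMap.polar Q y u) • w - (t * QuadraticMap.polar Q y w) • u

private theorem pl_ee (hu : Q u = 0) (huw : QuadraticMap.polar Q u w = 0) {t : k}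
    {x : V ≃ₗ[k] V} (hx : EE Q u w t x) (y : V) :
    QuadraticMap.polar Q (x y) u = QuadraticMap.polar Q y u := by
  have h1 : QuadraticMap.polar Q u u = 0 := by rw [QuadraticMap.polar_self, hu, smul_zero]
  have h2 : QuadraticMap.polar Q w u = 0 := by rw [QuadraticMap.polar_comm, huw]
  rw [hx y, QuadraticMap.polar_sub_left, QuadraticMap.polar_add_left,
    QuadraticMap.polar_smul_left, QuadraticMap.polar_smul_left, h1, h2]
  simp

private theorem pl_ee' (hw : Q w = 0) (huw : QuadraticMap.polar Q u w = 0) {t : k}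
    {x : V ≃ₗ[k] V} (hx : EE Q u w t x) (y : V) :
    QuadraticMap.polar Q (x y) w = QuadraticMap.polar Q y w := by
  have h1 : QuadraticMap.polar Q w w = 0 := by rw [QuadraticMap.polar_self, hw, smul_zero]
  rw [hx y, QuadraticMap.polar_sub_left, QuadraticMap.polar_add_left,
    QuadraticMap.polar_smul_left, QuadraticMap.polar_smul_left, h1, huw]
  simp

private theorem ee_mul (h : TS Q u w) {s t : k} {x y : V ≃ₗ[k] V} (hx : EE Q u w s x)
    (hy : EE Q u w t y) : EE Q u w (s + t) (x * y) := by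
  intro z
  obtain ⟨-, hu, hw, huw⟩ := h
  rw [LinearEquiv.mul_apply, hx (y z), pl_ee hu huw hy, pl_ee' hw huw hy, hy z]
  module

private theorem ee_inv (h : TS Q u w) {t : k} {x : V ≃ₗ[k] V} (hx : EE Q u w t x) :
    EE Q u w (-t) x⁻¹ := by
  intro z
  obtain ⟨-, hu, hw, huw⟩ := h
  have h1 : x (x⁻¹ z) = z := by
    rw [← LinearEquiv.mul_apply, mul_inv_cancel]
    rfl
  have h2 := hx (x⁻¹ z)
  rw [h1] at h2
  have h3 := pl_ee hu huw hx (x⁻¹ z)
  have h4 := pl_ee' hw huw hx (x⁻¹ z)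
  rw [h1] at h3 h4
  rw [← h3, ← h4] at h2
  have h5 : x⁻¹ z = z - (t * QuadraticMap.polar Q z u) • w + (t * QuadraticMap.polar Q z w) • u := by
    nth_rewrite 2 [h2]
    abel
  rw [h5]
  module

private theorem mem_sgg (Γ : Subgroup (V ≃ₗ[k] V)) (h : TS Q u w) (x : Γ) :
    x ∈ sgg Γ Q u w ↔ ∃ t : k, EE Q u w t x := by
  constructor
  · intro hx
    refine Subgroup.closure_induction (p := fun (x : Γ) _ => ∃ t : k, EE Q u w t (x : V ≃ₗ[k] V))
      ?_ ?_ ?_ ?_ hx
    · rintro x ⟨t, ht⟩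
      exact ⟨t, ht⟩
    · refine ⟨0, fun y => ?_⟩
      simp
    · rintro x y _ _ ⟨s, hs⟩ ⟨t, ht⟩
      exact ⟨s + t, ee_mul h hs ht⟩
    · rintro x _ ⟨t, ht⟩
      exact ⟨-t, ee_inv h ht⟩
  · rintro ⟨t, ht⟩
    exact Subgroup.subset_closure ⟨t, ht⟩

private theorem ee_exists (Q : QuadraticForm k V)
    (hQ : ∀ x, (∀ y, QuadraticMap.polar Q x y = 0) → x = 0) (hdim : 7 ≤ Module.finrank k V)
    (u w : V) (h : TS Q u w) (t : k) : ∃ x ∈ ⁅OGrp Q, OGrp Q⁆, EE Q u w t x := by
  obtain ⟨hli, hu, hw, huw⟩ := h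
  by_cases ht : t = 0
  · refine ⟨1, Subgroup.one_mem _, fun y => ?_⟩
    rw [ht]
    simp
  · have hw' : Q (t • w) = 0 := by rw [QuadraticMap.map_smul, hw, smul_zero]
    have huw' : QuadraticMap.polar Q u (t • w) = 0 := by
      rw [QuadraticMap.polar_smul_right, huw, smul_zero]
    have hli' : LinearIndependent k ![u, t • w] := by
      rw [LinearIndependent.pair_iff] at hli ⊢
      intro a b hab
      rw [smul_smul] at hab
      obtain ⟨h1, h2⟩ := hli a (b * t) hab
      exact ⟨h1, (mul_eq_zero.1 h2).resolve_right ht⟩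
    obtain ⟨x, hx, hx'⟩ := siegel_exists Q u (t • w) hu hw' huw'
    refine ⟨x, siegel_comm Q hQ hdim u (t • w) hli' hu hw' huw' x hx', fun y => ?_⟩
    rw [hx', QuadraticMap.polar_smul_right, smul_smul, smul_eq_mul,
      mul_comm t (QuadraticMap.polar Q y u)]

private theorem ee_inj (hQ : ∀ x, (∀ y, QuadraticMap.polar Q x y = 0) → x = 0) (h : TS Q u w)
    {s t : k} {x : V ≃ₗ[k] V} (hs : EE Q u w s x) (ht : EE Q u w t x) : s = t := by
  obtain ⟨hli, hu, hw, huw⟩ := h
  by_contra hne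
  have hst : s - t ≠ 0 := sub_ne_zero.2 hne
  have hli2 := LinearIndependent.pair_iff.1 hli
  have hu0 : u = 0 := by
    apply hQ
    intro y
    have h1 := (hs y).symm.trans (ht y)
    have h2 : (-((s - t) * QuadraticMap.polar Q y w)) • u +
        ((s - t) * QuadraticMap.polar Q y u) • w = 0 := by
      have h3 : (y + (s * QuadraticMap.polar Q y u) • w - (s * QuadraticMap.polar Q y w) • u) -
        (y + (t * QuadraticMap.polar Q y u) • w - (t * QuadraticMap.polar Q y w) • u) = 0 :=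
        sub_eq_zero.2 h1
      rw [← h3]
      module
    have h4 := (hli2 _ _ h2).2
    rw [QuadraticMap.polar_comm]
    exact (mul_eq_zero.1 h4).resolve_left hst
  have h5 := (hli2 1 0 (by rw [hu0]; simp)).1
  exact one_ne_zero h5

private theorem pl_pres {g : V ≃ₗ[k] V} (hg : g ∈ OGrp Q) (x y : V) :
    QuadraticMap.polar Q (g x) (g y) = QuadraticMap.polar Q x y := by
  have hg' : ∀ x, Q (g x) = Q x := hg
  rw [QuadraticMap.polar, QuadraticMap.polar, ← map_add, hg', hg', hg']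

end aux

/-- Proof. Write `E_t y = y + (t * polar y u) • w - (t * polar y w) • u`. (1) `E_t` fixes `u` and `w`, so
`E_s E_t = E_{s+t}` and the set of all `x : Γ` of the form `E_t` is a subgroup. (2) `E_t ∈ Γ` by the
field `sieg` of `H49KC.fsp_Om` (or the lemma on Siegel maps used in its proof,
`Pool/Agent/H49/KB/SE.lean`, `SC.lean`), applied to `u` and `t • w`. (3) `t ↦ E_t` is injective:
choose `y` with `polar y u = 1`, `polar y w = 0`. (4) `g ∈ Γ` preserves `Q` and its polar form, so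
`g E_t g⁻¹` is the map of `(g u, g w)`. (5) `polar y (a u + b w) • (c u + d w) -
polar y (c u + d w) • (a u + b w) = (a d - b c) (polar y u • w - polar y w • u)`. -/
theorem sgg_basic (Q : QuadraticForm k V)
    (hQ : ∀ x, (∀ y, QuadraticMap.polar Q x y = 0) → x = 0) (hdim : 7 ≤ Module.finrank k V)
    (Γ : Subgroup (V ≃ₗ[k] V)) (hΓ : Γ = ⁅OGrp Q, OGrp Q⁆) (u w : V) (h : TS Q u w) :
    (∀ x : Γ, x ∈ sgg Γ Q u w ↔ ∃ t : k, ∀ y, (x : V ≃ₗ[k] V) y =
      y + (t * QuadraticMap.polar Q y u) • w - (t * QuadraticMap.polar Q y w) • u) ∧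
    (∀ t : k, ∃ x : Γ, ∀ y, (x : V ≃ₗ[k] V) y =
      y + (t * QuadraticMap.polar Q y u) • w - (t * QuadraticMap.polar Q y w) • u) ∧
    Nat.card (sgg Γ Q u w) = Nat.card k ∧
    (∀ g : Γ, TS Q ((g : V ≃ₗ[k] V) u) ((g : V ≃ₗ[k] V) w) ∧
      (sgg Γ Q u w).map (MulAut.conj g).toMonoidHom =
        sgg Γ Q ((g : V ≃ₗ[k] V) u) ((g : V ≃ₗ[k] V) w)) ∧
    (∀ a b c d : k, a * d - b * c ≠ 0 → TS Q (a • u + b • w) (c • u + d • w) ∧
      sgg Γ Q (a • u + b • w) (c • u + d • w) = sgg Γ Q u w) := by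
  have hle : Γ ≤ OGrp Q := by
    rw [hΓ]
    exact Subgroup.commutator_le.2 fun a ha b hb =>
      (OGrp Q).mul_mem ((OGrp Q).mul_mem ((OGrp Q).mul_mem ha hb) ((OGrp Q).inv_mem ha))
        ((OGrp Q).inv_mem hb)
  have hex : ∀ t : k, ∃ x : Γ, EE Q u w t (x : V ≃ₗ[k] V) := by
    intro t
    obtain ⟨x, hx, hx'⟩ := ee_exists Q hQ hdim u w h t
    exact ⟨⟨x, by rw [hΓ]; exact hx⟩, hx'⟩
  refine ⟨mem_sgg Γ h, hex, ?_, ?_, ?_⟩
  · choose f hf using hex
    refine (Nat.card_congr (Equiv.ofBijective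
      (fun t : k => (⟨f t, (mem_sgg Γ h _).2 ⟨t, hf t⟩⟩ : sgg Γ Q u w)) ⟨?_, ?_⟩)).symm
    · intro s t hst
      have h1 : f s = f t := congrArg Subtype.val hst
      have h2 := hf s
      rw [h1] at h2
      exact ee_inj hQ h h2 (hf t)
    · rintro ⟨x, hx⟩
      obtain ⟨t, ht⟩ := (mem_sgg Γ h x).1 hx
      refine ⟨t, Subtype.ext ?_⟩
      apply Subtype.ext
      apply LinearEquiv.ext
      intro y
      exact (hf t y).trans (ht y).symm
  · intro g
    have hgO : (g : V ≃ₗ[k] V) ∈ OGrp Q := hle g.2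
    have hgO' : ∀ x, Q ((g : V ≃ₗ[k] V) x) = Q x := hgO
    have hT : TS Q ((g : V ≃ₗ[k] V) u) ((g : V ≃ₗ[k] V) w) := by
      obtain ⟨hli, hu, hw, huw⟩ := h
      refine ⟨?_, by rw [hgO', hu], by rw [hgO', hw], by rw [pl_pres hgO, huw]⟩
      rw [LinearIndependent.pair_iff] at hli ⊢
      intro a b hab
      apply hli a b
      rw [← map_smul, ← map_smul, ← map_add] at hab
      exact (LinearEquiv.map_eq_zero_iff _).1 hab
    refine ⟨hT, ?_⟩
    have hgi : ∀ y, (g : V ≃ₗ[k] V) ((g : V ≃ₗ[k] V)⁻¹ y) = y := fun y => by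
      rw [← LinearEquiv.mul_apply, mul_inv_cancel]
      rfl
    have hgi' : ∀ y, (g : V ≃ₗ[k] V)⁻¹ ((g : V ≃ₗ[k] V) y) = y := fun y => by
      rw [← LinearEquiv.mul_apply, inv_mul_cancel]
      rfl
    ext x
    rw [mem_sgg Γ hT, Subgroup.mem_map]
    constructor
    · rintro ⟨x', hx', rfl⟩
      obtain ⟨t, ht⟩ := (mem_sgg Γ h x').1 hx'
      refine ⟨t, fun y => ?_⟩
      show (g : V ≃ₗ[k] V) ((x' : V ≃ₗ[k] V) ((g : V ≃ₗ[k] V)⁻¹ y)) = _
      rw [ht, map_sub, map_add, map_smul, map_smul, hgi, ← pl_pres hgO _ u, ← pl_pres hgO _ w,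
        hgi]
    · rintro ⟨t, ht⟩
      refine ⟨g⁻¹ * x * g, (mem_sgg Γ h _).2 ⟨t, fun y => ?_⟩, ?_⟩
      · show (g : V ≃ₗ[k] V)⁻¹ ((x : V ≃ₗ[k] V) ((g : V ≃ₗ[k] V) y)) = _
        rw [ht, map_sub, map_add, map_smul, map_smul, hgi', hgi', hgi', pl_pres hgO, pl_pres hgO]
      · show g * (g⁻¹ * x * g) * g⁻¹ = x
        group
  · intro a b c d hD
    have hT : TS Q (a • u + b • w) (c • u + d • w) := by
      obtain ⟨hli, hu, hw, huw⟩ := h
      have hwu : QuadraticMap.polar Q w u = 0 := by rw [QuadraticMap.polar_comm, huw]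
      have huu : QuadraticMap.polar Q u u = 0 := by rw [QuadraticMap.polar_self, hu, smul_zero]
      have hww : QuadraticMap.polar Q w w = 0 := by rw [QuadraticMap.polar_self, hw, smul_zero]
      have hq : ∀ a b : k, Q (a • u + b • w) = 0 := by
        intro a b
        rw [QuadraticMap.map_add Q, QuadraticMap.map_smul, QuadraticMap.map_smul, hu, hw,
          QuadraticMap.polar_smul_left, QuadraticMap.polar_smul_right, huw]
        simp
      refine ⟨?_, hq a b, hq c d, ?_⟩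
      · rw [LinearIndependent.pair_iff] at hli ⊢
        intro s t hst
        have h1 : (s * a + t * c) • u + (s * b + t * d) • w = 0 := by
          rw [← hst]
          module
        obtain ⟨h2, h3⟩ := hli _ _ h1
        have h4 : s * (a * d - b * c) = 0 := by linear_combination d * h2 - c * h3
        have h5 : t * (a * d - b * c) = 0 := by linear_combination a * h3 - b * h2
        exact ⟨(mul_eq_zero.1 h4).resolve_right hD, (mul_eq_zero.1 h5).resolve_right hD⟩
      · simp only [QuadraticMap.polar_add_left, QuadraticMap.polar_add_right,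
          QuadraticMap.polar_smul_left, QuadraticMap.polar_smul_right, huw, hwu, huu, hww,
          smul_zero, add_zero]
    refine ⟨hT, ?_⟩
    ext x
    rw [mem_sgg Γ hT, mem_sgg Γ h]
    have key : ∀ (t : k) (y : V), y + (t * QuadraticMap.polar Q y (a • u + b • w)) •
        (c • u + d • w) - (t * QuadraticMap.polar Q y (c • u + d • w)) • (a • u + b • w) =
        y + ((t * (a * d - b * c)) * QuadraticMap.polar Q y u) • w -
          ((t * (a * d - b * c)) * QuadraticMap.polar Q y w) • u := by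
      intro t y
      simp only [QuadraticMap.polar_add_right, QuadraticMap.polar_smul_right, smul_eq_mul]
      module
    constructor
    · rintro ⟨t, ht⟩
      exact ⟨t * (a * d - b * c), fun y => (ht y).trans (key t y)⟩
    · rintro ⟨t, ht⟩
      refine ⟨t * (a * d - b * c)⁻¹, fun y => ?_⟩
      rw [key, ht y, mul_assoc t, inv_mul_cancel₀ hD, mul_one]

end H49KE
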