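import Pool.Agent.H49.KE.Defs
import Pool.Agent.H49.KE.O2

namespace H49KE

open H49KA H49KB H49KC

universe u v w

variable {k : Type} [Field k] [Finite k] {V : Type} [AddCommGroup V] [Module k V]
  [FiniteDimensional k V]

private lemma o10_pl (Q : QuadraticForm k V) (y a b z : V) (α β : k) :
    QuadraticMap.polar Q (y + α • a - β • b) z =
      QuadraticMap.polar Q y z + α * QuadraticMap.polar Q a z - β * QuadraticMap.polar Q b z := by
  have e : ∀ x y, QuadraticMap.polar Q x y = QuadraticMap.polarBilin Q x y := fun _ _ => rfl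
  simp only [e, map_sub, map_add, map_smul, LinearMap.sub_apply, LinearMap.add_apply,
    LinearMap.smul_apply, smul_eq_mul]

private lemma o10_self (Q : QuadraticForm k V) {x : V} (hx : Q x = 0) :
    QuadraticMap.polar Q x x = 0 := by
  rw [QuadraticMap.polar_self, hx, smul_zero]

private lemma o10_ext {Γ : Subgroup (V ≃ₗ[k] V)} {a b : Γ}
    (h : ∀ y, (a : V ≃ₗ[k] V) y = (b : V ≃ₗ[k] V) y) : a = b := by
  apply Subtype.ext
  apply LinearEquiv.ext
  exact h

private lemma o10_one {Γ : Subgroup (V ≃ₗ[k] V)} {a : Γ} {s : k} {f g : V → k} {u w : V}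
    (ha : ∀ y, (a : V ≃ₗ[k] V) y = y + (s * f y) • w - (s * g y) • u) (hs : s = 0) : a = 1 := by
  apply o10_ext
  intro y
  rw [ha, hs]
  simp

/-- Proof. Write `E_t(u, w)` for the element of `sgg u w` with parameter `t` (`sgg_basic`) and `β` for
`polar w w'`. For `a = E_s(u,w)`, `b = E_t(u',w')`: `a b a⁻¹ = E_t(a u', a w') = E_t(u', w' - s β u)`, and
`E_t(u', w' - s β u) E_t(u', w')⁻¹ = E_t(u', - s β u) = E_{s t β}(u, u')`. It is trivial only if
`s t β = 0` (the parameter is determined by the element). `E_r(u,u')` commutes with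
`a` and `b` (`E_t(a u, a u') = E_t(u, u')` since `a` fixes `u` and `u'`, `b` also). -/
theorem Om_spec (Q : QuadraticForm k V)
    (hQ : ∀ x, (∀ y, QuadraticMap.polar Q x y = 0) → x = 0) (hdim : 7 ≤ Module.finrank k V)
    (Γ : Subgroup (V ≃ₗ[k] V)) (hΓ : Γ = ⁅OGrp Q, OGrp Q⁆) (u w u' w' : V) (h : TS Q u w)
    (h' : TS Q u' w') (huu : TS Q u u') (h1 : QuadraticMap.polar Q u w' = 0)
    (h2 : QuadraticMap.polar Q w u' = 0) (h3 : QuadraticMap.polar Q w w' ≠ 0) :
    Spec (sgg Γ Q u w) (sgg Γ Q u' w') (sgg Γ Q u u') := by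
  intro a ha b hb
  obtain ⟨s, ha⟩ := ((sgg_basic Q hQ hdim Γ hΓ u w h).1 a).mp ha
  obtain ⟨t, hb⟩ := ((sgg_basic Q hQ hdim Γ hΓ u' w' h').1 b).mp hb
  obtain ⟨hli, hu0, hw0, huw⟩ := h
  obtain ⟨hli', hu0', hw0', huw'⟩ := h'
  have hB := sgg_basic Q hQ hdim Γ hΓ u u' huu
  obtain ⟨hliuu, -, -, hpuu⟩ := huu
  have pu := o10_self Q hu0
  have pu' := o10_self Q hu0'
  have cuu : QuadraticMap.polar Q u' u = 0 := by rw [QuadraticMap.polar_comm]; exact hpuu
  have cwu : QuadraticMap.polar Q w u = 0 := by rw [QuadraticMap.polar_comm]; exact huw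
  have cwu' : QuadraticMap.polar Q w' u' = 0 := by rw [QuadraticMap.polar_comm]; exact huw'
  have cw'u : QuadraticMap.polar Q w' u = 0 := by rw [QuadraticMap.polar_comm]; exact h1
  have cu'w : QuadraticMap.polar Q u' w = 0 := by rw [QuadraticMap.polar_comm]; exact h2
  have cw'w : QuadraticMap.polar Q w' w = QuadraticMap.polar Q w w' :=
    QuadraticMap.polar_comm _ _ _
  obtain ⟨c, hc⟩ := hB.2.1 (s * t * QuadraticMap.polar Q w w')
  have key : a * b * a⁻¹ * b⁻¹ = c := by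
    rw [mul_inv_eq_iff_eq_mul, mul_inv_eq_iff_eq_mul, mul_assoc]
    apply o10_ext
    intro y
    change (a : V ≃ₗ[k] V) ((b : V ≃ₗ[k] V) y) =
      (c : V ≃ₗ[k] V) ((b : V ≃ₗ[k] V) ((a : V ≃ₗ[k] V) y))
    rw [hc, hb ((a : V ≃ₗ[k] V) y), ha ((b : V ≃ₗ[k] V) y)]
    simp only [hb y, ha y, o10_pl, pu, pu', cuu, cwu, cwu', cw'u, cu'w, cw'w, hpuu, huw, huw', h1,
      h2, mul_zero, add_zero, sub_zero]
    module
  refine ⟨?_, ?_, ?_⟩
  · rw [key]
    exact (hB.1 c).mpr ⟨_, hc⟩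
  · intro h1'
    rw [key] at h1'
    have h4 : ∀ y, (s * t * QuadraticMap.polar Q w w' * QuadraticMap.polar Q y u) = 0 := by
      intro y
      have h5 := hc y
      rw [h1'] at h5
      have h6 : (-(s * t * QuadraticMap.polar Q w w' * QuadraticMap.polar Q y u')) • u +
          (s * t * QuadraticMap.polar Q w w' * QuadraticMap.polar Q y u) • u' = 0 := by
        have h7 : y = y + (s * t * QuadraticMap.polar Q w w' * QuadraticMap.polar Q y u) • u' -
          (s * t * QuadraticMap.polar Q w w' * QuadraticMap.polar Q y u') • u := h5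
        have h8 : (s * t * QuadraticMap.polar Q w w' * QuadraticMap.polar Q y u) • u' -
          (s * t * QuadraticMap.polar Q w w' * QuadraticMap.polar Q y u') • u = 0 := by
          rw [add_sub_assoc] at h7
          exact left_eq_add.mp h7
        rw [← h8]
        module
      exact (LinearIndependent.pair_iff.mp hliuu _ _ h6).2
    have h9 : s * t * QuadraticMap.polar Q w w' = 0 := by
      by_contra hr
      have : u = 0 := by
        apply hQ
        intro y
        rw [QuadraticMap.polar_comm]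
        exact (mul_eq_zero.mp (h4 y)).resolve_left hr
      exact hliuu.ne_zero 0 this
    rcases mul_eq_zero.mp ((mul_eq_zero.mp h9).resolve_right h3) with hs | ht
    · exact Or.inl (o10_one ha hs)
    · exact Or.inr (o10_one hb ht)
  · intro d hd
    obtain ⟨r, hd⟩ := (hB.1 d).mp hd
    constructor
    · apply o10_ext
      intro y
      change (a : V ≃ₗ[k] V) ((d : V ≃ₗ[k] V) y) = (d : V ≃ₗ[k] V) ((a : V ≃ₗ[k] V) y)
      rw [ha ((d : V ≃ₗ[k] V) y), hd ((a : V ≃ₗ[k] V) y)]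
      simp only [hd y, ha y, o10_pl, pu, pu', cuu, cwu, cwu', cw'u, cu'w, cw'w, hpuu, huw, huw',
        h1, h2, mul_zero, add_zero, sub_zero]
      module
    · apply o10_ext
      intro y
      change (b : V ≃ₗ[k] V) ((d : V ≃ₗ[k] V) y) = (d : V ≃ₗ[k] V) ((b : V ≃ₗ[k] V) y)
      rw [hb ((d : V ≃ₗ[k] V) y), hd ((b : V ≃ₗ[k] V) y)]
      simp only [hd y, hb y, o10_pl, pu, pu', cuu, cwu, cwu', cw'u, cu'w, cw'w, hpuu, huw, huw',
        h1, h2, mul_zero, add_zero, sub_zero]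
      module

/-- Proof. As in the proof of `Om_spec`: in the first case `a b a⁻¹ = E_t(u, w' - s β u) =
E_t(u, w') = b`; in the second case `a` fixes `u'` and `w'`. -/
theorem Om_comm (Q : QuadraticForm k V)
    (hQ : ∀ x, (∀ y, QuadraticMap.polar Q x y = 0) → x = 0) (hdim : 7 ≤ Module.finrank k V)
    (Γ : Subgroup (V ≃ₗ[k] V)) (hΓ : Γ = ⁅OGrp Q, OGrp Q⁆) (u w u' w' : V) (h : TS Q u w)
    (h' : TS Q u' w') (hc : u' = u ∨ (QuadraticMap.polar Q u u' = 0 ∧
      QuadraticMap.polar Q u w' = 0 ∧ QuadraticMap.polar Q w u' = 0 ∧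
      QuadraticMap.polar Q w w' = 0)) :
    ∀ a ∈ sgg Γ Q u w, ∀ b ∈ sgg Γ Q u' w', Commute a b := by
  intro a ha b hb
  obtain ⟨s, ha⟩ := ((sgg_basic Q hQ hdim Γ hΓ u w h).1 a).mp ha
  obtain ⟨t, hb⟩ := ((sgg_basic Q hQ hdim Γ hΓ u' w' h').1 b).mp hb
  obtain ⟨hli, hu0, hw0, huw⟩ := h
  obtain ⟨hli', hu0', hw0', huw'⟩ := h'
  have pu := o10_self Q hu0
  have pu' := o10_self Q hu0'
  have cwu : QuadraticMap.polar Q w u = 0 := by rw [QuadraticMap.polar_comm]; exact huw
  have cwu' : QuadraticMap.polar Q w' u' = 0 := by rw [QuadraticMap.polar_comm]; exact huw'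
  have cw'w : QuadraticMap.polar Q w' w = QuadraticMap.polar Q w w' :=
    QuadraticMap.polar_comm _ _ _
  rcases hc with rfl | ⟨c1, c2, c3, c4⟩
  · apply o10_ext
    intro y
    change (a : V ≃ₗ[k] V) ((b : V ≃ₗ[k] V) y) = (b : V ≃ₗ[k] V) ((a : V ≃ₗ[k] V) y)
    rw [ha ((b : V ≃ₗ[k] V) y), hb ((a : V ≃ₗ[k] V) y)]
    simp only [hb y, ha y, o10_pl, pu, cwu, cwu', cw'w, huw, huw', mul_zero, add_zero, sub_zero]
    module
  · have d1 : QuadraticMap.polar Q u' u = 0 := by rw [QuadraticMap.polar_comm]; exact c1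
    have d2 : QuadraticMap.polar Q w' u = 0 := by rw [QuadraticMap.polar_comm]; exact c2
    have d3 : QuadraticMap.polar Q u' w = 0 := by rw [QuadraticMap.polar_comm]; exact c3
    have d4 : QuadraticMap.polar Q w' w = 0 := by rw [QuadraticMap.polar_comm]; exact c4
    apply o10_ext
    intro y
    change (a : V ≃ₗ[k] V) ((b : V ≃ₗ[k] V) y) = (b : V ≃ₗ[k] V) ((a : V ≃ₗ[k] V) y)
    rw [ha ((b : V ≃ₗ[k] V) y), hb ((a : V ≃ₗ[k] V) y)]
    simp only [hb y, ha y, o10_pl, c1, c2, c3, c4, d1, d2, d3, d4, mul_zero, add_zero, sub_zero]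
    module

end H49KE
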