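import Pool.Agent.H49.KE.Defs
import Pool.Agent.H49.KE.G5
import Pool.Agent.H49.KE.O2

namespace H49KE

open H49KA H49KB H49KC

universe u v w

variable {k : Type} [Field k] [Finite k] {V : Type} [AddCommGroup V] [Module k V]
  [FiniteDimensional k V]

/-- the functional `y ↦ polar y z` -/
private noncomputable def pf (Q : QuadraticForm k V) (z : V) : Module.Dual k V :=
  Q.polarBilin.flip z

omit [Finite k] [FiniteDimensional k V] in
private theorem pf_apply (Q : QuadraticForm k V) (z y : V) :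
    pf Q z y = QuadraticMap.polar Q y z := rfl

omit [Finite k] [FiniteDimensional k V] in
private theorem polar_self_zero (Q : QuadraticForm k V) {x : V} (hx : Q x = 0) :
    QuadraticMap.polar Q x x = 0 := by
  rw [QuadraticMap.polar_self, hx, smul_zero]

/-- Proof. Write `b x y` for the polar form. The 2 x 2 matrix of `b` on `⟨u, w⟩ × ⟨u', w'⟩` is
invertible, so there are `u₁, w₁ ∈ ⟨u', w'⟩` with `b u u₁ = 1`, `b u w₁ = 0`, `b w u₁ = 0`,
`b w w₁ = 1`, and `sgg u' w' = sgg u₁ w₁` by `sgg_basic` (5). Let `φ₁` be `sl2_plane` (`F = k`, `ι = id`)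
for the vectors `w, u₁`, the functionals `α₁ y = b y w₁`, `γ₁ y = b y u`, `κ = 1`, and `φ₂` for `u, w₁`,
`α₂ y = b y u₁`, `γ₂ y = b y w`, `κ = -1`. `φ₁ g` and `φ₂ g'` commute (`α₁, γ₁` vanish on `u, w₁` and
`α₂, γ₂` vanish on `w, u₁`), so `φ g = φ₁ g * φ₂ g` is a homomorphism, and
`φ (up t) y = y + (t b(y,u)) w - (t b(y,w)) u`, `φ (lo t) y = y + (t b(y,w₁)) u₁ - (t b(y,u₁)) w₁`:
these are the elements of `sgg u w` with parameter `t` and of `sgg u₁ w₁` with parameter `-t`.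
`sl2_lift` and `sgg_basic` (2): the values lie in `Γ`. -/
theorem Om_opp (Q : QuadraticForm k V)
    (hQ : ∀ x, (∀ y, QuadraticMap.polar Q x y = 0) → x = 0) (hdim : 7 ≤ Module.finrank k V)
    (Γ : Subgroup (V ≃ₗ[k] V)) (hΓ : Γ = ⁅OGrp Q, OGrp Q⁆) (u w u' w' : V) (h : TS Q u w)
    (h' : TS Q u' w') (hd : QuadraticMap.polar Q u u' * QuadraticMap.polar Q w w' -
      QuadraticMap.polar Q u w' * QuadraticMap.polar Q w u' ≠ 0) :
    Opp k (sgg Γ Q u w) (sgg Γ Q u' w') := by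
  set b : V → V → k := QuadraticMap.polar Q with hb
  set D : k := b u u' * b w w' - b u w' * b w u' with hD
  set u₁ : V := (b w w' / D) • u' + (-b w u' / D) • w' with hu₁
  set w₁ : V := (-b u w' / D) • u' + (b u u' / D) • w' with hw₁
  have hdet : (b w w' / D) * (b u u' / D) - (-b w u' / D) * (-b u w' / D) ≠ 0 := by
    have : (b w w' / D) * (b u u' / D) - (-b w u' / D) * (-b u w' / D) = 1 / D := by
      field_simp
      rw [hD]
      ring
    rw [this]
    exact one_div_ne_zero hd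
  obtain ⟨hTS, hsgg⟩ := (sgg_basic Q hQ hdim Γ hΓ u' w' h').2.2.2.2 _ _ _ _ hdet
  rw [← hu₁, ← hw₁] at hTS hsgg
  have hbin : ∀ x c d, b x (c • u' + d • w') = c * b x u' + d * b x w' := by
    intro x c d
    rw [hb, QuadraticMap.polar_add_right, QuadraticMap.polar_smul_right,
      QuadraticMap.polar_smul_right, smul_eq_mul, smul_eq_mul]
  have hcomm : ∀ x y, b x y = b y x := fun x y => QuadraticMap.polar_comm Q x y
  have huu₁ : b u u₁ = 1 := by
    rw [hu₁, hbin]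
    field_simp
    rw [hD]
    ring
  have huw₁ : b u w₁ = 0 := by
    rw [hw₁, hbin]
    field_simp
    ring
  have hwu₁ : b w u₁ = 0 := by
    rw [hu₁, hbin]
    field_simp
    ring
  have hww₁ : b w w₁ = 1 := by
    rw [hw₁, hbin]
    field_simp
    rw [hD]
    ring
  have huw : b u w = 0 := h.2.2.2
  have hu₁w₁ : b u₁ w₁ = 0 := hTS.2.2.2
  have huu : b u u = 0 := polar_self_zero Q h.2.1
  have hww : b w w = 0 := polar_self_zero Q h.2.2.1
  have hu₁u₁ : b u₁ u₁ = 0 := polar_self_zero Q hTS.2.1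
  have hw₁w₁ : b w₁ w₁ = 0 := polar_self_zero Q hTS.2.2.1
  obtain ⟨φ₁, hφ₁⟩ := sl2_plane (RingHom.id k) w u₁ (pf Q w₁) (pf Q u) 1 one_ne_zero
    hww₁ hu₁w₁ ((hcomm w u).trans huw) ((hcomm u₁ u).trans huu₁)
  obtain ⟨φ₂, hφ₂⟩ := sl2_plane (RingHom.id k) u w₁ (pf Q u₁) (pf Q w) (-1)
    (neg_ne_zero.2 one_ne_zero) huu₁ ((hcomm w₁ u₁).trans hu₁w₁) huw
    ((hcomm w₁ w).trans hww₁)
  simp only [RingHom.id_apply, pf_apply] at hφ₁ hφ₂
  -- the values of the functionals on combinations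
  have hlin : ∀ (y p q z : V) (c d : k), b (y + c • p + d • q) z = b y z + c * b p z + d * b q z := by
    intro y p q z c d
    rw [hb, QuadraticMap.polar_add_left, QuadraticMap.polar_add_left,
      QuadraticMap.polar_smul_left, QuadraticMap.polar_smul_left, smul_eq_mul, smul_eq_mul]
  have hw₁u : b w₁ u = 0 := (hcomm w₁ u).trans huw₁
  have hu₁w : b u₁ w = 0 := (hcomm u₁ w).trans hwu₁
  have hcm : ∀ g g', φ₁ g * φ₂ g' = φ₂ g' * φ₁ g := by
    intro g g'
    apply LinearEquiv.ext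
    intro y
    simp only [LinearEquiv.mul_apply]
    rw [hφ₁ g (φ₂ g' y), hφ₂ g' (φ₁ g y), hφ₁ g y, hφ₂ g' y]
    change _ + ((g.1 0 0 - 1) * b _ w₁ + g.1 0 1 * 1 * b _ u) • w +
        (g.1 1 0 * 1⁻¹ * b _ w₁ + (g.1 1 1 - 1) * b _ u) • u₁ =
      _ + ((g'.1 0 0 - 1) * b _ u₁ + g'.1 0 1 * -1 * b _ w) • u +
        (g'.1 1 0 * (-1)⁻¹ * b _ u₁ + (g'.1 1 1 - 1) * b _ w) • w₁
    rw [hlin, hlin, hlin, hlin, huw₁, huu, hw₁w₁, hw₁u, hwu₁, hww, hu₁u₁, hu₁w]
    simp only [mul_zero, add_zero]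
    abel
  let φ : Matrix.SpecialLinearGroup (Fin 2) k →* (V ≃ₗ[k] V) :=
    { toFun := fun g => φ₁ g * φ₂ g
      map_one' := by rw [map_one, map_one, mul_one]
      map_mul' := fun g g' => by
        rw [map_mul, map_mul, mul_assoc, ← mul_assoc (φ₁ g') (φ₂ g), hcm g' g]
        simp only [mul_assoc] }
  have hφ : ∀ g y, φ g y = φ₁ g (φ₂ g y) := fun g y => rfl
  have hup : ∀ (t : k) (y : V), φ (up t) y = y + (t * b y u) • w - (t * b y w) • u := by
    intro t y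
    rw [hφ, hφ₁, hφ₂]
    have e00 : (up t).1 0 0 = 1 := rfl
    have e01 : (up t).1 0 1 = t := rfl
    have e10 : (up t).1 1 0 = 0 := rfl
    have e11 : (up t).1 1 1 = 1 := rfl
    rw [e00, e01, e10, e11]
    change _ + ((1 - 1) * b _ w₁ + t * 1 * b _ u) • w +
        (0 * 1⁻¹ * b _ w₁ + (1 - 1) * b _ u) • u₁ = _
    rw [hlin, hlin, huu, hw₁u]
    change y + ((1 - 1) * b y u₁ + t * -1 * b y w) • u +
      (0 * (-1)⁻¹ * b y u₁ + (1 - 1) * b y w) • w₁ + _ + _ = _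
    simp only [sub_self, zero_mul, mul_zero, zero_add, add_zero, zero_smul, mul_one, mul_neg,
      neg_mul, neg_smul]
    abel
  have hlo : ∀ (t : k) (y : V), φ (lo t) y =
      y + (-t * b y u₁) • w₁ - (-t * b y w₁) • u₁ := by
    intro t y
    rw [hφ, hφ₁, hφ₂]
    have e00 : (lo t).1 0 0 = 1 := rfl
    have e01 : (lo t).1 0 1 = 0 := rfl
    have e10 : (lo t).1 1 0 = t := rfl
    have e11 : (lo t).1 1 1 = 1 := rfl
    rw [e00, e01, e10, e11]
    change _ + ((1 - 1) * b _ w₁ + 0 * 1 * b _ u) • w +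
        (t * 1⁻¹ * b _ w₁ + (1 - 1) * b _ u) • u₁ = _
    rw [hlin, hlin, huw₁, hw₁w₁]
    change y + ((1 - 1) * b y u₁ + 0 * -1 * b y w) • u +
      (t * (-1)⁻¹ * b y u₁ + (1 - 1) * b y w) • w₁ + _ + _ = _
    have hinv : (-1 : k)⁻¹ = -1 := by rw [inv_neg, inv_one]
    rw [hinv]
    simp only [sub_self, zero_mul, mul_zero, zero_add, add_zero, zero_smul, mul_one, mul_neg,
      neg_mul, neg_smul, inv_one]
    abel
  obtain ⟨hA1, hA2, -⟩ := sgg_basic Q hQ hdim Γ hΓ u w h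
  obtain ⟨hB1, hB2, -⟩ := sgg_basic Q hQ hdim Γ hΓ u₁ w₁ hTS
  have hupΓ : ∀ t : k, φ (up t) ∈ Γ := by
    intro t
    obtain ⟨x, hx⟩ := hA2 t
    have : φ (up t) = (x : V ≃ₗ[k] V) := by
      apply LinearEquiv.ext
      intro y
      rw [hup, hx]
    rw [this]
    exact x.2
  have hloΓ : ∀ t : k, φ (lo t) ∈ Γ := by
    intro t
    obtain ⟨x, hx⟩ := hB2 (-t)
    have : φ (lo t) = (x : V ≃ₗ[k] V) := by
      apply LinearEquiv.ext
      intro y
      rw [hlo, hx]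
    rw [this]
    exact x.2
  refine ⟨φ.codRestrict Γ (sl2_lift φ Γ hupΓ hloΓ), ?_, ?_⟩
  · intro x
    rw [hA1]
    constructor
    · rintro ⟨t, ht⟩
      refine ⟨t, ?_⟩
      apply Subtype.ext
      apply LinearEquiv.ext
      intro y
      rw [MonoidHom.codRestrict_apply, hup, ht]
    · rintro ⟨t, rfl⟩
      refine ⟨t, fun y => ?_⟩
      rw [MonoidHom.codRestrict_apply, hup]
  · intro x
    rw [← hsgg, hB1]
    constructor
    · rintro ⟨t, ht⟩
      refine ⟨-t, ?_⟩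
      apply Subtype.ext
      apply LinearEquiv.ext
      intro y
      rw [MonoidHom.codRestrict_apply, hlo, ht, neg_neg]
    · rintro ⟨t, rfl⟩
      refine ⟨-t, fun y => ?_⟩
      rw [MonoidHom.codRestrict_apply, hlo]

end H49KE
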