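import Pool.Agent.H49.KE.Defs
import Pool.Agent.H49.KE.O1
import Pool.Agent.H49.KE.O2
import Pool.Agent.H49.KE.O3
import Pool.Agent.H49.KE.O10

namespace H49KE

open H49KA H49KB H49KC

universe u v w

variable {k : Type} [Field k] [Finite k] {V : Type} [AddCommGroup V] [Module k V]
  [FiniteDimensional k V]

omit [Finite k] in
/-- A singular matrix of order two has a left kernel. -/
private lemma o11_ker (p q r s : k) (h : p * s - q * r = 0) :
    ∃ a b c d : k, a * d - b * c ≠ 0 ∧ a * p + b * r = 0 ∧ a * q + b * s = 0 := by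
  have key : ∀ a b : k, (a ≠ 0 ∨ b ≠ 0) → a * p + b * r = 0 → a * q + b * s = 0 →
      ∃ a b c d : k, a * d - b * c ≠ 0 ∧ a * p + b * r = 0 ∧ a * q + b * s = 0 := by
    intro a b hab h1 h2
    rcases hab with ha | hb
    · exact ⟨a, b, 0, 1, by simpa using ha, h1, h2⟩
    · exact ⟨a, b, 1, 0, by simpa using hb, h1, h2⟩
  by_cases h1 : r ≠ 0 ∨ p ≠ 0
  · refine key r (-p) (h1.imp id (fun h => neg_ne_zero.2 h)) (by ring) ?_
    linear_combination -h
  · push Not at h1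
    by_cases h2 : s ≠ 0 ∨ q ≠ 0
    · refine key s (-q) (h2.imp id (fun h => neg_ne_zero.2 h)) ?_ (by ring)
      rw [h1.1, h1.2]
      ring
    · push Not at h2
      refine ⟨1, 0, 0, 1, by simp, ?_, ?_⟩
      · rw [h1.1, h1.2]
        ring
      · rw [h2.1, h2.2]
        ring

/-- Proof. Linear algebra: the 2 x 2 matrix `M` of the polar form on `⟨u, w⟩ × ⟨u', w'⟩` is
singular. If `M = 0` take the identity matrices. Otherwise take `(a, b) ≠ 0` with
`(a, b) M = 0` and `(a', b') ≠ 0` with `M (a', b')ᵗ = 0` and complete them to invertible matrices. -/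
theorem Om_rel (Q : QuadraticForm k V) (u w u' w' : V)
    (hd : QuadraticMap.polar Q u u' * QuadraticMap.polar Q w w' -
      QuadraticMap.polar Q u w' * QuadraticMap.polar Q w u' = 0) :
    ∃ a b c d a' b' c' d' : k, a * d - b * c ≠ 0 ∧ a' * d' - b' * c' ≠ 0 ∧
      QuadraticMap.polar Q (a • u + b • w) (a' • u' + b' • w') = 0 ∧
      QuadraticMap.polar Q (a • u + b • w) (c' • u' + d' • w') = 0 ∧
      QuadraticMap.polar Q (c • u + d • w) (a' • u' + b' • w') = 0 := by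
  obtain ⟨a, b, c, d, h0, h1, h2⟩ := o11_ker _ _ _ _ hd
  obtain ⟨a', b', c', d', h0', h1', h2'⟩ := o11_ker (QuadraticMap.polar Q u u')
    (QuadraticMap.polar Q w u') (QuadraticMap.polar Q u w') (QuadraticMap.polar Q w w')
    (by linear_combination hd)
  refine ⟨a, b, c, d, a', b', c', d', h0, h0', ?_, ?_, ?_⟩
  · simp only [QuadraticMap.polar_add_left, QuadraticMap.polar_add_right,
      QuadraticMap.polar_smul_left, QuadraticMap.polar_smul_right, smul_eq_mul]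
    linear_combination a' * h1 + b' * h2
  · simp only [QuadraticMap.polar_add_left, QuadraticMap.polar_add_right,
      QuadraticMap.polar_smul_left, QuadraticMap.polar_smul_right, smul_eq_mul]
    linear_combination c' * h1 + d' * h2
  · simp only [QuadraticMap.polar_add_left, QuadraticMap.polar_add_right,
      QuadraticMap.polar_smul_left, QuadraticMap.polar_smul_right, smul_eq_mul]
    linear_combination c * h1' + d * h2'

omit [Finite k] [FiniteDimensional k V] in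
private lemma o11_ne1 {Q : QuadraticForm k V} {u w : V} (h : TS Q u w) : u ≠ 0 :=
  h.1.ne_zero 0

omit [Finite k] [FiniteDimensional k V] in
private lemma o11_ne2 {Q : QuadraticForm k V} {u w : V} (h : TS Q u w) : w ≠ 0 :=
  h.1.ne_zero 1

omit [Finite k] [FiniteDimensional k V] in
private lemma o11_ts {Q : QuadraticForm k V} {u w : V} (hu : u ≠ 0) (hi : ∀ a : k, a • u ≠ w)
    (h1 : Q u = 0) (h2 : Q w = 0) (h3 : QuadraticMap.polar Q u w = 0) : TS Q u w :=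
  ⟨(LinearIndependent.pair_iff' hu).2 hi, h1, h2, h3⟩

/-- The case `β = 0`. -/
private lemma o11_three (Q : QuadraticForm k V)
    (hQ : ∀ x, (∀ y, QuadraticMap.polar Q x y = 0) → x = 0) (hdim : 7 ≤ Module.finrank k V)
    (Γ : Subgroup (V ≃ₗ[k] V)) (hΓ : Γ = ⁅OGrp Q, OGrp Q⁆) (p m m₁ m₂ : V) (h : TS Q p m)
    (h' : TS Q m₁ m₂) (h1 : QuadraticMap.polar Q p m₁ = 0) (h2 : QuadraticMap.polar Q m m₁ = 0)
    (hout : ∀ x y : k, x • p + y • m ≠ m₁) :
    ∃ D ∈ SgOm Γ Q, (∀ d ∈ D, ∀ b ∈ sgg Γ Q m₁ m₂, Commute d b) ∧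
      (Opp k (sgg Γ Q p m) D ∨ ∃ C ∈ SgOm Γ Q, Spec (sgg Γ Q p m) D C) := by
  have hts : TS Q p m₁ := o11_ts (o11_ne1 h)
    (fun a ha => hout a 0 (by rw [zero_smul, add_zero, ha])) h.2.1 h'.2.1 h1
  obtain ⟨y, hy0, hy1, hy2⟩ := (Om_hyp Q hQ).1 p m₁ hts 1 0
  have hts2 : TS Q m₁ y := by
    refine o11_ts (o11_ne1 h') (fun a ha => ?_) h'.2.1 hy0 hy2
    rw [← ha, QuadraticMap.polar_smul_right, h1, smul_zero] at hy1
    exact zero_ne_one hy1
  refine ⟨sgg Γ Q m₁ y, ⟨m₁, y, hts2, rfl⟩, Om_comm Q hQ hdim Γ hΓ m₁ y m₁ m₂ hts2 h'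
    (Or.inl rfl), Or.inr ?_⟩
  obtain ⟨μ, hμ⟩ : ∃ μ : k, μ = QuadraticMap.polar Q m y := ⟨_, rfl⟩
  have h5 := (sgg_basic Q hQ hdim Γ hΓ p m h).2.2.2.2 (-μ) 1 1 0 (by simp)
  have e1 : (1 : k) • p + (0 : k) • m = p := by rw [one_smul, zero_smul, add_zero]
  rw [e1] at h5
  obtain ⟨p₁, hp₁⟩ : ∃ p₁ : V, p₁ = (-μ) • p + (1 : k) • m := ⟨_, rfl⟩
  rw [← hp₁] at h5
  have hts3 : TS Q p₁ m₁ := by
    refine o11_ts (o11_ne1 h5.1) (fun a ha => ?_) h5.1.2.1 h'.2.1 ?_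
    · apply hout (a * -μ) (a * 1)
      rw [← ha, hp₁, smul_add, smul_smul, smul_smul]
    · rw [hp₁]
      simp only [QuadraticMap.polar_add_left, QuadraticMap.polar_smul_left, smul_eq_mul]
      rw [h1, h2]
      ring
  refine ⟨sgg Γ Q p₁ m₁, ⟨p₁, m₁, hts3, rfl⟩, ?_⟩
  rw [← h5.2]
  refine Om_spec Q hQ hdim Γ hΓ p₁ p m₁ y h5.1 hts2 hts3 ?_ h1 ?_
  · rw [hp₁]
    simp only [QuadraticMap.polar_add_left, QuadraticMap.polar_smul_left, smul_eq_mul]
    rw [hy1, ← hμ]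
    ring
  · rw [hy1]
    exact one_ne_zero

/-- The case of a singular matrix, in the normal form. -/
private lemma o11_aux (Q : QuadraticForm k V)
    (hQ : ∀ x, (∀ y, QuadraticMap.polar Q x y = 0) → x = 0) (hdim : 7 ≤ Module.finrank k V)
    (Γ : Subgroup (V ≃ₗ[k] V)) (hΓ : Γ = ⁅OGrp Q, OGrp Q⁆) (p m p' m' : V) (h : TS Q p m)
    (h' : TS Q p' m') (h1 : QuadraticMap.polar Q p p' = 0) (h2 : QuadraticMap.polar Q p m' = 0)
    (h3 : QuadraticMap.polar Q m p' = 0) (hAB : sgg Γ Q p m ≠ sgg Γ Q p' m') :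
    Opp k (sgg Γ Q p m) (sgg Γ Q p' m') ∨
    (∃ C ∈ SgOm Γ Q, Spec (sgg Γ Q p m) (sgg Γ Q p' m') C) ∨
    ((∀ a ∈ sgg Γ Q p m, ∀ b ∈ sgg Γ Q p' m', Commute a b) ∧
      ∃ D ∈ SgOm Γ Q, (∀ d ∈ D, ∀ b ∈ sgg Γ Q p' m', Commute d b) ∧
      (Opp k (sgg Γ Q p m) D ∨ ∃ C ∈ SgOm Γ Q, Spec (sgg Γ Q p m) D C)) := by
  by_cases hβ : QuadraticMap.polar Q m m' = 0
  · -- case (3)
    refine Or.inr (Or.inr ⟨Om_comm Q hQ hdim Γ hΓ p m p' m' h h' (Or.inr ⟨h1, h2, h3, hβ⟩), ?_⟩)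
    by_cases hp' : ∀ x y : k, x • p + y • m ≠ p'
    · exact o11_three Q hQ hdim Γ hΓ p m p' m' h h' h1 h3 hp'
    by_cases hm' : ∀ x y : k, x • p + y • m ≠ m'
    · have h5 := (sgg_basic Q hQ hdim Γ hΓ p' m' h').2.2.2.2 0 1 1 0 (by simp)
      rw [zero_smul, one_smul, one_smul, zero_smul, zero_add, add_zero] at h5
      rw [← h5.2]
      exact o11_three Q hQ hdim Γ hΓ p m m' p' h h5.1 h2 hβ hm'
    exfalso
    push Not at hp' hm'
    obtain ⟨x, y, hxy⟩ := hp'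
    obtain ⟨z, t, hzt⟩ := hm'
    apply hAB
    have hdet : x * t - y * z ≠ 0 := by
      intro hdet
      have hli := LinearIndependent.pair_iff.1 h'.1
      have e1 : t • p' + (-y) • m' = 0 := by
        have : t • p' + (-y) • m' = (x * t - y * z) • p := by
          rw [← hxy, ← hzt]
          module
        rw [this, hdet, zero_smul]
      have e2 : (-z) • p' + x • m' = 0 := by
        have : (-z) • p' + x • m' = (x * t - y * z) • m := by
          rw [← hxy, ← hzt]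
          module
        rw [this, hdet, zero_smul]
      have h6 := hli _ _ e1
      have h7 := hli _ _ e2
      apply o11_ne1 h'
      rw [← hxy, h7.2, neg_eq_zero.1 h6.2, zero_smul, zero_smul, add_zero]
    have h5 := (sgg_basic Q hQ hdim Γ hΓ p m h).2.2.2.2 x y z t hdet
    rw [hxy, hzt] at h5
    exact h5.2.symm
  · by_cases hi : ∀ a : k, a • p ≠ p'
    · -- case (1)
      have hts : TS Q p p' := o11_ts (o11_ne1 h) hi h.2.1 h'.2.1 h1
      exact Or.inr (Or.inl ⟨sgg Γ Q p p', ⟨p, p', hts, rfl⟩,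
        Om_spec Q hQ hdim Γ hΓ p m p' m' h h' hts h2 h3 hβ⟩)
    · -- case (2)
      push Not at hi
      obtain ⟨l, hl⟩ := hi
      have hl0 : l ≠ 0 := by
        intro h0
        apply o11_ne1 h'
        rw [← hl, h0, zero_smul]
      have hts : TS Q p m' := by
        refine o11_ts (o11_ne1 h) (fun a ha => ?_) h.2.1 h'.2.2.1 h2
        apply hβ
        rw [← ha, QuadraticMap.polar_smul_right, QuadraticMap.polar_comm, h.2.2.2, smul_zero]
      have hB : sgg Γ Q p' m' = sgg Γ Q p m' := by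
        have h5 := (sgg_basic Q hQ hdim Γ hΓ p m' hts).2.2.2.2 l 0 0 1 (by simpa using hl0)
        rw [zero_smul, zero_smul, add_zero, zero_add, one_smul, hl] at h5
        exact h5.2
      rw [hB]
      refine Or.inr (Or.inr ⟨Om_comm Q hQ hdim Γ hΓ p m p m' h hts (Or.inl rfl), ?_⟩)
      obtain ⟨y, hy0, hy1, hy2⟩ := (Om_hyp Q hQ).1 p m' hts 1 0
      have hts2 : TS Q m' y := by
        refine o11_ts (o11_ne2 h') (fun a ha => ?_) h'.2.2.1 hy0 hy2
        rw [← ha, QuadraticMap.polar_smul_right, h2, smul_zero] at hy1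
        exact zero_ne_one hy1
      refine ⟨sgg Γ Q m' y, ⟨m', y, hts2, rfl⟩, ?_, Or.inl ?_⟩
      · have h5 := (sgg_basic Q hQ hdim Γ hΓ p m' hts).2.2.2.2 0 1 1 0 (by simp)
        rw [zero_smul, one_smul, one_smul, zero_smul, zero_add, add_zero] at h5
        rw [← h5.2]
        exact Om_comm Q hQ hdim Γ hΓ m' y m' p hts2 h5.1 (Or.inl rfl)
      · refine Om_opp Q hQ hdim Γ hΓ p m m' y h hts2 ?_
        rw [h2, hy1, zero_mul, one_mul, zero_sub]
        exact neg_ne_zero.2 hβ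

/-- Proof. Write `b` for the polar form. If the determinant of `Om_rel` is not zero: `Om_opp`.
Otherwise, by `Om_rel` and `sgg_basic` (5), `A = sgg p m`, `B = sgg p' m'` with
`b(p,p') = b(p,m') = b(m,p') = 0`. Let `β = b(m,m')`.
(1) `β ≠ 0`, `p, p'` independent: `Om_spec`, `C = sgg p p'`.
(2) `β ≠ 0`, `p' = λ p`: then `B = sgg p m'` (`sgg_basic` (5)), the groups commute (`Om_comm`). `TS p m'`
holds (`b(p,m') = 0`; `m'` is not a multiple of `p` since `b(m,m') ≠ 0 = b(m,p)`). Choose `y` singular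
with `b(p,y) = 1`, `b(m',y) = 0` (`Om_hyp`) and `D = sgg m' y` (`TS m' y`): it commutes with
`B = sgg m' p` (`Om_comm`), and `Opp A D` by `Om_opp`: `b(p,m') b(m,y) - b(p,y) b(m,m') = -β ≠ 0`.
(3) `β = 0`: all of `⟨p, m⟩` is orthogonal to `⟨p', m'⟩`, the groups commute (`Om_comm`). One of
`p', m'` is not in `⟨p, m⟩`, otherwise `A = B` (`sgg_basic` (5)); call it `m₁`, so that `B = sgg m₁ m₂`
for some `m₂`. `TS p m₁` holds; choose `y` singular with `b(p,y) = 1`, `b(m₁,y) = 0`, and let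
`D = sgg m₁ y`. It commutes with `B` (`Om_comm`, common vector `m₁`). Put `p₁ = m - b(m,y) p`;
`b(p₁,y) = 0`, `A = sgg p₁ p`, `TS p₁ m₁`, and `Om_spec` with
`(u, w, u', w') = (p₁, p, m₁, y)` gives `Spec A D C` with `C = sgg p₁ m₁` (`b(p,y) = 1 ≠ 0`). -/
theorem Om_pairs (Q : QuadraticForm k V)
    (hQ : ∀ x, (∀ y, QuadraticMap.polar Q x y = 0) → x = 0) (hdim : 7 ≤ Module.finrank k V)
    (Γ : Subgroup (V ≃ₗ[k] V)) (hΓ : Γ = ⁅OGrp Q, OGrp Q⁆) (A B : Subgroup Γ)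
    (hA : A ∈ SgOm Γ Q) (hB : B ∈ SgOm Γ Q) (hAB : A ≠ B) :
    Opp k A B ∨ (∃ C ∈ SgOm Γ Q, Spec A B C) ∨
    ((∀ a ∈ A, ∀ b ∈ B, Commute a b) ∧ ∃ D ∈ SgOm Γ Q, (∀ d ∈ D, ∀ b ∈ B, Commute d b) ∧
      (Opp k A D ∨ ∃ C ∈ SgOm Γ Q, Spec A D C)) := by
  obtain ⟨u, w, h, rfl⟩ := hA
  obtain ⟨u', w', h', rfl⟩ := hB
  by_cases hd : QuadraticMap.polar Q u u' * QuadraticMap.polar Q w w' -
      QuadraticMap.polar Q u w' * QuadraticMap.polar Q w u' = 0
  · obtain ⟨a, b, c, d, a', b', c', d', h0, h0', h1, h2, h3⟩ := Om_rel Q u w u' w' hd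
    have h5 := (sgg_basic Q hQ hdim Γ hΓ u w h).2.2.2.2 a b c d h0
    have h5' := (sgg_basic Q hQ hdim Γ hΓ u' w' h').2.2.2.2 a' b' c' d' h0'
    rw [← h5.2, ← h5'.2] at hAB ⊢
    exact o11_aux Q hQ hdim Γ hΓ _ _ _ _ h5.1 h5'.1 h1 h2 h3 hAB
  · exact Or.inl (Om_opp Q hQ hdim Γ hΓ u w u' w' h h' hd)

end H49KE
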