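import Pool.Agent.H49.KE.Defs
import Pool.Agent.H49.KE.O1
import Pool.Agent.H49.KE.O2

namespace H49KE

open H49KA H49KB H49KC

universe u v w

variable {k : Type} [Field k] [Finite k] {V : Type} [AddCommGroup V] [Module k V]
  [FiniteDimensional k V]

omit [Finite k] [FiniteDimensional k V] in
private theorem polar_self_zero (Q : QuadraticForm k V) (v : V) (hv : Q v = 0) :
    QuadraticMap.polar Q v v = 0 := by
  rw [QuadraticMap.polar_self, hv, smul_zero]

omit [Finite k] [FiniteDimensional k V] in
private theorem TS_of_polar (Q : QuadraticForm k V) (v w z : V) (hv : v ≠ 0) (hQv : Q v = 0)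
    (hQw : Q w = 0) (hvw : QuadraticMap.polar Q v w = 0) (hz : QuadraticMap.polar Q z v = 0)
    (hz' : QuadraticMap.polar Q z w ≠ 0) : TS Q v w := by
  refine ⟨?_, hQv, hQw, hvw⟩
  rw [LinearIndependent.pair_iff]
  intro s t hst
  have h1 : QuadraticMap.polar Q z (s • v + t • w) = 0 := by
    rw [hst]
    exact QuadraticMap.polar_zero_right Q z
  rw [QuadraticMap.polar_add_right, QuadraticMap.polar_smul_right,
    QuadraticMap.polar_smul_right, hz, smul_zero, zero_add, smul_eq_mul] at h1
  have ht : t = 0 := by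
    rcases mul_eq_zero.mp h1 with h | h
    · exact h
    · exact absurd h hz'
  rw [ht, zero_smul, add_zero] at hst
  rcases smul_eq_zero.mp hst with h | h
  · exact ⟨h, ht⟩
  · exact absurd h hv

/-- nonzero singular vectors are eigenvectors -/
private theorem eig_of_singular (Q : QuadraticForm k V)
    (hQ : ∀ x, (∀ y, QuadraticMap.polar Q x y = 0) → x = 0) (hdim : 7 ≤ Module.finrank k V)
    (x : V ≃ₗ[k] V) (hx : ∀ u w, TS Q u w → ∃ a b : k, x u = a • u + b • w)
    (v : V) (hv : v ≠ 0) (hQv : Q v = 0) : ∃ c : k, x v = c • v := by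
  obtain ⟨w, hw⟩ := TS_exists Q hQ (by omega) v hv hQv
  obtain ⟨w', hw'1, hw'2, hw'3⟩ := (Om_hyp Q hQ).1 v w hw 0 1
  have hTS : TS Q v w' := by
    apply TS_of_polar Q v w' w hv hQv hw'1 hw'2
    · rw [QuadraticMap.polar_comm]
      exact hw.2.2.2
    · rw [hw'3]
      exact one_ne_zero
  obtain ⟨a, b, hab⟩ := hx v w hw
  obtain ⟨a', b', hab'⟩ := hx v w' hTS
  have h1 : QuadraticMap.polar Q (x v) w = 0 := by
    rw [hab, QuadraticMap.polar_add_left, QuadraticMap.polar_smul_left,
      QuadraticMap.polar_smul_left, hw.2.2.2, polar_self_zero Q w hw.2.2.1, smul_zero, smul_zero,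
      add_zero]
  have h2 : QuadraticMap.polar Q (x v) w = b' := by
    rw [hab', QuadraticMap.polar_add_left, QuadraticMap.polar_smul_left,
      QuadraticMap.polar_smul_left, hw.2.2.2, QuadraticMap.polar_comm Q w' w, hw'3, smul_zero,
      zero_add, smul_eq_mul, mul_one]
  refine ⟨a', ?_⟩
  rw [hab', ← h2, h1, zero_smul, add_zero]

omit [Finite k] [FiniteDimensional k V] in
/-- the eigenvalues of orthogonal singular vectors agree -/
private theorem eig_orth (Q : QuadraticForm k V) (x : V ≃ₗ[k] V)
    (hx : ∀ v : V, v ≠ 0 → Q v = 0 → ∃ c : k, x v = c • v)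
    (v w : V) (hv : v ≠ 0) (hw : w ≠ 0) (hQv : Q v = 0) (hQw : Q w = 0)
    (hvw : QuadraticMap.polar Q v w = 0) (c : k) (hc : x v = c • v) : x w = c • w := by
  by_cases hli : LinearIndependent k ![v, w]
  · obtain ⟨d, hd⟩ := hx w hw hQw
    have hne : v + w ≠ 0 := by
      intro h0
      have := (LinearIndependent.pair_iff.mp hli) 1 1 (by rw [one_smul, one_smul, h0])
      exact one_ne_zero this.1
    have hQ' : Q (v + w) = 0 := by
      rw [QuadraticMap.map_add (Q : V → k), hQv, hQw, hvw, add_zero, add_zero]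
    obtain ⟨e, he⟩ := hx (v + w) hne hQ'
    have h1 : (e - c) • v + (e - d) • w = 0 := by
      have h2 : c • v + d • w = e • (v + w) := by
        rw [← he, map_add, hc, hd]
      rw [sub_smul, sub_smul]
      have h3 : e • (v + w) = e • v + e • w := smul_add _ _ _
      rw [h3] at h2
      have : e • v - c • v + (e • w - d • w) = (e • v + e • w) - (c • v + d • w) := by abel
      rw [this, h2, sub_self]
    have h2 := (LinearIndependent.pair_iff.mp hli) _ _ h1
    have h3 : c = d := by
      rw [← sub_eq_zero.mp h2.1, ← sub_eq_zero.mp h2.2]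
    rw [hd, h3]
  · -- `w` is a multiple of `v`
    rw [LinearIndependent.pair_iff] at hli
    push Not at hli
    obtain ⟨s, t, hst, h0⟩ := hli
    have ht : t ≠ 0 := by
      intro ht
      rw [ht, zero_smul, add_zero] at hst
      rcases smul_eq_zero.mp hst with h | h
      · exact h0 h ht
      · exact hv h
    have hw' : w = (-(t⁻¹ * s)) • v := by
      have h1 : t • w = -(s • v) := by
        rw [eq_neg_iff_add_eq_zero, add_comm]
        exact hst
      have h2 := congrArg (fun z : V => t⁻¹ • z) h1
      simp only [smul_smul, inv_mul_cancel₀ ht, one_smul, smul_neg] at h2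
      rw [neg_smul]
      exact h2
    rw [hw', map_smul, hc, smul_comm]

private theorem scal_of_lines (Q : QuadraticForm k V)
    (hQ : ∀ x, (∀ y, QuadraticMap.polar Q x y = 0) → x = 0) (hdim : 7 ≤ Module.finrank k V)
    (x : V ≃ₗ[k] V) (hx : ∀ u w, TS Q u w → ∃ a b : k, x u = a • u + b • w) :
    ∃ c : k, ∀ y : V, x y = c • y := by
  classical
  have heig : ∀ v : V, v ≠ 0 → Q v = 0 → ∃ c : k, x v = c • v :=
    fun v hv hQv => eig_of_singular Q hQ hdim x hx v hv hQv
  obtain ⟨v, hv, -, hQv⟩ := Om_univ Q hQ ⊥ (by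
    rw [finrank_bot]
    omega) (by
    intro z hz _
    exact (Submodule.mem_bot k).mp hz) 0
  obtain ⟨v', hQv', hvv'⟩ := (Om_hyp Q hQ).2 v hv hQv 1
  obtain ⟨c, hc⟩ := heig v hv hQv
  -- all singular vectors are eigenvectors for `c`
  have hall : ∀ w : V, Q w = 0 → x w = c • w := by
    intro w hQw
    by_cases hw : w = 0
    · rw [hw, map_zero, smul_zero]
    by_cases hvw : QuadraticMap.polar Q v w = 0
    · exact eig_orth Q x heig v w hv hw hQv hQw hvw c hc
    · have hmem : ∀ z ∈ Submodule.span k {v, w}, ∃ a b : k, a • v + b • w = z := by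
        intro z hz
        exact Submodule.mem_span_pair.mp hz
      obtain ⟨z, hz0, hz1, hz2⟩ := Om_univ Q hQ (Submodule.span k {v, w}) (by
        have h1 : Module.finrank k (Submodule.span k {v, w}) ≤ 2 := by
          have h2 := finrank_span_finset_le_card (R := k) (M := V) ({v, w} : Finset V)
          have h3 : (({v, w} : Finset V) : Set V) = {v, w} := by simp
          rw [h3] at h2
          exact h2.trans Finset.card_le_two
        omega) (by
        intro z hz hz'
        obtain ⟨a, b, rfl⟩ := hmem z hz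
        have e1 := hz' v (Submodule.subset_span (by simp))
        have e2 := hz' w (Submodule.subset_span (by simp))
        rw [QuadraticMap.polar_add_left, QuadraticMap.polar_smul_left,
          QuadraticMap.polar_smul_left, polar_self_zero Q v hQv, smul_zero, zero_add,
          smul_eq_mul, QuadraticMap.polar_comm Q w v] at e1
        rw [QuadraticMap.polar_add_left, QuadraticMap.polar_smul_left,
          QuadraticMap.polar_smul_left, polar_self_zero Q w hQw, smul_zero, add_zero,
          smul_eq_mul] at e2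
        have hb : b = 0 := by
          rcases mul_eq_zero.mp e1 with h | h
          · exact h
          · exact absurd h hvw
        have ha : a = 0 := by
          rcases mul_eq_zero.mp e2 with h | h
          · exact h
          · exact absurd h hvw
        rw [ha, hb, zero_smul, zero_smul, add_zero]) 0
      have hz3 : QuadraticMap.polar Q v z = 0 := hz1 v (Submodule.subset_span (by simp))
      have hz4 : QuadraticMap.polar Q w z = 0 := hz1 w (Submodule.subset_span (by simp))
      have hxz := eig_orth Q x heig v z hv hz0 hQv hz2 hz3 c hc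
      exact eig_orth Q x heig z w hz0 hw hz2 hQw (by
        rw [QuadraticMap.polar_comm]
        exact hz4) c hxz
  -- singular vectors span
  have horth : ∀ u : V, QuadraticMap.polar Q u v = 0 → QuadraticMap.polar Q u v' = 0 →
      x u = c • u := by
    intro u hu hu'
    have hs : Q (u + (-(Q u) • v + v')) = 0 := by
      rw [QuadraticMap.map_add (Q : V → k), QuadraticMap.map_add (Q : V → k) (-(Q u) • v) v',
        QuadraticMap.map_smul, hQv, hQv',
        QuadraticMap.polar_add_right, QuadraticMap.polar_smul_right, hu, hu',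
        QuadraticMap.polar_smul_left, hvv']
      simp
    have h1 := hall _ hs
    have h2 : u = (u + (-(Q u) • v + v')) + ((Q u) • v - v') := by
      rw [neg_smul]
      abel
    have h3 : x ((Q u) • v - v') = c • ((Q u) • v - v') := by
      rw [map_sub, map_smul, hc, hall v' hQv', smul_sub, smul_comm]
    have h4 : x ((u + (-(Q u) • v + v')) + ((Q u) • v - v')) =
        c • ((u + (-(Q u) • v + v')) + ((Q u) • v - v')) := by
      rw [map_add, h1, h3, ← smul_add]
    rw [← h2] at h4
    exact h4
  refine ⟨c, fun y => ?_⟩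
  have hu : x (y - QuadraticMap.polar Q y v' • v - QuadraticMap.polar Q y v • v')
      = c • (y - QuadraticMap.polar Q y v' • v - QuadraticMap.polar Q y v • v') := by
    apply horth
    · rw [QuadraticMap.polar_sub_left, QuadraticMap.polar_sub_left, QuadraticMap.polar_smul_left,
        QuadraticMap.polar_smul_left, polar_self_zero Q v hQv, QuadraticMap.polar_comm Q v' v, hvv']
      simp
    · rw [QuadraticMap.polar_sub_left, QuadraticMap.polar_sub_left, QuadraticMap.polar_smul_left,
        QuadraticMap.polar_smul_left, polar_self_zero Q v' hQv', hvv']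
      simp
  have h2 : x (QuadraticMap.polar Q y v' • v) = c • (QuadraticMap.polar Q y v' • v) := by
    rw [map_smul, hc, smul_comm]
  have h3 : x (QuadraticMap.polar Q y v • v') = c • (QuadraticMap.polar Q y v • v') := by
    rw [map_smul, hall v' hQv', smul_comm]
  rw [map_sub, map_sub, h2, h3, smul_sub, smul_sub] at hu
  have h4 := sub_left_injective (sub_left_injective hu)
  exact h4

/-- Proof. Suppose `x A x⁻¹ = A` for all `A`. By `sgg_basic` (4) `sgg (x u) (x w) = sgg u w` for
`TS u w`; the element with parameter `1` moves vectors by elements of `⟨u, w⟩`, and these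
differences span `⟨u, w⟩`, the same for `⟨x u, x w⟩`; so `x` maps `⟨u, w⟩` onto itself. A nonzero
singular `v` is an eigenvector of `x`: choose `w` with `TS v w` (`TS_exists`) and `w'` singular with
`b(v,w') = 0`, `b(w,w') = 1` (`Om_hyp`); `x v` is in `⟨v, w⟩ ∩ ⟨v, w'⟩ = ⟨v⟩`. Eigenvalues agree: for
nonzero singular `v, w` not multiples of each other, if `b(v,w) = 0` then `v + w` is singular; if
`b(v,w) ≠ 0` choose a nonzero singular `z ⊥ v, w` (`Om_univ`, `U = ⟨v, w⟩`) and compare with `z`.
Singular vectors span `V`: with `v, v'` singular, `b(v,v') = 1` and `u ⊥ v, v'` the vector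
`u - Q(u) v + v'` is singular. (A nonzero singular vector exists by `Om_univ` with `U = ⊥`.) So `x` is
a scalar. -/
theorem Om_fix (Q : QuadraticForm k V)
    (hQ : ∀ x, (∀ y, QuadraticMap.polar Q x y = 0) → x = 0) (hdim : 7 ≤ Module.finrank k V)
    (Γ : Subgroup (V ≃ₗ[k] V)) (hΓ : Γ = ⁅OGrp Q, OGrp Q⁆) (x : Γ)
    (hx : (x : V ≃ₗ[k] V) ∉ Scal k V) :
    ∃ A ∈ SgOm Γ Q, A.map (MulAut.conj x).toMonoidHom ≠ A := by
  by_contra hcon
  push Not at hcon
  apply hx
  have hlines : ∀ u w, TS Q u w → ∃ a b : k, (x : V ≃ₗ[k] V) u = a • u + b • w := by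
    intro u w huw
    have hA : sgg Γ Q u w ∈ SgOm Γ Q := ⟨u, w, huw, rfl⟩
    have h1 := hcon _ hA
    obtain ⟨b1, b2, b3, b4, b5⟩ := sgg_basic Q hQ hdim Γ hΓ u w huw
    obtain ⟨hTSx, hmapx⟩ := b4 x
    rw [hmapx] at h1
    obtain ⟨c1, c2, -, -, -⟩ := sgg_basic Q hQ hdim Γ hΓ _ _ hTSx
    obtain ⟨e, he⟩ := c2 1
    have hmem : e ∈ sgg Γ Q ((x : V ≃ₗ[k] V) u) ((x : V ≃ₗ[k] V) w) := (c1 e).mpr ⟨1, he⟩
    rw [h1] at hmem
    obtain ⟨t, ht⟩ := (b1 e).mp hmem
    obtain ⟨y, -, hy1, hy2⟩ := (Om_hyp Q hQ).1 _ _ hTSx 0 (-1)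
    have h2 := he y
    rw [ht y, QuadraticMap.polar_comm Q y ((x : V ≃ₗ[k] V) u), hy1,
      QuadraticMap.polar_comm Q y ((x : V ≃ₗ[k] V) w), hy2, mul_zero, zero_smul, add_zero,
      one_mul, neg_smul, one_smul, sub_neg_eq_add] at h2
    refine ⟨-(t * QuadraticMap.polar Q y w), t * QuadraticMap.polar Q y u, ?_⟩
    have h3 : y + (x : V ≃ₗ[k] V) u = y + (-(t * QuadraticMap.polar Q y w) • u +
        (t * QuadraticMap.polar Q y u) • w) := by
      rw [← h2, neg_smul]
      abel
    exact add_left_cancel h3
  exact scal_of_lines Q hQ hdim x hlines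

end H49KE
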