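import Pool.Agent.H49.KE.Defs
import Pool.Agent.H49.KE.O1
import Pool.Agent.H49.KE.O2

namespace H49KE

open H49KA H49KB H49KC

universe u v w

variable {k : Type} [Field k] [Finite k] {V : Type} [AddCommGroup V] [Module k V]
  [FiniteDimensional k V]

private theorem siegel_mul {k : Type} [Field k] {V : Type} [AddCommGroup V] [Module k V]
    (Q : QuadraticForm k V) (v y y' z z' : V) (hv' : Q v = 0)
    (hy : QuadraticMap.polar Q v y = 0) (hy' : QuadraticMap.polar Q v y' = 0)
    (hz : z' = z + QuadraticMap.polar Q z v • y' -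
      QuadraticMap.polar Q z y' • v - (Q y' * QuadraticMap.polar Q z v) • v) :
    z' + QuadraticMap.polar Q z' v • y -
      QuadraticMap.polar Q z' y • v - (Q y * QuadraticMap.polar Q z' v) • v =
    z + QuadraticMap.polar Q z v • (y' + y) -
      QuadraticMap.polar Q z (y' + y) • v - (Q (y' + y) * QuadraticMap.polar Q z v) • v := by
  have hvv : QuadraticMap.polar Q v v = 0 := by
    rw [QuadraticMap.polar_self, hv', smul_zero]
  have hy'v : QuadraticMap.polar Q y' v = 0 := by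
    rw [QuadraticMap.polar_comm]; exact hy'
  have h1 : QuadraticMap.polar Q z' v = QuadraticMap.polar Q z v := by
    rw [hz]
    simp only [QuadraticMap.polar_sub_left, QuadraticMap.polar_add_left,
      QuadraticMap.polar_smul_left, hvv, hy'v, smul_zero, add_zero, sub_zero]
  have h2 : QuadraticMap.polar Q z' y = QuadraticMap.polar Q z y +
      QuadraticMap.polar Q z v * QuadraticMap.polar Q y' y := by
    rw [hz]
    simp only [QuadraticMap.polar_sub_left, QuadraticMap.polar_add_left,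
      QuadraticMap.polar_smul_left, hy, mul_zero, sub_zero, smul_eq_mul]
  have h3 : Q (y' + y) = Q y' + Q y + QuadraticMap.polar Q y' y := by
    simp only [QuadraticMap.polar]; ring
  rw [h1, h2, h3, QuadraticMap.polar_add_right, hz]
  module

/-- Siegel maps are in the group. Proof. Write `b` for the polar form and
`E_y z = z + b(z,v) y - b(z,y) v - (Q y b(z,v)) v`. For `y, y' ⊥ v` one has `E_y E_{y'} = E_{y + y'}`
(computation, `Q (y + y') = Q y + Q y' + b(y, y')`). For singular `y ⊥ v`, `E_y ∈ Γ`: if `y` is not a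
multiple of `v` this is `sgg_basic` (2) for `TS v y` (`t = 1`); if `y` is a multiple of `v`, `E_y = 1`. It
remains to see that every `y ⊥ v` is a sum of singular vectors orthogonal to `v`: let `z₁` be such
that `TS v z₁` (`TS_exists`), `z₂` singular with `b(v,z₂) = 0`, `b(z₁,z₂) = 1` (`Om_hyp`),
`u = y - b(y,z₂) z₁ - b(y,z₁) z₂`; then `u ⊥ v, z₁, z₂` and
`y = (u - Q(u) z₁ + z₂) + (b(y,z₂) + Q(u)) z₁ + (b(y,z₁) - 1) z₂` with singular summands. -/
theorem Om_siegel (Q : QuadraticForm k V)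
    (hQ : ∀ x, (∀ y, QuadraticMap.polar Q x y = 0) → x = 0) (hdim : 7 ≤ Module.finrank k V)
    (v y : V) (hv : v ≠ 0) (hv' : Q v = 0) (hy : QuadraticMap.polar Q v y = 0) :
    ∃ x ∈ ⁅OGrp Q, OGrp Q⁆, ∀ z, x z = z + QuadraticMap.polar Q z v • y -
      QuadraticMap.polar Q z y • v - (Q y * QuadraticMap.polar Q z v) • v := by
  have hvv : QuadraticMap.polar Q v v = 0 := by
    rw [QuadraticMap.polar_self, hv', smul_zero]
  -- the singular case
  have hsing : ∀ y : V, Q y = 0 → QuadraticMap.polar Q v y = 0 →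
      ∃ x ∈ ⁅OGrp Q, OGrp Q⁆, ∀ z, x z = z + QuadraticMap.polar Q z v • y -
      QuadraticMap.polar Q z y • v - (Q y * QuadraticMap.polar Q z v) • v := by
    intro y hQy hvy
    by_cases hli : LinearIndependent k ![v, y]
    · have hTS : TS Q v y := ⟨hli, hv', hQy, hvy⟩
      obtain ⟨-, h2, -⟩ := sgg_basic Q hQ hdim ⁅OGrp Q, OGrp Q⁆ rfl v y hTS
      obtain ⟨x, hx⟩ := h2 1
      refine ⟨x, x.2, fun z => ?_⟩
      rw [hx z, hQy]
      simp
    · rw [LinearIndependent.pair_iff' hv] at hli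
      push Not at hli
      obtain ⟨a, ha⟩ := hli
      refine ⟨1, Subgroup.one_mem _, fun z => ?_⟩
      rw [hQy, ← ha, QuadraticMap.polar_smul_right]
      show z = _
      simp only [smul_eq_mul]
      module
  -- products
  have hmul : ∀ y y' : V, QuadraticMap.polar Q v y = 0 → QuadraticMap.polar Q v y' = 0 →
      (∃ x ∈ ⁅OGrp Q, OGrp Q⁆, ∀ z, x z = z + QuadraticMap.polar Q z v • y -
      QuadraticMap.polar Q z y • v - (Q y * QuadraticMap.polar Q z v) • v) →
      (∃ x ∈ ⁅OGrp Q, OGrp Q⁆, ∀ z, x z = z + QuadraticMap.polar Q z v • y' -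
      QuadraticMap.polar Q z y' • v - (Q y' * QuadraticMap.polar Q z v) • v) →
      ∃ x ∈ ⁅OGrp Q, OGrp Q⁆, ∀ z, x z = z + QuadraticMap.polar Q z v • (y' + y) -
      QuadraticMap.polar Q z (y' + y) • v -
        (Q (y' + y) * QuadraticMap.polar Q z v) • v := by
    intro y y' hvy hvy' ⟨x, hx, hxz⟩ ⟨x', hx', hxz'⟩
    refine ⟨x * x', Subgroup.mul_mem _ hx hx', fun z => ?_⟩
    rw [LinearEquiv.mul_apply, hxz (x' z)]
    exact siegel_mul Q v y y' z (x' z) hv' hvy hvy' (hxz' z)
  obtain ⟨z₁, hz₁⟩ := TS_exists Q hQ (by omega) v hv hv'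
  obtain ⟨hli, -, hQz₁, hvz₁⟩ := id hz₁
  obtain ⟨z₂, hQz₂, hvz₂, hz₁z₂⟩ := (Om_hyp Q hQ).1 v z₁ hz₁ 0 1
  have hz₂z₁ : QuadraticMap.polar Q z₂ z₁ = 1 := by
    rw [QuadraticMap.polar_comm]; exact hz₁z₂
  have hz₁₁ : QuadraticMap.polar Q z₁ z₁ = 0 := by
    rw [QuadraticMap.polar_self, hQz₁, smul_zero]
  have hz₂₂ : QuadraticMap.polar Q z₂ z₂ = 0 := by
    rw [QuadraticMap.polar_self, hQz₂, smul_zero]
  obtain ⟨u, hu⟩ : ∃ u, u = y - QuadraticMap.polar Q y z₂ • z₁ -
    QuadraticMap.polar Q y z₁ • z₂ := ⟨_, rfl⟩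
  have huz₁ : QuadraticMap.polar Q u z₁ = 0 := by
    rw [hu]
    simp only [QuadraticMap.polar_sub_left, QuadraticMap.polar_smul_left, hz₁₁, hz₂z₁,
      smul_eq_mul, mul_zero, mul_one, sub_zero, sub_self]
  have huz₂ : QuadraticMap.polar Q u z₂ = 0 := by
    rw [hu]
    simp only [QuadraticMap.polar_sub_left, QuadraticMap.polar_smul_left, hz₂₂, hz₁z₂,
      smul_eq_mul, mul_zero, mul_one, sub_zero, sub_self]
  have hvu : QuadraticMap.polar Q v u = 0 := by
    rw [hu]
    simp only [QuadraticMap.polar_sub_right, QuadraticMap.polar_smul_right, hvz₁, hvz₂, hy,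
      smul_eq_mul, mul_zero, sub_zero]
  -- the three singular summands
  have hQadd : ∀ a b : V, Q (a + b) = Q a + Q b + QuadraticMap.polar Q a b := by
    intro a b
    simp only [QuadraticMap.polar]; ring
  have hQ1 : Q ((u - Q u • z₁) + z₂) = 0 := by
    have h1 : Q (u - Q u • z₁) = Q u := by
      rw [sub_eq_add_neg, ← neg_smul, hQadd, QuadraticMap.map_smul, hQz₁,
        QuadraticMap.polar_smul_right, huz₁]
      simp
    rw [hQadd, h1, hQz₂, QuadraticMap.polar_sub_left, QuadraticMap.polar_smul_left, huz₂,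
      hz₁z₂]
    simp
  have hv1 : QuadraticMap.polar Q v ((u - Q u • z₁) + z₂) = 0 := by
    simp only [QuadraticMap.polar_add_right, QuadraticMap.polar_sub_right,
      QuadraticMap.polar_smul_right, hvu, hvz₁, hvz₂, smul_zero, sub_zero, add_zero]
  have hQ2 : Q ((QuadraticMap.polar Q y z₂ + Q u) • z₁) = 0 := by
    rw [QuadraticMap.map_smul, hQz₁, smul_zero]
  have hv2 : QuadraticMap.polar Q v ((QuadraticMap.polar Q y z₂ + Q u) • z₁) = 0 := by
    rw [QuadraticMap.polar_smul_right, hvz₁, smul_zero]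
  have hQ3 : Q ((QuadraticMap.polar Q y z₁ - 1) • z₂) = 0 := by
    rw [QuadraticMap.map_smul, hQz₂, smul_zero]
  have hv3 : QuadraticMap.polar Q v ((QuadraticMap.polar Q y z₁ - 1) • z₂) = 0 := by
    rw [QuadraticMap.polar_smul_right, hvz₂, smul_zero]
  have h12 := hmul _ _ hv2 hv1 (hsing _ hQ2 hv2) (hsing _ hQ1 hv1)
  have hv12 : QuadraticMap.polar Q v (((u - Q u • z₁) + z₂) +
      (QuadraticMap.polar Q y z₂ + Q u) • z₁) = 0 := by
    rw [QuadraticMap.polar_add_right, hv1, hv2, add_zero]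
  have h123 := hmul _ _ hv3 hv12 (hsing _ hQ3 hv3) h12
  have hsum : (((u - Q u • z₁) + z₂) + (QuadraticMap.polar Q y z₂ + Q u) • z₁) +
      (QuadraticMap.polar Q y z₁ - 1) • z₂ = y := by
    have : y = u + QuadraticMap.polar Q y z₂ • z₁ + QuadraticMap.polar Q y z₁ • z₂ := by
      rw [hu]; module
    conv_rhs => rw [this]
    module
  rw [hsum] at h123
  exact h123

end H49KE
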