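import Pool.Agent.H49.KE.Defs
import Pool.Agent.H49.KE.O1
import Pool.Agent.H49.KE.O4

namespace H49KE

open H49KA H49KB H49KC

universe u v w

variable {k : Type} [Field k] [Finite k] {V : Type} [AddCommGroup V] [Module k V]
  [FiniteDimensional k V]

private theorem O5_Qadd {k : Type} [Field k] {V : Type} [AddCommGroup V] [Module k V]
    (Q : QuadraticForm k V) (a b : V) : Q (a + b) = Q a + Q b + QuadraticMap.polar Q a b := by
  simp only [QuadraticMap.polar]; ring

private theorem O5_dual {k : Type} [Field k] {V : Type} [AddCommGroup V] [Module k V]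
    [FiniteDimensional k V] (Q : QuadraticForm k V)
    (hQ : ∀ x, (∀ y, QuadraticMap.polar Q x y = 0) → x = 0) (φ : Module.Dual k V) :
    ∃ y, ∀ u, QuadraticMap.polar Q y u = φ u := by
  have hinj : Function.Injective (QuadraticMap.polarBilin Q) := by
    rw [injective_iff_map_eq_zero]
    intro x hx
    exact hQ x fun y => LinearMap.congr_fun hx y
  have hsurj : Function.Surjective (QuadraticMap.polarBilin Q) :=
    (LinearMap.injective_iff_surjective_of_finrank_eq_finrank
      (Subspace.dual_finrank_eq (K := k) (V := V)).symm).1 hinj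
  obtain ⟨y, hy⟩ := hsurj φ
  exact ⟨y, fun u => LinearMap.congr_fun hy u⟩

/-- the Siegel map moving `w` to `w'` -/
private theorem O5_star (Q : QuadraticForm k V)
    (hQ : ∀ x, (∀ y, QuadraticMap.polar Q x y = 0) → x = 0) (hdim : 7 ≤ Module.finrank k V)
    (u w w' v : V) (hv : Q v = 0) (hw : Q w = 0) (hw' : Q w' = 0)
    (huv : QuadraticMap.polar Q u v = 0) (huw : QuadraticMap.polar Q u w = 0)
    (huw' : QuadraticMap.polar Q u w' = 0)
    (h1 : QuadraticMap.polar Q w v = 1) (h2 : QuadraticMap.polar Q w' v = 1) :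
    ∃ g ∈ ⁅OGrp Q, OGrp Q⁆, g u = u ∧ g w = w' := by
  have hv0 : v ≠ 0 := by
    rintro rfl
    rw [QuadraticMap.polar_zero_right] at h1
    exact zero_ne_one h1
  have hvy : QuadraticMap.polar Q v (w' - w) = 0 := by
    rw [QuadraticMap.polar_sub_right, QuadraticMap.polar_comm Q v w',
      QuadraticMap.polar_comm Q v w, h1, h2, sub_self]
  obtain ⟨g, hg, hgz⟩ := Om_siegel Q hQ hdim v (w' - w) hv0 hv hvy
  have hww : QuadraticMap.polar Q w w = 0 := by
    rw [QuadraticMap.polar_self, hw, smul_zero]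
  have hQy : Q (w' - w) = - QuadraticMap.polar Q w w' := by
    have h := O5_Qadd Q w' (-w)
    rw [← sub_eq_add_neg] at h
    rw [h, QuadraticMap.map_neg, hw, hw', QuadraticMap.polar_neg_right,
      QuadraticMap.polar_comm Q w' w]
    ring
  refine ⟨g, hg, ?_, ?_⟩
  · rw [hgz, huv, QuadraticMap.polar_sub_right, huw, huw']
    simp
  · rw [hgz, h1, QuadraticMap.polar_sub_right, hww, hQy]
    module

private theorem O5_ind1 (Q : QuadraticForm k V)
    (hQ : ∀ x, (∀ y, QuadraticMap.polar Q x y = 0) → x = 0) (hdim : 7 ≤ Module.finrank k V)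
    (u u' : V) (hli : LinearIndependent k ![u, u']) (hu : Q u = 0) (hu' : Q u' = 0) :
    ∃ g ∈ ⁅OGrp Q, OGrp Q⁆, g u = u' := by
  have huu : QuadraticMap.polar Q u u = 0 := by
    rw [QuadraticMap.polar_self, hu, smul_zero]
  have huu' : QuadraticMap.polar Q u' u' = 0 := by
    rw [QuadraticMap.polar_self, hu', smul_zero]
  have hex : ∃ v, Q v = 0 ∧ QuadraticMap.polar Q u v = 1 ∧ QuadraticMap.polar Q u' v = 1 := by
    by_cases hb : QuadraticMap.polar Q u u' = 0
    · exact (Om_hyp Q hQ).1 u u' ⟨hli, hu, hu', hb⟩ 1 1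
    · have hb' : QuadraticMap.polar Q u' u ≠ 0 := by
        rw [QuadraticMap.polar_comm]; exact hb
      have hfr : Module.finrank k (Submodule.span k ({u, u'} : Set V)) ≤ 2 := by
        classical
        have h := finrank_span_finset_le_card (R := k) ({u, u'} : Finset V)
        rw [Finset.coe_pair] at h
        exact h.trans Finset.card_le_two
      obtain ⟨z, -, hz, hQz⟩ := Om_univ Q hQ (Submodule.span k ({u, u'} : Set V)) (by omega)
        (by
          intro x hx hxy
          obtain ⟨a, b, rfl⟩ := Submodule.mem_span_pair.1 hx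
          have h1 := hxy u (Submodule.subset_span (by simp))
          have h2 := hxy u' (Submodule.subset_span (by simp))
          rw [QuadraticMap.polar_add_left, QuadraticMap.polar_smul_left,
            QuadraticMap.polar_smul_left, huu, smul_zero, zero_add, smul_eq_mul] at h1
          rw [QuadraticMap.polar_add_left, QuadraticMap.polar_smul_left,
            QuadraticMap.polar_smul_left, huu', smul_zero, add_zero, smul_eq_mul] at h2
          rw [(mul_eq_zero.1 h1).resolve_right hb', (mul_eq_zero.1 h2).resolve_right hb]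
          simp) (-(QuadraticMap.polar Q u u')⁻¹)
      have hzu := hz u (Submodule.subset_span (by simp))
      have hzu' := hz u' (Submodule.subset_span (by simp))
      refine ⟨(QuadraticMap.polar Q u u')⁻¹ • (u + u') + z, ?_, ?_, ?_⟩
      · rw [O5_Qadd, QuadraticMap.map_smul, O5_Qadd, hu, hu', hQz,
          QuadraticMap.polar_smul_left, QuadraticMap.polar_add_left, hzu, hzu']
        simp only [smul_eq_mul]
        field_simp
        ring
      · rw [QuadraticMap.polar_add_right, QuadraticMap.polar_smul_right,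
          QuadraticMap.polar_add_right, huu, hzu, zero_add, add_zero, smul_eq_mul,
          inv_mul_cancel₀ hb]
      · rw [QuadraticMap.polar_add_right, QuadraticMap.polar_smul_right,
          QuadraticMap.polar_add_right, huu', hzu', add_zero, add_zero, smul_eq_mul,
          QuadraticMap.polar_comm Q u' u, inv_mul_cancel₀ hb]
  obtain ⟨v, hv, h1, h2⟩ := hex
  obtain ⟨g, hg, -, hgu⟩ := O5_star Q hQ hdim 0 u u' v hv hu hu'
    (QuadraticMap.polar_zero_left Q v) (QuadraticMap.polar_zero_left Q u)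
    (QuadraticMap.polar_zero_left Q u') h1 h2
  exact ⟨g, hg, hgu⟩

/-- Proof. Write `b` for the polar form. (*) If `v` is singular, `b(u,v) = 1 = b(u',v)`, then the
Siegel map of `v` and `y = u' - u` (`Om_siegel`) maps `u` to `u'` (`Q (u' - u) = - b(u,u')`). If `u, u'`
are independent such a `v` exists: if `b(u,u') = 0` by `Om_hyp`; if `β = b(u,u') ≠ 0` take
`v = β⁻¹ (u + u') + z` with `z ⊥ u, u'` and `Q z = - β⁻¹` (`Om_univ` for `U = ⟨u, u'⟩`). If `u'` is a
multiple of `u`, go through a singular `u''` with `b(u,u'') = 1`. -/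
theorem Om_trans1 (Q : QuadraticForm k V)
    (hQ : ∀ x, (∀ y, QuadraticMap.polar Q x y = 0) → x = 0) (hdim : 7 ≤ Module.finrank k V)
    (u u' : V) (h : u ≠ 0) (h' : u' ≠ 0) (hu : Q u = 0) (hu' : Q u' = 0) :
    ∃ g ∈ ⁅OGrp Q, OGrp Q⁆, g u = u' := by
  by_cases hli : LinearIndependent k ![u, u']
  · exact O5_ind1 Q hQ hdim u u' hli hu hu'
  · rw [LinearIndependent.pair_iff' h] at hli
    push Not at hli
    obtain ⟨a, ha⟩ := hli
    have ha0 : a ≠ 0 := by
      rintro rfl
      rw [zero_smul] at ha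
      exact h' ha.symm
    obtain ⟨u'', hu'', hb⟩ := (Om_hyp Q hQ).2 u h hu 1
    have huu : QuadraticMap.polar Q u u = 0 := by
      rw [QuadraticMap.polar_self, hu, smul_zero]
    have hli1 : LinearIndependent k ![u, u''] := by
      rw [LinearIndependent.pair_iff' h]
      intro c hc
      rw [← hc, QuadraticMap.polar_smul_right, huu, smul_zero] at hb
      exact zero_ne_one hb
    have hu''0 : u'' ≠ 0 := by
      rintro rfl
      rw [QuadraticMap.polar_zero_right] at hb
      exact zero_ne_one hb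
    have hli2 : LinearIndependent k ![u'', u'] := by
      rw [LinearIndependent.pair_iff' hu''0]
      intro c hc
      have h1 : QuadraticMap.polar Q u u' = 0 := by
        rw [← ha, QuadraticMap.polar_smul_right, huu, smul_zero]
      rw [← hc, QuadraticMap.polar_smul_right, hb, smul_eq_mul, mul_one] at h1
      rw [h1, zero_smul] at hc
      exact h' hc.symm
    obtain ⟨g₁, hg₁, h₁⟩ := O5_ind1 Q hQ hdim u u'' hli1 hu hu''
    obtain ⟨g₂, hg₂, h₂⟩ := O5_ind1 Q hQ hdim u'' u' hli2 hu'' hu'
    refine ⟨g₂ * g₁, Subgroup.mul_mem _ hg₂ hg₁, ?_⟩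
    rw [LinearEquiv.mul_apply, h₁, h₂]

/-- case (a) -/
private theorem O5_a (Q : QuadraticForm k V)
    (hQ : ∀ x, (∀ y, QuadraticMap.polar Q x y = 0) → x = 0) (hdim : 7 ≤ Module.finrank k V)
    (u w w' : V) (h : TS Q u w) (h' : TS Q u w') (hb : QuadraticMap.polar Q w w' ≠ 0) :
    ∃ g ∈ ⁅OGrp Q, OGrp Q⁆, g u = u ∧ g w = w' := by
  obtain ⟨hli, hu, hw, huw⟩ := id h
  obtain ⟨hli', -, hw', huw'⟩ := id h'
  have huu : QuadraticMap.polar Q u u = 0 := by
    rw [QuadraticMap.polar_self, hu, smul_zero]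
  have hww : QuadraticMap.polar Q w w = 0 := by
    rw [QuadraticMap.polar_self, hw, smul_zero]
  have hww' : QuadraticMap.polar Q w' w' = 0 := by
    rw [QuadraticMap.polar_self, hw', smul_zero]
  have hb' : QuadraticMap.polar Q w' w ≠ 0 := by
    rw [QuadraticMap.polar_comm]; exact hb
  obtain ⟨y₀, -, huy, hwy⟩ := (Om_hyp Q hQ).1 u w h 1 0
  obtain ⟨u₀, hu₀⟩ : ∃ u₀, u₀ = y₀ -
    (QuadraticMap.polar Q w' y₀ * (QuadraticMap.polar Q w' w)⁻¹) • w := ⟨_, rfl⟩
  have h1 : QuadraticMap.polar Q u u₀ = 1 := by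
    rw [hu₀, QuadraticMap.polar_sub_right, QuadraticMap.polar_smul_right, huy, huw, smul_zero,
      sub_zero]
  have h2 : QuadraticMap.polar Q w u₀ = 0 := by
    rw [hu₀, QuadraticMap.polar_sub_right, QuadraticMap.polar_smul_right, hwy, hww, smul_zero,
      sub_zero]
  have h3 : QuadraticMap.polar Q w' u₀ = 0 := by
    rw [hu₀, QuadraticMap.polar_sub_right, QuadraticMap.polar_smul_right, smul_eq_mul,
      mul_assoc, inv_mul_cancel₀ hb', mul_one, sub_self]
  have hfr : Module.finrank k (Submodule.span k ({u, u₀, w, w'} : Set V)) ≤ 4 := by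
    classical
    have h := finrank_span_finset_le_card (R := k) ({u, u₀, w, w'} : Finset V)
    rw [Finset.coe_insert, Finset.coe_insert, Finset.coe_pair] at h
    exact h.trans Finset.card_le_four
  obtain ⟨z, -, hz, hQz⟩ := Om_univ Q hQ (Submodule.span k ({u, u₀, w, w'} : Set V))
    (by omega)
    (by
      intro x hx hxy
      rw [Submodule.mem_span_insert] at hx
      obtain ⟨a, x', hx', rfl⟩ := hx
      rw [Submodule.mem_span_insert] at hx'
      obtain ⟨b, x'', hx'', rfl⟩ := hx'
      obtain ⟨c, d, rfl⟩ := Submodule.mem_span_pair.1 hx''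
      have e1 := hxy u (Submodule.subset_span (by simp))
      have e2 := hxy u₀ (Submodule.subset_span (by simp))
      have e3 := hxy w (Submodule.subset_span (by simp))
      have e4 := hxy w' (Submodule.subset_span (by simp))
      simp only [QuadraticMap.polar_add_left, QuadraticMap.polar_smul_left, smul_eq_mul,
        huu, hww, hww', h1, h2, h3, huw, huw', QuadraticMap.polar_comm Q u₀ u,
        QuadraticMap.polar_comm Q w u, QuadraticMap.polar_comm Q w' u,
        QuadraticMap.polar_comm Q u₀ w, QuadraticMap.polar_comm Q u₀ w', mul_zero, mul_one,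
        add_zero, zero_add] at e1 e2 e3 e4
      have hc := (mul_eq_zero.1 e4).resolve_right hb
      have hd := (mul_eq_zero.1 e3).resolve_right hb'
      rw [e1, zero_mul, add_zero] at e2
      rw [e2, e1, hc, hd]
      simp) (-(QuadraticMap.polar Q w w')⁻¹)
  have hzu := hz u (Submodule.subset_span (by simp))
  have hzw := hz w (Submodule.subset_span (by simp))
  have hzw' := hz w' (Submodule.subset_span (by simp))
  refine O5_star Q hQ hdim u w w' ((QuadraticMap.polar Q w w')⁻¹ • (w + w') + z) ?_ hw hw' ?_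
    huw huw' ?_ ?_
  · rw [O5_Qadd, QuadraticMap.map_smul, O5_Qadd, hw, hw', hQz,
      QuadraticMap.polar_smul_left, QuadraticMap.polar_add_left, hzw, hzw']
    simp only [smul_eq_mul]
    field_simp
    ring
  · rw [QuadraticMap.polar_add_right, QuadraticMap.polar_smul_right,
      QuadraticMap.polar_add_right, huw, huw', hzu]
    simp
  · rw [QuadraticMap.polar_add_right, QuadraticMap.polar_smul_right,
      QuadraticMap.polar_add_right, hww, hzw, zero_add, add_zero, smul_eq_mul,
      inv_mul_cancel₀ hb]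
  · rw [QuadraticMap.polar_add_right, QuadraticMap.polar_smul_right,
      QuadraticMap.polar_add_right, hww', hzw', add_zero, add_zero, smul_eq_mul,
      QuadraticMap.polar_comm Q w' w, inv_mul_cancel₀ hb]

private theorem O5_fix (Q : QuadraticForm k V)
    (hQ : ∀ x, (∀ y, QuadraticMap.polar Q x y = 0) → x = 0) (hdim : 7 ≤ Module.finrank k V)
    (u w w' : V) (h : TS Q u w) (h' : TS Q u w') :
    ∃ g ∈ ⁅OGrp Q, OGrp Q⁆, g u = u ∧ g w = w' := by
  by_cases hb : QuadraticMap.polar Q w w' = 0
  swap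
  · exact O5_a Q hQ hdim u w w' h h' hb
  obtain ⟨hli, hu, hw, huw⟩ := id h
  obtain ⟨hli', -, hw', huw'⟩ := id h'
  have hww : QuadraticMap.polar Q w w = 0 := by
    rw [QuadraticMap.polar_self, hw, smul_zero]
  have huu : QuadraticMap.polar Q u u = 0 := by
    rw [QuadraticMap.polar_self, hu, smul_zero]
  by_cases hsp : w' ∈ Submodule.span k ({u, w} : Set V)
  · obtain ⟨μ, l, hl⟩ := Submodule.mem_span_pair.1 hsp
    have hl0 : l ≠ 0 := by
      rintro rfl
      rw [zero_smul, add_zero] at hl
      have hu0 : u ≠ 0 := hli.ne_zero 0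
      rw [LinearIndependent.pair_iff' hu0] at hli'
      exact hli' μ hl
    obtain ⟨w'', hw'', huw'', hww''⟩ := (Om_hyp Q hQ).1 u w h 0 1
    have hu0 : u ≠ 0 := hli.ne_zero 0
    have hTS : TS Q u w'' := by
      refine ⟨?_, hu, hw'', huw''⟩
      rw [LinearIndependent.pair_iff' hu0]
      intro a ha
      rw [← ha, QuadraticMap.polar_smul_right, QuadraticMap.polar_comm Q w u, huw,
        smul_zero] at hww''
      exact zero_ne_one hww''
    have hb1 : QuadraticMap.polar Q w'' w' ≠ 0 := by
      rw [← hl, QuadraticMap.polar_add_right, QuadraticMap.polar_smul_right,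
        QuadraticMap.polar_smul_right, QuadraticMap.polar_comm Q w'' u,
        QuadraticMap.polar_comm Q w'' w, huw'', hww'']
      simpa using hl0
    obtain ⟨g₁, hg₁, h₁, h₁'⟩ := O5_a Q hQ hdim u w w'' h hTS
      (by rw [hww'']; exact one_ne_zero)
    obtain ⟨g₂, hg₂, h₂, h₂'⟩ := O5_a Q hQ hdim u w'' w' hTS h' hb1
    refine ⟨g₂ * g₁, Subgroup.mul_mem _ hg₂ hg₁, ?_, ?_⟩
    · rw [LinearEquiv.mul_apply, h₁, h₂]
    · rw [LinearEquiv.mul_apply, h₁', h₂']
  · have hli3 : LinearIndependent k ![w', u, w] := by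
      refine linearIndependent_finCons.2 ⟨hli, ?_⟩
      rw [Matrix.range_cons_cons_empty]
      exact hsp
    obtain ⟨φ, hφ⟩ := LinearMap.exists_extend ((Module.Basis.span hli3).constr k ![(1 : k), 0, 1])
    have hval : ∀ i : Fin 3, φ (![w', u, w] i) = ![(1 : k), 0, 1] i := by
      intro i
      have h1 := LinearMap.congr_fun hφ (Module.Basis.span hli3 i)
      rw [Module.Basis.constr_basis, LinearMap.comp_apply, Submodule.subtype_apply,
        Module.Basis.span_apply] at h1
      exact h1
    have hφw' : φ w' = 1 := hval 0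
    have hφu : φ u = 0 := hval 1
    have hφw : φ w = 1 := hval 2
    obtain ⟨v₀, hv₀⟩ := O5_dual Q hQ φ
    refine O5_star Q hQ hdim u w w' (v₀ - Q v₀ • w) ?_ hw hw' ?_ huw huw' ?_ ?_
    · have h1 := O5_Qadd Q v₀ (-(Q v₀ • w))
      rw [← sub_eq_add_neg] at h1
      rw [h1, QuadraticMap.map_neg, QuadraticMap.map_smul, hw, QuadraticMap.polar_neg_right,
        QuadraticMap.polar_smul_right, hv₀, hφw]
      simp
    · rw [QuadraticMap.polar_sub_right, QuadraticMap.polar_smul_right, huw,
        QuadraticMap.polar_comm, hv₀, hφu]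
      simp
    · rw [QuadraticMap.polar_sub_right, QuadraticMap.polar_smul_right, hww,
        QuadraticMap.polar_comm, hv₀, hφw]
      simp
    · rw [QuadraticMap.polar_sub_right, QuadraticMap.polar_smul_right,
        QuadraticMap.polar_comm Q w' w, hb, QuadraticMap.polar_comm, hv₀, hφw']
      simp

/-- Proof. By `Om_trans1` we may assume `u = u'` (apply the element mapping `u` to `u'` to `w`;
elements of the group preserve `Q`). (*) If `v` is singular, `v ⊥ u`, `b(w,v) = 1 = b(w',v)`, then the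
Siegel map of `v` and `y = w' - w` fixes `u` and maps `w` to `w'`. Existence of `v`:
(a) `β = b(w,w') ≠ 0`: choose `u₀` with `b(u,u₀) = 1`, `b(w,u₀) = b(w',u₀) = 0` (`u, w, w'` are
independent) and `z ⊥ u, u₀, w, w'` with `Q z = - β⁻¹` (`Om_univ` for `U = ⟨u, u₀, w, w'⟩`, which is
nondegenerate of dimension 4); `v = β⁻¹ (w + w') + z`. (b) `b(w,w') = 0` and `u, w, w'` independent:
choose `v₀` with `b(u,v₀) = 0`, `b(w,v₀) = b(w',v₀) = 1` and put `v = v₀ - Q(v₀) w`.
(c) `w' = λ w + μ u`: `λ ≠ 0`; choose `w''` singular with `b(u,w'') = 0`, `b(w,w'') = 1` (`Om_hyp`), then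
`TS u w''` and `b(w',w'') = λ ≠ 0`; go `w → w'' → w'` by (a). -/
theorem Om_trans (Q : QuadraticForm k V)
    (hQ : ∀ x, (∀ y, QuadraticMap.polar Q x y = 0) → x = 0) (hdim : 7 ≤ Module.finrank k V)
    (u w u' w' : V) (h : TS Q u w) (h' : TS Q u' w') :
    ∃ g ∈ ⁅OGrp Q, OGrp Q⁆, g u = u' ∧ g w = w' := by
  have hle : ⁅OGrp Q, OGrp Q⁆ ≤ OGrp Q := by
    rw [Subgroup.commutator_le]
    intro a ha b hb
    exact mul_mem (mul_mem (mul_mem ha hb) (inv_mem ha)) (inv_mem hb)
  have hu0 : u ≠ 0 := h.1.ne_zero 0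
  have hu'0 : u' ≠ 0 := h'.1.ne_zero 0
  obtain ⟨g, hg, hgu⟩ := Om_trans1 Q hQ hdim u' u hu'0 hu0 h'.2.1 h.2.1
  have hgO : ∀ x, Q (g x) = Q x := hle hg
  have hgp : ∀ x y, QuadraticMap.polar Q (g x) (g y) = QuadraticMap.polar Q x y := by
    intro x y
    simp only [QuadraticMap.polar, ← map_add, hgO]
  have hTS : TS Q u (g w') := by
    refine ⟨?_, h.2.1, ?_, ?_⟩
    · have h1 := h'.1.map' (g : V →ₗ[k] V) (LinearMap.ker_eq_bot.2 g.injective)
      have h2 : (⇑(g : V →ₗ[k] V) ∘ ![u', w']) = ![u, g w'] := by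
        funext i
        fin_cases i
        · exact hgu
        · rfl
      rw [h2] at h1
      exact h1
    · rw [hgO, h'.2.2.1]
    · rw [← hgu, hgp, h'.2.2.2]
  obtain ⟨f, hf, hfu, hfw⟩ := O5_fix Q hQ hdim u w (g w') h hTS
  refine ⟨g⁻¹ * f, Subgroup.mul_mem _ (Subgroup.inv_mem _ hg) hf, ?_, ?_⟩
  · rw [LinearEquiv.mul_apply, hfu, ← hgu, ← LinearEquiv.mul_apply, inv_mul_cancel]
    rfl
  · rw [LinearEquiv.mul_apply, hfw, ← LinearEquiv.mul_apply, inv_mul_cancel]
    rfl

end H49KE
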