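import Pool.Agent.H49.KE.Defs
import Pool.Agent.H49.KE.O1

namespace H49KE

open H49KA H49KB H49KC

universe u v w

variable {k : Type} [Field k] [Finite k] {V : Type} [AddCommGroup V] [Module k V]
  [FiniteDimensional k V]

/-- Proof. Choose `z'` singular with `polar Q z z' = 1` (`Om_hyp`, second part) and let `V₁` be the
set of vectors orthogonal to `z` and `z'`. Every `x` is
`polar(x,z') z + polar(x,z) z' + u` with `u ∈ V₁`; this gives the bijection. The polar form of the
restriction is nondegenerate since a vector of `V₁` orthogonal to `V₁` is orthogonal to `V`. -/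
theorem Om_split (Q : QuadraticForm k V)
    (hQ : ∀ x, (∀ y, QuadraticMap.polar Q x y = 0) → x = 0) (z : V) (hz : z ≠ 0)
    (hz' : Q z = 0) :
    ∃ (z' : V) (V₁ : Submodule k V) (e : (k × k × V₁) ≃ V), Q z' = 0 ∧
      QuadraticMap.polar Q z z' = 1 ∧ Module.finrank k V₁ + 2 = Module.finrank k V ∧
      (∀ x : V₁, (∀ y : V₁, QuadraticMap.polar (Q.comp V₁.subtype) x y = 0) → x = 0) ∧
      (∀ u, u ∈ V₁ ↔ QuadraticMap.polar Q z u = 0 ∧ QuadraticMap.polar Q z' u = 0) ∧
      (∀ t, e t = t.1 • z + t.2.1 • z' + (t.2.2 : V)) ∧
      (∀ t, Q (e t) = t.1 * t.2.1 + Q (t.2.2 : V)) ∧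
      (∀ t, QuadraticMap.polar Q z (e t) = t.2.1) := by
  obtain ⟨z', hz'0, hzz'⟩ := (Om_hyp Q hQ).2 z hz hz' 1
  have hzz : QuadraticMap.polar Q z z = 0 := by
    rw [QuadraticMap.polar_self, hz', smul_zero]
  have hz'z' : QuadraticMap.polar Q z' z' = 0 := by
    rw [QuadraticMap.polar_self, hz'0, smul_zero]
  have hz'z : QuadraticMap.polar Q z' z = 1 := by
    rw [QuadraticMap.polar_comm, hzz']
  let V₁ : Submodule k V := LinearMap.ker (Q.polarBilin z) ⊓ LinearMap.ker (Q.polarBilin z')
  have hV₁ : ∀ u, u ∈ V₁ ↔ QuadraticMap.polar Q z u = 0 ∧ QuadraticMap.polar Q z' u = 0 := by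
    intro u
    simp [V₁, Submodule.mem_inf, LinearMap.mem_ker, QuadraticMap.polarBilin_apply_apply]
  let f : (k × k × V₁) →ₗ[k] V :=
    { toFun := fun t => t.1 • z + t.2.1 • z' + (t.2.2 : V)
      map_add' := by
        intro x y
        simp only [Prod.fst_add, Prod.snd_add, Submodule.coe_add, add_smul]
        abel
      map_smul' := by
        intro c x
        simp only [Prod.smul_fst, Prod.smul_snd, Submodule.coe_smul, smul_eq_mul, mul_smul,
          smul_add, RingHom.id_apply] }
  have hf : ∀ t, f t = t.1 • z + t.2.1 • z' + (t.2.2 : V) := fun t => rfl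
  have hpz : ∀ t, QuadraticMap.polar Q z (f t) = t.2.1 := by
    intro t
    have h := ((hV₁ t.2.2).1 t.2.2.2).1
    rw [hf, QuadraticMap.polar_add_right, QuadraticMap.polar_add_right,
      QuadraticMap.polar_smul_right, QuadraticMap.polar_smul_right, hzz, hzz', h]
    simp
  have hpz' : ∀ t, QuadraticMap.polar Q z' (f t) = t.1 := by
    intro t
    have h := ((hV₁ t.2.2).1 t.2.2.2).2
    rw [hf, QuadraticMap.polar_add_right, QuadraticMap.polar_add_right,
      QuadraticMap.polar_smul_right, QuadraticMap.polar_smul_right, hz'z, hz'z', h]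
    simp
  have hinj : Function.Injective f := by
    rw [← LinearMap.ker_eq_bot, LinearMap.ker_eq_bot']
    intro t ht
    have h1 := hpz t
    have h2 := hpz' t
    rw [ht, QuadraticMap.polar_zero_right] at h1 h2
    rw [hf, ← h1, ← h2, zero_smul, zero_smul, zero_add, zero_add] at ht
    ext
    · exact h2.symm
    · exact h1.symm
    · exact ht
  have hsurj : Function.Surjective f := by
    intro x
    refine ⟨(QuadraticMap.polar Q z' x, QuadraticMap.polar Q z x,
      ⟨x - QuadraticMap.polar Q z' x • z - QuadraticMap.polar Q z x • z', ?_⟩), ?_⟩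
    · rw [hV₁]
      constructor
      · rw [QuadraticMap.polar_sub_right, QuadraticMap.polar_sub_right,
          QuadraticMap.polar_smul_right, QuadraticMap.polar_smul_right, hzz, hzz']
        simp
      · rw [QuadraticMap.polar_sub_right, QuadraticMap.polar_sub_right,
          QuadraticMap.polar_smul_right, QuadraticMap.polar_smul_right, hz'z, hz'z']
        simp
    · rw [hf]
      simp only
      abel
  let e : (k × k × V₁) ≃ₗ[k] V := LinearEquiv.ofBijective f ⟨hinj, hsurj⟩
  have he : ∀ t, e t = f t := fun t => rfl
  refine ⟨z', V₁, e.toEquiv, hz'0, hzz', ?_, ?_, hV₁, fun t => rfl, ?_, hpz⟩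
  · have h := e.finrank_eq
    rw [Module.finrank_prod, Module.finrank_prod, Module.finrank_self] at h
    omega
  · intro x hx
    have h0 : (x : V) = 0 := by
      apply hQ
      intro y
      obtain ⟨t, rfl⟩ := hsurj y
      have h1 := (hV₁ x).1 x.2
      have h2 : QuadraticMap.polar Q (x : V) (t.2.2 : V) = 0 := by
        have h3 := hx t.2.2
        simpa [QuadraticMap.polar, QuadraticMap.comp_apply] using h3
      rw [hf, QuadraticMap.polar_add_right, QuadraticMap.polar_add_right,
        QuadraticMap.polar_smul_right, QuadraticMap.polar_smul_right,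
        QuadraticMap.polar_comm Q (x : V) z, QuadraticMap.polar_comm Q (x : V) z', h1.1, h1.2, h2]
      simp
    exact Subtype.ext h0
  · intro t
    have h := (hV₁ t.2.2).1 t.2.2.2
    change Q (t.1 • z + t.2.1 • z' + (t.2.2 : V)) = _
    rw [QuadraticMap.map_add Q, QuadraticMap.map_add Q, QuadraticMap.map_smul, QuadraticMap.map_smul,
      hz', hz'0, QuadraticMap.polar_add_left, QuadraticMap.polar_smul_left,
      QuadraticMap.polar_smul_left, QuadraticMap.polar_smul_left, QuadraticMap.polar_smul_right,
      hzz', h.1, h.2]
    simp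

/-- induction over the dimension -/
private theorem sing_small_aux (n : ℕ) : ∀ (V : Type) [AddCommGroup V] [Module k V]
    [FiniteDimensional k V] (Q : QuadraticForm k V)
    (_ : ∀ x, (∀ y, QuadraticMap.polar Q x y = 0) → x = 0) (_ : Module.finrank k V = n)
    (_ : 1 ≤ n), Nat.card k * Nat.card {w : V // Q w = 0} ≤ 2 * Nat.card V := by
  classical
  have hfk := Fintype.ofFinite k
  have hq2 : 2 ≤ Nat.card k := by
    have := Finite.one_lt_card (α := k)
    omega
  induction n using Nat.strong_induction_on with
  | _ n ih =>
    intro V _ _ _ Q hQ hn h1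
    have hfV : Finite V := Module.finite_of_finite k
    have hcV : Nat.card V = Nat.card k ^ n := by
      rw [← hn]
      exact Module.natCard_eq_pow_finrank
    by_cases hex : ∃ z : V, z ≠ 0 ∧ Q z = 0
    · obtain ⟨z, hz, hz'⟩ := hex
      obtain ⟨z', V₁, e, -, -, hdim, hnd, -, he, heQ, -⟩ := Om_split Q hQ z hz hz'
      set q := Nat.card k with hq
      have hfV₁ : Finite V₁ := Module.finite_of_finite k
      have hcV₁ : Nat.card V₁ = q ^ (Module.finrank k V₁) := Module.natCard_eq_pow_finrank
      -- the number of singular vectors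
      let s₁ := Nat.card {u : V₁ // (Q.comp V₁.subtype) u = 0}
      have hs : Nat.card {w : V // Q w = 0} ≤ (q - 1) * Nat.card V₁ + q * s₁ := by
        have hcu : Nat.card kˣ = q - 1 := Nat.card_units k
        rw [← hcu, hq, ← Nat.card_prod, ← Nat.card_prod, ← Nat.card_sum]
        have hval : ∀ w : {w : V // Q w = 0},
            (e.symm w).1 * (e.symm w).2.1 + Q ((e.symm w).2.2 : V) = 0 := by
          intro w
          rw [← heQ, Equiv.apply_symm_apply]
          exact w.2
        let g : {w : V // Q w = 0} → (kˣ × V₁) ⊕ (k × {u : V₁ // (Q.comp V₁.subtype) u = 0}) :=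
          fun w => if h : (e.symm w).2.1 = 0 then
            Sum.inr ((e.symm w).1, ⟨(e.symm w).2.2, by
              have h2 := hval w
              rw [h, mul_zero, zero_add] at h2
              exact h2⟩)
            else Sum.inl (Units.mk0 _ h, (e.symm w).2.2)
        apply Nat.card_le_card_of_injective g
        intro w w' hww
        have key : e.symm (w : V) = e.symm (w' : V) := by
          by_cases h : (e.symm (w : V)).2.1 = 0
          · by_cases h' : (e.symm (w' : V)).2.1 = 0
            · simp only [g, dif_pos h, dif_pos h', Sum.inr.injEq, Prod.mk.injEq,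
                Subtype.mk.injEq] at hww
              exact Prod.ext hww.1 (Prod.ext (h.trans h'.symm) hww.2)
            · simp only [g, dif_pos h, dif_neg h'] at hww
              exact absurd hww (by simp)
          · by_cases h' : (e.symm (w' : V)).2.1 = 0
            · simp only [g, dif_neg h, dif_pos h'] at hww
              exact absurd hww (by simp)
            · simp only [g, dif_neg h, dif_neg h', Sum.inl.injEq, Prod.mk.injEq] at hww
              have h2 : (e.symm (w : V)).2.1 = (e.symm (w' : V)).2.1 := by
                have := congrArg Units.val hww.1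
                simpa using this
              have e1 := hval w
              have e2 := hval w'
              rw [← h2, ← hww.2] at e2
              have h3 : (e.symm (w : V)).1 = (e.symm (w' : V)).1 := by
                apply mul_right_cancel₀ h
                exact add_right_cancel (e1.trans e2.symm)
              exact Prod.ext h3 (Prod.ext h2 hww.2)
        exact Subtype.ext (e.symm.injective key)
      have hcV' : Nat.card V = q ^ 2 * Nat.card V₁ := by
        rw [hcV, hcV₁, ← pow_add]
        congr 1
        omega
      rw [hcV']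
      rcases Nat.eq_zero_or_pos (Module.finrank k V₁) with h0 | h0
      · have hone : Nat.card V₁ = 1 := by
          rw [hcV₁, h0, pow_zero]
        have hs1 : s₁ ≤ 1 := by
          rw [← hone]
          exact Nat.card_le_card_of_injective _ Subtype.val_injective
        rw [hone] at hs ⊢
        have h2 : Nat.card {w : V // Q w = 0} ≤ (q - 1) + q := by
          calc _ ≤ (q - 1) * 1 + q * s₁ := hs
            _ ≤ (q - 1) * 1 + q * 1 := by gcongr
            _ = _ := by ring
        have h3 : (q - 1) + q ≤ 2 * q := by omega
        calc q * Nat.card {w : V // Q w = 0} ≤ q * (2 * q) := by gcongr; exact h2.trans h3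
          _ = 2 * (q ^ 2 * 1) := by ring
      · have hI := ih (Module.finrank k V₁) (by omega) V₁ (Q.comp V₁.subtype) hnd rfl h0
        have h2 : Nat.card {w : V // Q w = 0} ≤ (q - 1) * Nat.card V₁ + 2 * Nat.card V₁ :=
          hs.trans (Nat.add_le_add_left hI _)
        have h3 : (q - 1) * Nat.card V₁ + 2 * Nat.card V₁ ≤ 2 * q * Nat.card V₁ := by
          rw [← add_mul]
          gcongr
          omega
        calc q * Nat.card {w : V // Q w = 0} ≤ q * (2 * q * Nat.card V₁) := by
              gcongr
              exact h2.trans h3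
          _ = 2 * (q ^ 2 * Nat.card V₁) := by ring
    · push Not at hex
      have hs : Nat.card {w : V // Q w = 0} ≤ 1 := by
        have : Subsingleton {w : V // Q w = 0} := by
          refine ⟨fun a b => Subtype.ext ?_⟩
          have ha : (a : V) = 0 := by
            by_contra h
            exact hex a h a.2
          have hb : (b : V) = 0 := by
            by_contra h
            exact hex b h b.2
          rw [ha, hb]
        exact Finite.card_le_one_iff_subsingleton.2 this
      have h2 : Nat.card k ≤ Nat.card V := by
        rw [hcV]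
        exact Nat.le_self_pow (by omega) _
      calc Nat.card k * Nat.card {w : V // Q w = 0} ≤ Nat.card k * 1 := by gcongr
        _ ≤ 2 * Nat.card V := by omega

/-- Proof. Induction on `n = finrank V` (for all `V`). If there is a nonzero singular vector `z`,
use `Om_split`: with `q = |k|` and `s₁` the number of singular vectors of `V₁`, the number of
singular vectors is `s = q s₁ + (q - 1) |V₁|` (`b ≠ 0`: `a` is determined; `b = 0`: `Q u = 0`). If
`finrank V₁ ≥ 1` then `q s₁ ≤ 2 |V₁|` by induction and `s ≤ (q + 1) |V₁|`,
`q s ≤ q (q + 1) |V₁| ≤ 2 q² |V₁| = 2 |V|`. If `V₁ = 0` then `s = 2 q - 1`, `|V| = q²`. If `0` is the only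
singular vector then `s = 1` and `q ≤ |V|`. -/
theorem sing_small (Q : QuadraticForm k V)
    (hQ : ∀ x, (∀ y, QuadraticMap.polar Q x y = 0) → x = 0) (hdim : 1 ≤ Module.finrank k V) :
    Nat.card k * Nat.card {w : V // Q w = 0} ≤ 2 * Nat.card V :=
  sing_small_aux _ V Q hQ rfl hdim

end H49KE
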