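import Pool.Agent.H49.KE.Defs
import Pool.Agent.H49.KE.O6

namespace H49KE

open H49KA H49KB H49KC

universe u v w

variable {k : Type} [Field k] [Finite k] {V : Type} [AddCommGroup V] [Module k V]
  [FiniteDimensional k V]

/-- Proof. Use `Om_split` and `sing_small` for `V₁` (`finrank V₁ ≥ 1`): with `q = |k|` and `s₁` the
number of singular vectors of `V₁`, the left count is `q s₁` (`b = 0`), `q s₁ ≤ 2 |V₁|`, and the
right count is at least `(q - 1) |V₁|` (`b ≠ 0`, `a` determined). So `q (q s₁) ≤ 2 q |V₁| ≤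
4 (q - 1) |V₁|`. -/
theorem Om_count (Q : QuadraticForm k V)
    (hQ : ∀ x, (∀ y, QuadraticMap.polar Q x y = 0) → x = 0) (hdim : 3 ≤ Module.finrank k V)
    (z : V) (hz : z ≠ 0) (hz' : Q z = 0) :
    Nat.card k * Nat.card {w : V // Q w = 0 ∧ QuadraticMap.polar Q z w = 0} ≤
      4 * Nat.card {w : V // Q w = 0} := by
  haveI : Finite V := Module.finite_of_finite k
  obtain ⟨z', V₁, e, hz1, hz2, hd, hnd, hmem, he, heQ, heP⟩ := Om_split Q hQ z hz hz'
  have hs := sing_small (Q.comp V₁.subtype) hnd (by omega)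
  have hL : Nat.card {w : V // Q w = 0 ∧ QuadraticMap.polar Q z w = 0} =
      Nat.card k * Nat.card {w : V₁ // (Q.comp V₁.subtype) w = 0} := by
    rw [← Nat.card_prod]
    refine (Nat.card_eq_of_bijective (fun p : k × {w : V₁ // (Q.comp V₁.subtype) w = 0} =>
      (⟨e (p.1, 0, p.2.1), ?_, ?_⟩ : {w : V // Q w = 0 ∧ QuadraticMap.polar Q z w = 0})) ⟨?_, ?_⟩).symm
    · rw [heQ]
      have := p.2.2
      simpa using this
    · rw [heP]
    · rintro ⟨a, w, hw⟩ ⟨a', w', hw'⟩ hp
      have h1 : e (a, 0, w) = e (a', 0, w') := congrArg Subtype.val hp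
      have h2 := e.injective h1
      simp only [Prod.mk.injEq, true_and] at h2
      obtain ⟨rfl, rfl⟩ := h2
      rfl
    · rintro ⟨w, hw1, hw2⟩
      obtain ⟨⟨a, b, w₁⟩, rfl⟩ := e.surjective w
      rw [heP] at hw2
      simp only at hw2
      subst hw2
      rw [heQ] at hw1
      refine ⟨⟨a, w₁, ?_⟩, rfl⟩
      simpa using hw1
  have hR : (Nat.card k - 1) * Nat.card V₁ ≤ Nat.card {w : V // Q w = 0} := by
    have h1 : Nat.card {b : k // b ≠ 0} = Nat.card k - 1 := by
      haveI := Fintype.ofFinite k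
      classical
      rw [Nat.card_eq_fintype_card, Nat.card_eq_fintype_card, Fintype.card_subtype_compl,
        Fintype.card_subtype_eq]
    rw [← h1, ← Nat.card_prod]
    refine Nat.card_le_card_of_injective (fun p : {b : k // b ≠ 0} × V₁ =>
      (⟨e (-Q (p.2 : V) / p.1.1, p.1.1, p.2), ?_⟩ : {w : V // Q w = 0})) ?_
    · rw [heQ]
      have := p.1.2
      field_simp
      ring
    · rintro ⟨⟨b, hb⟩, w⟩ ⟨⟨b', hb'⟩, w'⟩ hp
      have h3 := e.injective (congrArg Subtype.val hp)
      simp only [Prod.mk.injEq] at h3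
      obtain ⟨-, rfl, rfl⟩ := h3
      rfl
  have hq : 2 ≤ Nat.card k := Finite.one_lt_card
  rw [hL]
  calc Nat.card k * (Nat.card k * Nat.card {w : V₁ // (Q.comp V₁.subtype) w = 0})
      ≤ Nat.card k * (2 * Nat.card V₁) := Nat.mul_le_mul_left _ hs
    _ = 2 * Nat.card k * Nat.card V₁ := by ring
    _ ≤ (4 * (Nat.card k - 1)) * Nat.card V₁ := Nat.mul_le_mul_right _ (by omega)
    _ = 4 * ((Nat.card k - 1) * Nat.card V₁) := by ring
    _ ≤ _ := Nat.mul_le_mul_left _ hR

/-- Proof. Apply `Om_split` to `u`; let `u'` be the second vector. `z - polar(z,u') u` is in `V₁`,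
singular and not zero, and for `w ⊥ u` we may replace `z` by it. So with `w = a u + w₁` (`b = 0`), the
left count is `q` times the left count of `Om_count` in `V₁` (`finrank V₁ ≥ 3`), and the right
count is `q` times the number of singular vectors of `V₁`. -/
theorem Om_count2 (Q : QuadraticForm k V)
    (hQ : ∀ x, (∀ y, QuadraticMap.polar Q x y = 0) → x = 0) (hdim : 5 ≤ Module.finrank k V)
    (u z : V) (h : TS Q u z) :
    Nat.card k * Nat.card {w : V // Q w = 0 ∧ QuadraticMap.polar Q u w = 0 ∧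
        QuadraticMap.polar Q z w = 0} ≤
      4 * Nat.card {w : V // Q w = 0 ∧ QuadraticMap.polar Q u w = 0} := by
  haveI : Finite V := Module.finite_of_finite k
  obtain ⟨hli, hu, hz, huz⟩ := h
  have hu0 : u ≠ 0 := by
    have := hli.ne_zero 0
    simpa using this
  obtain ⟨u', V₁, e, hu1, hu2, hd, hnd, hmem, he, heQ, heP⟩ := Om_split Q hQ u hu0 hu
  have hpuu : QuadraticMap.polar Q u u = 0 := by
    rw [QuadraticMap.polar_self, hu, smul_zero]
  have hadd : ∀ x y y', QuadraticMap.polar Q x (y + y') = QuadraticMap.polar Q x y +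
      QuadraticMap.polar Q x y' := fun x y y' => QuadraticMap.polar_add_right Q x y y'
  have hsmul : ∀ (c : k) x y, QuadraticMap.polar Q x (c • y) = c * QuadraticMap.polar Q x y :=
    fun c x y => by rw [QuadraticMap.polar_smul_right, smul_eq_mul]
  have hcomm : ∀ x y, QuadraticMap.polar Q x y = QuadraticMap.polar Q y x :=
    fun x y => QuadraticMap.polar_comm Q x y
  set c : k := QuadraticMap.polar Q z u' with hc
  have hz1 : z + (-c) • u ∈ V₁ := by
    rw [hmem]
    constructor
    · rw [hadd, hsmul, huz, hpuu]; ring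
    · rw [hadd, hsmul, hcomm u' u, hu2, hcomm u' z, ← hc]; ring
  have hQz1 : Q (z + (-c) • u) = 0 := by
    have h1 : Q (z + (-c) • u) = Q z + Q ((-c) • u) + QuadraticMap.polar Q z ((-c) • u) := by
      simp only [QuadraticMap.polar]
      ring
    rw [h1, hsmul, hcomm z u, huz, QuadraticMap.map_smul, hu, hz]
    simp
  have hz10 : (⟨z + (-c) • u, hz1⟩ : V₁) ≠ 0 := by
    intro h0
    have h1 : z + (-c) • u = 0 := congrArg Subtype.val h0
    have h2 := LinearIndependent.pair_iff.1 hli (-c) 1 (by rw [one_smul, add_comm]; exact h1)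
    exact one_ne_zero h2.2
  have key := Om_count (Q.comp V₁.subtype) hnd (by omega) ⟨z + (-c) • u, hz1⟩ hz10 hQz1
  have hpz : ∀ (a : k) (w : V₁), QuadraticMap.polar Q z (a • u + (w : V)) =
      QuadraticMap.polar (Q.comp V₁.subtype) ⟨z + (-c) • u, hz1⟩ w := by
    intro a w
    have h0 : QuadraticMap.polar Q u (w : V) = 0 := ((hmem w).1 w.2).1
    have h1 : QuadraticMap.polar (Q.comp V₁.subtype) ⟨z + (-c) • u, hz1⟩ w =
        QuadraticMap.polar Q (z + (-c) • u) (w : V) := rfl
    rw [h1, hadd, hsmul, hcomm z u, huz, hcomm (z + (-c) • u) (w : V), hadd, hsmul,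
      hcomm (w : V) u, h0, hcomm z (w : V)]
    ring
  have hL : Nat.card {w : V // Q w = 0 ∧ QuadraticMap.polar Q u w = 0 ∧
        QuadraticMap.polar Q z w = 0} = Nat.card k * Nat.card {w : V₁ //
          (Q.comp V₁.subtype) w = 0 ∧
          QuadraticMap.polar (Q.comp V₁.subtype) ⟨z + (-c) • u, hz1⟩ w = 0} := by
    rw [← Nat.card_prod]
    refine (Nat.card_eq_of_bijective (fun p : k × {w : V₁ // (Q.comp V₁.subtype) w = 0 ∧
          QuadraticMap.polar (Q.comp V₁.subtype) ⟨z + (-c) • u, hz1⟩ w = 0} =>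
      (⟨e (p.1, 0, p.2.1), ?_, ?_, ?_⟩ : {w : V // Q w = 0 ∧ QuadraticMap.polar Q u w = 0 ∧
        QuadraticMap.polar Q z w = 0})) ⟨?_, ?_⟩).symm
    · rw [heQ]
      have := p.2.2.1
      simpa using this
    · rw [heP]
    · rw [he]
      have := p.2.2.2
      rw [← hpz p.1] at this
      simpa using this
    · rintro ⟨a, w, hw⟩ ⟨a', w', hw'⟩ hp
      have h1 : e (a, 0, w) = e (a', 0, w') := congrArg Subtype.val hp
      have h2 := e.injective h1
      simp only [Prod.mk.injEq, true_and] at h2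
      obtain ⟨rfl, rfl⟩ := h2
      rfl
    · rintro ⟨w, hw1, hw2, hw3⟩
      obtain ⟨⟨a, b, w₁⟩, rfl⟩ := e.surjective w
      rw [heP] at hw2
      simp only at hw2
      subst hw2
      rw [heQ] at hw1
      rw [he] at hw3
      refine ⟨⟨a, w₁, ?_, ?_⟩, rfl⟩
      · simpa using hw1
      · rw [← hpz a]
        simpa using hw3
  have hR : Nat.card {w : V // Q w = 0 ∧ QuadraticMap.polar Q u w = 0} =
      Nat.card k * Nat.card {w : V₁ // (Q.comp V₁.subtype) w = 0} := by
    rw [← Nat.card_prod]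
    refine (Nat.card_eq_of_bijective (fun p : k × {w : V₁ // (Q.comp V₁.subtype) w = 0} =>
      (⟨e (p.1, 0, p.2.1), ?_, ?_⟩ : {w : V // Q w = 0 ∧ QuadraticMap.polar Q u w = 0})) ⟨?_, ?_⟩).symm
    · rw [heQ]
      have := p.2.2
      simpa using this
    · rw [heP]
    · rintro ⟨a, w, hw⟩ ⟨a', w', hw'⟩ hp
      have h1 : e (a, 0, w) = e (a', 0, w') := congrArg Subtype.val hp
      have h2 := e.injective h1
      simp only [Prod.mk.injEq, true_and] at h2
      obtain ⟨rfl, rfl⟩ := h2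
      rfl
    · rintro ⟨w, hw1, hw2⟩
      obtain ⟨⟨a, b, w₁⟩, rfl⟩ := e.surjective w
      rw [heP] at hw2
      simp only at hw2
      subst hw2
      rw [heQ] at hw1
      refine ⟨⟨a, w₁, ?_⟩, rfl⟩
      simpa using hw1
  rw [hL, hR]
  calc Nat.card k * (Nat.card k * _) ≤ Nat.card k * (4 * _) := Nat.mul_le_mul_left _ key
    _ = 4 * (Nat.card k * _) := by ring

end H49KE
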