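import Pool.Agent.H49.KE.Defs
import Pool.Agent.H49.KE.O5
import Pool.Agent.H49.KE.O7

namespace H49KE

open H49KA H49KB H49KC

universe u v w

variable {k : Type} [Field k] [Finite k] {V : Type} [AddCommGroup V] [Module k V]
  [FiniteDimensional k V]

omit [FiniteDimensional k V] [Finite k] in
private theorem o8_polar_self (Q : QuadraticForm k V) (u : V) (hu : Q u = 0) :
    QuadraticMap.polar Q u u = 0 := by
  rw [QuadraticMap.polar_self, hu]
  simp

omit [FiniteDimensional k V] [Finite k] in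
private theorem o8_comb (Q : QuadraticForm k V) (u w : V) (h : TS Q u w) (a b : k) :
    Q (a • u - b • w) = 0 := by
  obtain ⟨-, hu, hw, huw⟩ := h
  have h1 : Q (a • u - b • w) = Q (a • u + (-b) • w) := by
    rw [neg_smul, sub_eq_add_neg]
  rw [h1, QuadraticMap.map_add Q, QuadraticMap.map_smul, QuadraticMap.map_smul, hu, hw,
    QuadraticMap.polar_smul_left, QuadraticMap.polar_smul_right, huw]
  simp

omit [FiniteDimensional k V] in
private theorem o8_split (Q : QuadraticForm k V) [Finite V] (u : V) (hu : u ≠ 0)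
    (hu' : Q u = 0) (P : V → Prop) (hP : ∀ c : k, P (c • u)) :
    Nat.card {w : V // Q w = 0 ∧ QuadraticMap.polar Q u w = 0 ∧ P w} =
      Nat.card {w : V // TS Q u w ∧ P w} + Nat.card k := by
  classical
  rw [← Nat.card_sum]
  symm
  refine Nat.card_congr (Equiv.ofBijective (Sum.elim
    (fun w : {w : V // TS Q u w ∧ P w} =>
      (⟨w.1, w.2.1.2.2.1, w.2.1.2.2.2, w.2.2⟩ :
        {w : V // Q w = 0 ∧ QuadraticMap.polar Q u w = 0 ∧ P w}))
    (fun c : k => ⟨c • u, by rw [QuadraticMap.map_smul, hu']; simp, by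
      rw [QuadraticMap.polar_smul_right, o8_polar_self Q u hu']; simp, hP c⟩)) ⟨?_, ?_⟩)
  · rintro (⟨w, hw⟩ | c) (⟨w', hw'⟩ | c') h
    · simp only [Sum.elim_inl, Subtype.mk.injEq] at h
      subst h
      rfl
    · simp only [Sum.elim_inl, Sum.elim_inr, Subtype.mk.injEq] at h
      exact absurd h.symm ((LinearIndependent.pair_iff' hu).1 hw.1.1 c')
    · simp only [Sum.elim_inl, Sum.elim_inr, Subtype.mk.injEq] at h
      exact absurd h ((LinearIndependent.pair_iff' hu).1 hw'.1.1 c)
    · simp only [Sum.elim_inr, Subtype.mk.injEq] at h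
      rw [smul_left_injective k hu h]
  · rintro ⟨w, hw⟩
    by_cases hh : ∃ c : k, c • u = w
    · obtain ⟨c, rfl⟩ := hh
      exact ⟨Sum.inr c, rfl⟩
    · push Not at hh
      exact ⟨Sum.inl ⟨w, ⟨(LinearIndependent.pair_iff' hu).2 hh, hu', hw.1, hw.2.1⟩, hw.2.2⟩, rfl⟩

omit [FiniteDimensional k V] [Finite k] in
private theorem o8_pairs (Q : QuadraticForm k V) [Finite V] (P : V → V → Prop)
    [Fintype {u : V // u ≠ 0 ∧ Q u = 0}] :
    Nat.card {p : V × V // TS Q p.1 p.2 ∧ P p.1 p.2} =
      ∑ u : {u : V // u ≠ 0 ∧ Q u = 0}, Nat.card {w : V // TS Q u.1 w ∧ P u.1 w} := by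
  rw [← Nat.card_sigma]
  refine Nat.card_congr ⟨fun p => ⟨⟨p.1.1, ?_, p.2.1.2.1⟩, ⟨p.1.2, p.2⟩⟩,
    fun s => ⟨(s.1.1, s.2.1), s.2.2⟩, fun p => rfl, fun s => rfl⟩
  exact p.2.1.1.ne_zero 0

private theorem o8_const (Q : QuadraticForm k V)
    (hQ : ∀ x, (∀ y, QuadraticMap.polar Q x y = 0) → x = 0) (hdim : 7 ≤ Module.finrank k V)
    (u u' : V) (h : u ≠ 0) (h' : u' ≠ 0) (hu : Q u = 0) (hu' : Q u' = 0) :
    Nat.card {w : V // TS Q u w} = Nat.card {w : V // TS Q u' w} := by
  obtain ⟨g, hg, hgu⟩ := Om_trans1 Q hQ hdim u u' h h' hu hu'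
  have hle : ⁅OGrp Q, OGrp Q⁆ ≤ OGrp Q := by
    refine Subgroup.commutator_le.2 fun a ha b hb => ?_
    rw [commutatorElement_def]
    exact (OGrp Q).mul_mem ((OGrp Q).mul_mem ((OGrp Q).mul_mem ha hb) ((OGrp Q).inv_mem ha))
      ((OGrp Q).inv_mem hb)
  have hg' : ∀ x, Q (g x) = Q x := hle hg
  have hgp : ∀ x y, QuadraticMap.polar Q (g x) (g y) = QuadraticMap.polar Q x y := by
    intro x y
    simp only [QuadraticMap.polar, ← map_add, hg']
  refine Nat.card_congr (g.toEquiv.subtypeEquiv fun w => ?_)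
  subst hgu
  have h1 : (g.toEquiv w) = g w := rfl
  rw [h1]
  constructor
  · rintro ⟨h2, h3, h4, h5⟩
    refine ⟨?_, by rw [hg', h3], by rw [hg', h4], by rw [hgp, h5]⟩
    rw [LinearIndependent.pair_iff' h']
    rw [LinearIndependent.pair_iff' h] at h2
    intro a ha
    refine h2 a ?_
    rw [← map_smul] at ha
    exact g.injective ha
  · rintro ⟨h2, h3, h4, h5⟩
    refine ⟨?_, by rw [← hg', h3], by rw [← hg', h4], by rw [← hgp, h5]⟩
    rw [LinearIndependent.pair_iff' h]
    rw [LinearIndependent.pair_iff' h'] at h2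
    intro a ha
    refine h2 a ?_
    rw [← map_smul, ha]

omit [Finite k] [FiniteDimensional k V] in
/-- the number of nonzero singular vectors -/
private theorem o8_sing (Q : QuadraticForm k V) [Finite V] (P : V → Prop) (hP : P 0) :
    Nat.card {w : V // Q w = 0 ∧ P w} = Nat.card {w : V // (w ≠ 0 ∧ Q w = 0) ∧ P w} + 1 := by
  classical
  have h1 : Nat.card Unit = 1 := by simp
  rw [← h1, ← Nat.card_sum]
  symm
  refine Nat.card_congr (Equiv.ofBijective (Sum.elim
    (fun w : {w : V // (w ≠ 0 ∧ Q w = 0) ∧ P w} =>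
      (⟨w.1, w.2.1.2, w.2.2⟩ : {w : V // Q w = 0 ∧ P w}))
    (fun _ => ⟨0, by simp, hP⟩)) ⟨?_, ?_⟩)
  · rintro (⟨w, hw⟩ | c) (⟨w', hw'⟩ | c') h
    · simp only [Sum.elim_inl, Subtype.mk.injEq] at h
      subst h
      rfl
    · simp only [Sum.elim_inl, Sum.elim_inr, Subtype.mk.injEq] at h
      exact absurd h hw.1.1
    · simp only [Sum.elim_inl, Sum.elim_inr, Subtype.mk.injEq] at h
      exact absurd h.symm hw'.1.1
    · rfl
  · rintro ⟨w, hw⟩
    by_cases hh : w = 0
    · exact ⟨Sum.inr (), Subtype.ext hh.symm⟩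
    · exact ⟨Sum.inl ⟨w, ⟨hh, hw.1⟩, hw.2⟩, rfl⟩

/-- the bad vectors for one vector that is not orthogonal to both `u` and `w` -/
private theorem o8_bad (Q : QuadraticForm k V) [Finite V]
    (hQ : ∀ x, (∀ y, QuadraticMap.polar Q x y = 0) → x = 0) (hdim : 7 ≤ Module.finrank k V)
    (u w : V) (h : TS Q u w) (u' : V) (hu : u' ≠ 0) (hu' : Q u' = 0)
    (hn : ¬ (QuadraticMap.polar Q u u' = 0 ∧ QuadraticMap.polar Q w u' = 0))
    (h4 : 4 ≤ Nat.card k) :
    Nat.card k * Nat.card {w' : V // TS Q u' w' ∧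
      QuadraticMap.polar Q u u' * QuadraticMap.polar Q w w' -
      QuadraticMap.polar Q u w' * QuadraticMap.polar Q w u' = 0} ≤
      4 * Nat.card {w' : V // TS Q u' w'} := by
  obtain ⟨hli, hQu, hQw, huw⟩ := id h
  set α := QuadraticMap.polar Q w u' with hα
  set β := QuadraticMap.polar Q u u' with hβ
  set z := α • u - β • w with hz
  have hzw : ∀ y, QuadraticMap.polar Q z y =
      α * QuadraticMap.polar Q u y - β * QuadraticMap.polar Q w y := by
    intro y
    rw [hz, QuadraticMap.polar_sub_left, QuadraticMap.polar_smul_left,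
      QuadraticMap.polar_smul_left, smul_eq_mul, smul_eq_mul]
  have hQz : Q z = 0 := o8_comb Q u w h α β
  have hzu' : QuadraticMap.polar Q z u' = 0 := by
    rw [hzw, ← hα, ← hβ]
    ring
  have hz0 : z ≠ 0 := by
    intro h0
    rw [LinearIndependent.pair_iff] at hli
    have h1 := hli α (-β) (by rw [neg_smul, ← sub_eq_add_neg]; exact h0)
    exact hn ⟨neg_eq_zero.1 h1.2, h1.1⟩
  have hTS : TS Q u' z := by
    refine ⟨?_, hu', hQz, by rw [QuadraticMap.polar_comm]; exact hzu'⟩
    rw [LinearIndependent.pair_iff' hu]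
    intro a ha
    have ha0 : a ≠ 0 := by
      rintro rfl
      rw [zero_smul] at ha
      exact hz0 ha.symm
    have h1 : u' = a⁻¹ • z := by
      rw [← ha, smul_smul, inv_mul_cancel₀ ha0, one_smul]
    apply hn
    have e1 : QuadraticMap.polar Q u z = 0 := by
      rw [QuadraticMap.polar_comm, hzw, o8_polar_self Q u hQu, QuadraticMap.polar_comm Q w u, huw]
      ring
    have e2 : QuadraticMap.polar Q w z = 0 := by
      rw [QuadraticMap.polar_comm, hzw, o8_polar_self Q w hQw, huw]
      ring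
    rw [hβ, hα, h1, QuadraticMap.polar_smul_right, QuadraticMap.polar_smul_right, e1, e2]
    simp
  have h2 := Om_count2 Q hQ (by omega) u' z hTS
  have h3 := o8_split Q u' hu hu' (fun y => QuadraticMap.polar Q z y = 0) (by
    intro c
    rw [QuadraticMap.polar_smul_right, hzu']
    simp)
  have h5 := o8_split Q u' hu hu' (fun _ => True) (fun _ => trivial)
  simp only [and_true] at h5
  rw [h3, h5] at h2
  have h6 : Nat.card {w' : V // TS Q u' w' ∧ β * QuadraticMap.polar Q w w' -
      QuadraticMap.polar Q u w' * α = 0} =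
      Nat.card {w' : V // TS Q u' w' ∧ QuadraticMap.polar Q z w' = 0} := by
    refine Nat.card_congr (Equiv.subtypeEquivRight fun y => ?_)
    rw [hzw]
    constructor
    · rintro ⟨g1, g2⟩
      refine ⟨g1, ?_⟩
      linear_combination -g2
    · rintro ⟨g1, g2⟩
      refine ⟨g1, ?_⟩
      linear_combination -g2
  rw [h6]
  nlinarith [h2, h4, Nat.mul_le_mul_right (Nat.card k) h4]

/-- Proof. Write `b` for the polar form, `q = |k|`; for `q ≤ 16` the claim is trivial. Let `q > 16`,
let `S` be the number of singular vectors, `S' = S - 1`, and for a nonzero singular `u'` let `N` be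
the number of `w'` with `TS u' w'`; it does not depend on `u'` (`Om_trans1`; elements of the group
preserve `Q`). The number of all pairs is `S' N`, and the number of singular `w' ⊥ u'` is `N + q`
(the multiples of `u'` are the only ones not counted in `N`). Let `z = b(w,u') u - b(u,u') w`; then
`b(z,u') = 0` and the determinant in question is `- b(z,w')`. Count the pairs with `b(z,w') = 0`:
(a) `z = 0`, that is `u' ⊥ u` and `u' ⊥ w`: by `Om_count` the number of nonzero singular `u' ⊥ u` is at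
most `4 S / q - 1 ≤ 4 S' / q`, so at most `(4 S' / q) N` pairs. (b) `z ≠ 0`: then `z` is not a multiple
of `u'`, since the multiples `u'` of `z` are orthogonal to `u` and `w`. So `TS u' z`, and by
`Om_count2` the number of singular `w' ⊥ u', z` is at most `4 (N + q) / q`; the
`q` multiples of `u'` are among them, so at most `4 (N + q) / q - q ≤ 4 N / q` of them form a pair:
at most `S' (4 N / q)` pairs. Together `q * (number of bad pairs) ≤ 8 S' N`. -/
theorem Om_rand1 (Q : QuadraticForm k V)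
    (hQ : ∀ x, (∀ y, QuadraticMap.polar Q x y = 0) → x = 0) (hdim : 7 ≤ Module.finrank k V)
    (u w : V) (h : TS Q u w) :
    Nat.card k * Nat.card {p : V × V // TS Q p.1 p.2 ∧
      QuadraticMap.polar Q u p.1 * QuadraticMap.polar Q w p.2 -
      QuadraticMap.polar Q u p.2 * QuadraticMap.polar Q w p.1 = 0} ≤
      16 * Nat.card {p : V × V // TS Q p.1 p.2} := by
  classical
  have : Finite V := Module.finite_of_finite k
  have : Fintype {u : V // u ≠ 0 ∧ Q u = 0} := Fintype.ofFinite _
  rcases le_or_gt (Nat.card k) 16 with hq | hq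
  · refine Nat.mul_le_mul hq ?_
    exact Nat.card_le_card_of_injective
      (fun p : {p : V × V // TS Q p.1 p.2 ∧
        QuadraticMap.polar Q u p.1 * QuadraticMap.polar Q w p.2 -
        QuadraticMap.polar Q u p.2 * QuadraticMap.polar Q w p.1 = 0} =>
        (⟨p.1, p.2.1⟩ : {p : V × V // TS Q p.1 p.2}))
      (fun p p' hp => Subtype.ext (Subtype.mk.injEq _ _ _ _ ▸ hp))
  have hu0 : u ≠ 0 := h.1.ne_zero 0
  set N := Nat.card {w' : V // TS Q u w'} with hN
  set q := Nat.card k with hqd
  set T := {u : V // u ≠ 0 ∧ Q u = 0} with hT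
  have hNc : ∀ u' : T, Nat.card {w' : V // TS Q u'.1 w'} = N := fun u' =>
    o8_const Q hQ hdim u'.1 u u'.2.1 hu0 u'.2.2 h.2.1
  have hall : Nat.card {p : V × V // TS Q p.1 p.2} = Fintype.card T * N := by
    have h1 := o8_pairs Q (fun _ _ => True)
    simp only [and_true] at h1
    rw [h1, Finset.sum_congr rfl (fun u' _ => hNc u'), Finset.sum_const, smul_eq_mul]
    rfl
  have hbad := o8_pairs Q (fun x y => QuadraticMap.polar Q u x * QuadraticMap.polar Q w y -
      QuadraticMap.polar Q u y * QuadraticMap.polar Q w x = 0)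
  rw [hbad, hall, Finset.mul_sum]
  -- the vectors orthogonal to `u`
  have hcnt := Om_count Q hQ (by omega) u hu0 h.2.1
  rw [o8_sing Q (fun y => QuadraticMap.polar Q u y = 0) (by simp)] at hcnt
  have hS := o8_sing Q (fun _ => True) trivial
  simp only [and_true] at hS
  rw [hS] at hcnt
  set a := (Finset.univ.filter fun u' : T => QuadraticMap.polar Q u u'.1 = 0).card with ha
  have ha' : Nat.card {w : V // (w ≠ 0 ∧ Q w = 0) ∧ QuadraticMap.polar Q u w = 0} = a := by
    rw [ha, ← Fintype.card_subtype, ← Nat.card_eq_fintype_card]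
    exact Nat.card_congr
      (Equiv.subtypeSubtypeEquivSubtypeInter (fun w : V => w ≠ 0 ∧ Q w = 0)
        (fun w => QuadraticMap.polar Q u w = 0)).symm
  have hT' : Nat.card {w : V // w ≠ 0 ∧ Q w = 0} = Fintype.card T := by
    rw [Nat.card_eq_fintype_card]
  rw [ha', hT'] at hcnt
  have hle : ∀ u' : T, q * Nat.card {w' : V // TS Q u'.1 w' ∧
      QuadraticMap.polar Q u u'.1 * QuadraticMap.polar Q w w' -
      QuadraticMap.polar Q u w' * QuadraticMap.polar Q w u'.1 = 0} ≤
      4 * N + if QuadraticMap.polar Q u u'.1 = 0 then q * N else 0 := by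
    intro u'
    split_ifs with hc
    · refine le_trans (Nat.mul_le_mul_left q ?_) (Nat.le_add_left _ _)
      rw [← hNc u']
      exact Nat.card_le_card_of_injective
        (fun p : {w' : V // TS Q u'.1 w' ∧
          QuadraticMap.polar Q u u'.1 * QuadraticMap.polar Q w w' -
          QuadraticMap.polar Q u w' * QuadraticMap.polar Q w u'.1 = 0} =>
          (⟨p.1, p.2.1⟩ : {w' : V // TS Q u'.1 w'}))
        (fun p p' hp => Subtype.ext (Subtype.mk.injEq _ _ _ _ ▸ hp))
    · rw [add_zero, ← hNc u']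
      exact o8_bad Q hQ hdim u w h u'.1 u'.2.1 u'.2.2 (fun hh => hc hh.1) (by omega)
  refine le_trans (Finset.sum_le_sum fun u' _ => hle u') ?_
  rw [Finset.sum_add_distrib, Finset.sum_const, ← Finset.sum_filter, Finset.sum_const, ← ha,
    smul_eq_mul, smul_eq_mul, Finset.card_univ]
  have h7 : q * a ≤ 4 * Fintype.card T := by
    have h8 : q * (a + 1) ≤ 4 * (Fintype.card T + 1) := hcnt
    nlinarith [h8, hq]
  have h9 : a * (q * N) ≤ 4 * Fintype.card T * N := by
    calc a * (q * N) = (q * a) * N := by ring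
      _ ≤ 4 * Fintype.card T * N := Nat.mul_le_mul_right N h7
  nlinarith [h9]

end H49KE
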