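import Pool.Agent.H49.KE.Defs
import Pool.Agent.H49.KE.E1
import Pool.Agent.H49.KE.O5
import Pool.Agent.H49.KE.O8

namespace H49KE

open H49KA H49KB H49KC

universe u v w

variable {k : Type} [Field k] [Finite k] {V : Type} [AddCommGroup V] [Module k V]
  [FiniteDimensional k V]

/-- Proof. `Γ` acts on `V × V` and the orbit of `(u, w)` is the set of all totally singular pairs
(`Om_trans`; elements of `Γ` preserve `Q`). Apply `orbit_count` with `Om_rand1`. -/
theorem Om_rand (Q : QuadraticForm k V)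
    (hQ : ∀ x, (∀ y, QuadraticMap.polar Q x y = 0) → x = 0) (hdim : 7 ≤ Module.finrank k V)
    (Γ : Subgroup (V ≃ₗ[k] V)) (hΓ : Γ = ⁅OGrp Q, OGrp Q⁆) (u w : V) (h : TS Q u w) :
    Nat.card k * Nat.card {g : Γ //
      QuadraticMap.polar Q u ((g : V ≃ₗ[k] V) u) * QuadraticMap.polar Q w ((g : V ≃ₗ[k] V) w) -
      QuadraticMap.polar Q u ((g : V ≃ₗ[k] V) w) * QuadraticMap.polar Q w ((g : V ≃ₗ[k] V) u)
        = 0} ≤ 16 * Nat.card Γ := by
  haveI : Finite V := Module.finite_of_finite k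
  haveI : Finite (V ≃ₗ[k] V) :=
    Finite.of_injective (fun g : V ≃ₗ[k] V => (g : V → V)) DFunLike.coe_injective
  have hS : ∀ y : V × V, y ∈ {p : V × V | TS Q p.1 p.2} ↔ ∃ g : Γ, g • ((u, w) : V × V) = y := by
    rintro ⟨y1, y2⟩
    constructor
    · intro hy
      obtain ⟨g, hg, h1, h2⟩ := Om_trans Q hQ hdim u w y1 y2 h hy
      refine ⟨⟨g, by rw [hΓ]; exact hg⟩, ?_⟩
      exact Prod.ext h1 h2
    · rintro ⟨g, hg⟩
      have h1 := ((sgg_basic Q hQ hdim Γ hΓ u w h).2.2.2.1 g).1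
      have h2 : (g : V ≃ₗ[k] V) u = y1 := congrArg Prod.fst hg
      have h3 : (g : V ≃ₗ[k] V) w = y2 := congrArg Prod.snd hg
      rw [h2, h3] at h1
      exact h1
  exact orbit_count (H := Γ) ((u, w) : V × V) {p : V × V | TS Q p.1 p.2} hS
    (fun p => QuadraticMap.polar Q u p.1 * QuadraticMap.polar Q w p.2 -
      QuadraticMap.polar Q u p.2 * QuadraticMap.polar Q w p.1 = 0) (Nat.card k) 16
    (Om_rand1 Q hQ hdim u w h)

end H49KE
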