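import Pool.Agent.H49.KE.Defs
import Pool.Agent.H49.KE.O1
import Pool.Agent.H49.KE.O2
import Pool.Agent.H49.KE.O3
import Pool.Agent.H49.KE.O9
import Pool.Agent.H49.KE.O11
import Pool.Agent.H49.KE.O12

namespace H49KE

open H49KA H49KB H49KC

universe u v w

variable {k : Type} [Field k] [Finite k] {V : Type} [AddCommGroup V] [Module k V]
  [FiniteDimensional k V]

/-- Proof. `ne`: a nonzero singular vector exists by `Om_univ` (`U = ⊥`, `a = 0`); `TS_exists`.
`card`, `conj`: `sgg_basic`. `nt`: the element with parameter `1` fixes `u`, so if it is scalar it is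
the identity, against `sgg_basic` (3) (or choose `y` with `polar y u = 1`, `polar y w = 0`). `rand`: if
`Opp k A A_g` fails, the determinant of `Om_opp` for `(u, w, g u, g w)` vanishes; `Om_rand`. `fix`:
`Om_fix`. `pairs`: `Om_pairs`. -/
theorem rootGrp_Om (Q : QuadraticForm k V)
    (hQ : ∀ x, (∀ y, QuadraticMap.polar Q x y = 0) → x = 0) (hdim : 7 ≤ Module.finrank k V)
    (Γ : Subgroup (V ≃ₗ[k] V)) (hΓ : Γ = ⁅OGrp Q, OGrp Q⁆) :
    RootGrp 16 k ((Scal k V).subgroupOf Γ) (SgOm Γ Q) := by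
  have : Finite V := Module.finite_of_finite k
  have : Finite (V ≃ₗ[k] V) :=
    Finite.of_injective (fun e : V ≃ₗ[k] V => (e : V → V)) DFunLike.coe_injective
  refine ⟨?_, ?_, ?_, ?_, ?_, ?_, ?_⟩
  · obtain ⟨z, hz, -, hz'⟩ := Om_univ Q hQ ⊥ (by rw [finrank_bot]; omega)
      (fun x hx _ => (Submodule.mem_bot k).1 hx) 0
    obtain ⟨w, hw⟩ := TS_exists Q hQ (by omega) z hz hz'
    exact ⟨_, z, w, hw, rfl⟩
  · rintro A ⟨u, w, h, rfl⟩
    exact (sgg_basic Q hQ hdim Γ hΓ u w h).2.2.1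
  · rintro A ⟨u, w, h, rfl⟩
    obtain ⟨h1, h2, -, -, -⟩ := sgg_basic Q hQ hdim Γ hΓ u w h
    obtain ⟨x, hx⟩ := h2 1
    refine ⟨x, (h1 x).2 ⟨1, hx⟩, ?_⟩
    rintro ⟨c, hc⟩
    obtain ⟨hli, hu, hw, huw⟩ := h
    have hind := LinearIndependent.pair_iff.1 hli
    have hu0 : u ≠ 0 := by
      intro h0
      have := (hind 1 0 (by rw [h0]; simp)).1
      exact one_ne_zero this
    have hc' : ∀ y, (x : V ≃ₗ[k] V) y = c • y := hc
    have hc1 : c = 1 := by
      have h3 := hx u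
      rw [hc' u, QuadraticMap.polar_self, hu, huw] at h3
      have h4 : (c - 1) • u = 0 := by
        rw [sub_smul, h3]
        simp
      rcases smul_eq_zero.1 h4 with h5 | h5
      · exact sub_eq_zero.1 h5
      · exact absurd h5 hu0
    apply hu0
    apply hQ
    intro y
    have h3 := hx y
    rw [hc' y, hc1, one_smul, one_mul, one_mul] at h3
    have h4 : (-QuadraticMap.polar Q y w) • u + QuadraticMap.polar Q y u • w = 0 := by
      have h5 : y + 0 = y + ((QuadraticMap.polar Q y u) • w - (QuadraticMap.polar Q y w) • u) := by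
        rw [add_zero, ← add_sub_assoc]
        exact h3
      have h6 := add_left_cancel h5
      rw [neg_smul, neg_add_eq_sub]
      exact h6.symm
    have h5 := (hind _ _ h4).2
    rw [QuadraticMap.polar_comm]
    exact h5
  · rintro A ⟨u, w, h, rfl⟩ g
    obtain ⟨h1, h2⟩ := (sgg_basic Q hQ hdim Γ hΓ u w h).2.2.2.1 g
    exact ⟨_, _, h1, h2⟩
  · rintro A ⟨u, w, h, rfl⟩
    refine le_trans (Nat.mul_le_mul_left _ ?_) (Om_rand Q hQ hdim Γ hΓ u w h)
    refine Nat.card_le_card_of_injective (fun g : {g : Γ // ¬ Opp k (sgg Γ Q u w)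
      ((sgg Γ Q u w).map (MulAut.conj g).toMonoidHom)} => (⟨g.1, ?_⟩ : {g : Γ //
      QuadraticMap.polar Q u ((g : V ≃ₗ[k] V) u) * QuadraticMap.polar Q w ((g : V ≃ₗ[k] V) w) -
      QuadraticMap.polar Q u ((g : V ≃ₗ[k] V) w) * QuadraticMap.polar Q w ((g : V ≃ₗ[k] V) u)
        = 0})) ?_
    · by_contra hd
      apply g.2
      obtain ⟨h1, h2⟩ := (sgg_basic Q hQ hdim Γ hΓ u w h).2.2.2.1 g.1
      rw [h2]
      exact Om_opp Q hQ hdim Γ hΓ u w _ _ h h1 hd
    · intro g g' hgg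
      exact Subtype.ext (congrArg (fun x => x.1) hgg)
  · intro x hx
    exact Om_fix Q hQ hdim Γ hΓ x hx
  · intro A hA B hB hAB
    exact Om_pairs Q hQ hdim Γ hΓ A B hA hB hAB

end H49KE
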