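import Pool.Agent.H49.KE.Defs

namespace H49KE

open H49KA H49KB H49KC

universe u v w

variable {F : Type} [Field F] [Finite F]

private theorem mul_ent (x y : Matrix.SpecialLinearGroup (Fin 2) F) (i j : Fin 2) :
    (x * y).1 i j = x.1 i 0 * y.1 0 j + x.1 i 1 * y.1 1 j := by
  rw [← Fin.sum_univ_two (f := fun k => x.1 i k * y.1 k j)]
  rfl

private theorem up_ent (t : F) : (up t).1 0 0 = 1 ∧ (up t).1 0 1 = t ∧ (up t).1 1 0 = 0 ∧
    (up t).1 1 1 = 1 := ⟨rfl, rfl, rfl, rfl⟩

private theorem lo_ent (t : F) : (lo t).1 0 0 = 1 ∧ (lo t).1 0 1 = 0 ∧ (lo t).1 1 0 = t ∧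
    (lo t).1 1 1 = 1 := ⟨rfl, rfl, rfl, rfl⟩

private theorem up_inv (t : F) : (up t)⁻¹ = up (-t) := by
  apply inv_eq_of_mul_eq_one_right
  obtain ⟨a1, a2, a3, a4⟩ := up_ent t
  obtain ⟨b1, b2, b3, b4⟩ := up_ent (-t)
  apply Subtype.ext
  ext i j
  fin_cases i <;> fin_cases j
  · show (up t * up (-t)).1 0 0 = 1
    rw [mul_ent, a1, a2, b1, b3]; ring
  · show (up t * up (-t)).1 0 1 = 0
    rw [mul_ent, a1, a2, b2, b4]; ring
  · show (up t * up (-t)).1 1 0 = 0
    rw [mul_ent, a3, a4, b1, b3]; ring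
  · show (up t * up (-t)).1 1 1 = 1
    rw [mul_ent, a3, a4, b2, b4]; ring

private theorem lo_inv (t : F) : (lo t)⁻¹ = lo (-t) := by
  apply inv_eq_of_mul_eq_one_right
  obtain ⟨a1, a2, a3, a4⟩ := lo_ent t
  obtain ⟨b1, b2, b3, b4⟩ := lo_ent (-t)
  apply Subtype.ext
  ext i j
  fin_cases i <;> fin_cases j
  · show (lo t * lo (-t)).1 0 0 = 1
    rw [mul_ent, a1, a2, b1, b3]; ring
  · show (lo t * lo (-t)).1 0 1 = 0
    rw [mul_ent, a1, a2, b2, b4]; ring
  · show (lo t * lo (-t)).1 1 0 = 0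
    rw [mul_ent, a3, a4, b1, b3]; ring
  · show (lo t * lo (-t)).1 1 1 = 1
    rw [mul_ent, a3, a4, b2, b4]; ring

private theorem nc_of_ll (m : Matrix.SpecialLinearGroup (Fin 2) F) (h : m.1 1 0 ≠ 0) :
    ∃ g : Matrix.SpecialLinearGroup (Fin 2) F, g * m ≠ m * g := by
  refine ⟨up 1, fun he => h ?_⟩
  have h1 := congrArg (fun x : Matrix.SpecialLinearGroup (Fin 2) F => x.1 0 0) he
  simp only [Matrix.SpecialLinearGroup.coe_mul, Matrix.mul_apply, Fin.sum_univ_two] at h1
  have u1 : (up (1 : F)).1 0 0 = 1 := rfl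
  have u2 : (up (1 : F)).1 0 1 = 1 := rfl
  have u3 : (up (1 : F)).1 1 0 = 0 := rfl
  rw [u1, u2, u3] at h1
  linear_combination h1

private theorem comm_form (m g : Matrix.SpecialLinearGroup (Fin 2) F)
    (hm : ∃ h, h * m ≠ m * h) (hg : g * m = m * g) :
    ∃ x y : F, g.1 0 0 = x + y * m.1 0 0 ∧ g.1 0 1 = y * m.1 0 1 ∧ g.1 1 0 = y * m.1 1 0 ∧
      g.1 1 1 = x + y * m.1 1 1 := by
  have e00 := congrArg (fun x : Matrix.SpecialLinearGroup (Fin 2) F => x.1 0 0) hg
  have e01 := congrArg (fun x : Matrix.SpecialLinearGroup (Fin 2) F => x.1 0 1) hg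
  have e10 := congrArg (fun x : Matrix.SpecialLinearGroup (Fin 2) F => x.1 1 0) hg
  simp only [Matrix.SpecialLinearGroup.coe_mul, Matrix.mul_apply, Fin.sum_univ_two] at e00 e01 e10
  by_cases hb : m.1 0 1 = 0
  · by_cases hc : m.1 1 0 = 0
    · by_cases hd : m.1 0 0 = m.1 1 1
      · exfalso
        obtain ⟨h, hh⟩ := hm
        apply hh
        ext i j
        simp only [Matrix.SpecialLinearGroup.coe_mul, Matrix.mul_apply, Fin.sum_univ_two]
        fin_cases i <;> fin_cases j <;> simp [hb, hc, hd, mul_comm]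
      · have hd' : m.1 0 0 - m.1 1 1 ≠ 0 := sub_ne_zero.mpr hd
        have hq : g.1 0 1 = 0 := by
          have : (m.1 0 0 - m.1 1 1) * g.1 0 1 = 0 := by
            rw [hb] at e01
            linear_combination -e01
          rcases mul_eq_zero.mp this with h | h
          · exact absurd h hd'
          · exact h
        have hr : g.1 1 0 = 0 := by
          have : (m.1 0 0 - m.1 1 1) * g.1 1 0 = 0 := by
            rw [hc] at e10
            linear_combination e10
          rcases mul_eq_zero.mp this with h | h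
          · exact absurd h hd'
          · exact h
        refine ⟨g.1 0 0 - (g.1 0 0 - g.1 1 1) / (m.1 0 0 - m.1 1 1) * m.1 0 0,
          (g.1 0 0 - g.1 1 1) / (m.1 0 0 - m.1 1 1), by ring, ?_, ?_, ?_⟩
        · rw [hq, hb, mul_zero]
        · rw [hr, hc, mul_zero]
        · field_simp
          ring
    · refine ⟨g.1 0 0 - g.1 1 0 / m.1 1 0 * m.1 0 0, g.1 1 0 / m.1 1 0, by ring, ?_, ?_, ?_⟩
      · field_simp
        linear_combination e00
      · field_simp
      · field_simp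
        linear_combination e10
  · refine ⟨g.1 0 0 - g.1 0 1 / m.1 0 1 * m.1 0 0, g.1 0 1 / m.1 0 1, by ring, ?_, ?_, ?_⟩
    · field_simp
    · field_simp
      linear_combination -e00
    · field_simp
      linear_combination -e01

/-- Proof. `m = (a b; c d)` is not scalar. If `g = (p q; r s)` commutes with `m` then comparing
entries `b r = c q`, `(a - d) q = b (p - s)`, `(a - d) r = c (p - s)`, and since one of
`b, c, a - d` is not zero there are `x, y` with `g = x + y m`. The determinant of `x + y m` is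
`x ^ 2 + x y (a + d) + y ^ 2`; so for every `y` at most two `x` are possible: the map
`g ↦ y` has fibres with at most two elements. -/
theorem sl2_cent (m : Matrix.SpecialLinearGroup (Fin 2) F) (hm : ∃ g, g * m ≠ m * g) :
    Nat.card {g : Matrix.SpecialLinearGroup (Fin 2) F // g * m = m * g} ≤ 2 * Nat.card F := by
  classical
  have : Fintype F := Fintype.ofFinite F
  have : Finite {g : Matrix.SpecialLinearGroup (Fin 2) F // g * m = m * g} := by
    infer_instance
  have : Fintype {g : Matrix.SpecialLinearGroup (Fin 2) F // g * m = m * g} :=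
    Fintype.ofFinite _
  choose X Y h00 h01 h10 h11 using
    fun g : {g : Matrix.SpecialLinearGroup (Fin 2) F // g * m = m * g} =>
      comm_form m g.1 hm g.2
  have hdet : m.1 0 0 * m.1 1 1 - m.1 0 1 * m.1 1 0 = 1 := by
    rw [← Matrix.det_fin_two]
    exact m.2
  have hq : ∀ g, X g * X g + X g * Y g * (m.1 0 0 + m.1 1 1) + Y g * Y g = 1 := by
    intro g
    have h1 : g.1.1 0 0 * g.1.1 1 1 - g.1.1 0 1 * g.1.1 1 0 = 1 := by
      rw [← Matrix.det_fin_two]
      exact g.1.2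
    rw [h00, h01, h10, h11] at h1
    linear_combination h1 - Y g * Y g * hdet
  have hXY : ∀ g h, X g = X h → Y g = Y h → g = h := by
    intro g h h1 h2
    apply Subtype.ext
    ext i j
    fin_cases i <;> fin_cases j
    · show g.1.1 0 0 = h.1.1 0 0
      rw [h00, h00, h1, h2]
    · show g.1.1 0 1 = h.1.1 0 1
      rw [h01, h01, h2]
    · show g.1.1 1 0 = h.1.1 1 0
      rw [h10, h10, h2]
    · show g.1.1 1 1 = h.1.1 1 1
      rw [h11, h11, h1, h2]
  rw [Nat.card_eq_fintype_card, Nat.card_eq_fintype_card]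
  have h2 := Finset.card_le_mul_card_image (f := Y)
    (Finset.univ : Finset {g : Matrix.SpecialLinearGroup (Fin 2) F // g * m = m * g}) 2 ?_
  · refine le_trans (le_trans (le_of_eq Finset.card_univ.symm) h2) ?_
    exact Nat.mul_le_mul_left 2 (Finset.card_le_univ _)
  · intro y _
    by_contra hlt
    obtain ⟨g₁, g₂, g₃, m1, m2, m3, n12, n13, n23⟩ := Finset.two_lt_card_iff.mp (not_le.mp hlt)
    have y1 : Y g₁ = y := (Finset.mem_filter.mp m1).2
    have y2 : Y g₂ = y := (Finset.mem_filter.mp m2).2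
    have y3 : Y g₃ = y := (Finset.mem_filter.mp m3).2
    have q1 := hq g₁
    have q2 := hq g₂
    have q3 := hq g₃
    rw [y1] at q1
    rw [y2] at q2
    rw [y3] at q3
    have d12 : X g₁ - X g₂ ≠ 0 := fun h => n12 (hXY _ _ (sub_eq_zero.mp h) (y1.trans y2.symm))
    have d13 : X g₁ - X g₃ ≠ 0 := fun h => n13 (hXY _ _ (sub_eq_zero.mp h) (y1.trans y3.symm))
    have d23 : X g₂ - X g₃ ≠ 0 := fun h => n23 (hXY _ _ (sub_eq_zero.mp h) (y2.trans y3.symm))
    have z12 : X g₁ + X g₂ + y * (m.1 0 0 + m.1 1 1) = 0 := by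
      have : (X g₁ - X g₂) * (X g₁ + X g₂ + y * (m.1 0 0 + m.1 1 1)) = 0 := by
        linear_combination q1 - q2
      exact (mul_eq_zero.mp this).resolve_left d12
    have z13 : X g₁ + X g₃ + y * (m.1 0 0 + m.1 1 1) = 0 := by
      have : (X g₁ - X g₃) * (X g₁ + X g₃ + y * (m.1 0 0 + m.1 1 1)) = 0 := by
        linear_combination q1 - q3
      exact (mul_eq_zero.mp this).resolve_left d13
    exact d23 (by linear_combination z12 - z13)

/-- Proof. (1) `up s` does not commute with `lo 1`. (2) `up s * lo t` has lower left entry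
`t ≠ 0` and (3) the third element has lower left entry `- s * t ^ 2 ≠ 0`; a matrix with lower
left entry `c ≠ 0` does not commute with `up 1` (compare the upper left entries). -/
theorem sl2_noncentral (s t : F) (hs : s ≠ 0) (ht : t ≠ 0) :
    (∃ g : Matrix.SpecialLinearGroup (Fin 2) F, g * up s ≠ up s * g) ∧
    (∃ g : Matrix.SpecialLinearGroup (Fin 2) F, g * (up s * lo t) ≠ (up s * lo t) * g) ∧
    (∃ g : Matrix.SpecialLinearGroup (Fin 2) F,
      g * ((up s)⁻¹ * lo t * up s * (lo t)⁻¹) ≠ ((up s)⁻¹ * lo t * up s * (lo t)⁻¹) * g) := by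
  have hll : (up s * lo t : Matrix.SpecialLinearGroup (Fin 2) F).1 1 0 = t := by
    obtain ⟨a1, a2, a3, a4⟩ := up_ent s
    obtain ⟨b1, b2, b3, b4⟩ := lo_ent t
    rw [mul_ent, a3, a4, b1, b3]; ring
  have hl3 : ((up s)⁻¹ * lo t * up s * (lo t)⁻¹ :
      Matrix.SpecialLinearGroup (Fin 2) F).1 1 0 = - s * t ^ 2 := by
    obtain ⟨a1, a2, a3, a4⟩ := up_ent s
    obtain ⟨b1, b2, b3, b4⟩ := lo_ent t
    obtain ⟨c1, c2, c3, c4⟩ := up_ent (-s)
    obtain ⟨d1, d2, d3, d4⟩ := lo_ent (-t)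
    rw [up_inv, lo_inv]
    simp only [mul_ent, a1, a2, a3, a4, b1, b2, b3, b4, c1, c2, c3, c4, d1, d2, d3, d4]
    ring
  refine ⟨⟨lo 1, fun he => hs ?_⟩, nc_of_ll _ (by rw [hll]; exact ht),
    nc_of_ll _ (by rw [hl3]; exact mul_ne_zero (neg_ne_zero.mpr hs) (pow_ne_zero 2 ht))⟩
  have h1 := congrArg (fun x : Matrix.SpecialLinearGroup (Fin 2) F => x.1 0 0) he
  simp only [Matrix.SpecialLinearGroup.coe_mul, Matrix.mul_apply, Fin.sum_univ_two] at h1
  have u1 : (up s).1 0 0 = 1 := rfl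
  have u2 : (up s).1 0 1 = s := rfl
  have u3 : (up s).1 1 0 = 0 := rfl
  have l1 : (lo (1 : F)).1 0 0 = 1 := rfl
  have l2 : (lo (1 : F)).1 0 1 = 0 := rfl
  have l3 : (lo (1 : F)).1 1 0 = 1 := rfl
  rw [u1, u2, u3, l1, l2, l3] at h1
  linear_combination -h1

end H49KE
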