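import Pool.Agent.H49.KE.Defs
import Pool.Agent.H49.KE.G1

namespace H49KE

open H49KA H49KB H49KC

universe u v w

variable {F : Type} [Field F] [Finite F]

/-- a common eigenvector of the upper unitriangular matrices for an additive character -/
private theorem sl2_deg_eig {E : Type v} [AddCommGroup E] [Module ℂ E]
    (ρ : Matrix.SpecialLinearGroup (Fin 2) F →* Module.End ℂ E) (hρ : ∃ g, ρ g ≠ 1) :
    ∃ (ψ : AddChar F ℂ) (v : E), ψ ≠ 1 ∧ v ≠ 0 ∧ ∀ t : F, ρ (up t) v = ψ t • v := by
  classical
  have := Fintype.ofFinite F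
  obtain ⟨hgen, hup, hlo, ⟨w, hw⟩, -⟩ := sl2_gen (F := F)
  have h00 : (up (0 : F) : Matrix.SpecialLinearGroup (Fin 2) F) = 1 := by
    have h := hup 0 0
    rw [add_zero] at h
    exact mul_eq_left.1 h
  by_contra hcon
  push Not at hcon
  -- the projections
  let P : AddChar F ℂ → E → E := fun ψ v => ∑ t : F, ψ (-t) • ρ (up t) v
  have hP : ∀ ψ v s, ρ (up s) (P ψ v) = ψ s • P ψ v := by
    intro ψ v s
    simp only [P, map_sum, map_smul, Finset.smul_sum]
    rw [← Equiv.sum_comp (Equiv.addLeft s) (fun t => ψ s • ψ (-t) • ρ (up t) v)]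
    refine Finset.sum_congr rfl fun t _ => ?_
    rw [Equiv.coe_addLeft, ← Module.End.mul_apply, ← map_mul, hup, smul_smul, neg_add,
      AddChar.map_add_eq_mul, ← mul_assoc, ← AddChar.map_add_eq_mul, add_neg_cancel,
      AddChar.map_zero_eq_one, one_mul]
  have hP0 : ∀ ψ : AddChar F ℂ, ψ ≠ 1 → ∀ v, P ψ v = 0 := by
    intro ψ hψ v
    by_contra hne
    obtain ⟨t, ht⟩ := hcon ψ (P ψ v) hψ hne
    exact ht (hP ψ v t)
  have hsum : ∀ v, ∑ ψ : AddChar F ℂ, P ψ v = (Fintype.card F : ℂ) • v := by
    intro v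
    simp only [P]
    rw [Finset.sum_comm]
    simp_rw [← Finset.sum_smul]
    rw [Finset.sum_eq_single (0 : F)]
    · rw [h00, map_one, Module.End.one_apply]
      congr 1
      rw [AddChar.sum_apply_eq_ite]
      simp
    · intro t _ ht
      rw [AddChar.sum_apply_eq_ite]
      simp [ht]
    · intro h
      exact absurd (Finset.mem_univ _) h
  have hcard : (Fintype.card F : ℂ) ≠ 0 := by
    exact_mod_cast Fintype.card_ne_zero
  have hfix : ∀ (t : F) (v : E), ρ (up t) v = v := by
    intro t v
    have h1 := hsum v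
    rw [Finset.sum_eq_single (1 : AddChar F ℂ) (fun ψ _ hψ => hP0 ψ hψ v)
      (fun h => absurd (Finset.mem_univ _) h)] at h1
    have h2 := hP 1 v t
    rw [h1] at h2
    rw [map_smul, AddChar.one_apply, one_smul] at h2
    exact smul_right_injective E hcard h2
  have hup1 : ∀ t : F, ρ (up t) = 1 := fun t => LinearMap.ext (hfix t)
  have hlo1 : ∀ t : F, ρ (lo t) = 1 := by
    intro t
    have h := hw (-t)
    rw [neg_neg] at h
    rw [← h, map_mul, map_mul, hup1, mul_one, ← map_mul, mul_inv_cancel, map_one]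
  obtain ⟨g, hg⟩ := hρ
  apply hg
  have hle : (⊤ : Subgroup (Matrix.SpecialLinearGroup (Fin 2) F)) ≤ ρ.ker := by
    rw [← hgen, Subgroup.closure_le]
    rintro _ (⟨t, rfl⟩ | ⟨t, rfl⟩)
    · exact MonoidHom.mem_ker.2 (hup1 t)
    · exact MonoidHom.mem_ker.2 (hlo1 t)
  exact MonoidHom.mem_ker.1 (hle (Subgroup.mem_top g))

/-- Proof. `ρ (up t) ≠ 1` for some `t` (otherwise also `ρ (lo t) = 1` by the fourth part of
`sl2_gen`, and `ρ` is trivial by the first). The operators `ρ (up t)` commute and have finite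
order, so they are simultaneously diagonalisable: there are a nonzero `v` and `ψ : F → ℂ` with
`ρ (up t) v = ψ t • v` and `ψ` not constant `1`; `ψ` turns sums into products. (One way: the
joint eigenspaces span `E`, `Module.End.iSup_iInf_maxGenEigenspace_eq_top_of_forall_mapsTo` or
similar; or take the average `∑_t ψ(t)⁻¹ ρ (up t)` over the additive characters `ψ` of `F`, whose
sum over all `ψ` is `|F| • 1`.) For `s ≠ 0` let `h` be as in the fifth part of `sl2_gen`; then
`ρ h⁻¹ v` is an eigenvector for the function `t ↦ ψ (s ^ 2 * t)`. These functions are different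
for different `s ^ 2`: if `ψ (s² t) = ψ (s'² t)` for all `t` then `ψ ((s² - s'²) t) = 1` for all `t`, so
`s² = s'²`. The number of nonzero squares in `F` is at least `(|F| - 1) / 2` (each square has at
most two roots), and joint eigenvectors for different functions are linearly independent. -/
theorem sl2_deg {E : Type v} [AddCommGroup E] [Module ℂ E] [FiniteDimensional ℂ E]
    (ρ : Matrix.SpecialLinearGroup (Fin 2) F →* Module.End ℂ E) (hρ : ∃ g, ρ g ≠ 1) :
    Nat.card F ≤ 2 * Module.finrank ℂ E + 1 := by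
  classical
  have := Fintype.ofFinite F
  obtain ⟨ψ, v, hψ, hv, heig⟩ := sl2_deg_eig ρ hρ
  obtain ⟨hgen, hup, hlo, -, hsq⟩ := sl2_gen (F := F)
  let A : Finset F := ((Finset.univ : Finset F).erase 0).image fun s => s ^ 2
  have hA : ∀ a : A, ∃ u : E, u ≠ 0 ∧ ∀ t : F, ρ (up t) u = ψ (a * t) • u := by
    rintro ⟨a, ha⟩
    obtain ⟨s, hs, rfl⟩ := Finset.mem_image.1 ha
    obtain ⟨h, hh⟩ := hsq s (Finset.ne_of_mem_erase hs)
    refine ⟨ρ h⁻¹ v, fun h0 => hv ?_, fun t => ?_⟩
    · have h1 : ρ h (ρ h⁻¹ v) = v := by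
        rw [← Module.End.mul_apply, ← map_mul, mul_inv_cancel, map_one, Module.End.one_apply]
      rw [← h1, h0, map_zero]
    · have h2 : up t * h⁻¹ = h⁻¹ * up (s ^ 2 * t) := by
        rw [← hh t]
        group
      rw [← Module.End.mul_apply, ← map_mul, h2, map_mul, Module.End.mul_apply, heig, map_smul]
  choose u hu0 hu using hA
  have hdist : ∀ a b : A, a ≠ b → ∑ t : F, ψ (-(a * t)) * ψ (b * t) = 0 := by
    intro a b hab
    have hne : (b : F) - a ≠ 0 := fun h => hab (Subtype.ext (sub_eq_zero.1 h).symm)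
    have h1 : ∀ t : F, ψ (-(a * t)) * ψ (b * t) = (AddChar.mulShift ψ ((b : F) - a)) t := by
      intro t
      rw [← AddChar.map_add_eq_mul, AddChar.mulShift_apply]
      congr 1
      ring
    simp_rw [h1]
    apply AddChar.sum_eq_zero_of_ne_one
    intro h
    apply hψ
    ext t
    have h2 := DFunLike.congr_fun h (((b : F) - a)⁻¹ * t)
    rw [AddChar.mulShift_apply, mul_inv_cancel_left₀ hne, AddChar.one_apply] at h2
    rw [h2, AddChar.one_apply]
  have hself : ∀ a : A, ∑ t : F, ψ (-(a * t)) * ψ (a * t) = Fintype.card F := by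
    intro a
    have h1 : ∀ t : F, ψ (-(a * t)) * ψ (a * t) = 1 := by
      intro t
      rw [← AddChar.map_add_eq_mul, neg_add_cancel, AddChar.map_zero_eq_one]
    simp [h1]
  have hcard : (Fintype.card F : ℂ) ≠ 0 := by
    exact_mod_cast Fintype.card_ne_zero
  have hli : LinearIndependent ℂ u := by
    rw [Fintype.linearIndependent_iff]
    intro c hc a
    have h1 : ∑ t : F, ψ (-(a * t)) • ρ (up t) (∑ b, c b • u b) = 0 := by
      rw [hc]
      simp
    have h2 : ∑ t : F, ψ (-(a * t)) • ρ (up t) (∑ b, c b • u b) =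
        ∑ b, (c b * ∑ t : F, ψ (-(a * t)) * ψ (b * t)) • u b := by
      simp only [map_sum, map_smul, hu, Finset.smul_sum, Finset.mul_sum, Finset.sum_smul, smul_smul]
      rw [Finset.sum_comm]
      refine Finset.sum_congr rfl fun b _ => Finset.sum_congr rfl fun t _ => ?_
      congr 1
      ring
    rw [h2, Finset.sum_eq_single a] at h1
    · rw [hself] at h1
      rcases smul_eq_zero.1 h1 with h3 | h3
      · rcases mul_eq_zero.1 h3 with h4 | h4
        · exact h4
        · exact absurd h4 hcard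
      · exact absurd h3 (hu0 a)
    · intro b _ hb
      rw [hdist a b hb.symm, mul_zero, zero_smul]
    · intro h
      exact absurd (Finset.mem_univ _) h
  have h1 := hli.fintype_card_le_finrank
  rw [Fintype.card_coe] at h1
  have h2 : ((Finset.univ : Finset F).erase 0).card ≤ 2 * A.card := by
    apply Finset.card_le_mul_card_image
    intro b hb
    obtain ⟨s, hs, rfl⟩ := Finset.mem_image.1 hb
    refine (Finset.card_le_card (t := {s, -s}) ?_).trans Finset.card_le_two
    intro x hx
    have hx2 := (Finset.mem_filter.1 hx).2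
    rcases sq_eq_sq_iff_eq_or_eq_neg.1 hx2 with h | h
    · simp [h]
    · simp [h]
  rw [Finset.card_erase_of_mem (Finset.mem_univ _), Finset.card_univ] at h2
  rw [Nat.card_eq_fintype_card]
  omega


end H49KE
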