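import Pool.Agent.H49.KE.Defs

namespace H49KE

open H49KA H49KB H49KC

universe u v w

private theorem r1_inner {F : Type v} [NormedAddCommGroup F] [InnerProductSpace ℂ F]
    [FiniteDimensional ℂ F] (T T' : Module.End ℂ F)
    (h : ∀ v w : F, inner ℂ (T v) w = inner ℂ v (T' w)) :
    0 ≤ (LinearMap.trace ℂ F (T' * T)).re ∧ (LinearMap.trace ℂ F (T' * T)).im = 0 ∧
    LinearMap.trace ℂ F T' = (starRingEnd ℂ) (LinearMap.trace ℂ F T) ∧
    ‖LinearMap.trace ℂ F T‖ ^ 2 ≤
      Module.finrank ℂ F * (LinearMap.trace ℂ F (T' * T)).re := by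
  have b := stdOrthonormalBasis ℂ F
  have h1 : LinearMap.trace ℂ F (T' * T) = ((∑ i, ‖T (b i)‖ ^ 2 : ℝ) : ℂ) := by
    rw [LinearMap.trace_eq_sum_inner _ b, Complex.ofReal_sum]
    refine Finset.sum_congr rfl fun i _ => ?_
    rw [Module.End.mul_apply, ← h, inner_self_eq_norm_sq_to_K]
    simp
  have h2 : LinearMap.trace ℂ F T = ∑ i, inner ℂ (b i) (T (b i)) :=
    LinearMap.trace_eq_sum_inner _ b
  refine ⟨?_, ?_, ?_, ?_⟩
  · rw [h1, Complex.ofReal_re]
    exact Finset.sum_nonneg fun i _ => sq_nonneg _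
  · rw [h1, Complex.ofReal_im]
  · rw [LinearMap.trace_eq_sum_inner T' b, h2, map_sum]
    refine Finset.sum_congr rfl fun i _ => ?_
    rw [← h, inner_conj_symm]
  · rw [h1, Complex.ofReal_re, h2]
    have h3 : ‖∑ i, inner ℂ (b i) (T (b i))‖ ≤ ∑ i, ‖T (b i)‖ := by
      refine (norm_sum_le _ _).trans (Finset.sum_le_sum fun i _ => ?_)
      refine (norm_inner_le_norm _ _).trans ?_
      rw [b.norm_eq_one, one_mul]
    have h4 := sq_sum_le_card_mul_sum_sq (s := Finset.univ) (f := fun i => ‖T (b i)‖)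
    rw [Finset.card_univ, Fintype.card_fin] at h4
    exact (pow_le_pow_left₀ (norm_nonneg _) h3 2).trans h4

variable {S : Type u} [Group S] [Finite S] {E : Type v} [AddCommGroup E] [Module ℂ E]
  [FiniteDimensional ℂ E]

/-- Proof. By polarisation `hB'` makes `B` hermitian (`B w v = conj (B v w)`: expand
`B (v + c w) (v + c w)` for `c = 1` and `c = i`). So `B` is a positive definite hermitian form;
use `InnerProductSpace.Core` to make `E` an inner product space over `ℂ` (or choose an
orthonormal basis `e` by hand). Then `T'` is the adjoint of `T`, and with an orthonormal basis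
`trace T = ∑ ⟪e i, T (e i)⟫`. So `trace (T' * T) = ∑ ‖T (e i)‖ ^ 2` is real and nonnegative,
`trace T' = ∑ ⟪e i, T' (e i)⟫ = ∑ ⟪T (e i), e i⟫ = conj (trace T)`, and by Cauchy-Schwarz
`‖trace T‖ ≤ ∑ ‖T (e i)‖ ≤ sqrt n * sqrt (∑ ‖T (e i)‖ ^ 2)`. -/
theorem tr_psd (B : E →ₗ⋆[ℂ] E →ₗ[ℂ] ℂ) (hB : ∀ v, v ≠ 0 → 0 < (B v v).re)
    (hB' : ∀ v, (B v v).im = 0) (T T' : Module.End ℂ E) (hadj : ∀ v w, B (T v) w = B v (T' w)) :
    0 ≤ (LinearMap.trace ℂ E (T' * T)).re ∧ (LinearMap.trace ℂ E (T' * T)).im = 0 ∧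
    LinearMap.trace ℂ E T' = (starRingEnd ℂ) (LinearMap.trace ℂ E T) ∧
    ‖LinearMap.trace ℂ E T‖ ^ 2 ≤
      Module.finrank ℂ E * (LinearMap.trace ℂ E (T' * T)).re := by
  have hsym : ∀ v w, (starRingEnd ℂ) (B w v) = B v w := by
    intro v w
    have h1 := hB' (v + w)
    have h2 := hB' (v + Complex.I • w)
    have h3 := hB' v
    have h4 := hB' w
    simp only [map_add, LinearMap.add_apply, LinearMap.map_smulₛₗ, LinearMap.smul_apply,
      smul_eq_mul, Complex.add_im, Complex.add_re, Complex.mul_im, Complex.conj_I, Complex.neg_re, Complex.neg_im,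
      Complex.I_re, Complex.I_im, Complex.mul_re, RingHom.id_apply] at h1 h2
    apply Complex.ext
    · rw [Complex.conj_re]
      linarith
    · rw [Complex.conj_im]
      linarith
  let core : InnerProductSpace.Core ℂ E :=
    { inner := fun v w => B v w
      conj_inner_symm := fun v w => hsym v w
      re_inner_nonneg := fun v => by
        by_cases hv : v = 0
        · rw [hv]
          simp
        · exact (hB v hv).le
      add_left := fun x y z => by
        rw [map_add, LinearMap.add_apply]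
      smul_left := fun x y r => by
        rw [LinearMap.map_smulₛₗ, LinearMap.smul_apply, smul_eq_mul]
      definite := fun v hv => by
        by_contra hne
        have h1 := hB v hne
        have h2 : B v v = 0 := hv
        rw [h2, Complex.zero_re] at h1
        exact lt_irrefl _ h1 }
  let _ : NormedAddCommGroup E := core.toNormedAddCommGroup
  let _ : InnerProductSpace ℂ E := InnerProductSpace.ofCore core.toCore
  exact r1_inner T T' hadj

end H49KE
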