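import Pool.Agent.H49.KE.Defs

namespace H49KE

open H49KA H49KB H49KC

universe u v w

variable {S : Type u} [Group S] [Finite S] {E : Type v} [AddCommGroup E] [Module ℂ E]
  [FiniteDimensional ℂ E]

omit [FiniteDimensional ℂ E] in
private lemma mul_av' (ρ : S →* Module.End ℂ E) (A : Subgroup S) (b : S) (hb : b ∈ A) :
    ρ b * av ρ A = av ρ A := by
  classical
  have : Fintype A := Fintype.ofFinite A
  unfold av
  rw [finsum_eq_sum_of_fintype, mul_smul_comm, Finset.mul_sum]
  congr 1
  rw [← Equiv.sum_comp (Equiv.mulLeft (⟨b, hb⟩ : A)) (fun a : A => ρ (a : S))]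
  apply Finset.sum_congr rfl
  intro a _
  rw [← map_mul]
  rfl

omit [FiniteDimensional ℂ E] in
private lemma av_mul' (ρ : S →* Module.End ℂ E) (A : Subgroup S) (b : S) (hb : b ∈ A) :
    av ρ A * ρ b = av ρ A := by
  classical
  have : Fintype A := Fintype.ofFinite A
  unfold av
  rw [finsum_eq_sum_of_fintype, smul_mul_assoc, Finset.sum_mul]
  congr 1
  rw [← Equiv.sum_comp (Equiv.mulRight (⟨b, hb⟩ : A)) (fun a : A => ρ (a : S))]
  apply Finset.sum_congr rfl
  intro a _
  rw [← map_mul]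
  rfl

omit [FiniteDimensional ℂ E] in
private lemma card_ne' (A : Subgroup S) : (Nat.card A : ℂ) ≠ 0 := by
  have h : 0 < Nat.card A := Nat.card_pos
  exact_mod_cast h.ne'

omit [FiniteDimensional ℂ E] in
private lemma av_of_mem' (ρ : S →* Module.End ℂ E) (A : Subgroup S) (v : E) (hv : v ∈ Fx ρ A) :
    av ρ A v = v := by
  classical
  have : Fintype A := Fintype.ofFinite A
  unfold av
  rw [finsum_eq_sum_of_fintype, LinearMap.smul_apply, LinearMap.sum_apply]
  rw [Finset.sum_congr rfl (fun (a : A) _ => hv (a : S) a.2)]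
  rw [Finset.sum_const, Finset.card_univ, ← Nat.card_eq_fintype_card, ← Nat.cast_smul_eq_nsmul ℂ,
    smul_smul, inv_mul_cancel₀ (card_ne' A), one_smul]

/-- Proof. `av ρ A` is the average of the operators `ρ a`, `a ∈ A`. (1) If `v` is fixed then
`av ρ A v = v`. Conversely `ρ b * av ρ A = av ρ A` for `b ∈ A` (reindex), which gives (2) and
the other half of (1). (3) `av ρ A` is a projection onto `Fx ρ A`
(`LinearMap.IsProj.trace`). (4) reindex the sum by conjugation with `g`. (5), (6): if `A ≤ H`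
then `av ρ A * av ρ H = av ρ H = av ρ H * av ρ A`: reindex by multiplication with `a ∈ A`. -/
theorem av_basic (ρ : S →* Module.End ℂ E) (A : Subgroup S) :
    (∀ v, v ∈ Fx ρ A ↔ av ρ A v = v) ∧ (∀ v, av ρ A v ∈ Fx ρ A) ∧
    LinearMap.trace ℂ E (av ρ A) = Module.finrank ℂ (Fx ρ A) ∧
    (∀ g : S, av ρ (A.map (MulAut.conj g).toMonoidHom) = ρ g * av ρ A * ρ g⁻¹) ∧
    (∀ H : Subgroup S, A ≤ H → av ρ A * av ρ H = av ρ H ∧ av ρ H * av ρ A = av ρ H) := by
  classical
  have : Fintype A := Fintype.ofFinite A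
  have h2 : ∀ v, av ρ A v ∈ Fx ρ A := by
    intro v a ha
    have := congrArg (fun T : Module.End ℂ E => T v) (mul_av' ρ A a ha)
    simpa using this
  have h1 : ∀ v, v ∈ Fx ρ A → av ρ A v = v := fun v hv => av_of_mem' ρ A v hv
  refine ⟨fun v => ⟨h1 v, fun h => ?_⟩, h2, ?_, ?_, ?_⟩
  · rw [← h]
    exact h2 v
  · exact LinearMap.IsProj.trace ⟨h2, h1⟩
  · intro g
    have hinj : Function.Injective (MulAut.conj g).toMonoidHom := (MulAut.conj g).injective
    have e := A.equivMapOfInjective (MulAut.conj g).toMonoidHom hinj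
    have hcard : Nat.card (A.map (MulAut.conj g).toMonoidHom) = Nat.card A :=
      (Nat.card_congr e.toEquiv).symm
    unfold av
    rw [hcard, mul_smul_comm, smul_mul_assoc]
    congr 1
    rw [← finsum_comp_equiv (A.equivMapOfInjective (MulAut.conj g).toMonoidHom hinj).toEquiv,
      finsum_eq_sum_of_fintype, finsum_eq_sum_of_fintype, Finset.mul_sum, Finset.sum_mul]
    apply Finset.sum_congr rfl
    intro a _
    rw [← map_mul, ← map_mul]
    rfl
  · intro H hAH
    constructor
    · have hh : av ρ A * av ρ H = (Nat.card A : ℂ)⁻¹ • ∑ a : A, ρ (a : S) * av ρ H := by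
        conv_lhs => unfold av
        rw [finsum_eq_sum_of_fintype, smul_mul_assoc, Finset.sum_mul]
        rfl
      rw [hh, Finset.sum_congr rfl (fun (a : A) _ => mul_av' ρ H (a : S) (hAH a.2)), Finset.sum_const,
        Finset.card_univ, ← Nat.card_eq_fintype_card, ← Nat.cast_smul_eq_nsmul ℂ,
        smul_smul, inv_mul_cancel₀ (card_ne' A), one_smul]
    · have hh : av ρ H * av ρ A = (Nat.card A : ℂ)⁻¹ • ∑ a : A, av ρ H * ρ (a : S) := by
        conv_lhs => rw [show av ρ A = (Nat.card A : ℂ)⁻¹ • ∑ᶠ a : A, ρ (a : S) from rfl]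
        rw [finsum_eq_sum_of_fintype, mul_smul_comm, Finset.mul_sum]
      rw [hh, Finset.sum_congr rfl (fun (a : A) _ => av_mul' ρ H (a : S) (hAH a.2)), Finset.sum_const,
        Finset.card_univ, ← Nat.card_eq_fintype_card, ← Nat.cast_smul_eq_nsmul ℂ,
        smul_smul, inv_mul_cancel₀ (card_ne' A), one_smul]

end H49KE
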