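import Pool.Agent.H49.KE.Defs

namespace H49KE

open H49KA H49KB H49KC

universe u v w

variable {S : Type u} [Group S] [Finite S] {E : Type v} [AddCommGroup E] [Module ℂ E]
  [FiniteDimensional ℂ E]

/-- Schur's lemma. Proof: `T` has an eigenvalue (`Module.End.exists_eigenvalue`, `E` is
nontrivial), its eigenspace is invariant and not zero, so it is everything. -/
theorem irr_scalar (ρ : S →* Module.End ℂ E) (hρ : Irr ρ) (T : Module.End ℂ E)
    (hT : ∀ g, ρ g * T = T * ρ g) : ∃ c : ℂ, T = c • (1 : Module.End ℂ E) := by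
  obtain ⟨hn, hW⟩ := hρ
  obtain ⟨c, hc⟩ := Module.End.exists_eigenvalue T
  refine ⟨c, ?_⟩
  have h1 : Module.End.eigenspace T c = ⊤ := by
    rcases hW (Module.End.eigenspace T c) (fun g w hw => by
      rw [Module.End.mem_eigenspace_iff] at hw ⊢
      have h2 : T (ρ g w) = ρ g (T w) := (LinearMap.congr_fun (hT g) w).symm
      rw [h2, hw, map_smul]) with h | h
    · exact absurd h hc
    · exact h
  refine LinearMap.ext fun v => ?_
  have h2 : v ∈ Module.End.eigenspace T c := h1 ▸ Submodule.mem_top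
  rw [Module.End.mem_eigenspace_iff] at h2
  rw [h2]
  rfl

/-- Proof. `T = ∑ ρ g * P * ρ g⁻¹` commutes with all `ρ h` (reindex), so `T = c • 1`; taking
traces `c * finrank E = |S| * trace P`; and the sum on the left is `trace (T * Q) = c * trace Q`. -/
theorem schur_avg (ρ : S →* Module.End ℂ E) (hρ : Irr ρ) (P Q : Module.End ℂ E) :
    (Module.finrank ℂ E : ℂ) * ∑ᶠ g : S, LinearMap.trace ℂ E (ρ g * P * ρ g⁻¹ * Q) =
      Nat.card S * (LinearMap.trace ℂ E P * LinearMap.trace ℂ E Q) := by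
  classical
  have : Fintype S := Fintype.ofFinite S
  set T : Module.End ℂ E := ∑ g : S, ρ g * P * ρ g⁻¹ with hTdef
  have hcomm : ∀ h, ρ h * T = T * ρ h := by
    intro h
    rw [hTdef, Finset.mul_sum, Finset.sum_mul]
    refine Fintype.sum_equiv (Equiv.mulLeft h) _ _ fun g => ?_
    change ρ h * (ρ g * P * ρ g⁻¹) = ρ (h * g) * P * ρ (h * g)⁻¹ * ρ h
    rw [mul_assoc (ρ (h * g) * P), ← map_mul ρ (h * g)⁻¹ h, mul_inv_rev, inv_mul_cancel_right,
      map_mul ρ h g]
    simp only [mul_assoc]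
  obtain ⟨c, hc⟩ := irr_scalar ρ hρ T hcomm
  have htr : LinearMap.trace ℂ E T = Nat.card S * LinearMap.trace ℂ E P := by
    rw [hTdef, map_sum]
    have h1 : ∀ g : S, LinearMap.trace ℂ E (ρ g * P * ρ g⁻¹) = LinearMap.trace ℂ E P := by
      intro g
      rw [LinearMap.trace_mul_comm, ← mul_assoc, ← map_mul, inv_mul_cancel, map_one, one_mul]
    rw [Finset.sum_congr rfl fun g _ => h1 g, Finset.sum_const, nsmul_eq_mul,
      Finset.card_univ, Nat.card_eq_fintype_card]
  have htr2 : LinearMap.trace ℂ E T = c * Module.finrank ℂ E := by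
    rw [hc, map_smul, LinearMap.trace_one, smul_eq_mul]
  have hsum : ∑ᶠ g : S, LinearMap.trace ℂ E (ρ g * P * ρ g⁻¹ * Q) =
      c * LinearMap.trace ℂ E Q := by
    rw [finsum_eq_sum_of_fintype]
    have h1 : ∑ g : S, LinearMap.trace ℂ E (ρ g * P * ρ g⁻¹ * Q) =
        LinearMap.trace ℂ E (T * Q) := by
      rw [hTdef, Finset.sum_mul, map_sum]
    rw [h1, hc, smul_mul_assoc, one_mul, map_smul, smul_eq_mul]
  rw [hsum]
  have h3 := htr.symm.trans htr2
  linear_combination (-(LinearMap.trace ℂ E Q)) * h3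

end H49KE
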