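import Pool.Agent.H49.KE.Defs
import Pool.Agent.H49.KE.R1
import Pool.Agent.H49.KA.C1

namespace H49KE

open H49KA H49KB H49KC

universe u v w

variable {S : Type u} [Group S] [Finite S] {E : Type v} [AddCommGroup E] [Module ℂ E]
  [FiniteDimensional ℂ E]

/-- Proof. With the invariant form of `H49KA.exists_form ρ` the operator `ρ g⁻¹` is adjoint to
`ρ g`; use the third part of `tr_psd`. For the bound use the fourth part of `tr_psd`:
`ρ g⁻¹ * ρ g = 1` has trace `finrank E`. -/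
theorem tr_inv (ρ : S →* Module.End ℂ E) (g : S) :
    LinearMap.trace ℂ E (ρ g⁻¹) = (starRingEnd ℂ) (LinearMap.trace ℂ E (ρ g)) ∧
    ‖LinearMap.trace ℂ E (ρ g)‖ ≤ Module.finrank ℂ E := by
  obtain ⟨B, hinv, hpos, him⟩ := exists_form ρ
  have hone : ρ g⁻¹ * ρ g = 1 := by
    rw [← map_mul, inv_mul_cancel, map_one]
  have hadj : ∀ v w, B (ρ g v) w = B v (ρ g⁻¹ w) := by
    intro v w
    rw [← hinv g⁻¹ (ρ g v) w, ← Module.End.mul_apply, hone, Module.End.one_apply]
  obtain ⟨_, _, h3, h4⟩ := tr_psd B hpos him (ρ g) (ρ g⁻¹) hadj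
  refine ⟨h3, ?_⟩
  rw [hone, LinearMap.trace_one] at h4
  have h5 : ((Module.finrank ℂ E : ℂ)).re = (Module.finrank ℂ E : ℝ) := Complex.natCast_re _
  rw [h5, ← sq] at h4
  exact le_of_sq_le_sq h4 (Nat.cast_nonneg _)

end H49KE
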