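import Pool.Agent.H49.KE.Defs
import Pool.Agent.H49.KE.R5
import Pool.Agent.H49.KE.R8

namespace H49KE

open H49KA H49KB H49KC

universe u v w

variable {S : Type u} [Group S] [Finite S] {E : Type v} [AddCommGroup E] [Module ℂ E]
  [FiniteDimensional ℂ E]

/-- Proof. Both sides are bilinear in `(P, Q)`; in terms of matrices with respect to a basis
`b` of `E` and the matrix units as a basis of the endomorphisms (`Matrix.stdBasis`), the trace
of `T ↦ P T Q` is `∑_{i,j} P i i * Q j j`. -/
theorem trace_mulLR (P Q : Module.End ℂ E) :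
    LinearMap.trace ℂ (Module.End ℂ E)
      ((LinearMap.mulLeft ℂ P).comp (LinearMap.mulRight ℂ Q)) =
      LinearMap.trace ℂ E P * LinearMap.trace ℂ E Q := by
  have hconj : (LinearMap.mulLeft ℂ P).comp (LinearMap.mulRight ℂ Q) =
      (dualTensorHomEquiv ℂ E E).conj (TensorProduct.map (Module.Dual.transpose Q) P) := by
    refine LinearMap.ext fun T => ?_
    obtain ⟨t, rfl⟩ := (dualTensorHomEquiv ℂ E E).surjective T
    rw [LinearEquiv.conj_apply_apply, LinearEquiv.symm_apply_apply]
    induction t using TensorProduct.induction_on with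
    | zero => simp
    | tmul φ v =>
      refine LinearMap.ext fun x => ?_
      simp [Module.Dual.transpose_apply, dualTensorHom_apply]
    | add a b ha hb => rw [map_add, map_add, ha, hb, map_add, map_add]
  rw [hconj, LinearMap.trace_conj', LinearMap.trace_tensorProduct', LinearMap.trace_transpose',
    mul_comm]

/-- Proof. `trace_mulLR` and `tr_inv`. -/
theorem tr_cjr (ρ : S →* Module.End ℂ E) (g : S) :
    LinearMap.trace ℂ (Module.End ℂ E) (cjr ρ g) =
      ((‖LinearMap.trace ℂ E (ρ g)‖ ^ 2 : ℝ) : ℂ) := by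
  change LinearMap.trace ℂ (Module.End ℂ E)
    ((LinearMap.mulLeft ℂ (ρ g)).comp (LinearMap.mulRight ℂ (ρ g⁻¹))) = _
  rw [trace_mulLR, (tr_inv ρ g).1, Complex.mul_conj, Complex.normSq_eq_norm_sq]

private theorem r9_cjr_apply (ρ : S →* Module.End ℂ E) (g : S) (w : Module.End ℂ E) :
    cjr ρ g w = ρ g * (w * ρ g⁻¹) := rfl

private theorem r9_one (ρ : S →* Module.End ℂ E) (g : S) :
    cjr ρ g (1 : Module.End ℂ E) = 1 := by
  rw [r9_cjr_apply, one_mul, ← map_mul, mul_inv_cancel, map_one]

private theorem r9_inv (ρ : S →* Module.End ℂ E) (g : S) (w : Module.End ℂ E) :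
    LinearMap.trace ℂ E (cjr ρ g w) = LinearMap.trace ℂ E w := by
  rw [r9_cjr_apply, LinearMap.trace_mul_comm, mul_assoc, ← map_mul, inv_mul_cancel, map_one,
    mul_one]

private theorem r9_compl (hE : Nontrivial E) :
    IsCompl (Submodule.span ℂ {(1 : Module.End ℂ E)})
      (LinearMap.ker (LinearMap.trace ℂ E)) := by
  have h1 : LinearMap.trace ℂ E (1 : Module.End ℂ E) = Module.finrank ℂ E :=
    LinearMap.trace_one ℂ E
  have h0 : (Module.finrank ℂ E : ℂ) ≠ 0 := by
    have := Module.finrank_pos (R := ℂ) (M := E)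
    exact_mod_cast this.ne'
  constructor
  · rw [Submodule.disjoint_def]
    intro x hx hx'
    obtain ⟨c, rfl⟩ := Submodule.mem_span_singleton.mp hx
    rw [LinearMap.mem_ker, map_smul, h1, smul_eq_mul] at hx'
    rw [(mul_eq_zero.mp hx').resolve_right h0, zero_smul]
  · rw [codisjoint_iff, eq_top_iff]
    intro x _
    rw [Submodule.mem_sup]
    refine ⟨(LinearMap.trace ℂ E x / Module.finrank ℂ E) • 1,
      Submodule.smul_mem _ _ (Submodule.mem_span_singleton_self _),
      x - (LinearMap.trace ℂ E x / Module.finrank ℂ E) • 1, ?_, by abel⟩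
    rw [LinearMap.mem_ker, map_sub, map_smul, h1, smul_eq_mul, div_mul_cancel₀ _ h0, sub_self]

/-- Proof. The kernel `W` of the trace is an invariant complement of the scalars (the trace of
the identity is `finrank E ≠ 0`), and `cjr ρ g` fixes the scalars. Use `tr_cjr`. For the third part:
an element of `W` fixed by all `cjr ρ g` commutes with all `ρ g`, so it is a scalar by
irreducibility (`irr_scalar` in R5 or directly), and its trace is zero. -/
theorem cjr_zero (ρ : S →* Module.End ℂ E) (hE : Nontrivial E) :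
    ∃ (hW : ∀ g, ∀ w ∈ LinearMap.ker (LinearMap.trace ℂ E), cjr ρ g w ∈
        LinearMap.ker (LinearMap.trace ℂ E)),
      (Module.finrank ℂ (LinearMap.ker (LinearMap.trace ℂ E)) + 1 = Module.finrank ℂ E ^ 2) ∧
      (∀ g, LinearMap.trace ℂ (LinearMap.ker (LinearMap.trace ℂ E))
        (subRep (cjr ρ) _ hW g) = ((‖LinearMap.trace ℂ E (ρ g)‖ ^ 2 : ℝ) : ℂ) - 1) ∧
      (Irr ρ → ∀ w ∈ LinearMap.ker (LinearMap.trace ℂ E), (∀ g, cjr ρ g w = w) → w = 0) := by
  have h1 : LinearMap.trace ℂ E (1 : Module.End ℂ E) = Module.finrank ℂ E :=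
    LinearMap.trace_one ℂ E
  have h0 : (Module.finrank ℂ E : ℂ) ≠ 0 := by
    have := Module.finrank_pos (R := ℂ) (M := E)
    exact_mod_cast this.ne'
  have hW : ∀ g, ∀ w ∈ LinearMap.ker (LinearMap.trace ℂ E), cjr ρ g w ∈
        LinearMap.ker (LinearMap.trace ℂ E) := by
    intro g w hw
    rw [LinearMap.mem_ker] at hw ⊢
    rw [r9_inv, hw]
  refine ⟨hW, ?_, ?_, ?_⟩
  · have hr := LinearMap.finrank_range_add_finrank_ker (LinearMap.trace ℂ E)
    have hsurj : LinearMap.range (LinearMap.trace ℂ E) = ⊤ := by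
      rw [LinearMap.range_eq_top]
      intro c
      refine ⟨(c / Module.finrank ℂ E) • 1, ?_⟩
      rw [map_smul, h1, smul_eq_mul, div_mul_cancel₀ _ h0]
    rw [hsurj, finrank_top, Module.finrank_self] at hr
    rw [add_comm, hr, Module.finrank_linearMap, sq]
  · intro g
    have hc := r9_compl (E := E) hE
    have hsp : ∀ w ∈ Submodule.span ℂ {(1 : Module.End ℂ E)}, cjr ρ g w = w := by
      intro w hw
      obtain ⟨c, rfl⟩ := Submodule.mem_span_singleton.mp hw
      rw [map_smul, r9_one]
    have hconj : cjr ρ g = (Submodule.prodEquivOfIsCompl _ _ hc).conj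
        (LinearMap.prodMap LinearMap.id (subRep (cjr ρ) _ hW g)) := by
      refine LinearMap.ext fun T => ?_
      obtain ⟨t, rfl⟩ := (Submodule.prodEquivOfIsCompl _ _ hc).surjective T
      rw [LinearEquiv.conj_apply_apply, LinearEquiv.symm_apply_apply]
      obtain ⟨a, b⟩ := t
      rw [Submodule.coe_prodEquivOfIsCompl', map_add, hsp _ a.2, LinearMap.prodMap_apply,
        Submodule.coe_prodEquivOfIsCompl']
      rfl
    have h2 := tr_cjr ρ g
    rw [hconj, LinearMap.trace_conj', LinearMap.trace_prodMap', LinearMap.trace_id,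
      finrank_span_singleton (one_ne_zero)] at h2
    rw [← h2]
    push_cast
    ring
  · intro hρ w hw hfix
    obtain ⟨c, rfl⟩ := irr_scalar ρ hρ w (fun g => by
      have h := hfix g
      rw [r9_cjr_apply] at h
      calc ρ g * w = ρ g * (w * (ρ g⁻¹ * ρ g)) := by
            rw [← map_mul, inv_mul_cancel, map_one, mul_one]
        _ = (ρ g * (w * ρ g⁻¹)) * ρ g := by simp only [mul_assoc]
        _ = w * ρ g := by rw [h])
    rw [LinearMap.mem_ker, map_smul, h1, smul_eq_mul] at hw
    rw [(mul_eq_zero.mp hw).resolve_right h0, zero_smul]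

end H49KE
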