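import Pool.Agent.H49.KE.Defs
import Pool.Agent.H49.KE.R1
import Pool.Agent.H49.KE.R2
import Pool.Agent.H49.KE.R5
import Pool.Agent.H49.KE.R8
import Pool.Agent.H49.KE.R9

namespace H49KE

open H49KA H49KB H49KC

universe u v w

variable {S : Type u} [Group S] [Finite S] {E : Type v} [AddCommGroup E] [Module ℂ E]
  [FiniteDimensional ℂ E]

private theorem R6_cjr_apply (ρ : S →* Module.End ℂ E) (g : S) (T : Module.End ℂ E) :
    cjr ρ g T = ρ g * (T * ρ g⁻¹) := rfl

private theorem R6_mul_inv (ρ : S →* Module.End ℂ E) (g : S) : ρ g * ρ g⁻¹ = 1 := by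
  rw [← map_mul, mul_inv_cancel, map_one]

private theorem R6_inv_mul (ρ : S →* Module.End ℂ E) (g : S) : ρ g⁻¹ * ρ g = 1 := by
  rw [← map_mul, inv_mul_cancel, map_one]

private theorem R6_one_mem (ρ : S →* Module.End ℂ E) :
    (1 : Module.End ℂ E) ∈ Fx (cjr ρ) ⊤ := by
  intro g _
  rw [R6_cjr_apply, one_mul, R6_mul_inv]

private theorem R6_sum (ρ : S →* Module.End ℂ E) :
    ∑ᶠ g : S, ‖LinearMap.trace ℂ E (ρ g)‖ ^ 2 =
      (Nat.card S : ℝ) * (Module.finrank ℂ (Fx (cjr ρ) ⊤) : ℝ) := by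
  have := Fintype.ofFinite S
  have h := (av_basic (cjr ρ) ⊤).2.2.1
  have h1 : ∑ᶠ a : (⊤ : Subgroup S), cjr ρ (a : S) = ∑ᶠ g : S, cjr ρ g :=
    finsum_comp_equiv (Subgroup.topEquiv (G := S)).toEquiv (f := fun g => cjr ρ g)
  unfold av at h
  rw [h1, map_smul, finsum_eq_sum_of_fintype, map_sum] at h
  have h2 : ∀ g : S, LinearMap.trace ℂ (Module.End ℂ E) (cjr ρ g) =
      ((‖LinearMap.trace ℂ E (ρ g)‖ ^ 2 : ℝ) : ℂ) := tr_cjr ρ
  simp only [h2] at h
  have hc : Nat.card (⊤ : Subgroup S) = Nat.card S := Nat.card_congr (Subgroup.topEquiv).toEquiv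
  have hc0 : (Nat.card S : ℂ) ≠ 0 := by
    exact_mod_cast Nat.card_pos.ne'
  rw [hc, smul_eq_mul, inv_mul_eq_iff_eq_mul₀ hc0, ← Complex.ofReal_sum] at h
  rw [finsum_eq_sum_of_fintype]
  exact_mod_cast h

/-- Proof. Apply `av_basic` to the representation `cjr ρ` and the subgroup `⊤`:
`|S|⁻¹ ∑ trace (cjr ρ g) = finrank (Fx (cjr ρ) ⊤)`, and `trace (cjr ρ g) = ‖trace (ρ g)‖ ^ 2` by
`tr_cjr`. `Fx (cjr ρ) ⊤` consists of the endomorphisms commuting with all `ρ g`; it contains the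
identity, which is not zero (first part), and for irreducible `ρ` it consists of the scalars
(`irr_scalar`), so it has dimension one (second part). -/
theorem sum_sq (ρ : S →* Module.End ℂ E) :
    (Nontrivial E → (Nat.card S : ℝ) ≤ ∑ᶠ g : S, ‖LinearMap.trace ℂ E (ρ g)‖ ^ 2) ∧
    (Irr ρ → ∑ᶠ g : S, ‖LinearMap.trace ℂ E (ρ g)‖ ^ 2 = Nat.card S) := by
  rw [R6_sum]
  constructor
  · intro hE
    have hne : (⟨1, R6_one_mem ρ⟩ : Fx (cjr ρ) ⊤) ≠ 0 := by
      intro h
      have h1 : (1 : Module.End ℂ E) = 0 := congrArg Subtype.val h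
      exact one_ne_zero h1
    have hnt : Nontrivial (Fx (cjr ρ) ⊤) := ⟨_, _, hne⟩
    have hpos : 0 < Module.finrank ℂ (Fx (cjr ρ) ⊤) := Module.finrank_pos
    have h1 : (1 : ℝ) ≤ (Module.finrank ℂ (Fx (cjr ρ) ⊤) : ℝ) := by exact_mod_cast hpos
    have h2 : (0 : ℝ) ≤ (Nat.card S : ℝ) := Nat.cast_nonneg _
    nlinarith
  · intro hρ
    have hE : Nontrivial E := hρ.1
    have hne : (⟨1, R6_one_mem ρ⟩ : Fx (cjr ρ) ⊤) ≠ 0 := by
      intro h
      have h1 : (1 : Module.End ℂ E) = 0 := congrArg Subtype.val h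
      exact one_ne_zero h1
    have h1 : Module.finrank ℂ (Fx (cjr ρ) ⊤) = 1 := by
      refine finrank_eq_one (⟨1, R6_one_mem ρ⟩ : Fx (cjr ρ) ⊤) hne ?_
      rintro ⟨T, hT⟩
      have hcomm : ∀ g, ρ g * T = T * ρ g := by
        intro g
        have h2 := hT g (Subgroup.mem_top g)
        rw [R6_cjr_apply] at h2
        calc ρ g * T = ρ g * (T * (ρ g⁻¹ * ρ g)) := by rw [R6_inv_mul, mul_one]
          _ = (ρ g * (T * ρ g⁻¹)) * ρ g := by simp only [mul_assoc]
          _ = T * ρ g := by rw [h2]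
      obtain ⟨c, hc⟩ := irr_scalar ρ hρ T hcomm
      exact ⟨c, Subtype.ext hc.symm⟩
    rw [h1, Nat.cast_one, mul_one]

/-- Proof. By `sum_sq` the sum of `‖trace (ρ g)‖ ^ 2` over the conjugates `g` of `x` is at most
`|S|`. All its terms are equal, and the number of conjugates is `|S|` divided by the number of
elements commuting with `x`. (For example: `∑_{h ∈ S} ‖trace (ρ (h x h⁻¹))‖ ^ 2 =
∑_{g} #{h | h x h⁻¹ = g} ‖trace (ρ g)‖ ^ 2`, the left side is `|S| ‖trace (ρ x)‖ ^ 2`, and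
`#{h | h x h⁻¹ = g} ≤ #{h | h x = x h}`.) -/
theorem cent_bound (ρ : S →* Module.End ℂ E) (hρ : Irr ρ) (x : S) :
    ‖LinearMap.trace ℂ E (ρ x)‖ ^ 2 ≤ Nat.card {g : S // g * x = x * g} := by
  classical
  have := Fintype.ofFinite S
  set f : S → ℝ := fun g => ‖LinearMap.trace ℂ E (ρ g)‖ ^ 2 with hf
  have hf0 : ∀ g, 0 ≤ f g := fun g => by positivity
  have hsum : ∑ g : S, f g = Nat.card S := by
    have h := (sum_sq ρ).2 hρ
    rwa [finsum_eq_sum_of_fintype] at h
  have hconj : ∀ h : S, f (h * x * h⁻¹) = f x := by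
    intro h
    have e1 : LinearMap.trace ℂ E (ρ (h * x * h⁻¹)) = LinearMap.trace ℂ E (ρ x) := by
      have e2 : ρ (h * x * h⁻¹) = ρ h * ρ x * ρ h⁻¹ := by
        rw [ρ.map_mul, ρ.map_mul]
      rw [e2, LinearMap.trace_mul_comm, ← mul_assoc, R6_inv_mul, one_mul]
    simp only [hf]
    rw [e1]
  have h1 : ∑ h : S, f (h * x * h⁻¹) = Nat.card S * f x := by
    rw [Finset.sum_congr rfl fun h _ => hconj h, Finset.sum_const, Finset.card_univ,
      nsmul_eq_mul, Nat.card_eq_fintype_card]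
  set C := Nat.card {g : S // g * x = x * g} with hC
  have h3 : ∀ g : S, (Finset.univ.filter fun h : S => h * x * h⁻¹ = g).card ≤ C := by
    intro g
    rcases (Finset.univ.filter fun h : S => h * x * h⁻¹ = g).eq_empty_or_nonempty with he | ⟨h0, hh0⟩
    · rw [he, Finset.card_empty]
      exact Nat.zero_le _
    · rw [Finset.mem_filter] at hh0
      have h0g := hh0.2
      have hC' : C = (Finset.univ.filter fun g : S => g * x = x * g).card := by
        rw [hC, Nat.card_eq_fintype_card, Fintype.card_subtype]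
      rw [hC']
      refine Finset.card_le_card_of_injOn (fun h => h0⁻¹ * h) ?_ ?_
      · intro h hh
        rw [Finset.mem_coe, Finset.mem_filter] at hh ⊢
        refine ⟨Finset.mem_univ _, ?_⟩
        have h4 : h * x * h⁻¹ = h0 * x * h0⁻¹ := hh.2.trans h0g.symm
        have h5 : h * x = h0 * x * h0⁻¹ * h := by
          rw [← h4]
          group
        calc h0⁻¹ * h * x = h0⁻¹ * (h * x) := by rw [mul_assoc]
          _ = x * (h0⁻¹ * h) := by rw [h5]; group
      · intro a _ b _ hab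
        exact mul_left_cancel hab
  have h2 : ∑ h : S, f (h * x * h⁻¹) ≤ C * ∑ g : S, f g := by
    rw [← Finset.sum_fiberwise Finset.univ (fun h : S => h * x * h⁻¹) fun h => f (h * x * h⁻¹),
      Finset.mul_sum]
    refine Finset.sum_le_sum fun g _ => ?_
    have e : ∑ h ∈ Finset.univ.filter (fun h : S => h * x * h⁻¹ = g), f (h * x * h⁻¹) =
        ((Finset.univ.filter fun h : S => h * x * h⁻¹ = g).card : ℝ) * f g := by
      rw [← nsmul_eq_mul, ← Finset.sum_const]
      refine Finset.sum_congr rfl fun h hh => ?_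
      rw [Finset.mem_filter] at hh
      rw [hh.2]
    rw [e]
    exact mul_le_mul_of_nonneg_right (by exact_mod_cast h3 g) (hf0 g)
  rw [h1, hsum, mul_comm] at h2
  have hpos : (0 : ℝ) < Nat.card S := by exact_mod_cast Nat.card_pos
  exact le_of_mul_le_mul_right h2 hpos

end H49KE
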