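import Pool.Agent.H49.KE.Defs
import Pool.Agent.H49.KA.C1

namespace H49KE

open H49KA H49KB H49KC

universe u v w

variable {S : Type u} [Group S] [Finite S] {E : Type v} [AddCommGroup E] [Module ℂ E]
  [FiniteDimensional ℂ E]

/-- an invariant subspace is the image of an equivariant projection -/
private theorem r7_proj (ρ : S →* Module.End ℂ E) (W : Submodule ℂ E)
    (hW : ∀ g, ∀ w ∈ W, ρ g w ∈ W) :
    ∃ P : Module.End ℂ E, (∀ v, P v ∈ W) ∧ (∀ w ∈ W, P w = w) ∧
      ∀ g v, P (ρ g v) = ρ g (P v) := by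
  haveI : Fintype S := Fintype.ofFinite S
  obtain ⟨f, hf⟩ := LinearMap.exists_leftInverse_of_injective W.subtype
    (LinearMap.ker_eq_bot.2 W.injective_subtype)
  have hf' : ∀ w : W, f (w : E) = w := fun w => congrFun (congrArg DFunLike.coe hf) w
  have hc : (Fintype.card S : ℂ) ≠ 0 := Nat.cast_ne_zero.2 Fintype.card_ne_zero
  have hinv : ∀ (g : S) (v : E), ρ g (ρ g⁻¹ v) = v := by
    intro g v
    rw [← Module.End.mul_apply, ← map_mul, mul_inv_cancel, map_one, Module.End.one_apply]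
  let P : Module.End ℂ E := (Fintype.card S : ℂ)⁻¹ •
    ∑ g : S, (ρ g).comp ((W.subtype.comp f).comp (ρ g⁻¹))
  have hP : ∀ v, P v = (Fintype.card S : ℂ)⁻¹ • ∑ g : S, ρ g (f (ρ g⁻¹ v) : E) := by
    intro v
    simp only [P, LinearMap.smul_apply, LinearMap.sum_apply, LinearMap.comp_apply,
      Submodule.subtype_apply]
  refine ⟨P, ?_, ?_, ?_⟩
  · intro v
    rw [hP]
    exact W.smul_mem _ (W.sum_mem fun g _ => hW g _ (f (ρ g⁻¹ v)).2)
  · intro w hw
    rw [hP]
    have h1 : ∀ g : S, ρ g (f (ρ g⁻¹ w) : E) = w := by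
      intro g
      have := hf' ⟨ρ g⁻¹ w, hW g⁻¹ w hw⟩
      simp only at this
      rw [this]
      exact hinv g w
    rw [Finset.sum_congr rfl fun g _ => h1 g, Finset.sum_const, Finset.card_univ,
      ← Nat.cast_smul_eq_nsmul ℂ, smul_smul, inv_mul_cancel₀ hc, one_smul]
  · intro g v
    rw [hP, hP, map_smul, map_sum]
    congr 1
    rw [← Equiv.sum_comp (Equiv.mulLeft g) (fun h => ρ h (f (ρ h⁻¹ (ρ g v)) : E))]
    refine Finset.sum_congr rfl fun h _ => ?_
    rw [Equiv.coe_mulLeft, mul_inv_rev, map_mul, map_mul, Module.End.mul_apply,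
      Module.End.mul_apply]
    congr 4
    rw [← Module.End.mul_apply (ρ g⁻¹), ← map_mul, inv_mul_cancel, map_one, Module.End.one_apply]

/-- the trace on an invariant subspace, by a projection -/
private theorem r7_tr (ρ : S →* Module.End ℂ E) (W : Submodule ℂ E)
    (hW : ∀ g, ∀ w ∈ W, ρ g w ∈ W) (P : Module.End ℂ E) (h1 : ∀ v, P v ∈ W)
    (h2 : ∀ w ∈ W, P w = w) (x : S) :
    LinearMap.trace ℂ W (subRep ρ W hW x) = LinearMap.trace ℂ E (ρ x * P) := by
  let p : E →ₗ[ℂ] W := LinearMap.codRestrict W P h1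
  have e1 : ρ x * P = W.subtype.comp ((subRep ρ W hW x).comp p) := by
    ext v
    rfl
  have e2 : ((subRep ρ W hW x).comp p).comp W.subtype = subRep ρ W hW x := by
    ext w
    have : p (w : E) = w := Subtype.ext (h2 w w.2)
    rw [LinearMap.comp_apply, LinearMap.comp_apply, Submodule.subtype_apply, this]
  rw [e1, ← LinearMap.trace_comp_comm' W.subtype ((subRep ρ W hW x).comp p), e2]

private theorem r7_tr_one (ρ : S →* Module.End ℂ E) (W : Submodule ℂ E)
    (hW : ∀ g, ∀ w ∈ W, ρ g w ∈ W) :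
    LinearMap.trace ℂ W (subRep ρ W hW 1) = Module.finrank ℂ W := by
  rw [map_one, LinearMap.trace_one]

/-- Proof. Take a nonzero invariant subspace `W ≤ U` of smallest dimension. -/
theorem irr_exists (ρ : S →* Module.End ℂ E) (U : Submodule ℂ E)
    (hU : ∀ g, ∀ w ∈ U, ρ g w ∈ U) (hne : U ≠ ⊥) :
    ∃ (W : Submodule ℂ E) (hW : ∀ g, ∀ w ∈ W, ρ g w ∈ W), W ≤ U ∧ Irr (subRep ρ W hW) := by
  classical
  have hex : ∃ n : ℕ, ∃ W : Submodule ℂ E, (∀ g, ∀ w ∈ W, ρ g w ∈ W) ∧ W ≤ U ∧ W ≠ ⊥ ∧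
      Module.finrank ℂ W = n := ⟨_, U, hU, le_refl U, hne, rfl⟩
  obtain ⟨W, hW, hWU, hW0, hWn⟩ := Nat.find_spec hex
  have hmin := fun m (hm : m < Nat.find hex) => Nat.find_min hex hm
  refine ⟨W, hW, hWU, ?_, ?_⟩
  · exact Submodule.nontrivial_iff_ne_bot.2 hW0
  · intro W' hW'
    by_cases h0 : W' = ⊥
    · exact Or.inl h0
    · refine Or.inr ?_
      have hinv : ∀ g, ∀ w ∈ W'.map W.subtype, ρ g w ∈ W'.map W.subtype := by
        rintro g _ ⟨w, hw, rfl⟩
        exact ⟨subRep ρ W hW g w, hW' g w hw, rfl⟩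
      have hle : W'.map W.subtype ≤ W := Submodule.map_subtype_le W W'
      have hne' : W'.map W.subtype ≠ ⊥ := by
        intro h
        exact h0 (Submodule.map_injective_of_injective W.injective_subtype
          (h.trans (Submodule.map_bot _).symm))
      have hge : Module.finrank ℂ W ≤ Module.finrank ℂ (W'.map W.subtype) := by
        by_contra hlt
        rw [hWn] at hlt
        exact hmin _ (not_le.1 hlt) ⟨_, hinv, hle.trans hWU, hne', rfl⟩
      have heq := Submodule.eq_of_le_of_finrank_le hle hge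
      rw [eq_top_iff]
      intro w _
      have hw : (w : E) ∈ W'.map W.subtype := by
        rw [heq]
        exact w.2
      obtain ⟨w', hw', he⟩ := hw
      have : w' = w := W.injective_subtype he
      rw [← this]
      exact hw'

/-- splitting off an irreducible subspace -/
private theorem r7_split (ρ : S →* Module.End ℂ E) (U : Submodule ℂ E)
    (hU : ∀ g, ∀ w ∈ U, ρ g w ∈ U) (hne : U ≠ ⊥) :
    ∃ (W : Submodule ℂ E) (hW : ∀ g, ∀ w ∈ W, ρ g w ∈ W) (U' : Submodule ℂ E)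
      (hU' : ∀ g, ∀ w ∈ U', ρ g w ∈ U'), Irr (subRep ρ W hW) ∧
      (∀ u ∈ U, ∃ w ∈ W, ∃ u' ∈ U', u = w + u') ∧
      Module.finrank ℂ U = Module.finrank ℂ W + Module.finrank ℂ U' ∧
      Module.finrank ℂ U' < Module.finrank ℂ U ∧
      ∀ x, LinearMap.trace ℂ U (subRep ρ U hU x) =
        LinearMap.trace ℂ W (subRep ρ W hW x) + LinearMap.trace ℂ U' (subRep ρ U' hU' x) := by
  obtain ⟨W, hW, hWU, hirr⟩ := irr_exists ρ U hU hne
  obtain ⟨P, hP1, hP2, hP3⟩ := r7_proj ρ U hU
  obtain ⟨Q, hQ1, hQ2, hQ3⟩ := r7_proj ρ W hW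
  have hU' : ∀ g, ∀ w ∈ U ⊓ LinearMap.ker Q, ρ g w ∈ U ⊓ LinearMap.ker Q := by
    intro g w hw
    refine ⟨hU g w hw.1, LinearMap.mem_ker.2 ?_⟩
    rw [hQ3, LinearMap.mem_ker.1 hw.2, map_zero]
  have htr : ∀ x, LinearMap.trace ℂ U (subRep ρ U hU x) =
        LinearMap.trace ℂ W (subRep ρ W hW x) +
          LinearMap.trace ℂ (U ⊓ LinearMap.ker Q : Submodule ℂ E)
            (subRep ρ (U ⊓ LinearMap.ker Q) hU' x) := by
    intro x
    rw [r7_tr ρ U hU P hP1 hP2 x, r7_tr ρ W hW (Q * P) (fun v => hQ1 _)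
      (fun w hw => by rw [Module.End.mul_apply, hP2 w (hWU hw), hQ2 w hw]) x,
      r7_tr ρ (U ⊓ LinearMap.ker Q) hU' (P - Q * P) ?_ ?_ x, ← map_add, ← mul_add,
      add_sub_cancel]
    · intro v
      rw [LinearMap.sub_apply, Module.End.mul_apply]
      refine ⟨U.sub_mem (hP1 v) (hWU (hQ1 _)), LinearMap.mem_ker.2 ?_⟩
      rw [map_sub, hQ2 _ (hQ1 _), sub_self]
    · intro w hw
      rw [LinearMap.sub_apply, Module.End.mul_apply, hP2 w hw.1, LinearMap.mem_ker.1 hw.2,
        sub_zero]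
  have hfr : Module.finrank ℂ U = Module.finrank ℂ W +
      Module.finrank ℂ (U ⊓ LinearMap.ker Q : Submodule ℂ E) := by
    have h1 := htr 1
    rw [r7_tr_one, r7_tr_one, r7_tr_one] at h1
    exact_mod_cast h1
  refine ⟨W, hW, U ⊓ LinearMap.ker Q, hU', hirr, ?_, hfr, ?_, htr⟩
  · intro u hu
    refine ⟨Q u, hQ1 u, u - Q u, ⟨U.sub_mem hu (hWU (hQ1 _)), LinearMap.mem_ker.2 ?_⟩,
      (add_sub_cancel _ _).symm⟩
    rw [map_sub, hQ2 _ (hQ1 _), sub_self]
  · have : Nontrivial W := hirr.1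
    have : 0 < Module.finrank ℂ W := Module.finrank_pos
    omega

/-- Proof. Let `B` be the invariant form of `H49KA.exists_form ρ`. Every invariant subspace has
an invariant complement (its orthogonal complement). By induction on `finrank U` one shows for
every invariant `U`: the trace of `subRep ρ U hU x` is bounded by `r * finrank U`. If `U ≠ ⊥` take an
irreducible `W ≤ U` by `irr_exists`, let `U'` be the orthogonal complement of `W` in `U`; the
trace on `U` is the sum of the traces on `W` and `U'`. Finally `U = ⊤`. -/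
theorem reduce_irr (ρ : S →* Module.End ℂ E) (x : S) (r : ℝ)
    (h : ∀ (W : Submodule ℂ E) (hW : ∀ g, ∀ w ∈ W, ρ g w ∈ W), Irr (subRep ρ W hW) →
      ‖LinearMap.trace ℂ W (subRep ρ W hW x)‖ ≤ r * Module.finrank ℂ W) :
    ‖LinearMap.trace ℂ E (ρ x)‖ ≤ r * Module.finrank ℂ E := by
  have key : ∀ n : ℕ, ∀ (U : Submodule ℂ E) (hU : ∀ g, ∀ w ∈ U, ρ g w ∈ U),
      Module.finrank ℂ U = n →
      ‖LinearMap.trace ℂ U (subRep ρ U hU x)‖ ≤ r * Module.finrank ℂ U := by
    intro n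
    induction n using Nat.strong_induction_on with
    | _ n ih =>
      intro U hU hn
      by_cases h0 : U = ⊥
      · subst h0
        have e : subRep ρ ⊥ hU x = 0 := LinearMap.ext fun w => Subsingleton.elim _ _
        rw [e, map_zero, norm_zero, finrank_bot, Nat.cast_zero, mul_zero]
      · obtain ⟨W, hW, U', hU', hirr, -, h1, h2, h3⟩ := r7_split ρ U hU h0
        rw [h3, h1]
        refine (norm_add_le _ _).trans ?_
        push_cast
        rw [mul_add]
        exact add_le_add (h W hW hirr) (ih _ (hn ▸ h2) U' hU' rfl)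
  have hT : ∀ g, ∀ w ∈ (⊤ : Submodule ℂ E), ρ g w ∈ (⊤ : Submodule ℂ E) :=
    fun _ _ _ => Submodule.mem_top
  have h1 := key _ ⊤ hT rfl
  rw [r7_tr ρ ⊤ hT 1 (fun _ => Submodule.mem_top) (fun _ _ => rfl) x, mul_one, finrank_top] at h1
  exact h1

/-- Proof. The span `U` of all irreducible invariant subspaces is everything (otherwise its
orthogonal complement contains an irreducible subspace by `irr_exists`). If `y` acted trivially
on all of them, then `ρ y = 1`. -/
theorem exists_irr (ρ : S →* Module.End ℂ E) (y : S) (hy : ρ y ≠ 1) :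
    ∃ (W : Submodule ℂ E) (hW : ∀ g, ∀ w ∈ W, ρ g w ∈ W), Irr (subRep ρ W hW) ∧
      subRep ρ W hW y ≠ 1 := by
  by_contra hcon
  push Not at hcon
  apply hy
  have key : ∀ n : ℕ, ∀ (U : Submodule ℂ E) (_ : ∀ g, ∀ w ∈ U, ρ g w ∈ U),
      Module.finrank ℂ U = n → ∀ u ∈ U, ρ y u = u := by
    intro n
    induction n using Nat.strong_induction_on with
    | _ n ih =>
      intro U hU hn u hu
      by_cases h0 : U = ⊥
      · subst h0
        rw [(Submodule.mem_bot ℂ).1 hu, map_zero]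
      · obtain ⟨W, hW, U', hU', hirr, h4, h1, h2, h3⟩ := r7_split ρ U hU h0
        obtain ⟨w, hw, u', hu', rfl⟩ := h4 u hu
        rw [map_add, ih _ (hn ▸ h2) U' hU' rfl u' hu']
        have h5 := congrArg (fun T : Module.End ℂ W => ((T ⟨w, hw⟩ : W) : E)) (hcon W hW hirr)
        have h6 : ρ y w = w := h5
        rw [h6]
  ext v
  exact key _ ⊤ (fun _ _ _ => Submodule.mem_top) rfl v Submodule.mem_top

/-- Proof. The orthogonal complement of the fixed space with respect to the invariant form of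
`H49KA.exists_form ρ`; the trace of `ρ x` on the fixed space is its dimension. -/
theorem fixed_split (ρ : S →* Module.End ℂ E) :
    ∃ (W : Submodule ℂ E) (hW : ∀ g, ∀ w ∈ W, ρ g w ∈ W),
      (∀ w ∈ W, (∀ g, ρ g w = w) → w = 0) ∧
      Module.finrank ℂ W + Module.finrank ℂ (Fx ρ ⊤) = Module.finrank ℂ E ∧
      ∀ x, LinearMap.trace ℂ E (ρ x) =
        LinearMap.trace ℂ W (subRep ρ W hW x) + Module.finrank ℂ (Fx ρ ⊤) := by
  have hF : ∀ g, ∀ w ∈ Fx ρ ⊤, ρ g w ∈ Fx ρ ⊤ := by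
    intro g w hw
    rw [hw g (Subgroup.mem_top g)]
    exact hw
  obtain ⟨P, hP1, hP2, hP3⟩ := r7_proj ρ (Fx ρ ⊤) hF
  have hW : ∀ g, ∀ w ∈ LinearMap.ker P, ρ g w ∈ LinearMap.ker P := by
    intro g w hw
    rw [LinearMap.mem_ker, hP3, LinearMap.mem_ker.1 hw, map_zero]
  have htr : ∀ x, LinearMap.trace ℂ E (ρ x) =
        LinearMap.trace ℂ (LinearMap.ker P) (subRep ρ (LinearMap.ker P) hW x) +
          Module.finrank ℂ (Fx ρ ⊤) := by
    intro x
    have e1 : subRep ρ (Fx ρ ⊤) hF x = 1 := by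
      ext w
      exact w.2 x (Subgroup.mem_top x)
    have e2 := r7_tr ρ (Fx ρ ⊤) hF P hP1 hP2 x
    rw [e1, LinearMap.trace_one] at e2
    rw [e2, r7_tr ρ (LinearMap.ker P) hW (1 - P) ?_ ?_ x, ← map_add, ← mul_add, sub_add_cancel,
      mul_one]
    · intro v
      rw [LinearMap.sub_apply, Module.End.one_apply, LinearMap.mem_ker, map_sub, hP2 _ (hP1 v),
        sub_self]
    · intro w hw
      rw [LinearMap.sub_apply, Module.End.one_apply, LinearMap.mem_ker.1 hw, sub_zero]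
  refine ⟨LinearMap.ker P, hW, ?_, ?_, htr⟩
  · intro w hw hfix
    have h1 : P w = w := hP2 w fun g _ => hfix g
    rw [← h1]
    exact hw
  · have h1 := htr 1
    rw [r7_tr_one, map_one, LinearMap.trace_one] at h1
    exact_mod_cast h1.symm

end H49KE
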