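import Pool.Agent.H49.KE.Defs
import Pool.Agent.H49.KE.R6
import Pool.Agent.H49.KE.R7
import Pool.Agent.H49.KE.G2
import Pool.Agent.H49.KE.G3

namespace H49KE

open H49KA H49KB H49KC

universe u v w

variable {F : Type} [Field F] [Finite F]

/-- Proof. Let `q = |F|` and let `W` be as in `fixed_split`; it is enough to bound the trace of
`m` on `W`. Apply `reduce_irr` to `subRep ρ W _` with `r = 4 / sqrt q`. An irreducible invariant
subspace `W'` of `W` is not trivial (otherwise its vectors are fixed), so by `sl2_deg`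
`finrank W' ≥ (q - 1) / 2`; and by `cent_bound` and `sl2_cent` `‖trace‖ ^ 2 ≤ 2 q`. Hence
`sqrt q * ‖trace‖ ≤ sqrt 2 * q ≤ 2 (q - 1) ≤ 4 finrank W'` for `q ≥ 8`. -/
theorem sl2_rep (hq : 8 ≤ Nat.card F) {E : Type v} [AddCommGroup E] [Module ℂ E]
    [FiniteDimensional ℂ E] (ρ : Matrix.SpecialLinearGroup (Fin 2) F →* Module.End ℂ E)
    (m : Matrix.SpecialLinearGroup (Fin 2) F) (hm : ∃ g, g * m ≠ m * g) :
    Real.sqrt (Nat.card F) *
      ‖LinearMap.trace ℂ E (ρ m) - Module.finrank ℂ (Fx ρ ⊤)‖ ≤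
      4 * ((Module.finrank ℂ E : ℝ) - Module.finrank ℂ (Fx ρ ⊤)) := by
  have : Finite (Matrix.SpecialLinearGroup (Fin 2) F) :=
    inferInstanceAs (Finite {A : Matrix (Fin 2) (Fin 2) F // A.det = 1})
  obtain ⟨W, hW, hfix, hdim, htr⟩ := fixed_split ρ
  set q : ℝ := (Nat.card F : ℝ) with hq'
  have hq8 : (8 : ℝ) ≤ q := by rw [hq']; exact_mod_cast hq
  have hq0 : 0 < q := by linarith
  have hsq : 0 < Real.sqrt q := Real.sqrt_pos.2 hq0
  have hsq2 : Real.sqrt q ^ 2 = q := Real.sq_sqrt hq0.le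
  have hdim' : (Module.finrank ℂ E : ℝ) - Module.finrank ℂ (Fx ρ ⊤) = Module.finrank ℂ W := by
    rw [← hdim]
    push_cast
    ring
  rw [htr m, add_sub_cancel_right, hdim']
  have key : ‖LinearMap.trace ℂ W (subRep ρ W hW m)‖ ≤
      4 / Real.sqrt q * Module.finrank ℂ W := by
    refine reduce_irr (subRep ρ W hW) m _ fun W' hW' hirr => ?_
    have hne : ∃ g, subRep (subRep ρ W hW) W' hW' g ≠ 1 := by
      by_contra hcon
      push Not at hcon
      have : Nontrivial W' := hirr.1
      obtain ⟨w, hw⟩ := exists_ne (0 : W')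
      apply hw
      have h1 : ((w : W) : E) = 0 := by
        refine hfix _ (w : W).2 fun g => ?_
        have h2 := congrArg (fun f => ((f w : W') : W)) (hcon g)
        have h3 := congrArg (Subtype.val) h2
        exact h3
      apply Subtype.ext
      apply Subtype.ext
      exact h1
    have hdeg := sl2_deg (subRep (subRep ρ W hW) W' hW') hne
    have hcent := cent_bound (subRep (subRep ρ W hW) W' hW') hirr m
    have hcard := sl2_cent m hm
    set t : ℝ := ‖LinearMap.trace ℂ W' (subRep (subRep ρ W hW) W' hW' m)‖ with ht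
    set n : ℝ := (Module.finrank ℂ W' : ℝ) with hn
    have ht2 : t ^ 2 ≤ 2 * q := by
      refine hcent.trans ?_
      rw [hq']
      exact_mod_cast hcard
    have hn2 : q ≤ 2 * n + 1 := by
      rw [hq', hn]
      exact_mod_cast hdeg
    by_contra hlt
    push Not at hlt
    have h0 : 0 ≤ 4 / Real.sqrt q * n := by
      have : 0 ≤ n := by rw [hn]; positivity
      positivity
    have h1 : (4 / Real.sqrt q * n) ^ 2 < t ^ 2 := pow_lt_pow_left₀ hlt h0 two_ne_zero
    have h2 : (4 / Real.sqrt q * n) ^ 2 = 16 * n ^ 2 / q := by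
      rw [mul_pow, div_pow, hsq2]
      ring
    rw [h2] at h1
    have h3 : 16 * n ^ 2 / q < 2 * q := lt_of_lt_of_le h1 ht2
    rw [div_lt_iff₀ hq0] at h3
    nlinarith
  calc Real.sqrt q * ‖LinearMap.trace ℂ W (subRep ρ W hW m)‖
      ≤ Real.sqrt q * (4 / Real.sqrt q * Module.finrank ℂ W) :=
        mul_le_mul_of_nonneg_left key hsq.le
    _ = 4 * Module.finrank ℂ W := by
        field_simp

end H49KE
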