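import Pool.Agent.H49.KE.Defs
import Pool.Agent.H49.KE.R2
import Pool.Agent.H49.KE.G2
import Pool.Agent.H49.KE.G4

namespace H49KE

open H49KA H49KB H49KC

universe u v w

variable {F : Type} [Field F] [Finite F] {S : Type u} [Group S] [Finite S]
  {E : Type v} [AddCommGroup E] [Module ℂ E] [FiniteDimensional ℂ E]

omit [Finite F] in
private theorem up_zero : up (0 : F) = 1 := by
  apply Subtype.ext
  ext i j
  fin_cases i <;> fin_cases j <;> simp [up]

omit [Finite F] in
private theorem lo_zero : lo (0 : F) = 1 := by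
  apply Subtype.ext
  ext i j
  fin_cases i <;> fin_cases j <;> simp [lo]

private theorem alg_aux (s x : ℝ) (hs : s ≠ 0) :
    s * ((s * s)⁻¹ * (x + (s * s) * (4 * x / s))) = s⁻¹ * x + 4 * x := by
  field_simp

/-- Proof. Let `φ` be the homomorphism in `Opp` and `ρ' = ρ.comp φ`; let
`N = finrank (Fx ρ' ⊤)`. Vectors fixed by the image of `φ` are fixed by `A` and `B`: first part.
An element `a ≠ 1` of `A` is `φ (up s)` with `s ≠ 0` (since `up 0 = 1`), `b ≠ 1` in `B` is
`φ (lo t)` with `t ≠ 0`; so the parts three to five are `sl2_rep` for the elements of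
`sl2_noncentral`. Second part: the dimension of `Fx ρ A` is
`|A|⁻¹ ∑_a trace (ρ a)` (`av_basic`). So `finrank (Fx ρ A) - N = q⁻¹ ((n - N) + ∑_{a ≠ 1} (trace - N))`
which is at most `(q⁻¹ + 4 / sqrt q) (n - N)`; multiply by `sqrt q`. -/
theorem opp_traces (hq : 8 ≤ Nat.card F) (ρ : S →* Module.End ℂ E) (A B : Subgroup S)
    (hA : Nat.card A = Nat.card F) (h : Opp F A B) :
    ∃ N : ℕ, N ≤ Module.finrank ℂ (Fx ρ A ⊓ Fx ρ B : Submodule ℂ E) ∧
      Real.sqrt (Nat.card F) * ((Module.finrank ℂ (Fx ρ A) : ℝ) - N) ≤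
        5 * ((Module.finrank ℂ E : ℝ) - N) ∧
      (∀ a ∈ A, a ≠ 1 → Real.sqrt (Nat.card F) * ‖LinearMap.trace ℂ E (ρ a) - N‖ ≤
        4 * ((Module.finrank ℂ E : ℝ) - N)) ∧
      (∀ a ∈ A, ∀ b ∈ B, a ≠ 1 → b ≠ 1 →
        Real.sqrt (Nat.card F) * ‖LinearMap.trace ℂ E (ρ (a * b)) - N‖ ≤
          4 * ((Module.finrank ℂ E : ℝ) - N)) ∧
      (∀ a ∈ A, ∀ b ∈ B, a ≠ 1 → b ≠ 1 →
        Real.sqrt (Nat.card F) * ‖LinearMap.trace ℂ E (ρ (a⁻¹ * b * a * b⁻¹)) - N‖ ≤
          4 * ((Module.finrank ℂ E : ℝ) - N)) := by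
  obtain ⟨φ, hφA, hφB⟩ := h
  set N : ℕ := Module.finrank ℂ (Fx (ρ.comp φ) ⊤) with hN
  have hA' : ∀ a ∈ A, a ≠ 1 → ∃ s : F, s ≠ 0 ∧ φ (up s) = a := by
    intro a ha ha1
    obtain ⟨s, hs⟩ := (hφA a).1 ha
    refine ⟨s, ?_, hs⟩
    rintro rfl
    rw [up_zero, map_one] at hs
    exact ha1 hs.symm
  have hB' : ∀ b ∈ B, b ≠ 1 → ∃ t : F, t ≠ 0 ∧ φ (lo t) = b := by
    intro b hb hb1
    obtain ⟨t, ht⟩ := (hφB b).1 hb
    refine ⟨t, ?_, ht⟩
    rintro rfl
    rw [lo_zero, map_one] at ht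
    exact hb1 ht.symm
  have h3 : ∀ a ∈ A, a ≠ 1 → Real.sqrt (Nat.card F) * ‖LinearMap.trace ℂ E (ρ a) - N‖ ≤
      4 * ((Module.finrank ℂ E : ℝ) - N) := by
    intro a ha ha1
    obtain ⟨s, hs, rfl⟩ := hA' a ha ha1
    exact sl2_rep hq (ρ.comp φ) (up s) (sl2_noncentral s 1 hs one_ne_zero).1
  have hNn : (N : ℝ) ≤ Module.finrank ℂ E := by
    exact_mod_cast Submodule.finrank_le (Fx (ρ.comp φ) ⊤)
  refine ⟨N, ?_, ?_, h3, ?_, ?_⟩
  · apply Submodule.finrank_mono
    intro v hv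
    refine ⟨?_, ?_⟩
    · intro a ha
      obtain ⟨s, rfl⟩ := (hφA a).1 ha
      exact hv (up s) (Subgroup.mem_top _)
    · intro b hb
      obtain ⟨t, rfl⟩ := (hφB b).1 hb
      exact hv (lo t) (Subgroup.mem_top _)
  · have hfin : Fintype A := Fintype.ofFinite A
    set q : ℝ := (Nat.card F : ℝ) with hq'
    have hq8 : (8 : ℝ) ≤ q := by rw [hq']; exact_mod_cast hq
    have hq0 : 0 < q := by linarith
    have hsq : 0 < Real.sqrt q := Real.sqrt_pos.2 hq0
    have hsq2 : Real.sqrt q * Real.sqrt q = q := Real.mul_self_sqrt hq0.le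
    have hsq1 : 1 ≤ Real.sqrt q := by
      rw [Real.one_le_sqrt]
      linarith
    set n : ℝ := (Module.finrank ℂ E : ℝ) with hn
    have htr : (Module.finrank ℂ (Fx ρ A) : ℂ) =
        (Nat.card F : ℂ)⁻¹ * ∑ a : A, LinearMap.trace ℂ E (ρ (a : S)) := by
      rw [← (av_basic ρ A).2.2.1, av, finsum_eq_sum_of_fintype, map_smul, map_sum, hA,
        smul_eq_mul]
    have hcard : (Fintype.card A : ℂ) = (Nat.card F : ℂ) := by
      rw [← hA, Nat.card_eq_fintype_card]
    have hqC : (Nat.card F : ℂ) ≠ 0 := by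
      have : (Nat.card F : ℕ) ≠ 0 := by omega
      exact_mod_cast this
    have hdiff : (Module.finrank ℂ (Fx ρ A) : ℂ) - (N : ℂ) =
        (Nat.card F : ℂ)⁻¹ * ∑ a : A, (LinearMap.trace ℂ E (ρ (a : S)) - (N : ℂ)) := by
      rw [htr, Finset.sum_sub_distrib, Finset.sum_const, Finset.card_univ, nsmul_eq_mul, hcard]
      field_simp
    have hnorm : ‖∑ a : A, (LinearMap.trace ℂ E (ρ (a : S)) - (N : ℂ))‖ ≤
        (n - N) + q * (4 * (n - N) / Real.sqrt q) := by
      classical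
      calc ‖∑ a : A, (LinearMap.trace ℂ E (ρ (a : S)) - (N : ℂ))‖
          ≤ ∑ a : A, ‖LinearMap.trace ℂ E (ρ (a : S)) - (N : ℂ)‖ := norm_sum_le _ _
        _ ≤ ∑ a : A, ((if a = 1 then (n - N) else 0) + 4 * (n - N) / Real.sqrt q) := by
            apply Finset.sum_le_sum
            intro a _
            have hnn : 0 ≤ n - N := by linarith
            by_cases ha : a = 1
            · rw [if_pos ha, ha]
              have h1 : LinearMap.trace ℂ E (ρ ((1 : A) : S)) = (n : ℂ) := by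
                rw [Subgroup.coe_one, map_one, LinearMap.trace_one, hn]
                simp
              rw [h1]
              have h2 : ((n : ℂ) - (N : ℂ)) = ((n - N : ℝ) : ℂ) := by push_cast; ring
              rw [h2, Complex.norm_real, Real.norm_eq_abs, abs_of_nonneg hnn]
              have : 0 ≤ 4 * (n - N) / Real.sqrt q := by positivity
              linarith
            · rw [if_neg ha, zero_add, le_div_iff₀ hsq, mul_comm]
              refine h3 a a.2 ?_
              intro hcon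
              exact ha (Subtype.ext hcon)
        _ = (n - N) + q * (4 * (n - N) / Real.sqrt q) := by
            rw [Finset.sum_add_distrib, Finset.sum_ite_eq', if_pos (Finset.mem_univ _),
              Finset.sum_const, Finset.card_univ, nsmul_eq_mul]
            have : (Fintype.card A : ℝ) = q := by
              rw [hq', ← hA, Nat.card_eq_fintype_card]
            rw [this]
    have hmain : (Module.finrank ℂ (Fx ρ A) : ℝ) - N ≤
        q⁻¹ * ((n - N) + q * (4 * (n - N) / Real.sqrt q)) := by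
      have e1 : (((Module.finrank ℂ (Fx ρ A) : ℝ) - N : ℝ) : ℂ) =
          (Module.finrank ℂ (Fx ρ A) : ℂ) - (N : ℂ) := by push_cast; ring
      have e2 : |(Module.finrank ℂ (Fx ρ A) : ℝ) - N| =
          ‖(Module.finrank ℂ (Fx ρ A) : ℂ) - (N : ℂ)‖ := by
        rw [← e1, Complex.norm_real, Real.norm_eq_abs]
      calc (Module.finrank ℂ (Fx ρ A) : ℝ) - N
          ≤ |(Module.finrank ℂ (Fx ρ A) : ℝ) - N| := le_abs_self _
        _ = q⁻¹ * ‖∑ a : A, (LinearMap.trace ℂ E (ρ (a : S)) - (N : ℂ))‖ := by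
            rw [e2, hdiff, norm_mul, norm_inv, Complex.norm_natCast]
        _ ≤ _ := by
            apply mul_le_mul_of_nonneg_left hnorm
            positivity
    have hnn : 0 ≤ n - N := by linarith
    calc Real.sqrt q * ((Module.finrank ℂ (Fx ρ A) : ℝ) - N)
        ≤ Real.sqrt q * (q⁻¹ * ((n - N) + q * (4 * (n - N) / Real.sqrt q))) :=
          mul_le_mul_of_nonneg_left hmain hsq.le
      _ = (Real.sqrt q)⁻¹ * (n - N) + 4 * (n - N) := by
          have := alg_aux (Real.sqrt q) (n - N) hsq.ne'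
          rw [hsq2] at this
          exact this
      _ ≤ 5 * (n - N) := by
          have : (Real.sqrt q)⁻¹ ≤ 1 := inv_le_one_of_one_le₀ hsq1
          nlinarith
  · intro a ha b hb ha1 hb1
    obtain ⟨s, hs, rfl⟩ := hA' a ha ha1
    obtain ⟨t, ht, rfl⟩ := hB' b hb hb1
    have := sl2_rep hq (ρ.comp φ) (up s * lo t) (sl2_noncentral s t hs ht).2.1
    rw [MonoidHom.comp_apply, map_mul] at this
    exact this
  · intro a ha b hb ha1 hb1
    obtain ⟨s, hs, rfl⟩ := hA' a ha ha1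
    obtain ⟨t, ht, rfl⟩ := hB' b hb hb1
    have := sl2_rep hq (ρ.comp φ) ((up s)⁻¹ * lo t * up s * (lo t)⁻¹)
      (sl2_noncentral s t hs ht).2.2
    have e : φ ((up s)⁻¹ * lo t * up s * (lo t)⁻¹) =
        (φ (up s))⁻¹ * φ (lo t) * φ (up s) * (φ (lo t))⁻¹ := by
      simp only [map_mul, map_inv]
    rw [MonoidHom.comp_apply, e] at this
    exact this

end H49KE
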