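import Pool.Agent.H49.KE.Defs
import Pool.Agent.H49.KE.R1
import Pool.Agent.H49.KE.R2
import Pool.Agent.H49.KA.C1

namespace H49KE

open H49KA H49KB H49KC

universe u v w

variable {S : Type u} [Group S] [Finite S] {E : Type v} [AddCommGroup E] [Module ℂ E]
  [FiniteDimensional ℂ E]

omit [FiniteDimensional ℂ E] in
private theorem R3_sa (ρ : S →* Module.End ℂ E) (β : E →ₗ⋆[ℂ] E →ₗ[ℂ] ℂ)
    (hinv : ∀ k v w, β (ρ k v) (ρ k w) = β v w) (A : Subgroup S) (v w : E) :
    β (av ρ A v) w = β v (av ρ A w) := by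
  classical
  have : Fintype A := Fintype.ofFinite A
  have h1 : ∀ (a : S), β (ρ a v) w = β v (ρ a⁻¹ w) := by
    intro a
    have h2 := hinv a v (ρ a⁻¹ w)
    rw [← Module.End.mul_apply, ← map_mul, mul_inv_cancel, map_one, Module.End.one_apply] at h2
    exact h2
  unfold av
  rw [finsum_eq_sum_of_fintype, LinearMap.smul_apply, LinearMap.smul_apply, LinearMap.sum_apply,
    LinearMap.sum_apply, LinearMap.map_smulₛₗ, LinearMap.smul_apply, map_sum, LinearMap.sum_apply,
    map_smul, map_sum]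
  congr 1
  · rw [map_inv₀]
    simp
  · rw [← Equiv.sum_comp (Equiv.inv A) (fun a : A => β v (ρ (a : S) w))]
    refine Finset.sum_congr rfl fun a _ => ?_
    rw [h1]
    rfl

omit [FiniteDimensional ℂ E] [Finite S] in
private theorem R3_fx (ρ : S →* Module.End ℂ E) (A B : Subgroup S) :
    Fx ρ (A ⊔ B) = Fx ρ A ⊓ Fx ρ B := by
  apply le_antisymm
  · intro v hv
    exact ⟨fun a ha => hv a (le_sup_left (a := A) (b := B) ha),
      fun b hb => hv b (le_sup_right (a := A) (b := B) hb)⟩
  · rintro v ⟨hA, hB⟩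
    let K : Subgroup S :=
      { carrier := {g | ρ g v = v}
        mul_mem' := by
          intro a b ha hb
          show ρ (a * b) v = v
          rw [map_mul, Module.End.mul_apply, hb, ha]
        one_mem' := by
          show ρ 1 v = v
          rw [map_one, Module.End.one_apply]
        inv_mem' := by
          intro a ha
          show ρ a⁻¹ v = v
          conv_lhs => rw [← (show ρ a v = v from ha)]
          rw [← Module.End.mul_apply, ← map_mul, inv_mul_cancel, map_one, Module.End.one_apply] }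
    have hle : A ⊔ B ≤ K := sup_le (fun a ha => hA a ha) (fun b hb => hB b hb)
    intro g hg
    exact hle hg

/-- Proof. Let `B` be the form of `H49KA.exists_form ρ`. For every subgroup `A` the operator
`av ρ A` is selfadjoint: `B (ρ a v) w = B v (ρ a⁻¹ w)` by invariance; reindex `a ↦ a⁻¹`. Put
`P = av ρ A`, `P' = av ρ B`, `H = A ⊔ B`, `R = av ρ H`. By `av_basic` (last part) `P R = R P = R`
and `P' R = R P' = R`, also `P P = P`, `P' P' = P'`, `R R = R`. With `T = P' P - R` and
`T' = P P' - R` (adjoint of `T`) we get `T' T = P P' P - R`, so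
`trace (T' T) = trace (P P') - trace R`, and `tr_psd` gives
`re (trace (P P')) ≥ re (trace R) = finrank (Fx ρ H)`. Finally `Fx ρ H = Fx ρ A ⊓ Fx ρ B` (the
stabiliser of a vector is a subgroup). -/
theorem av_pair (ρ : S →* Module.End ℂ E) (A B : Subgroup S) :
    (Module.finrank ℂ (Fx ρ A ⊓ Fx ρ B : Submodule ℂ E) : ℝ) ≤
      (LinearMap.trace ℂ E (av ρ A * av ρ B)).re := by
  obtain ⟨β, hinv, hpos, him⟩ := H49KA.exists_form ρ
  set P := av ρ A with hP
  set P' := av ρ B with hP'
  set R := av ρ (A ⊔ B) with hR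
  obtain ⟨-, -, -, -, hAH⟩ := av_basic ρ A
  obtain ⟨-, -, -, -, hBH⟩ := av_basic ρ B
  obtain ⟨-, -, htr, -, hHH⟩ := av_basic ρ (A ⊔ B)
  obtain ⟨hPR, hRP⟩ := hAH (A ⊔ B) le_sup_left
  obtain ⟨hPR', hRP'⟩ := hBH (A ⊔ B) le_sup_right
  obtain ⟨hPP, -⟩ := hAH A le_rfl
  obtain ⟨hPP', -⟩ := hBH B le_rfl
  obtain ⟨hRR, -⟩ := hHH (A ⊔ B) le_rfl
  have hadj : ∀ v w, β ((P' * P - R) v) w = β v ((P * P' - R) w) := by
    intro v w
    rw [LinearMap.sub_apply, LinearMap.sub_apply, Module.End.mul_apply, Module.End.mul_apply,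
      map_sub, LinearMap.sub_apply, map_sub, R3_sa ρ β hinv, R3_sa ρ β hinv, R3_sa ρ β hinv]
  obtain ⟨h1, -, -, -⟩ := tr_psd β hpos him (P' * P - R) (P * P' - R) hadj
  have h2 : (P * P' - R) * (P' * P - R) = P * P' * P - R := by
    have e1 : P * P' * (P' * P) = P * P' * P := by
      rw [mul_assoc, ← mul_assoc P' P' P, hPP', ← mul_assoc]
    have e2 : P * P' * R = R := by rw [mul_assoc, hPR', hPR]
    have e3 : R * (P' * P) = R := by rw [← mul_assoc, hRP', hRP]
    rw [sub_mul, mul_sub, mul_sub, e1, e2, e3, hRR]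
    abel
  rw [h2, map_sub] at h1
  have h3 : LinearMap.trace ℂ E (P * P' * P) = LinearMap.trace ℂ E (P * P') := by
    rw [LinearMap.trace_mul_comm, ← mul_assoc, hPP]
  rw [h3, Complex.sub_re, htr, Complex.natCast_re] at h1
  rw [← R3_fx]
  linarith

end H49KE
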