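import Pool.Agent.H49.KE.Defs
import Pool.Agent.H49.KE.R2
import Pool.Agent.H49.KE.R3
import Pool.Agent.H49.KE.R5
import Pool.Agent.H49.KE.Q1

namespace H49KE

open H49KA H49KB H49KC

universe u v w

variable {F : Type} [Field F] [Finite F] {S : Type u} [Group S] [Finite S]
  {E : Type v} [AddCommGroup E] [Module ℂ E] [FiniteDimensional ℂ E]

/-- The final computation. -/
private lemma q2_arith {q m k f n c r T : ℝ} (hr : r * r = q) (hr10 : 10 < r) (hm : 0 < m)
    (hk0 : 0 ≤ k) (hkm : k ≤ m) (hf : f < n) (hn : 0 < n) (hqk : q * k ≤ c * m)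
    (hT : n * T = m * (f * f))
    (hlow : (m - k) * ((r * f - 5 * n) / (r - 5)) + k * (2 * f - n) ≤ T) :
    r * f ≤ (10 + c) * n := by
  have h5 : 0 < r - 5 := by linarith
  obtain ⟨B, hB⟩ : ∃ B : ℝ, B = r / (r - 5) := ⟨_, rfl⟩
  have hB1 : B * (r - 5) = r := by rw [hB, div_mul_cancel₀ _ h5.ne']
  have hA : (r * f - 5 * n) / (r - 5) = n - B * (n - f) := by
    rw [div_eq_iff h5.ne']
    have : (n - B * (n - f)) * (r - 5) = n * (r - 5) - (B * (r - 5)) * (n - f) := by ring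
    rw [this, hB1]
    ring
  have hB2 : B * r ≤ r + 10 := by
    rw [hB, div_mul_eq_mul_div, div_le_iff₀ h5]
    nlinarith
  rw [hA] at hlow
  have h1 : n * ((m - k) * (n - B * (n - f)) + k * (2 * f - n)) ≤ m * (f * f) := by
    rw [← hT]
    exact mul_le_mul_of_nonneg_left hlow hn.le
  have hy : 0 < n - f := by linarith
  have h2 : (n - f) * (2 * m * n - m * (n - f)) ≤ (n - f) * ((m - k) * n * B + 2 * k * n) := by
    nlinarith
  have h3 : 2 * m * n - m * (n - f) ≤ (m - k) * n * B + 2 * k * n := le_of_mul_le_mul_left h2 hy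
  have hr0 : 0 < r := by linarith
  have h4 : (2 * m * n - m * (n - f)) * r ≤ ((m - k) * n * B + 2 * k * n) * r :=
    mul_le_mul_of_nonneg_right h3 hr0.le
  have h6 : (m - k) * n * (B * r) ≤ (m - k) * n * (r + 10) :=
    mul_le_mul_of_nonneg_left hB2 (mul_nonneg (by linarith) hn.le)
  have h7 : r * k ≤ c * m := by
    have h8 : r * k ≤ q * k := by
      refine mul_le_mul_of_nonneg_right ?_ hk0
      rw [← hr]
      nlinarith
    linarith
  have h9 : n * (r * k) ≤ n * (c * m) := mul_le_mul_of_nonneg_left h7 hn.le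
  have h10 : 0 ≤ k * n := mul_nonneg hk0 hn.le
  have h11 : m * (r * f) ≤ m * ((10 + c) * n) := by
    nlinarith
  exact le_of_mul_le_mul_left h11 hm

/-- Conjugate subgroups have fixed spaces of the same dimension. -/
private lemma q2_conj (ρ : S →* Module.End ℂ E) (A : Subgroup S) (g : S) :
    Module.finrank ℂ (Fx ρ (A.map (MulAut.conj g).toMonoidHom)) =
      Module.finrank ℂ (Fx ρ A) := by
  have h1 := (av_basic ρ (A.map (MulAut.conj g).toMonoidHom)).2.2.1
  have h2 := (av_basic ρ A).2.2.1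
  rw [(av_basic ρ A).2.2.2.1 g] at h1
  have h3 : LinearMap.trace ℂ E (ρ g * av ρ A * ρ g⁻¹) = LinearMap.trace ℂ E (av ρ A) := by
    rw [LinearMap.trace_mul_comm, ← mul_assoc, ← map_mul, inv_mul_cancel, map_one, one_mul]
  rw [h3, h2] at h1
  exact_mod_cast h1.symm

/-- Proof. Let `q = |F|`, `n = finrank E`, `f = finrank (Fx ρ A)`. If `q ≤ 100` the claim is
trivial (`sqrt q ≤ 10`, `f ≤ n`). Let `q > 100` and put `x = 1 - f / n`; `0 < x ≤ 1` since `A` acts
nontrivially. For `g : S` let `A_g = A.map (MulAut.conj g)` and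
`t g = re (trace (ρ g * av ρ A * ρ g⁻¹ * av ρ A))`. By `schur_avg` (`P = Q = av ρ A`, whose trace is
`f` by `av_basic`) `n ∑_g t g = |S| f ^ 2`, that is `∑_g t g = |S| n (1 - x) ^ 2`. By `av_basic` (4)
and `av_pair`, `t g ≥ finrank (Fx ρ A_g ⊓ Fx ρ A)`. (a) Always `finrank (Fx ρ A_g ⊓ Fx ρ A) ≥
2 f - n = n (1 - 2 x)` (`Fx ρ A_g` is the image of `Fx ρ A` under `ρ g`, so it has the same dimension).
(b) If `Opp F A A_g`, let `N` be as in `opp_traces`; with `δ = 5 / sqrt q ≤ 1/2` we get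
`f - N ≤ δ (n - N)`, so `N ≥ (f - δ n) / (1 - δ) = n (1 - x / (1 - δ))`, and `t g ≥ N`. Let `κ` be the
proportion of the `g` with `¬ Opp F A A_g`; `κ ≤ c / q`. Summing,
`(1 - x) ^ 2 ≥ (1 - κ) (1 - x / (1 - δ)) + κ (1 - 2 x)`. Expand and divide by `x > 0`:
`2 - x ≤ (1 - κ) / (1 - δ) + 2 κ ≤ 1 / (1 - δ) + κ ≤ 1 + 2 δ + κ` (using `1/(1-δ) ≥ 1` and
`1/(1-δ) ≤ 1 + 2 δ`). So `f / n = 1 - x ≤ 10 / sqrt q + c / q`, and `sqrt q * f ≤ (10 + c) n`. -/
theorem root_fixed (c : ℕ) (ρ : S →* Module.End ℂ E) (hρ : Irr ρ) (A : Subgroup S)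
    (hA : Nat.card A = Nat.card F)
    (hr : Nat.card F * Nat.card {g : S // ¬ Opp F A (A.map (MulAut.conj g).toMonoidHom)} ≤
      c * Nat.card S) (hne : ∃ a ∈ A, ρ a ≠ 1) :
    Real.sqrt (Nat.card F) * Module.finrank ℂ (Fx ρ A) ≤ (10 + c) * Module.finrank ℂ E := by
  classical
  haveI : Nontrivial E := hρ.1
  haveI : Fintype S := Fintype.ofFinite S
  have hn : 0 < Module.finrank ℂ E := Module.finrank_pos
  have hf : Module.finrank ℂ (Fx ρ A) < Module.finrank ℂ E := by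
    refine Submodule.finrank_lt fun htop => ?_
    obtain ⟨a, ha, hna⟩ := hne
    apply hna
    ext v
    have hv : v ∈ Fx ρ A := by rw [htop]; exact Submodule.mem_top
    exact hv a ha
  have hnR : (0 : ℝ) < Module.finrank ℂ E := by exact_mod_cast hn
  have hfR : (Module.finrank ℂ (Fx ρ A) : ℝ) < Module.finrank ℂ E := by exact_mod_cast hf
  have hf0 : (0 : ℝ) ≤ Module.finrank ℂ (Fx ρ A) := Nat.cast_nonneg _
  have hc0 : (0 : ℝ) ≤ c := Nat.cast_nonneg _
  have hq0 : (0 : ℝ) ≤ Nat.card F := Nat.cast_nonneg _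
  by_cases hq : Real.sqrt (Nat.card F) ≤ 10
  · have h1 : Real.sqrt (Nat.card F) * Module.finrank ℂ (Fx ρ A) ≤
        10 * Module.finrank ℂ E := by
      refine mul_le_mul hq hfR.le hf0 (by norm_num)
    nlinarith
  push Not at hq
  have hrr : Real.sqrt (Nat.card F) * Real.sqrt (Nat.card F) = Nat.card F :=
    Real.mul_self_sqrt hq0
  have hq8 : 8 ≤ Nat.card F := by
    have h1 : (8 : ℝ) ≤ Nat.card F := by
      rw [← hrr]
      nlinarith
    exact_mod_cast h1
  -- the traces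
  obtain ⟨t, ht⟩ : ∃ t : S → ℝ,
      ∀ g, t g = (LinearMap.trace ℂ E (ρ g * av ρ A * ρ g⁻¹ * av ρ A)).re :=
    ⟨_, fun _ => rfl⟩
  have hsum : (Module.finrank ℂ E : ℝ) * ∑ g : S, t g =
      Nat.card S * ((Module.finrank ℂ (Fx ρ A) : ℝ) * Module.finrank ℂ (Fx ρ A)) := by
    have h1 := schur_avg ρ hρ (av ρ A) (av ρ A)
    rw [(av_basic ρ A).2.2.1, finsum_eq_sum_of_fintype] at h1
    have h2 := congrArg Complex.re h1
    have e1 : (((Module.finrank ℂ E : ℕ) : ℂ) *
        ∑ g : S, LinearMap.trace ℂ E (ρ g * av ρ A * ρ g⁻¹ * av ρ A)).re =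
        (Module.finrank ℂ E : ℝ) * ∑ g : S, t g := by
      rw [← Complex.ofReal_natCast, Complex.re_ofReal_mul, Complex.re_sum]
      congr 1
      exact Finset.sum_congr rfl fun g _ => (ht g).symm
    have e2 : (((Nat.card S : ℕ) : ℂ) * (((Module.finrank ℂ (Fx ρ A) : ℕ) : ℂ) *
        ((Module.finrank ℂ (Fx ρ A) : ℕ) : ℂ))).re =
        Nat.card S * ((Module.finrank ℂ (Fx ρ A) : ℝ) * Module.finrank ℂ (Fx ρ A)) := by
      rw [← Complex.ofReal_natCast, ← Complex.ofReal_natCast, ← Complex.ofReal_mul,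
        ← Complex.ofReal_mul, Complex.ofReal_re]
    rw [e1, e2] at h2
    exact h2
  have hlow : ∀ g, (Module.finrank ℂ (Fx ρ A ⊓ Fx ρ (A.map (MulAut.conj g).toMonoidHom) :
      Submodule ℂ E) : ℝ) ≤ t g := by
    intro g
    rw [ht, ← (av_basic ρ A).2.2.2.1 g, inf_comm]
    exact av_pair ρ _ _
  have hlow1 : ∀ g, 2 * (Module.finrank ℂ (Fx ρ A) : ℝ) - Module.finrank ℂ E ≤ t g := by
    intro g
    refine le_trans ?_ (hlow g)
    have h1 := Submodule.finrank_sup_add_finrank_inf_eq (Fx ρ A)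
      (Fx ρ (A.map (MulAut.conj g).toMonoidHom))
    have h2 := Submodule.finrank_le (Fx ρ A ⊔ Fx ρ (A.map (MulAut.conj g).toMonoidHom))
    rw [q2_conj] at h1
    have h3 : 2 * Module.finrank ℂ (Fx ρ A) ≤ Module.finrank ℂ (Fx ρ A ⊓
      Fx ρ (A.map (MulAut.conj g).toMonoidHom) : Submodule ℂ E) + Module.finrank ℂ E := by
      omega
    have h4 : (2 : ℝ) * Module.finrank ℂ (Fx ρ A) ≤ Module.finrank ℂ (Fx ρ A ⊓
      Fx ρ (A.map (MulAut.conj g).toMonoidHom) : Submodule ℂ E) + Module.finrank ℂ E := by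
      exact_mod_cast h3
    linarith
  have h5 : 0 < Real.sqrt (Nat.card F) - 5 := by linarith
  have hlow2 : ∀ g, Opp F A (A.map (MulAut.conj g).toMonoidHom) →
      (Real.sqrt (Nat.card F) * Module.finrank ℂ (Fx ρ A) - 5 * Module.finrank ℂ E) /
        (Real.sqrt (Nat.card F) - 5) ≤ t g := by
    intro g hg
    obtain ⟨N, hN, h1, -⟩ := opp_traces hq8 ρ A _ hA hg
    refine le_trans ?_ (hlow g)
    have hN' : (N : ℝ) ≤ Module.finrank ℂ (Fx ρ A ⊓
      Fx ρ (A.map (MulAut.conj g).toMonoidHom) : Submodule ℂ E) := by exact_mod_cast hN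
    refine le_trans ?_ hN'
    rw [div_le_iff₀ h5]
    linarith
  have hS : (0 : ℝ) < Nat.card S := by exact_mod_cast Nat.card_pos
  obtain ⟨k, hk⟩ : ∃ k : ℕ, k = Nat.card {g : S // ¬ Opp F A
    (A.map (MulAut.conj g).toMonoidHom)} := ⟨_, rfl⟩
  rw [← hk] at hr
  have hkc : k = (Finset.univ.filter fun g : S => ¬ Opp F A
    (A.map (MulAut.conj g).toMonoidHom)).card := by
    rw [hk, Nat.card_eq_fintype_card, Fintype.card_subtype]
  have hkS : k ≤ Nat.card S := by
    rw [hkc, Nat.card_eq_fintype_card]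
    exact Finset.card_le_univ _
  have hcc : (Finset.univ.filter fun g : S => Opp F A
    (A.map (MulAut.conj g).toMonoidHom)).card + k = Nat.card S := by
    rw [hkc, Finset.card_filter_add_card_filter_not, Nat.card_eq_fintype_card, Finset.card_univ]
  have hccR : ((Finset.univ.filter fun g : S => Opp F A
    (A.map (MulAut.conj g).toMonoidHom)).card : ℝ) = Nat.card S - k := by
    rw [← hcc]
    push_cast
    ring
  have htot : ((Nat.card S : ℝ) - k) *
      ((Real.sqrt (Nat.card F) * Module.finrank ℂ (Fx ρ A) - 5 * Module.finrank ℂ E) /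
        (Real.sqrt (Nat.card F) - 5)) +
      k * (2 * Module.finrank ℂ (Fx ρ A) - Module.finrank ℂ E) ≤ ∑ g : S, t g := by
    rw [← Finset.sum_filter_add_sum_filter_not Finset.univ
      (fun g : S => Opp F A (A.map (MulAut.conj g).toMonoidHom)), ← hccR]
    refine add_le_add ?_ ?_
    · rw [← nsmul_eq_mul]
      refine Finset.card_nsmul_le_sum _ _ _ fun g hg => ?_
      exact hlow2 g (Finset.mem_filter.1 hg).2
    · rw [hkc, ← nsmul_eq_mul]
      exact Finset.card_nsmul_le_sum _ _ _ fun g _ => hlow1 g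
  refine q2_arith (m := Nat.card S) (k := k) hrr hq hS (Nat.cast_nonneg _)
    (by exact_mod_cast hkS) hfR hnR ?_ hsum htot
  exact_mod_cast hr

end H49KE
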