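import Pool.Agent.H49.KE.Defs
import Pool.Agent.H49.KE.Q1

namespace H49KE

open H49KA H49KB H49KC

universe u v w

variable {F : Type} [Field F] [Finite F] {S : Type u} [Group S] [Finite S]
  {E : Type v} [AddCommGroup E] [Module ℂ E] [FiniteDimensional ℂ E]

/-- Proof. With `N` of `opp_traces`, `N ≤ finrank (Fx ρ A ⊓ Fx ρ B) ≤ finrank (Fx ρ A)`, so
`sqrt q * N ≤ (10 + c) n`; each trace is at most `N + (4 / sqrt q) (n - N)` in absolute value. -/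
theorem root_traces (c : ℕ) (hq : 8 ≤ Nat.card F) (ρ : S →* Module.End ℂ E) (A B : Subgroup S)
    (hA : Nat.card A = Nat.card F)
    (hfx : Real.sqrt (Nat.card F) * Module.finrank ℂ (Fx ρ A) ≤ (10 + c) * Module.finrank ℂ E)
    (h : Opp F A B) :
    (∀ a ∈ A, a ≠ 1 → ‖LinearMap.trace ℂ E (ρ a)‖ ≤
      ((14 + c) / Real.sqrt (Nat.card F)) * Module.finrank ℂ E) ∧
    (∀ a ∈ A, ∀ b ∈ B, a ≠ 1 → b ≠ 1 → ‖LinearMap.trace ℂ E (ρ (a * b))‖ ≤
      ((14 + c) / Real.sqrt (Nat.card F)) * Module.finrank ℂ E) ∧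
    (∀ a ∈ A, ∀ b ∈ B, a ≠ 1 → b ≠ 1 →
      ‖LinearMap.trace ℂ E (ρ (a⁻¹ * b * a * b⁻¹))‖ ≤
      ((14 + c) / Real.sqrt (Nat.card F)) * Module.finrank ℂ E) := by
  obtain ⟨N, hN, -, h1, h2, h3⟩ := opp_traces (F := F) hq ρ A B hA h
  have hsq : 0 < Real.sqrt (Nat.card F) := by
    apply Real.sqrt_pos.2
    have : (8 : ℝ) ≤ Nat.card F := by exact_mod_cast hq
    linarith
  have hNf : (N : ℝ) ≤ Module.finrank ℂ (Fx ρ A) := by
    have : N ≤ Module.finrank ℂ (Fx ρ A) := hN.trans (Submodule.finrank_mono inf_le_left)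
    exact_mod_cast this
  have hN' : Real.sqrt (Nat.card F) * N ≤ (10 + c) * Module.finrank ℂ E :=
    (mul_le_mul_of_nonneg_left hNf hsq.le).trans hfx
  have key : ∀ z : ℂ, Real.sqrt (Nat.card F) * ‖z - N‖ ≤ 4 * ((Module.finrank ℂ E : ℝ) - N) →
      ‖z‖ ≤ ((14 + c) / Real.sqrt (Nat.card F)) * Module.finrank ℂ E := by
    intro z hz
    have hz1 : ‖z‖ ≤ ‖z - N‖ + N := by
      calc ‖z‖ = ‖(z - N) + N‖ := by rw [sub_add_cancel]
        _ ≤ ‖z - N‖ + ‖(N : ℂ)‖ := norm_add_le _ _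
        _ = ‖z - N‖ + N := by rw [Complex.norm_natCast]
    have hz2 : Real.sqrt (Nat.card F) * ‖z‖ ≤ (14 + c) * Module.finrank ℂ E := by
      have := mul_le_mul_of_nonneg_left hz1 hsq.le
      have hN0 : (0 : ℝ) ≤ N := Nat.cast_nonneg N
      linarith [mul_add (Real.sqrt (Nat.card F)) ‖z - N‖ (N : ℝ)]
    rw [div_mul_eq_mul_div, le_div_iff₀ hsq, mul_comm]
    exact hz2
  exact ⟨fun a ha ha1 => key _ (h1 a ha ha1), fun a ha b hb ha1 hb1 => key _ (h2 a ha b hb ha1 hb1),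
    fun a ha b hb ha1 hb1 => key _ (h3 a ha b hb ha1 hb1)⟩

end H49KE
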