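import Pool.Agent.H49.KE.Defs
import Pool.Agent.H49.KE.R1
import Pool.Agent.H49.KA.C1

namespace H49KE

open H49KA H49KB H49KC

universe u v w

variable {S : Type u} [Group S] [Finite S] {E : Type v} [AddCommGroup E] [Module ℂ E]
  [FiniteDimensional ℂ E]

omit [Finite S] [FiniteDimensional ℂ E] in
private theorem r4_conj (ρ : S →* Module.End ℂ E) (g y : S) :
    LinearMap.trace ℂ E (ρ (y * g * y⁻¹)) = LinearMap.trace ℂ E (ρ g) := by
  rw [map_mul, LinearMap.trace_mul_comm, ← map_mul]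
  congr 2
  group

theorem cs_trace (ρ : S →* Module.End ℂ E) (x : S) (Y : Subgroup S) (r : ℝ) (hr : 0 ≤ r)
    (h : ∀ y ∈ Y, y ≠ 1 →
      ‖LinearMap.trace ℂ E (ρ (x⁻¹ * y * x * y⁻¹))‖ ≤ r * Module.finrank ℂ E) :
    ‖LinearMap.trace ℂ E (ρ x)‖ ^ 2 ≤
      ((Nat.card Y : ℝ)⁻¹ + r) * (Module.finrank ℂ E : ℝ) ^ 2 := by
  classical
  have : Fintype Y := Fintype.ofFinite Y
  obtain ⟨β, hinv, hpos, him⟩ := H49KA.exists_form ρ
  obtain ⟨N, hN⟩ : ∃ N : ℕ, N = Nat.card Y := ⟨_, rfl⟩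
  have hN0 : 0 < N := by
    rw [hN]
    exact Nat.card_pos
  have hNc : (N : ℂ) ≠ 0 := by exact_mod_cast hN0.ne'
  have hNr : (0 : ℝ) < N := by exact_mod_cast hN0
  have hcard : Fintype.card Y = N := by rw [hN, Nat.card_eq_fintype_card]
  have hadj1 : ∀ (g : S) v w, β (ρ g v) w = β v (ρ g⁻¹ w) := by
    intro g v w
    have h2 := hinv g v (ρ g⁻¹ w)
    rw [← Module.End.mul_apply, ← map_mul, mul_inv_cancel, map_one, Module.End.one_apply] at h2
    exact h2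
  obtain ⟨T, hT⟩ : ∃ T : Module.End ℂ E,
      T = (N : ℂ)⁻¹ • ∑ y : Y, ρ ((y : S) * x * (y : S)⁻¹) := ⟨_, rfl⟩
  obtain ⟨T', hT'⟩ : ∃ T' : Module.End ℂ E,
      T' = (N : ℂ)⁻¹ • ∑ y : Y, ρ ((y : S) * x⁻¹ * (y : S)⁻¹) := ⟨_, rfl⟩
  have hadj : ∀ v w, β (T v) w = β v (T' w) := by
    intro v w
    rw [hT, hT', LinearMap.smul_apply, LinearMap.smul_apply, LinearMap.sum_apply,
      LinearMap.sum_apply, LinearMap.map_smulₛₗ, LinearMap.smul_apply, map_sum,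
      LinearMap.sum_apply, map_smul, map_sum]
    congr 1
    · rw [map_inv₀]
      simp
    · refine Finset.sum_congr rfl fun y _ => ?_
      rw [hadj1]
      congr 3
      group
  have htrT : LinearMap.trace ℂ E T = LinearMap.trace ℂ E (ρ x) := by
    rw [hT, map_smul, map_sum, Finset.sum_congr rfl fun (y : Y) _ => r4_conj ρ x (y : S),
      Finset.sum_const, Finset.card_univ, hcard, nsmul_eq_mul, smul_eq_mul, ← mul_assoc,
      inv_mul_cancel₀ hNc, one_mul]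
  obtain ⟨f, hf⟩ : ∃ f : Y → ℂ, f = fun u : Y =>
      LinearMap.trace ℂ E (ρ (x⁻¹ * (u : S) * x * (u : S)⁻¹)) := ⟨_, rfl⟩
  have hterm : ∀ y z : Y, LinearMap.trace ℂ E
      (ρ ((y : S) * x⁻¹ * (y : S)⁻¹) * ρ ((z : S) * x * (z : S)⁻¹)) = f (y⁻¹ * z) := by
    intro y z
    rw [← map_mul, hf]
    change _ = LinearMap.trace ℂ E
      (ρ (x⁻¹ * ((y : S)⁻¹ * (z : S)) * x * ((y : S)⁻¹ * (z : S))⁻¹))
    rw [← r4_conj ρ (x⁻¹ * ((y : S)⁻¹ * (z : S)) * x * ((y : S)⁻¹ * (z : S))⁻¹) (y : S)]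
    congr 2
    group
  have htrTT : LinearMap.trace ℂ E (T' * T) = (N : ℂ)⁻¹ * ∑ u : Y, f u := by
    have h1 : T' * T = ((N : ℂ)⁻¹ * (N : ℂ)⁻¹) • ∑ y : Y, ∑ z : Y,
        ρ ((y : S) * x⁻¹ * (y : S)⁻¹) * ρ ((z : S) * x * (z : S)⁻¹) := by
      rw [hT, hT', smul_mul_smul_comm, Finset.sum_mul_sum]
    rw [h1, map_smul, map_sum]
    have h2 : ∀ y : Y, LinearMap.trace ℂ E (∑ z : Y,
        ρ ((y : S) * x⁻¹ * (y : S)⁻¹) * ρ ((z : S) * x * (z : S)⁻¹)) = ∑ u : Y, f u := by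
      intro y
      rw [map_sum, Finset.sum_congr rfl fun z _ => hterm y z]
      exact Equiv.sum_comp (Equiv.mulLeft y⁻¹) f
    rw [Finset.sum_congr rfl fun y _ => h2 y, Finset.sum_const, Finset.card_univ, hcard,
      nsmul_eq_mul, smul_eq_mul]
    field_simp
  obtain ⟨-, -, -, h4⟩ := tr_psd β hpos him T T' hadj
  rw [htrT, htrTT] at h4
  obtain ⟨n, hn⟩ : ∃ n : ℝ, n = (Module.finrank ℂ E : ℝ) := ⟨_, rfl⟩
  have hn0 : 0 ≤ n := by
    rw [hn]
    exact Nat.cast_nonneg _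
  rw [← hn] at h4 ⊢
  have hfb : ∀ u : Y, ‖f u‖ ≤ r * n + (if u = 1 then n else 0) := by
    intro u
    by_cases hu : u = 1
    · rw [if_pos hu, hu, hf]
      have : LinearMap.trace ℂ E (ρ (x⁻¹ * ((1 : Y) : S) * x * ((1 : Y) : S)⁻¹)) =
          (Module.finrank ℂ E : ℂ) := by
        have e : x⁻¹ * ((1 : Y) : S) * x * ((1 : Y) : S)⁻¹ = 1 := by
          rw [Subgroup.coe_one]
          group
        rw [e, map_one, LinearMap.trace_one]
      beta_reduce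
      rw [this, Complex.norm_natCast, ← hn]
      have : 0 ≤ r * n := mul_nonneg hr hn0
      linarith
    · rw [if_neg hu, add_zero, hf, hn]
      exact h u u.2 fun h1 => hu (Subtype.ext h1)
  have hsum : ‖∑ u : Y, f u‖ ≤ N * (r * n) + n := by
    refine le_trans (norm_sum_le _ _) ?_
    refine le_trans (Finset.sum_le_sum fun u _ => hfb u) ?_
    rw [Finset.sum_add_distrib, Finset.sum_const, Finset.card_univ, hcard, nsmul_eq_mul,
      Finset.sum_ite_eq' Finset.univ (1 : Y) (fun _ => n), if_pos (Finset.mem_univ _)]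
  have h5 : ((N : ℂ)⁻¹ * ∑ u : Y, f u).re ≤ (N : ℝ)⁻¹ * (N * (r * n) + n) := by
    refine le_trans (Complex.re_le_norm _) ?_
    rw [norm_mul, norm_inv, Complex.norm_natCast]
    exact mul_le_mul_of_nonneg_left hsum (inv_nonneg.2 hNr.le)
  refine le_trans h4 ?_
  refine le_trans (mul_le_mul_of_nonneg_left h5 hn0) ?_
  rw [← hN]
  apply le_of_eq
  field_simp
  ring

end H49KE
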