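import Pool.Agent.H49.KE.Defs
import Pool.Agent.H49.KE.R4
import Pool.Agent.H49.KE.R8
import Pool.Agent.H49.KE.Q2
import Pool.Agent.H49.KE.Q3

namespace H49KE

open H49KA H49KB H49KC

universe u v w

variable {F : Type} [Field F] [Finite F] {S : Type u} [Group S] [Finite S]
  {E : Type v} [AddCommGroup E] [Module ℂ E] [FiniteDimensional ℂ E]

private lemma trace_inv_norm (ρ : S →* Module.End ℂ E) (g : S) :
    ‖LinearMap.trace ℂ E (ρ g⁻¹)‖ = ‖LinearMap.trace ℂ E (ρ g)‖ := by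
  rw [(tr_inv ρ g).1]
  simp

/-- Proof. Let `q = |F|`, `n = finrank E`, `δ = (14 + c) / sqrt q`. For every `C ∈ R`: by `rand` and
`c < q` there is `g` with `Opp F C C_g`; `root_fixed` applies to `C` (`hne`), so `root_traces`
applies to every pair `Opp F C D` with `C ∈ R`; in particular `‖trace (ρ z)‖ ≤ δ n` for
`1 ≠ z ∈ C`. Also every `C ∈ R` is commutative (it is the image of `t ↦ φ (up t)`). Now use
`hR.pairs A B`.
(1) `Opp F A B`: `‖trace (ρ (a b))‖ ≤ δ n` by `root_traces`, and `≤ n` by `tr_inv`; multiply.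
(2) `Spec A B C`: apply `cs_trace` with `x = a b` and `Y = A`, `r = δ`: for `1 ≠ y ∈ A`
`x⁻¹ y x y⁻¹ = b⁻¹ y b y⁻¹ = (y b⁻¹ y⁻¹ b)⁻¹` is the inverse of `y b⁻¹ y⁻¹ (b⁻¹)⁻¹`, which is an
element of `C` and not `1`. `|A| = q`.
(3) `A` and `B` commute, `D` commutes with `B`: apply `cs_trace` with `x = a b`, `Y = D`: for
`1 ≠ d ∈ D` `x⁻¹ d x d⁻¹ = a⁻¹ d a d⁻¹`. If `Opp F A D` its trace is bounded by `δ n` by the third
part of `root_traces`; if `Spec A D C` it is a nontrivial element of `C` (it is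
`a⁻¹ d (a⁻¹)⁻¹ d⁻¹`). -/
theorem pair_trace (c : ℕ) (hq : 8 ≤ Nat.card F) (hc : c < Nat.card F) (Z : Subgroup S)
    (R : Set (Subgroup S)) (hR : RootGrp c F Z R) (ρ : S →* Module.End ℂ E) (hρ : Irr ρ)
    (hne : ∀ A ∈ R, ∃ a ∈ A, ρ a ≠ 1) (A B : Subgroup S) (hA : A ∈ R) (hB : B ∈ R)
    (hAB : A ≠ B) (a b : S) (ha : a ∈ A) (hb : b ∈ B) (ha1 : a ≠ 1) (hb1 : b ≠ 1) :
    ‖LinearMap.trace ℂ E (ρ (a * b))‖ ^ 2 ≤
      (((Nat.card F : ℝ))⁻¹ + (14 + c) / Real.sqrt (Nat.card F)) *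
        (Module.finrank ℂ E : ℝ) ^ 2 := by
  have hq0 : (0 : ℝ) < Nat.card F := by
    have : (8 : ℝ) ≤ Nat.card F := by exact_mod_cast hq
    linarith
  have hsq : 0 < Real.sqrt (Nat.card F) := Real.sqrt_pos.2 hq0
  set δ : ℝ := (14 + c) / Real.sqrt (Nat.card F) with hδ
  have hδ0 : 0 ≤ δ := by positivity
  have hn0 : (0 : ℝ) ≤ Module.finrank ℂ E := Nat.cast_nonneg _
  -- the opposite of a member
  have hopp : ∀ C ∈ R, ∃ g : S, Opp F C (C.map (MulAut.conj g).toMonoidHom) := by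
    intro C hC
    by_contra hcon
    push Not at hcon
    have h1 := hR.rand C hC
    have h2 : Nat.card {g : S // ¬ Opp F C (C.map (MulAut.conj g).toMonoidHom)} = Nat.card S := by
      apply Nat.card_congr
      exact Equiv.subtypeUnivEquiv hcon
    rw [h2] at h1
    have h3 : 0 < Nat.card S := Nat.card_pos
    have h4 := Nat.le_of_mul_le_mul_right h1 h3
    omega
  have hfx : ∀ C ∈ R, Real.sqrt (Nat.card F) * Module.finrank ℂ (Fx ρ C) ≤
      (10 + c) * Module.finrank ℂ E := fun C hC =>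
    root_fixed (F := F) c ρ hρ C (hR.card C hC) (hR.rand C hC) (hne C hC)
  have hcomm : ∀ C ∈ R, ∀ x ∈ C, ∀ y ∈ C, x * y = y * x := by
    intro C hC x hx y hy
    obtain ⟨g, φ, hφ, -⟩ := hopp C hC
    obtain ⟨s, rfl⟩ := (hφ x).1 hx
    obtain ⟨t, rfl⟩ := (hφ y).1 hy
    rw [← map_mul, ← map_mul]
    congr 1
    ext i j
    fin_cases i <;> fin_cases j <;> simp [up, Matrix.mul_apply, Fin.sum_univ_two, add_comm]
  have hrt : ∀ C ∈ R, ∀ z ∈ C, z ≠ 1 → ‖LinearMap.trace ℂ E (ρ z)‖ ≤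
      δ * Module.finrank ℂ E := by
    intro C hC z hz hz1
    obtain ⟨g, hg⟩ := hopp C hC
    exact (root_traces c hq ρ C _ (hR.card C hC) (hfx C hC) hg).1 z hz hz1
  rcases hR.pairs A hA B hB hAB with h | ⟨C, hC, h⟩ | ⟨hAB', D, hD, hDB, h⟩
  · have h1 := (root_traces c hq ρ A B (hR.card A hA) (hfx A hA) h).2.1 a ha b hb ha1 hb1
    have h2 := (tr_inv ρ (a * b)).2
    have h3 : ‖LinearMap.trace ℂ E (ρ (a * b))‖ ^ 2 ≤
        (δ * Module.finrank ℂ E) * Module.finrank ℂ E := by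
      rw [sq]
      exact mul_le_mul h1 h2 (norm_nonneg _) (by positivity)
    have h4 : (0 : ℝ) ≤ (Nat.card F : ℝ)⁻¹ * (Module.finrank ℂ E : ℝ) ^ 2 := by positivity
    nlinarith
  · have h1 := cs_trace ρ (a * b) A δ hδ0 (by
      intro y hy hy1
      have e1 : (a * b)⁻¹ * y * (a * b) * y⁻¹ = (y * b⁻¹ * y⁻¹ * (b⁻¹)⁻¹)⁻¹ := by
        have := hcomm A hA a ha y hy
        have e2 : a⁻¹ * y * a = y := by
          rw [mul_assoc, ← this, ← mul_assoc, inv_mul_cancel, one_mul]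
        calc (a * b)⁻¹ * y * (a * b) * y⁻¹ = b⁻¹ * (a⁻¹ * y * a) * b * y⁻¹ := by group
          _ = b⁻¹ * y * b * y⁻¹ := by rw [e2]
          _ = _ := by group
      rw [e1, trace_inv_norm]
      obtain ⟨h2, h3, -⟩ := h y hy b⁻¹ (inv_mem hb)
      apply hrt C hC _ h2
      intro h4
      rcases h3 h4 with h5 | h5
      · exact hy1 h5
      · exact hb1 (inv_eq_one.1 h5))
    rw [hR.card A hA] at h1
    exact h1
  · have h1 := cs_trace ρ (a * b) D δ hδ0 (by
      intro y hy hy1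
      have e1 : (a * b)⁻¹ * y * (a * b) * y⁻¹ = a⁻¹ * y * a * y⁻¹ := by
        have e2 : b * a = a * b := (hAB' a ha b hb).symm
        have e3 : b⁻¹ * y * b = y := by
          have := hDB y hy b hb
          rw [mul_assoc, this.eq, ← mul_assoc, inv_mul_cancel, one_mul]
        calc (a * b)⁻¹ * y * (a * b) * y⁻¹ = (b * a)⁻¹ * y * (b * a) * y⁻¹ := by rw [e2]
          _ = a⁻¹ * (b⁻¹ * y * b) * a * y⁻¹ := by group
          _ = _ := by rw [e3]
      rw [e1]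
      rcases h with h | ⟨C, hC, h⟩
      · exact (root_traces c hq ρ A D (hR.card A hA) (hfx A hA) h).2.2 a ha y hy ha1 hy1
      · obtain ⟨h2, h3, -⟩ := h a⁻¹ (inv_mem ha) y hy
        rw [inv_inv] at h2 h3
        apply hrt C hC _ h2
        intro h4
        rcases h3 h4 with h5 | h5
        · exact ha1 (inv_eq_one.1 h5)
        · exact hy1 h5)
    rw [hR.card D hD] at h1
    exact h1

end H49KE
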