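import Pool.Agent.H49.KE.Defs
import Pool.Agent.H49.KE.R4
import Pool.Agent.H49.KE.Q4

namespace H49KE

open H49KA H49KB H49KC

universe u v w

private lemma q5_num (c m q : ℕ) (hq : (m ^ 2 * (16 + c)) ^ 4 + c + 8 ≤ q) :
    (m : ℝ) ^ 2 * ((q : ℝ)⁻¹ + Real.sqrt ((q : ℝ)⁻¹ + (14 + c) / Real.sqrt q)) ≤ 1 := by
  obtain ⟨u, hu⟩ : ∃ u : ℝ, u = Real.sqrt (Real.sqrt q) := ⟨_, rfl⟩
  have hq1 : (1 : ℝ) ≤ q := by
    have : 1 ≤ q := by omega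
    exact_mod_cast this
  have hu0 : 0 ≤ u := by rw [hu]; exact Real.sqrt_nonneg _
  have hu2 : u ^ 2 = Real.sqrt q := by rw [hu, Real.sq_sqrt (Real.sqrt_nonneg _)]
  have hu4 : u ^ 4 = q := by
    have : u ^ 4 = (u ^ 2) ^ 2 := by ring
    rw [this, hu2, Real.sq_sqrt (by linarith)]
  have hu1 : 1 ≤ u := by
    by_contra h
    push Not at h
    have : u ^ 4 < 1 := pow_lt_one₀ hu0 h (by norm_num)
    rw [hu4] at this
    linarith
  have hupos : 0 < u := by linarith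
  have hmu : (m : ℝ) ^ 2 * (16 + c) ≤ u := by
    by_contra h
    push Not at h
    have h1 : u ^ 4 < ((m : ℝ) ^ 2 * (16 + c)) ^ 4 := pow_lt_pow_left₀ h hu0 (by norm_num)
    rw [hu4] at h1
    have h2 : (((m ^ 2 * (16 + c)) ^ 4 + c + 8 : ℕ) : ℝ) ≤ q := by exact_mod_cast hq
    push_cast at h2
    have h3 : (0 : ℝ) ≤ c := Nat.cast_nonneg c
    linarith
  have hc0 : (0 : ℝ) ≤ c := Nat.cast_nonneg c
  have hinv : (q : ℝ)⁻¹ ≤ 1 / u := by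
    rw [← hu4, ← one_div]
    apply one_div_le_one_div_of_le hupos
    calc u = u ^ 1 := (pow_one u).symm
      _ ≤ u ^ 4 := pow_le_pow_right₀ hu1 (by norm_num)
  have hinv2 : (q : ℝ)⁻¹ ≤ 1 / u ^ 2 := by
    rw [← hu4, ← one_div]
    apply one_div_le_one_div_of_le (by positivity)
    exact pow_le_pow_right₀ hu1 (by norm_num)
  have hr : Real.sqrt ((q : ℝ)⁻¹ + (14 + c) / Real.sqrt q) ≤ (15 + c) / u := by
    apply Real.sqrt_le_iff.mpr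
    refine ⟨by positivity, ?_⟩
    rw [← hu2]
    calc (q : ℝ)⁻¹ + (14 + c) / u ^ 2 ≤ 1 / u ^ 2 + (14 + c) / u ^ 2 := by linarith
      _ = (15 + c) / u ^ 2 := by ring
      _ ≤ (15 + c) ^ 2 / u ^ 2 := by
        apply div_le_div_of_nonneg_right _ (by positivity)
        nlinarith
      _ = ((15 + c) / u) ^ 2 := by rw [div_pow]
  have hm0 : (0 : ℝ) ≤ (m : ℝ) ^ 2 := by positivity
  calc (m : ℝ) ^ 2 * ((q : ℝ)⁻¹ + Real.sqrt ((q : ℝ)⁻¹ + (14 + c) / Real.sqrt q))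
      ≤ (m : ℝ) ^ 2 * (1 / u + (15 + c) / u) :=
        mul_le_mul_of_nonneg_left (add_le_add hinv hr) hm0
    _ = ((m : ℝ) ^ 2 * (16 + c)) / u := by ring
    _ ≤ 1 := by rw [div_le_one hupos]; exact hmu

/-- Proof. Take `q₀ = (m ^ 2 * (16 + c)) ^ 4 + c + 8`. Let `q = |F| ≥ q₀`, `n = finrank E`. Since
`x ∉ Z` there is `A ∈ R` with `x A x⁻¹ ≠ A`, hence `x⁻¹ A x ≠ A`; both are in `R`. Apply `cs_trace`
with `Y = A`: for `1 ≠ y ∈ A` the element `x⁻¹ y x y⁻¹` is a product of a nontrivial element of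
`x⁻¹ A x` and a nontrivial element of `A`, so by `pair_trace` its trace is at most `r n`,
`r = sqrt (1/q + (14 + c)/sqrt q) ≤ sqrt ((15 + c) / sqrt q) ≤ (15 + c) q ^ (-1/4)`. So
`‖trace (ρ x)‖ ^ 2 ≤ (1/q + r) n ^ 2 ≤ (16 + c) q ^ (-1/4) n ^ 2`, and `m ^ 2 (16 + c) ≤ q ^ (1/4)`.
(Use `sqrt (sqrt q)` for `q ^ (1/4)`.) For `m = 0` the claim is trivial. -/
theorem ratio_abs (c m : ℕ) : ∃ q₀ : ℕ, ∀ (F : Type) [Field F] [Finite F], q₀ ≤ Nat.card F →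
    ∀ (S : Type u) [Group S] [Finite S] (Z : Subgroup S) (R : Set (Subgroup S)),
    RootGrp c F Z R → ∀ (E : Type v) [AddCommGroup E] [Module ℂ E] [FiniteDimensional ℂ E]
      (ρ : S →* Module.End ℂ E), Irr ρ → (∀ A ∈ R, ∃ a ∈ A, ρ a ≠ 1) → ∀ x : S, x ∉ Z →
      m * ‖LinearMap.trace ℂ E (ρ x)‖ ≤ Module.finrank ℂ E := by
  refine ⟨(m ^ 2 * (16 + c)) ^ 4 + c + 8, ?_⟩
  intro F _ _ hq S _ _ Z R hR E _ _ _ ρ hρ hne x hx
  obtain ⟨A, hA, hAx⟩ := hR.fix x hx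
  have hA' : A.map (MulAut.conj x⁻¹).toMonoidHom ∈ R := hR.conj A hA x⁻¹
  have hAA : A.map (MulAut.conj x⁻¹).toMonoidHom ≠ A := by
    intro h
    apply hAx
    conv_lhs => rw [← h]
    rw [Subgroup.map_map]
    have : (MulAut.conj x).toMonoidHom.comp (MulAut.conj x⁻¹).toMonoidHom = MonoidHom.id S := by
      ext y
      simp [MulAut.conj_apply, mul_assoc]
    rw [this, Subgroup.map_id]
  obtain ⟨r, hr⟩ : ∃ r : ℝ, r = Real.sqrt ((Nat.card F : ℝ)⁻¹ + (14 + c) /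
    Real.sqrt (Nat.card F)) := ⟨_, rfl⟩
  have hr0 : 0 ≤ r := by rw [hr]; exact Real.sqrt_nonneg _
  have hn0 : (0 : ℝ) ≤ Module.finrank ℂ E := Nat.cast_nonneg _
  have hrad : (0 : ℝ) ≤ (Nat.card F : ℝ)⁻¹ + (14 + c) / Real.sqrt (Nat.card F) := by positivity
  have hcs := cs_trace ρ x A r hr0 (by
    intro y hy hy1
    have e1 : x⁻¹ * y * x * y⁻¹ = (x⁻¹ * y * x) * y⁻¹ := rfl
    have hmem : x⁻¹ * y * x ∈ A.map (MulAut.conj x⁻¹).toMonoidHom := by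
      refine Subgroup.mem_map.mpr ⟨y, hy, ?_⟩
      simp [MulAut.conj_apply]
    have h1 := pair_trace c (by omega) (by omega) Z R hR ρ hρ hne
      (A.map (MulAut.conj x⁻¹).toMonoidHom) A hA' hA hAA (x⁻¹ * y * x) y⁻¹ hmem (A.inv_mem hy)
      (by
        intro h
        apply hy1
        have : y = x * (x⁻¹ * y * x) * x⁻¹ := by group
        rw [this, h]
        group)
      (by
        intro h
        exact hy1 (inv_eq_one.mp h))
    rw [e1]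
    have h2 : ((Nat.card F : ℝ)⁻¹ + (14 + c) / Real.sqrt (Nat.card F)) *
        (Module.finrank ℂ E : ℝ) ^ 2 = (r * Module.finrank ℂ E) ^ 2 := by
      rw [mul_pow, hr, Real.sq_sqrt hrad]
    rw [h2] at h1
    exact abs_le_of_sq_le_sq' h1 (by positivity) |>.2)
  rw [hR.card A hA] at hcs
  have hnum := q5_num c m (Nat.card F) hq
  rw [← hr] at hnum
  have h3 : ((m : ℝ) * ‖LinearMap.trace ℂ E (ρ x)‖) ^ 2 ≤ (Module.finrank ℂ E : ℝ) ^ 2 := by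
    calc ((m : ℝ) * ‖LinearMap.trace ℂ E (ρ x)‖) ^ 2
        = (m : ℝ) ^ 2 * ‖LinearMap.trace ℂ E (ρ x)‖ ^ 2 := by ring
      _ ≤ (m : ℝ) ^ 2 * (((Nat.card F : ℝ)⁻¹ + r) * (Module.finrank ℂ E : ℝ) ^ 2) :=
        mul_le_mul_of_nonneg_left hcs (by positivity)
      _ = ((m : ℝ) ^ 2 * ((Nat.card F : ℝ)⁻¹ + r)) * (Module.finrank ℂ E : ℝ) ^ 2 := by ring
      _ ≤ 1 * (Module.finrank ℂ E : ℝ) ^ 2 :=
        mul_le_mul_of_nonneg_right hnum (by positivity)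
      _ = (Module.finrank ℂ E : ℝ) ^ 2 := one_mul _
  exact abs_le_of_sq_le_sq' h3 hn0 |>.2

end H49KE
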