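import Pool.Agent.H49.KE.Defs
import Pool.Agent.H49.KE.R7
import Pool.Agent.H49.KE.Q5

namespace H49KE

open H49KA H49KB H49KC

universe u v w

/-- Proof. Take `q₀` from `ratio_abs c m` (universes `0, 0`). Let `ρ : X →* Matrix (Fin n) (Fin n) ℂ`
be trivial on `C` and without fixed vectors, `x ∉ C`. Define `ρ' : S →* Module.End ℂ (Fin n → ℂ)` by
`ρ' s = Matrix.toLin' (ρ y)` for any `y : X` with `α y = β s` (it exists since the ranges are equal,
and `ρ y` does not depend on the choice since `α y = α y'` gives `y⁻¹ y' ∈ C`). `ρ'` is trivial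
on `Z`, and has no fixed vectors (every `y : X` has a partner `s` with `β s = α y`). Choose `s` with
`β s = α x`; `s ∉ Z`. By `reduce_irr` with `r = 1 / m` (trivial if `m = 0`) it is enough to bound the
trace of `s` on an irreducible invariant `W`; apply `ratio_abs`, for which we need: every `A ∈ R`
acts nontrivially on `W`. Let `N = {y ∈ X | ρ y acts trivially on W}`; it is normal in `X` and
contains `C`, so by `SimpleSec` it is `C` or `X` (as subgroups of `G`); it is not `X` since `W`
has no nonzero fixed vector. So `N = C`. By `nt` there is `a ∈ A`, `a ∉ Z`; if it acted trivially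
on `W` then a partner `y` with `α y = β a` would be in `N = C`, so `β a = α y = 1`, `a ∈ Z`. -/
theorem ratSec_gen (c m : ℕ) : ∃ q₀ : ℕ, ∀ (G : Type u) [Group G] (X C : Subgroup G)
    (P S F : Type) [Group P] [Group S] [Finite S] [Field F] [Finite F] (Z : Subgroup S)
    (R : Set (Subgroup S)) (α : X →* P) (β : S →* P), q₀ ≤ Nat.card F → RootGrp c F Z R →
    (∀ x : X, α x = 1 ↔ (x : G) ∈ C) → (∀ s : S, β s = 1 ↔ s ∈ Z) → α.range = β.range →
    SimpleSec X C → RatSec m X C := by
  obtain ⟨q₀, hq₀⟩ := ratio_abs.{0, 0} c m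
  refine ⟨q₀, ?_⟩
  intro G _ X C P S F _ _ _ _ _ Z R α β hq hR hα hβ hr hsim n ρ hρ hfix x hx
  rcases Nat.eq_zero_or_pos m with rfl | hm
  · rw [Nat.cast_zero, zero_mul]
    exact Nat.cast_nonneg n
  let Φ : X →* Module.End ℂ (Fin n → ℂ) :=
    { toFun := fun y => Matrix.toLin' (ρ y)
      map_one' := by rw [map_one, Matrix.toLin'_one]; rfl
      map_mul' := fun y z => by rw [map_mul, Matrix.toLin'_mul]; rfl }
  have hΦa : ∀ y v, Φ y v = (ρ y).mulVec v := fun y v => Matrix.toLin'_apply _ _
  have hΦC : ∀ y, α y = 1 → Φ y = 1 := by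
    intro y hy
    have h1 : ρ y = 1 := hρ y ((hα y).1 hy)
    ext v
    rw [LinearMap.comp_apply, hΦa, h1, Matrix.one_mulVec]
    rfl
  have hΦe : ∀ y z, α y = α z → Φ y = Φ z := by
    intro y z hyz
    have h1 : Φ (z⁻¹ * y) = 1 := hΦC _ (by rw [map_mul, map_inv, hyz, inv_mul_cancel])
    have h2 : y = z * (z⁻¹ * y) := by group
    rw [h2, map_mul, h1, mul_one]
  have hp : ∀ s : S, ∃ y : X, α y = β s := by
    intro s
    have h1 : β s ∈ α.range := by
      rw [hr]
      exact ⟨s, rfl⟩
    exact h1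
  have hp' : ∀ y : X, ∃ s : S, β s = α y := by
    intro y
    have h1 : α y ∈ β.range := by
      rw [← hr]
      exact ⟨y, rfl⟩
    exact h1
  choose f hf using hp
  let τ : S →* Module.End ℂ (Fin n → ℂ) :=
    { toFun := fun s => Φ (f s)
      map_one' := hΦC _ (by rw [hf, map_one])
      map_mul' := fun s t => by
        rw [← map_mul]
        exact hΦe _ _ (by rw [map_mul, hf, hf, hf, map_mul]) }
  have hτ : ∀ (s : S) (y : X), α y = β s → τ s = Φ y := fun s y hy =>
    hΦe _ _ ((hf s).trans hy.symm)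
  obtain ⟨s, hs⟩ := hp' x
  have hsZ : s ∉ Z := fun h => hx ((hα x).1 (by rw [← hs]; exact (hβ s).2 h))
  have htr : LinearMap.trace ℂ (Fin n → ℂ) (τ s) = (ρ x).trace := by
    rw [hτ s x hs.symm]
    exact Matrix.trace_toLin'_eq _
  have hm' : (0 : ℝ) < m := by exact_mod_cast hm
  have key := reduce_irr τ s (1 / m) ?_
  · rw [htr, Module.finrank_fin_fun, one_div, ← div_eq_inv_mul, le_div_iff₀ hm'] at key
    rw [mul_comm]
    exact key
  · intro W hW hirr
    have hne : ∀ A ∈ R, ∃ a ∈ A, subRep τ W hW a ≠ 1 := by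
      intro A hA
      obtain ⟨a, haA, haZ⟩ := hR.nt A hA
      refine ⟨a, haA, fun h1 => haZ ?_⟩
      have hΦW : ∀ y, ∀ w ∈ W, Φ y w ∈ W := by
        intro y w hw
        obtain ⟨t, ht⟩ := hp' y
        rw [← hτ t y ht.symm]
        exact hW t w hw
      let N0 : Subgroup X :=
        { carrier := {y | ∀ w ∈ W, Φ y w = w}
          one_mem' := fun w _ => by rw [map_one, Module.End.one_apply]
          mul_mem' := fun {y z} hy hz w hw => by
            rw [map_mul, Module.End.mul_apply, hz w hw, hy w hw]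
          inv_mem' := fun {y} hy w hw => by
            have h2 : Φ y⁻¹ (Φ y w) = w := by
              rw [← Module.End.mul_apply, ← map_mul, inv_mul_cancel, map_one,
                Module.End.one_apply]
            rwa [hy w hw] at h2 }
      have hN0 : ∀ y, y ∈ N0 ↔ ∀ w ∈ W, Φ y w = w := fun y => Iff.rfl
      have hCN : C ≤ N0.map X.subtype := by
        intro g hg
        refine ⟨⟨g, hsim.1 hg⟩, (hN0 _).2 fun w _ => ?_, rfl⟩
        rw [hΦC _ ((hα _).2 hg), Module.End.one_apply]
      have hNX : N0.map X.subtype ≤ X := Subgroup.map_subtype_le N0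
      have hNn : NormIn X (N0.map X.subtype) := by
        rintro g hg _ ⟨t, ht, rfl⟩
        refine ⟨⟨g, hg⟩ * t * ⟨g, hg⟩⁻¹, (hN0 _).2 fun w hw => ?_, rfl⟩
        rw [map_mul, map_mul, Module.End.mul_apply, Module.End.mul_apply,
          (hN0 t).1 ht _ (hΦW _ w hw), ← Module.End.mul_apply, ← map_mul, mul_inv_cancel,
          map_one, Module.End.one_apply]
      rcases hsim.2.2.1 _ hCN hNX hNn with h2 | h2
      · have h3 : ((f a : X) : G) ∈ C := by
          rw [← h2]
          refine ⟨f a, (hN0 _).2 fun w hw => ?_, rfl⟩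
          have h4 := congrArg (fun T : Module.End ℂ W => ((T ⟨w, hw⟩ : W) : Fin n → ℂ)) h1
          exact h4
        exact (hβ a).1 (by rw [← hf a]; exact (hα _).2 h3)
      · exfalso
        have : Nontrivial W := hirr.1
        obtain ⟨w, hw⟩ := exists_ne (0 : W)
        apply hw
        apply Subtype.ext
        refine hfix w fun y => ?_
        have h3 : (y : G) ∈ N0.map X.subtype := by
          rw [h2]
          exact y.2
        obtain ⟨z, hz, hzy⟩ := h3
        have h4 : z = y := Subtype.ext hzy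
        rw [← hΦa, ← h4]
        exact (hN0 z).1 hz w w.2
    have h5 := hq₀ F hq S Z R hR W (subRep τ W hW) hirr hne s hsZ
    rw [one_div, ← div_eq_inv_mul, le_div_iff₀ hm', mul_comm]
    exact h5

end H49KE
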