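import Pool.Agent.H49.KE.Defs
import Pool.Agent.H49.KE.Q6
import Pool.Agent.H49.KE.L5
import Pool.Agent.H49.KE.H1
import Pool.Agent.H49.KE.H9
import Pool.Agent.H49.KE.H10
import Pool.Agent.H49.KE.H11
import Pool.Agent.H49.KE.O13

namespace H49KE

open H49KA H49KB H49KC

universe u v w

private theorem S1_scal {k : Type} [Field k] {V : Type} [AddCommGroup V] [Module k V]
    [FiniteDimensional k V] (h : Module.finrank k V < 2) (g : V ≃ₗ[k] V) : g ∈ Scal k V := by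
  rcases Nat.lt_succ_iff.1 h |>.lt_or_eq with h0 | h1
  · have h2 : Module.finrank k V = 0 := by omega
    have h3 : Subsingleton V := Module.finrank_zero_iff.1 h2
    exact ⟨1, fun v => Subsingleton.elim _ _⟩
  · obtain ⟨v, -, hv⟩ := finrank_eq_one_iff'.1 h1
    obtain ⟨c, hc⟩ := hv (g v)
    refine ⟨c, fun w => ?_⟩
    obtain ⟨d, rfl⟩ := hv w
    rw [map_smul, ← hc, smul_comm]

private theorem S1_dim {G : Type u} [Group G] {X C : Subgroup G} {k : Type} [Field k] {V : Type}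
    [AddCommGroup V] [Module k V] [FiniteDimensional k V] (p : X →* PGrp k V)
    (hp : ∀ t : X, p t = 1 ↔ (t : G) ∈ C) (hS : SimpleSec X C) : 2 ≤ Module.finrank k V := by
  by_contra hcon
  push Not at hcon
  obtain ⟨-, -, -, a, ha, b, hb, hab⟩ := hS
  apply hab
  have hmem : a * b * a⁻¹ * b⁻¹ ∈ X :=
    X.mul_mem (X.mul_mem (X.mul_mem ha hb) (X.inv_mem ha)) (X.inv_mem hb)
  refine (hp ⟨_, hmem⟩).1 ?_
  obtain ⟨g, hg⟩ := QuotientGroup.mk'_surjective (Scal k V) (p ⟨_, hmem⟩)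
  rw [← hg]
  exact (QuotientGroup.eq_one_iff g).2 (S1_scal hcon g)

private theorem S1_finite {k : Type} [Field k] [Finite k] {V : Type}
    [AddCommGroup V] [Module k V] [FiniteDimensional k V] (Γ : Subgroup (V ≃ₗ[k] V)) :
    Finite Γ := by
  have h1 : Finite V := Module.finite_of_finite k
  have h2 : Finite (V ≃ₗ[k] V) :=
    Finite.of_injective (fun g : V ≃ₗ[k] V => (g : V → V)) DFunLike.coe_injective
  infer_instance

/-- Proof. Let `q₁` be from `ratSec_gen 16 m` and `q₀ = q₁ ^ 2`. `finrank V ≥ 2`: otherwise all elements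
of `V ≃ₗ[k] V` are scalars, `PGrp k V` is trivial and `X = C`, against `SimpleSec`. `Γ` is finite.
Apply `ratSec_gen` with `P = PGrp k V`, `S = Γ`, `α = p`, `β` the restriction of the quotient map to
`Γ` (its kernel is `(Scal k V).subgroupOf Γ`, its range `Γ.map (mk' (Scal k V))`), and: `F = k` and
`rootGrp_SL` for `IsSL`; `F = FixF σ` and `rootGrp_HU` with `hsp_Sp`, `hsp_SU` for `IsSp`, `IsSU`
(`|FixF σ| ^ 2 ≥ |k|` by `fix_card`); `F = k` and `rootGrp_Om` for `IsOm`. -/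
theorem ratSec_std (m : ℕ) : ∃ q₀ : ℕ, ∀ (G : Type u) [Group G] (X C : Subgroup G) (k : Type)
    [Field k] [Finite k] (V : Type) [AddCommGroup V] [Module k V] [FiniteDimensional k V]
    (Γ : Subgroup (V ≃ₗ[k] V)) (p : X →* PGrp k V), q₀ ≤ Nat.card k → StdClassical Γ →
    (∀ t : X, p t = 1 ↔ (t : G) ∈ C) → p.range = Γ.map (QuotientGroup.mk' (Scal k V)) →
    SimpleSec X C → RatSec m X C := by
  obtain ⟨q₁, hq⟩ := ratSec_gen.{u} 16 m
  refine ⟨q₁ ^ 2, ?_⟩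
  intro G _ X C k _ _ V _ _ _ Γ p hk hΓ hp hr hS
  have hdim := S1_dim p hp hS
  have hfin : Finite Γ := S1_finite Γ
  have hq1 : q₁ ≤ q₁ ^ 2 := Nat.le_self_pow two_ne_zero q₁
  have hker : ∀ s : Γ, ((QuotientGroup.mk' (Scal k V)).comp Γ.subtype) s = 1 ↔
      s ∈ (Scal k V).subgroupOf Γ := by
    intro s
    rw [Subgroup.mem_subgroupOf]
    exact QuotientGroup.eq_one_iff (s : V ≃ₗ[k] V)
  have hran : p.range = ((QuotientGroup.mk' (Scal k V)).comp Γ.subtype).range := by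
    rw [hr, MonoidHom.range_comp, Subgroup.range_subtype]
  have hsq : ∀ σ : k →+* k, (∀ a, σ (σ a) = a) → q₁ ≤ Nat.card (FixF σ) := by
    intro σ hσ
    have h1 := (fix_card σ 1 hσ).1
    exact (Nat.pow_le_pow_iff_left two_ne_zero).1 (hk.trans h1)
  rcases hΓ with hΓ | hΓ | hΓ | ⟨hΓ, h7⟩
  · exact hq G X C (PGrp k V) Γ k ((Scal k V).subgroupOf Γ) (SgSL Γ) p
      ((QuotientGroup.mk' (Scal k V)).comp Γ.subtype) (hq1.trans hk) (rootGrp_SL Γ hΓ hdim) hp
      hker hran hS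
  · obtain ⟨B, hB⟩ := hsp_Sp Γ hΓ hdim
    exact hq G X C (PGrp k V) Γ (FixF (RingHom.id k)) ((Scal k V).subgroupOf Γ)
      (SgHU Γ (-1) B) p
      ((QuotientGroup.mk' (Scal k V)).comp Γ.subtype) (hsq _ hB.hσ) (rootGrp_HU hB) hp
      hker hran hS
  · obtain ⟨σ, B, hB⟩ := hsp_SU Γ hΓ hdim
    exact hq G X C (PGrp k V) Γ (FixF σ) ((Scal k V).subgroupOf Γ)
      (SgHU Γ 1 B) p
      ((QuotientGroup.mk' (Scal k V)).comp Γ.subtype) (hsq _ hB.hσ) (rootGrp_HU hB) hp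
      hker hran hS
  · obtain ⟨Q, hQ, hΓQ⟩ := hΓ
    exact hq G X C (PGrp k V) Γ k ((Scal k V).subgroupOf Γ) (SgOm Γ Q) p
      ((QuotientGroup.mk' (Scal k V)).comp Γ.subtype) (hq1.trans hk)
      (rootGrp_Om Q hQ h7 Γ hΓQ) hp hker hran hS

end H49KE
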