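import Pool.Agent.H49.KE.Defs
import Pool.Agent.H49.KE.Q6

namespace H49KE

open H49KA H49KB H49KC

universe u v w

/-- Proof. Let `q₀` be from `ratSec_gen d m`, `b = q₀ ^ d`. `|S| = |X : C| > b`
(`|X| = |S| |C|`: `π` is onto with kernel `C`; `C ≤ X` by `SimpleSec`) and `|S| ≤ |F| ^ d`, so
`q₀ < |F|`. Apply `ratSec_gen` with `P = S`, `α = π`, `β = id`, `Z = ⊥`. -/
theorem ratSec_root (d m : ℕ) : ∃ b : ℕ, ∀ (G : Type u) [Group G] (X C : Subgroup G),
    Finite X → RootSec d X C → SimpleSec X C → b * Nat.card C < Nat.card X →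
    RatSec m X C := by
  obtain ⟨q₀, hq⟩ := ratSec_gen.{u} d m
  refine ⟨q₀ ^ d, ?_⟩
  intro G _ X C _ hR hS hb
  obtain ⟨S, _, _, F, _, _, π, R, hπ, hker, hcard, hroot⟩ := hR
  have hCX : C ≤ X := hS.1
  have h1 : π.ker = C.subgroupOf X := by
    ext x
    rw [MonoidHom.mem_ker, hker, Subgroup.mem_subgroupOf]
  have h2 : Nat.card X = Nat.card C * Nat.card S := by
    have h3 := Subgroup.card_mul_index π.ker
    rw [Subgroup.index_ker, MonoidHom.range_eq_top.2 hπ, Subgroup.card_top, h1,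
      Nat.card_congr (Subgroup.subgroupOfEquivOfLe hCX).toEquiv] at h3
    exact h3.symm
  have h4 : q₀ ^ d < Nat.card F ^ d := by
    by_contra h5
    push Not at h5
    have h6 : Nat.card C * Nat.card S ≤ Nat.card C * q₀ ^ d :=
      Nat.mul_le_mul_left _ (hcard.trans h5)
    rw [h2, mul_comm] at hb
    omega
  have h7 : q₀ ≤ Nat.card F := by
    by_contra h8
    push Not at h8
    have h9 := Nat.pow_le_pow_left h8.le d
    omega
  refine hq G X C S S F ⊥ R π (MonoidHom.id S) h7 hroot hker ?_ ?_ hS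
  · intro s
    exact Iff.rfl
  · rw [MonoidHom.range_eq_top.2 hπ]
    exact (MonoidHom.range_eq_top.2 Function.surjective_id).symm

/-- Proof. `b = ((d * m) ^ 2) ^ d`. From `b |C| < |X| ≤ q ^ d |C|` we get `(d m) ^ 2 < q` (and `d ≠ 0`), so
`d m ≤ sqrt q` and `d * (m * ‖trace‖) ≤ sqrt q * ‖trace‖ ≤ d * n`. -/
theorem ratSec_ratio (d m : ℕ) : ∃ b : ℕ, ∀ (G : Type u) [Group G] (X C : Subgroup G),
    RatioSec d X C → b * Nat.card C < Nat.card X → RatSec m X C := by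
  refine ⟨((d * m) ^ 2) ^ d, ?_⟩
  intro G _ X C hR hb n ρ hρ hfix x hx
  obtain ⟨q, h1, h2⟩ := hR
  have h3 := h2 n ρ hρ hfix x hx
  have h4 : ((d * m) ^ 2) ^ d < q ^ d := by
    by_contra h5
    push Not at h5
    have h6 : q ^ d * Nat.card C ≤ ((d * m) ^ 2) ^ d * Nat.card C := Nat.mul_le_mul_right _ h5
    omega
  have hd : d ≠ 0 := by
    rintro rfl
    simp at h4
  have h7 : (d * m) ^ 2 ≤ q := by
    by_contra h8
    push Not at h8
    have h9 := Nat.pow_le_pow_left h8.le d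
    omega
  have h10 : ((d * m : ℕ) : ℝ) ≤ Real.sqrt q := by
    apply Real.le_sqrt_of_sq_le
    exact_mod_cast h7
  have h11 : (d : ℝ) * (m * ‖(ρ x).trace‖) ≤ d * n := by
    calc (d : ℝ) * (m * ‖(ρ x).trace‖) = ((d * m : ℕ) : ℝ) * ‖(ρ x).trace‖ := by
          push_cast; ring
      _ ≤ Real.sqrt q * ‖(ρ x).trace‖ := mul_le_mul_of_nonneg_right h10 (norm_nonneg _)
      _ ≤ d * n := h3
  have hd' : (0 : ℝ) < d := by
    exact_mod_cast Nat.pos_of_ne_zero hd
  exact le_of_mul_le_mul_left h11 hd'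

end H49KE
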