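import Pool.Agent.H49.KE.Defs
import Pool.Agent.H49.KB.U3

namespace H49KE

open H49KA H49KB H49KC

universe u v w

variable {G : Type u} [Group G]

section
variable {k : Type u} [Field k] {V : Type u} [AddCommGroup V] [Module k V]

/-- the maps which differ from the identity by a map of finite rank -/
private def FG (k : Type u) [Field k] (V : Type u) [AddCommGroup V] [Module k V] :
    Subgroup (V ≃ₗ[k] V) where
  carrier := {g | FiniteDimensional k (LinearMap.range ((g : V →ₗ[k] V) - 1))}
  mul_mem' := by
    intro a b ha hb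
    have ha' : FiniteDimensional k (LinearMap.range ((a : V →ₗ[k] V) - 1)) := ha
    have hb' : FiniteDimensional k (LinearMap.range ((b : V →ₗ[k] V) - 1)) := hb
    change FiniteDimensional k (LinearMap.range (((a * b : V ≃ₗ[k] V) : V →ₗ[k] V) - 1))
    have h1 : LinearMap.range (((a * b : V ≃ₗ[k] V) : V →ₗ[k] V) - 1) ≤
        LinearMap.range ((a : V →ₗ[k] V) - 1) ⊔ LinearMap.range ((b : V →ₗ[k] V) - 1) := by
      rintro _ ⟨v, rfl⟩
      rw [Submodule.mem_sup]
      refine ⟨a (b v) - b v, ⟨b v, rfl⟩, b v - v, ⟨v, rfl⟩, ?_⟩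
      change a (b v) - b v + (b v - v) = a (b v) - v
      abel
    exact Submodule.finiteDimensional_of_le h1
  one_mem' := by
    change FiniteDimensional k (LinearMap.range (((1 : V ≃ₗ[k] V) : V →ₗ[k] V) - 1))
    have h1 : (((1 : V ≃ₗ[k] V) : V →ₗ[k] V) - 1) = 0 := by
      ext v; simp
    rw [h1, LinearMap.range_zero]
    infer_instance
  inv_mem' := by
    intro a ha
    have ha' : FiniteDimensional k (LinearMap.range ((a : V →ₗ[k] V) - 1)) := ha
    change FiniteDimensional k (LinearMap.range (((a⁻¹ : V ≃ₗ[k] V) : V →ₗ[k] V) - 1))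
    have h1 : LinearMap.range (((a⁻¹ : V ≃ₗ[k] V) : V →ₗ[k] V) - 1) ≤
        LinearMap.range ((a : V →ₗ[k] V) - 1) := by
      rintro _ ⟨v, rfl⟩
      refine ⟨-(a⁻¹ v), ?_⟩
      have h2 : a (a⁻¹ v) = v := by
        rw [← LinearEquiv.mul_apply, mul_inv_cancel]; rfl
      change a (-(a⁻¹ v)) - -(a⁻¹ v) = a⁻¹ v - v
      rw [map_neg, h2]; abel
    exact Submodule.finiteDimensional_of_le h1

private instance FG_normal : (FG k V).Normal where
  conj_mem := by
    intro a ha g
    have ha' : FiniteDimensional k (LinearMap.range ((a : V →ₗ[k] V) - 1)) := ha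
    change FiniteDimensional k (LinearMap.range (((g * a * g⁻¹ : V ≃ₗ[k] V) : V →ₗ[k] V) - 1))
    have h1 : LinearMap.range (((g * a * g⁻¹ : V ≃ₗ[k] V) : V →ₗ[k] V) - 1) ≤
        (LinearMap.range ((a : V →ₗ[k] V) - 1)).map (g : V →ₗ[k] V) := by
      rintro _ ⟨v, rfl⟩
      refine ⟨a (g⁻¹ v) - g⁻¹ v, ⟨g⁻¹ v, rfl⟩, ?_⟩
      have h2 : g (g⁻¹ v) = v := by
        rw [← LinearEquiv.mul_apply, mul_inv_cancel]; rfl
      change g (a (g⁻¹ v) - g⁻¹ v) = g (a (g⁻¹ v)) - v
      rw [map_sub, h2]
    exact Submodule.finiteDimensional_of_le h1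

private lemma smallRank_range {c : ℕ} {g : V ≃ₗ[k] V} {a : k} (h : SmallRank c g a) :
    FiniteDimensional k (LinearMap.range ((g : V →ₗ[k] V) - a • 1)) := by
  obtain ⟨w, hw⟩ := h
  have h1 : LinearMap.range ((g : V →ₗ[k] V) - a • 1) ≤ Submodule.span k (Set.range w) := by
    rintro _ ⟨v, rfl⟩
    obtain ⟨b, hb⟩ := hw v
    change g v - a • v ∈ _
    rw [hb]
    exact Submodule.sum_mem _ fun i _ => Submodule.smul_mem _ _ (Submodule.subset_span ⟨i, rfl⟩)
  have h2 : FiniteDimensional k (Submodule.span k (Set.range w)) :=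
    FiniteDimensional.span_of_finite k (Set.finite_range w)
  exact Submodule.finiteDimensional_of_le h1

/-- the equivalence given by a nonzero scalar -/
private def sc (k : Type u) [Field k] (V : Type u) [AddCommGroup V] [Module k V] (a : k)
    (ha : a ≠ 0) : V ≃ₗ[k] V := LinearEquiv.smulOfNeZero k V a ha

private lemma sc_mem (a : k) (ha : a ≠ 0) : sc k V a ha ∈ Scal k V := ⟨a, fun _ => rfl⟩

/-- conjugation as a representation on the endomorphisms -/
private def cj (k : Type u) [Field k] (V : Type u) [AddCommGroup V] [Module k V] :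
    (V ≃ₗ[k] V) →* Module.End k (Module.End k V) where
  toFun g := (LinearEquiv.conj g : Module.End k V ≃ₗ[k] Module.End k V)
  map_one' := by
    ext φ v
    rfl
  map_mul' a b := by
    ext φ v
    rfl

private lemma cj_apply (g : V ≃ₗ[k] V) (φ : Module.End k V) (v : V) :
    cj k V g φ v = g (φ (g⁻¹ v)) := rfl

private lemma cj_ker (g : V ≃ₗ[k] V) : cj k V g = 1 ↔ g ∈ Scal k V := by
  constructor
  · intro h
    by_cases hV : Subsingleton V
    · exact ⟨0, fun v => Subsingleton.elim _ _⟩
    · rw [not_subsingleton_iff_nontrivial] at hV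
      obtain ⟨w, hw⟩ := exists_ne (0 : V)
      have h1 : ∃ φ : Module.Dual k V, φ w ≠ 0 := by
        by_contra h2
        push Not at h2
        exact hw ((Module.forall_dual_apply_eq_zero_iff k w).1 h2)
      obtain ⟨φ, hφ⟩ := h1
      refine ⟨(φ w)⁻¹ * φ (g w), fun v => ?_⟩
      have h3 : cj k V g (φ.smulRight v) (g w) = (φ.smulRight v) (g w) := by
        rw [h]; rfl
      rw [cj_apply, LinearMap.smulRight_apply, LinearMap.smulRight_apply] at h3
      have h4 : g⁻¹ (g w) = w := by
        rw [← LinearEquiv.mul_apply, inv_mul_cancel]; rfl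
      rw [h4, map_smul] at h3
      rw [mul_smul, ← h3, smul_smul, inv_mul_cancel₀ hφ, one_smul]
  · rintro ⟨c, hc⟩
    ext φ v
    change cj k V g φ v = φ v
    have h4 : g (g⁻¹ v) = v := by
      rw [← LinearEquiv.mul_apply, mul_inv_cancel]; rfl
    rw [cj_apply, hc, ← map_smul, ← hc, h4]

end

/-- Proof. Copy of `H49KB.finitary_of_proj` (`Pool/Agent/H49/KB/U3.lean`) and its private lemmas; the
field is the same, so it stays finite. -/
theorem finFin_of_proj [IsSimpleGroup G] (k : Type u) [Field k] [Finite k] (V : Type u)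
    [AddCommGroup V] [Module k V] (p : G →* PGrp k V) (hp : Function.Injective p)
    (f : G) (hf : f ≠ 1) (c : ℕ) (g : V ≃ₗ[k] V) (a : k) (hg : p f = (g : PGrp k V))
    (hs : SmallRank c g a) : FinFin G := by
  by_cases hV : FiniteDimensional k V
  · -- conjugation on the endomorphisms
    have hker : ∀ x ∈ Scal k V, cj k V x = 1 := fun x hx => (cj_ker x).2 hx
    let q : PGrp k V →* Module.End k (Module.End k V) := QuotientGroup.lift (Scal k V) (cj k V) hker
    have hq : Function.Injective q := by
      rw [injective_iff_map_eq_one]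
      intro x
      obtain ⟨y, rfl⟩ := QuotientGroup.mk_surjective x
      intro hx
      exact (QuotientGroup.eq_one_iff y).2 ((cj_ker y).1 hx)
    exact ⟨k, inferInstance, inferInstance, Module.End k V, inferInstance, inferInstance,
      q.comp p, hq.comp hp, fun x => inferInstance⟩
  · -- infinite dimension
    have ha : a ≠ 0 := by
      rintro rfl
      have h1 := smallRank_range hs
      rw [zero_smul, sub_zero, LinearMap.range_eq_top.2 g.surjective] at h1
      exact hV (Module.finite_def.2 (Module.Finite.iff_fg.1 h1))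
    -- the intersection with the scalars
    have hsc : ∀ x ∈ FG k V, x ∈ Scal k V → x = 1 := by
      rintro x hx ⟨b, hb⟩
      have hx' : FiniteDimensional k (LinearMap.range ((x : V →ₗ[k] V) - 1)) := hx
      by_cases hb1 : b = 1
      · ext v; rw [hb, hb1, one_smul]; rfl
      · exfalso
        apply hV
        have h1 : LinearMap.range ((x : V →ₗ[k] V) - 1) = ⊤ := by
          rw [eq_top_iff]
          rintro v -
          refine ⟨(b - 1)⁻¹ • v, ?_⟩
          change x ((b - 1)⁻¹ • v) - (b - 1)⁻¹ • v = v
          have h5 : b • ((b - 1)⁻¹ • v) - (b - 1)⁻¹ • v = ((b - 1) * (b - 1)⁻¹) • v := by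
            rw [sub_mul, sub_smul, mul_smul, one_mul]
          rw [hb, h5, mul_inv_cancel₀ (sub_ne_zero.2 hb1), one_smul]
        rw [h1] at hx'
        exact Module.finite_def.2 (Module.Finite.iff_fg.1 hx')
    let q : FG k V →* PGrp k V := (QuotientGroup.mk' (Scal k V)).comp (FG k V).subtype
    have hq : Function.Injective q := by
      rw [injective_iff_map_eq_one]
      intro x hx
      apply Subtype.ext
      exact hsc x.1 x.2 ((QuotientGroup.eq_one_iff x.1).1 hx)
    -- the normal subgroup
    let N : Subgroup G := ((FG k V).map (QuotientGroup.mk' (Scal k V))).comap p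
    have hN : N.Normal := by
      have h1 : ((FG k V).map (QuotientGroup.mk' (Scal k V))).Normal :=
        Subgroup.Normal.map inferInstance _ (QuotientGroup.mk'_surjective _)
      exact h1.comap p
    have hfN : f ∈ N := by
      change p f ∈ (FG k V).map (QuotientGroup.mk' (Scal k V))
      refine ⟨sc k V a⁻¹ (inv_ne_zero ha) * g, ?_, ?_⟩
      · change FiniteDimensional k (LinearMap.range
          (((sc k V a⁻¹ (inv_ne_zero ha) * g : V ≃ₗ[k] V) : V →ₗ[k] V) - 1))
        have h1 := smallRank_range hs
        have h2 : LinearMap.range (((sc k V a⁻¹ (inv_ne_zero ha) * g : V ≃ₗ[k] V) :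
            V →ₗ[k] V) - 1) ≤ LinearMap.range ((g : V →ₗ[k] V) - a • 1) := by
          rintro _ ⟨v, rfl⟩
          refine ⟨a⁻¹ • v, ?_⟩
          change g (a⁻¹ • v) - a • a⁻¹ • v = a⁻¹ • g v - v
          rw [map_smul, smul_smul, mul_inv_cancel₀ ha, one_smul]
        exact Submodule.finiteDimensional_of_le h2
      · rw [hg]
        rw [QuotientGroup.mk'_apply]
        rw [QuotientGroup.mk_mul]
        rw [(QuotientGroup.eq_one_iff _).2 (sc_mem a⁻¹ (inv_ne_zero ha)), one_mul]
    have hNtop : N = ⊤ := by
      rcases hN.eq_bot_or_eq_top with h | h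
      · exfalso
        rw [h, Subgroup.mem_bot] at hfN
        exact hf hfN
      · exact h
    have hr : ∀ x, p x ∈ q.range := by
      intro x
      have hx : x ∈ N := by rw [hNtop]; trivial
      obtain ⟨y, hy, hy2⟩ := hx
      exact ⟨⟨y, hy⟩, hy2⟩
    let e : FG k V ≃* q.range := MonoidHom.ofInjective hq
    let r : G →* FG k V := e.symm.toMonoidHom.comp (p.codRestrict q.range hr)
    have hrinj : Function.Injective r := by
      apply e.symm.injective.comp
      intro x y hxy
      exact hp (congrArg Subtype.val hxy)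
    refine ⟨k, inferInstance, inferInstance, V, inferInstance, inferInstance,
      (LinearEquiv.automorphismGroup.toLinearMapMonoidHom).comp ((FG k V).subtype.comp r),
      ?_, fun x => ?_⟩
    · intro x y hxy
      apply hrinj
      apply Subtype.ext
      apply LinearEquiv.toLinearMap_injective
      exact hxy
    · exact (r x).2

/-- Proof. Conjugation on `Module.End k V`, as in the first case of `H49KB.finitary_of_proj`. -/
theorem linearGrp_of_proj (k : Type u) [Field k] (V : Type u) [AddCommGroup V] [Module k V]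
    [FiniteDimensional k V] (p : G →* PGrp k V) (hp : Function.Injective p) : LinearGrp G := by
  have hker : ∀ x ∈ Scal k V, cj k V x = 1 := fun x hx => (cj_ker x).2 hx
  let q : PGrp k V →* Module.End k (Module.End k V) := QuotientGroup.lift (Scal k V) (cj k V) hker
  have hq : Function.Injective q := by
    rw [injective_iff_map_eq_one]
    intro x
    obtain ⟨y, rfl⟩ := QuotientGroup.mk_surjective x
    intro hx
    exact (QuotientGroup.eq_one_iff y).2 ((cj_ker y).1 hx)
  exact ⟨k, inferInstance, Module.End k V, inferInstance, inferInstance, inferInstance,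
    q.comp p, hq.comp hp⟩

end H49KE
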