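import Pool.Agent.H49.KE.Defs
import Pool.Agent.H49.KE.U1
import Pool.Agent.H49.KE.U2

namespace H49KE

open H49KA H49KB H49KC

universe u v w

variable {G : Type u} [Group G]

/-- Proof. As `H49KB.big_rank` (`Pool/Agent/H49/KB/BR.lean`), with `ultra_fin`, `finFin_of_proj`. -/
theorem big_rank_fin (hG : LocFin G) [IsSimpleGroup G] (hn : ¬ FinFin G) (F : Subgroup G)
    (hF : Finite F) (c q : ℕ) :
    ∃ M : Subgroup G, Finite M ∧ F ≤ M ∧
      ∀ (k : Type) [Field k] [Finite k], Nat.card k ≤ q → ∀ (V : Type) [AddCommGroup V]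
        [Module k V] (p : M →* PGrp k V), (∃ f : M, (f : G) ∈ F ∧ p f ≠ 1) →
        ∃ f : M, (f : G) ∈ F ∧ ∀ (g : V ≃ₗ[k] V) (a : k), p f = (g : PGrp k V) →
          ¬ SmallRank c g a := by
  by_contra hcon
  push Not at hcon
  have h : ∀ M : Subgroup G, Finite M → F ≤ M →
      ∃ (k : Type) (_ : Field k) (_ : Finite k) (V : Type) (_ : AddCommGroup V) (_ : Module k V)
        (p : M →* PGrp k V), Nat.card k ≤ q ∧ (∃ f : M, (f : G) ∈ F ∧ p f ≠ 1) ∧
        ∀ f : M, (f : G) ∈ F → ∃ (g : V ≃ₗ[k] V) (a : k), p f = (g : PGrp k V) ∧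
          SmallRank c g a := by
    intro M hM hFM
    obtain ⟨k, ik, fk, hq, V, iV, iM, p, hf, hp⟩ := hcon M hM hFM
    exact ⟨k, ik, fk, V, iV, iM, p, hq, hf, hp⟩
  obtain ⟨k, ik, fk, V, iV, iM, p, hinj, hp⟩ := ultra_fin hG F hF c q h
  obtain ⟨k', ik', fk', V', iV', iM', p', -, ⟨f, hf, hf1⟩, -⟩ := h F hF le_rfl
  obtain ⟨g, a, hg, hs⟩ := hp f hf
  exact hn (finFin_of_proj k V p hinj f (fun h1 => hf1 (by
    have : f = 1 := Subtype.ext h1
    rw [this, map_one])) c g a hg hs)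

/-- Proof. By contradiction, with `ultra_dim` and `linearGrp_of_proj`. -/
theorem big_lin (hG : LocFin G) [IsSimpleGroup G] (hn : ¬ LinearGrp G) (F : Subgroup G)
    (hF : Finite F) (d : ℕ) :
    ∃ M : Subgroup G, Finite M ∧ F ≤ M ∧
      ∀ (k : Type) [Field k] (V : Type) [AddCommGroup V] [Module k V] [FiniteDimensional k V]
        (p : M →* PGrp k V), Module.finrank k V ≤ d → ∀ f : M, (f : G) ∈ F → p f = 1 := by
  by_contra hcon
  push Not at hcon
  have h : ∀ M : Subgroup G, Finite M → F ≤ M →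
      ∃ (k : Type) (_ : Field k) (V : Type) (_ : AddCommGroup V) (_ : Module k V)
        (_ : FiniteDimensional k V) (p : M →* PGrp k V), Module.finrank k V ≤ d ∧
        ∃ f : M, (f : G) ∈ F ∧ p f ≠ 1 := by
    intro M hM hFM
    obtain ⟨k, ik, V, iV, iM, iF, p, hd, f, hf, hf1⟩ := hcon M hM hFM
    exact ⟨k, ik, V, iV, iM, iF, p, hd, f, hf, hf1⟩
  obtain ⟨k, ik, V, iV, iM, iF, p, hinj⟩ := ultra_dim hG F hF d h
  exact hn (linearGrp_of_proj k V p hinj)

end H49KE
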