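import Pool.Agent.H49.KE.Defs
import Pool.Agent.H49.KA.A1
import Pool.Agent.H49.KB.P2
import Pool.Agent.H49.KB.CE
import Pool.Agent.H49.KE.S1
import Pool.Agent.H49.KE.S2
import Pool.Agent.H49.KE.U3

namespace H49KE

open H49KA H49KB H49KC

universe u v w

variable {G : Type u} [Group G]

private theorem F2_big (hG : LocFin G) [Infinite G] (H : Subgroup G) [Finite H] (n : ℕ) :
    ∃ H' : Subgroup G, Finite H' ∧ H ≤ H' ∧ n ≤ Nat.card H' := by
  obtain ⟨S, hS⟩ := Infinite.exists_subset_card_eq G n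
  have hf : Finite (Subgroup.closure ((S : Set G) ∪ (H : Set G))) := by
    have h := hG ((S.finite_toSet.union (Set.toFinite (H : Set G))).toFinset)
    rwa [Set.Finite.coe_toFinset] at h
  refine ⟨Subgroup.closure ((S : Set G) ∪ (H : Set G)), hf,
    fun x hx => Subgroup.subset_closure (Or.inr hx), ?_⟩
  have h1 : Nat.card S ≤ Nat.card (Subgroup.closure ((S : Set G) ∪ (H : Set G))) := by
    refine Nat.card_le_card_of_injective
      (fun s : S => (⟨(s : G), Subgroup.subset_closure (Or.inl s.2)⟩ :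
        Subgroup.closure ((S : Set G) ∪ (H : Set G)))) ?_
    intro a b hab
    simp only [Subtype.mk.injEq] at hab
    exact Subtype.ext hab
  rw [Nat.card_eq_fintype_card, Fintype.card_coe, hS] at h1
  exact h1

private theorem F2_card (B C X : Subgroup G) [Finite X] (hB : B ≤ X) (hC : C ≤ X)
    (hBC : ∀ y ∈ B, y ∈ C → y = 1) : Nat.card B * Nat.card C ≤ Nat.card X := by
  rw [← Nat.card_prod]
  refine Nat.card_le_card_of_injective
    (fun q : B × C => (⟨(q.1 : G) * (q.2 : G), X.mul_mem (hB q.1.2) (hC q.2.2)⟩ : X)) ?_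
  rintro ⟨b, c⟩ ⟨b', c'⟩ h
  simp only [Subtype.mk.injEq] at h
  have h1 : (b' : G)⁻¹ * (b : G) = (c' : G) * (c : G)⁻¹ := by
    rw [eq_mul_inv_iff_mul_eq, mul_assoc, h, inv_mul_cancel_left]
  have h2 : (b' : G)⁻¹ * (b : G) = 1 := by
    refine hBC _ (B.mul_mem (B.inv_mem b'.2) b.2) ?_
    rw [h1]
    exact C.mul_mem c'.2 (C.inv_mem c.2)
  have h3 : (b : G) = (b' : G) := (inv_mul_eq_one.1 h2).symm
  have h4 : (c' : G) = (c : G) := by
    rw [h2] at h1
    exact mul_inv_eq_one.1 h1.symm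
  rw [Prod.mk.injEq]
  exact ⟨Subtype.ext h3, Subtype.ext h4.symm⟩

/-- Proof. As `H49KB.hypE_of_tops` (`Pool/Agent/H49/KB/Main.lean`). Let `F ≤ L`, `m = 3 |F| ^ 2`, `q₀` from
`ratSec_std m`, `b₁` from `ratSec_root d m`, `b₂` from `ratSec_ratio d m`, and let `B ≥ F` be a finite
subgroup with `|B| > max (m ^ 2, b₁, b₂, d)` (`G` is infinite). Let `M` be generated by: `M₁` from
`H49KB.alt_case` for `F, L`; `M₂` from `big_rank_fin` for `F`, `c = 2 * (4 * |L| + 5)`, `q = q₀`; `Y'` from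
`H49KA.exists_plus` for `B`; and, if `¬ LinearGrp G`, `M₃` from `big_lin` for `F, d`. Let `M ≤ X`, `T, C` as
in `HypF`. By `TopsF`: (1) `AltSec T C`: `alt_case`. Now let `T = X`. `B ⊓ C = ⊥`: otherwise `B ≤ C` by
`exists_plus` (`C` is normalised by `X ≥ Y'`), so `F ≤ C`. Hence `F ⊓ C = ⊥`, and `|X| ≥ |B| |C|` (products
`b c` are different), so `m ^ 2 |C| ≤ |X|` etc. (2) `StdSec`: if `q₀ ≤ |k|` use `ratSec_std` (second
alternative), otherwise `|k| ≤ q₀` and, as in `hypE_of_tops`, `H49KB.class_E` with the element given by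
`big_rank_fin` (`StdClassical Γ` implies `Classical Γ`) gives the first alternative. (3) `RootSec`:
`ratSec_root`. (4) `RatioSec`: `ratSec_ratio`. (5) `|X| ≤ d |C|`: impossible. (6) `¬ LinearGrp G` and
`LinSec d X C`: the restriction of `p` to `M₃` is trivial on `F` by `big_lin`, so `F ≤ C`, impossible. -/
theorem hypF_of_tops (hG : LocFin G) [IsSimpleGroup G] [Infinite G] (hC : NoConf G)
    (hn : ¬ FinFin G) (d : ℕ) (𝓛 : Set (Subgroup G)) (h𝓛 : LocalSystem 𝓛)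
    (hT : TopsF d 𝓛) : HypF 𝓛 := by
  intro F L hL hF hFL
  have := hL
  have hFf : Finite F := Finite.of_injective _ (Subgroup.inclusion_injective hFL)
  obtain ⟨q₀, hq₀⟩ := ratSec_std.{u} (3 * Nat.card F ^ 2)
  obtain ⟨b₁, hb₁⟩ := ratSec_root.{u} d (3 * Nat.card F ^ 2)
  obtain ⟨b₂, hb₂⟩ := ratSec_ratio.{u} d (3 * Nat.card F ^ 2)
  obtain ⟨B, hBf, hFB, hBc⟩ := F2_big hG F ((3 * Nat.card F ^ 2) ^ 2 + b₁ + b₂ + d + 1)
  have := hBf
  obtain ⟨Y', hY'f, hBY', hY'⟩ := exists_plus hG B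
  obtain ⟨M₁, hM₁, hLM₁, h₁⟩ := alt_case hG hC F L hL hF hFL
  obtain ⟨M₂, hM₂, hFM₂, h₂⟩ := big_rank_fin hG hn F hFf (2 * (4 * Nat.card L + 5)) q₀
  obtain ⟨M₃, hM₃, h₃⟩ : ∃ M₃ : Subgroup G, Finite M₃ ∧ (¬ LinearGrp G → F ≤ M₃ ∧
      ∀ (k : Type) [Field k] (V : Type) [AddCommGroup V] [Module k V] [FiniteDimensional k V]
        (p : M₃ →* PGrp k V), Module.finrank k V ≤ d → ∀ f : M₃, (f : G) ∈ F → p f = 1) := by
    by_cases hlin : LinearGrp G
    · exact ⟨L, hL, fun h => absurd hlin h⟩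
    · obtain ⟨M, hM, hFM, h⟩ := big_lin hG hlin F hFf d
      exact ⟨M, hM, fun _ => ⟨hFM, h⟩⟩
  have hMf : Finite (Subgroup.closure
      (((M₁ : Set G) ∪ (M₂ : Set G)) ∪ ((Y' : Set G) ∪ (M₃ : Set G)))) := by
    have h := hG ((Set.toFinite
      (((M₁ : Set G) ∪ (M₂ : Set G)) ∪ ((Y' : Set G) ∪ (M₃ : Set G)))).toFinset)
    rwa [Set.Finite.coe_toFinset] at h
  refine ⟨Subgroup.closure
    (((M₁ : Set G) ∪ (M₂ : Set G)) ∪ ((Y' : Set G) ∪ (M₃ : Set G))), hMf, ?_, ?_⟩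
  · intro x hx
    exact Subgroup.subset_closure (Or.inl (Or.inl (hLM₁ hx)))
  intro K hK X hXK hKX hXX hMX T C hsec hFC
  have hKf : Finite K := h𝓛.1 K hK
  have hXf : Finite X := Finite.of_injective _ (Subgroup.inclusion_injective hXK)
  have hM₁X : M₁ ≤ X := fun x hx => hMX (Subgroup.subset_closure (Or.inl (Or.inl hx)))
  have hM₂X : M₂ ≤ X := fun x hx => hMX (Subgroup.subset_closure (Or.inl (Or.inr hx)))
  have hY'X : Y' ≤ X := fun x hx => hMX (Subgroup.subset_closure (Or.inr (Or.inl hx)))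
  have hM₃X : M₃ ≤ X := fun x hx => hMX (Subgroup.subset_closure (Or.inr (Or.inr hx)))
  rcases hT K hK X hXK hKX hXX T C hsec with h | ⟨rfl, h⟩
  · exact Or.inl (h₁ X hXf hM₁X T C hsec h hFC)
  have hF1 : ∃ f ∈ F, f ∉ C := by
    by_contra hcon
    push Not at hcon
    exact hFC hcon
  obtain ⟨f₀, hf₀, hf₀C⟩ := hF1
  have hss : SimpleSec T C := hsec.2.2.2.1
  have hCT : C ≤ T := hss.1
  have hCf : Finite C := Finite.of_injective _ (Subgroup.inclusion_injective hCT)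
  have hBC : ∀ y ∈ B, y ∈ C → y = 1 := by
    intro y hy hyC
    by_contra hy1
    exact hFC (hFB.trans (hY' C (fun x hx t ht => hsec.2.1 x (hY'X hx) t ht)
      ⟨y, hy, hy1, hyC⟩))
  have hFC1 : F ⊓ C = ⊥ := by
    rw [eq_bot_iff]
    rintro y ⟨hy1, hy2⟩
    exact Subgroup.mem_bot.2 (hBC y (hFB hy1) hy2)
  have hcard : Nat.card B * Nat.card C ≤ Nat.card T := F2_card B C T (hBY'.trans hY'X) hCT hBC
  have hC0 : 0 < Nat.card C := Nat.card_pos
  have hcard2 : ((3 * Nat.card F ^ 2) ^ 2 + b₁ + b₂ + d + 1) * Nat.card C ≤ Nat.card T :=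
    (Nat.mul_le_mul_right _ hBc).trans hcard
  have hcard3 : ∀ n, n ≤ (3 * Nat.card F ^ 2) ^ 2 + b₁ + b₂ + d →
      n * Nat.card C < Nat.card T := by
    intro n hn
    refine lt_of_lt_of_le ?_ hcard2
    exact Nat.mul_lt_mul_of_pos_right (by omega) hC0
  have hfin : RatSec (3 * Nat.card F ^ 2) T C →
      (T = T ∧ F ⊓ C = ⊥ ∧ RatSec (3 * Nat.card F ^ 2) T C ∧
          (3 * Nat.card F ^ 2) ^ 2 * Nat.card C ≤ Nat.card T) := fun h =>
    ⟨rfl, hFC1, h, (hcard3 _ (by omega)).le⟩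
  rcases h with h | h | h | h | ⟨hlin, h⟩
  · obtain ⟨k, _, _, V, _, _, _, Γ, p, hΓ, hp, hr⟩ := h
    by_cases hq : q₀ ≤ Nat.card k
    · exact Or.inr (hfin (hq₀ G T C k V Γ p hq hΓ hp hr hss))
    · left
      obtain ⟨f, hf, hf2⟩ := h₂ k (not_le.1 hq).le V (p.comp (Subgroup.inclusion hM₂X))
        ⟨⟨f₀, hFM₂ hf₀⟩, hf₀, fun h => hf₀C ((hp _).1 h)⟩
      have hΓ' : Classical Γ := by
        rcases hΓ with h | h | h | h
        · exact Or.inl h
        · exact Or.inr (Or.inl h)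
        · exact Or.inr (Or.inr (Or.inl h))
        · exact Or.inr (Or.inr (Or.inr h.1))
      exact class_E T C F L hL hFL (le_trans hLM₁ hM₁X) hCT k V Γ p hΓ' hp hr
        (Subgroup.inclusion hM₂X f) hf hf2
  · exact Or.inr (hfin (hb₁ G T C hXf h hss (hcard3 _ (by omega))))
  · exact Or.inr (hfin (hb₂ G T C h (hcard3 _ (by omega))))
  · exact absurd (hcard3 d (by omega)) (not_lt.2 h)
  · exfalso
    obtain ⟨k, _, V, _, _, _, p, hd, hp⟩ := h
    obtain ⟨hFM₃, h₃'⟩ := h₃ hlin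
    apply hFC
    intro f hf
    have h5 := h₃' k V (p.comp (Subgroup.inclusion hM₃X)) hd ⟨f, hFM₃ hf⟩ hf
    exact (hp _).1 h5

end H49KE
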