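import Pool.Agent.H49.KE.Main

namespace H49KE

open H49KA H49KB H49KC

universe u

theorem topsF_of_allTops {G : Type u} [Group G] (d : ℕ) (𝓛 : Set (Subgroup G))
    (hT : AllTops d 𝓛) : TopsF d 𝓛 := by
  intro K hK X hX hKX hXX T C hs
  rcases hT K hK X hX hKX hXX T C hs with h | ⟨h1, h | h | h⟩
  · exact Or.inl h
  · exact Or.inr ⟨h1, Or.inl h⟩
  · exact Or.inr ⟨h1, Or.inr (Or.inr (Or.inl h))⟩
  · exact Or.inr ⟨h1, Or.inr (Or.inr (Or.inr (Or.inr h)))⟩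

theorem classification (G : Type u) [Group G] [Infinite G] (hG : LocFin G) (d : ℕ)
    (𝓛 : Set (Subgroup G)) (h𝓛 : LocalSystem 𝓛) (hT : AllTops d 𝓛) :
    AugSimple G ↔ IsSimpleGroup G ∧ ¬ FinFin G ∧ (AltQuot G → H49KD.RegOrb G) :=
  (mainF G hG d 𝓛 h𝓛 (topsF_of_allTops d 𝓛 hT)).2

theorem confined_criterion (G : Type u) [Group G] [Infinite G] (hG : LocFin G) (d : ℕ)
    (𝓛 : Set (Subgroup G)) (h𝓛 : LocalSystem 𝓛) (hT : AllTops d 𝓛) :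
    AugSimple G ↔ NoConf G :=
  (mainF G hG d 𝓛 h𝓛 (topsF_of_allTops d 𝓛 hT)).1

end H49KE
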