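import Pool.Agent.H49.KE.Defs

namespace H49KE

open H49KA H49KB H49KC

universe u v w

variable {K : Type u} [Group K]

/-- Proof. Every `x : X` is a product `s * c` with `s ∈ S`, `c ∈ C` (`C` is normalised by `S ≤ X`, so
`S ⊔ C` is the set of these products); put `ψ x = φ s`. If `s c = s' c'` then `s'⁻¹ s ∈ C`, so
`φ s = φ s'`. It is multiplicative: `s c s' c' = s s' (s'⁻¹ c s') c'`. -/
theorem lift_hom (X S C : Subgroup K) (hSX : S ≤ X) (hCX : C ≤ X) (hXC : NormIn X C)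
    (hsup : X ≤ S ⊔ C) {M : Type v} [Monoid M] (φ : S →* M)
    (h : ∀ s : S, (s : K) ∈ C → φ s = 1) :
    ∃ ψ : X →* M, (∀ s : S, ψ ⟨s, hSX s.2⟩ = φ s) ∧ ∀ x : X, (x : K) ∈ C → ψ x = 1 := by
  classical
  have hconj : ∀ s ∈ S, ∀ c ∈ C, s⁻¹ * c * s ∈ C := fun s hs c hc => by
    have := hXC s⁻¹ (X.inv_mem (hSX hs)) c hc
    rwa [inv_inv] at this
  have hN : S ≤ Subgroup.normalizer (C : Set K) := by
    intro s hs
    rw [Subgroup.mem_normalizer_iff]
    intro g
    constructor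
    · intro hg
      exact hXC s (hSX hs) g hg
    · intro hg
      have h1 := hconj s hs _ hg
      have h2 : s⁻¹ * (s * g * s⁻¹) * s = g := by group
      rwa [h2] at h1
  have hprod : ∀ x : X, ∃ s : S, (s : K)⁻¹ * x ∈ C := by
    intro x
    have hx : (x : K) ∈ ((S ⊔ C : Subgroup K) : Set K) := hsup x.2
    rw [Subgroup.coe_mul_of_left_le_normalizer_right S C hN] at hx
    obtain ⟨s, hs, c, hc, hsc⟩ := Set.mem_mul.1 hx
    refine ⟨⟨s, hs⟩, ?_⟩
    rw [← hsc]
    simpa using hc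
  -- the value does not depend on the choice
  have huni : ∀ (x : K) (s s' : S), (s : K)⁻¹ * x ∈ C → (s' : K)⁻¹ * x ∈ C → φ s = φ s' := by
    intro x s s' h1 h2
    have h3 : ((s'⁻¹ * s : S) : K) ∈ C := by
      have h4 : ((s'⁻¹ * s : S) : K) = ((s' : K)⁻¹ * x) * ((s : K)⁻¹ * x)⁻¹ := by
        simp
      rw [h4]
      exact C.mul_mem h2 (C.inv_mem h1)
    have h5 : s = s' * (s'⁻¹ * s) := by group
    rw [h5, map_mul, h _ h3, mul_one]
  choose f hf using hprod
  have hval : ∀ (x : X) (s : S), (s : K)⁻¹ * x ∈ C → φ (f x) = φ s := fun x s hs =>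
    huni x (f x) s (hf x) hs
  refine ⟨{ toFun := fun x => φ (f x), map_one' := ?_, map_mul' := ?_ }, ?_, ?_⟩
  · rw [hval 1 1 (by simp), map_one]
  · intro x y
    rw [← map_mul]
    apply hval
    have h1 : ((f x * f y : S) : K)⁻¹ * ((x * y : X) : K) =
        ((f y : K)⁻¹ * ((f x : K)⁻¹ * x) * f y) * ((f y : K)⁻¹ * y) := by
      push_cast
      group
    rw [h1]
    exact C.mul_mem (hconj _ (f y).2 _ (hf x)) (hf y)
  · intro s
    exact hval _ s (by simp)
  · intro x hx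
    change φ (f x) = 1
    rw [hval x 1 (by simpa using hx), map_one]

end H49KE
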