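import Pool.Agent.H49.KE.Defs

namespace H49KE

open H49KA H49KB H49KC

universe u v w

variable {K : Type u} [Group K]

/-- Proof. Choose a basis of `E` indexed by `Fin (finrank E)` and take matrices
(`LinearMap.toMatrixAlgEquiv`, the trace is preserved). -/
theorem ratSec_rep (m : ℕ) (X C : Subgroup K) (h : RatSec m X C) {E : Type v}
    [AddCommGroup E] [Module ℂ E] [FiniteDimensional ℂ E] (ρ : X →* Module.End ℂ E)
    (hC : ∀ x : X, (x : K) ∈ C → ρ x = 1) (hfix : ∀ v, (∀ x, ρ x v = v) → v = 0) :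
    ∀ x : X, (x : K) ∉ C → m * ‖LinearMap.trace ℂ E (ρ x)‖ ≤ Module.finrank ℂ E := by
  intro x hx
  let b := Module.finBasis ℂ E
  let e : Module.End ℂ E ≃ₐ[ℂ] Matrix (Fin (Module.finrank ℂ E)) (Fin (Module.finrank ℂ E)) ℂ :=
    LinearMap.toMatrixAlgEquiv b
  let ρ' : X →* Matrix (Fin (Module.finrank ℂ E)) (Fin (Module.finrank ℂ E)) ℂ :=
    (e : Module.End ℂ E →* Matrix (Fin (Module.finrank ℂ E)) (Fin (Module.finrank ℂ E)) ℂ).comp ρ
  have hρ' : ∀ y, ρ' y = LinearMap.toMatrix b b (ρ y) := fun y => rfl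
  have h1 : ∀ y : X, (y : K) ∈ C → ρ' y = 1 := by
    intro y hy
    rw [hρ', hC y hy]
    exact LinearMap.toMatrix_one b
  have h2 : ∀ v : Fin (Module.finrank ℂ E) → ℂ, (∀ y, (ρ' y).mulVec v = v) → v = 0 := by
    intro v hv
    have h3 : b.equivFun.symm v = 0 := by
      refine hfix _ fun y => ?_
      have h4 := hv y
      rw [hρ'] at h4
      have h5 := LinearMap.toMatrix_mulVec_repr b b (ρ y) (b.equivFun.symm v)
      have h6 : (b.repr (b.equivFun.symm v) : Fin (Module.finrank ℂ E) → ℂ) = v := by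
        rw [← Module.Basis.equivFun_apply, LinearEquiv.apply_symm_apply]
      rw [h6, h4] at h5
      apply b.repr.injective
      apply DFunLike.coe_injective
      rw [← h5, h6]
    have h7 := congrArg b.equivFun h3
    rwa [LinearEquiv.apply_symm_apply, map_zero] at h7
  have h8 := h _ ρ' h1 h2 x hx
  rwa [hρ', ← LinearMap.trace_eq_matrix_trace ℂ b] at h8

end H49KE
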