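import Pool.Agent.H49.KE.Defs
import Pool.Agent.H49.KE.R6
import Pool.Agent.H49.KE.T1

namespace H49KE

open H49KA H49KB H49KC

universe u v w

variable {K : Type u} [Group K]

/-- Proof. Let `n = finrank E`. By `sum_sq` `|X| ≤ ∑_{x ∈ X} ‖χ x‖ ^ 2`, where `χ = trace ∘ ρ`. For
`x ∈ C` the term is `n ^ 2`; for `x ∉ C` it is at most `(n / m) ^ 2` by `ratSec_rep`. So
`|X| ≤ |C| n ^ 2 + |X| n ^ 2 / m ^ 2`; multiply by `m ^ 2` and use `m ^ 2 |C| ≤ |X|`, divide by `|X|`: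
`m ^ 2 ≤ 2 n ^ 2`. -/
theorem rat_lower (m : ℕ) (hm : 0 < m) (X C : Subgroup K) (hX : Finite X) (hCX : C ≤ X)
    (h : RatSec m X C) (hmX : m ^ 2 * Nat.card C ≤ Nat.card X) {E : Type v}
    [AddCommGroup E] [Module ℂ E] [FiniteDimensional ℂ E] [Nontrivial E]
    (ρ : X →* Module.End ℂ E) (hC : ∀ x : X, (x : K) ∈ C → ρ x = 1)
    (hfix : ∀ v, (∀ x, ρ x v = v) → v = 0) : m ^ 2 ≤ 2 * Module.finrank ℂ E ^ 2 := by
  classical
  have := Fintype.ofFinite X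
  set n : ℝ := (Module.finrank ℂ E : ℝ) with hn
  have hmR : (0 : ℝ) < m := by exact_mod_cast hm
  have h1 : (Nat.card X : ℝ) ≤ ∑ g : X, ‖LinearMap.trace ℂ E (ρ g)‖ ^ 2 := by
    rw [← finsum_eq_sum_of_fintype]
    exact (sum_sq ρ).1 inferInstance
  have h2 : ∀ g : X, ‖LinearMap.trace ℂ E (ρ g)‖ ^ 2 ≤
      (if (g : K) ∈ C then n ^ 2 else 0) + n ^ 2 / m ^ 2 := by
    intro g
    split_ifs with hg
    · rw [hC g hg, LinearMap.trace_one, Complex.norm_natCast]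
      have : 0 ≤ n ^ 2 / (m : ℝ) ^ 2 := by positivity
      linarith
    · have h3 := ratSec_rep m X C h ρ hC hfix g hg
      have h4 : ‖LinearMap.trace ℂ E (ρ g)‖ ≤ n / m := by
        rw [le_div_iff₀ hmR, mul_comm]
        exact h3
      rw [zero_add, ← div_pow]
      exact pow_le_pow_left₀ (norm_nonneg _) h4 2
  have h5 : (∑ g : X, (if (g : K) ∈ C then n ^ 2 else 0)) = Nat.card C * n ^ 2 := by
    rw [← Finset.sum_filter, Finset.sum_const, nsmul_eq_mul]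
    congr 2
    rw [← Nat.card_congr (Subgroup.subgroupOfEquivOfLe hCX).toEquiv, Nat.card_eq_fintype_card,
      Fintype.card_subtype]
    rfl
  have h6 : (Nat.card X : ℝ) ≤ Nat.card C * n ^ 2 + Nat.card X * (n ^ 2 / m ^ 2) := by
    refine h1.trans ((Finset.sum_le_sum fun g _ => h2 g).trans ?_)
    rw [Finset.sum_add_distrib, h5, Finset.sum_const, Finset.card_univ, nsmul_eq_mul,
      Nat.card_eq_fintype_card (α := X)]
  have h7 : (m : ℝ) ^ 2 * Nat.card C ≤ Nat.card X := by exact_mod_cast hmX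
  have h8 : (0 : ℝ) < Nat.card X := by
    have : 0 < Nat.card X := Nat.card_pos
    exact_mod_cast this
  have h9 : (m : ℝ) ^ 2 * Nat.card X ≤ 2 * n ^ 2 * Nat.card X := by
    have e1 : (m : ℝ) ^ 2 * (Nat.card C * n ^ 2 + Nat.card X * (n ^ 2 / m ^ 2)) =
        ((m : ℝ) ^ 2 * Nat.card C) * n ^ 2 + Nat.card X * n ^ 2 := by
      field_simp
    calc (m : ℝ) ^ 2 * Nat.card X
        ≤ (m : ℝ) ^ 2 * (Nat.card C * n ^ 2 + Nat.card X * (n ^ 2 / m ^ 2)) :=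
          mul_le_mul_of_nonneg_left h6 (by positivity)
      _ = ((m : ℝ) ^ 2 * Nat.card C) * n ^ 2 + Nat.card X * n ^ 2 := e1
      _ ≤ Nat.card X * n ^ 2 + Nat.card X * n ^ 2 :=
          add_le_add (mul_le_mul_of_nonneg_right h7 (by positivity)) le_rfl
      _ = 2 * n ^ 2 * Nat.card X := by ring
  have h10 : (m : ℝ) ^ 2 ≤ 2 * n ^ 2 := le_of_mul_le_mul_right h9 h8
  rw [hn] at h10
  exact_mod_cast h10

end H49KE
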