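import Pool.Agent.H49.KE.Defs
import Pool.Agent.H49.KE.R5
import Pool.Agent.H49.KE.R9
import Pool.Agent.H49.KE.T0
import Pool.Agent.H49.KE.T1
import Pool.Agent.H49.KE.T2

namespace H49KE

open H49KA H49KB H49KC

universe u v w

variable {K : Type u} [Group K]

/-- Proof. Let `N = finrank E ≥ 2` and `W = ker (trace)` in `Module.End ℂ E`. By `cjr_zero`, `S` acts
on `W` by conjugation, `finrank W = N ^ 2 - 1`, the trace of `s` on `W` is `‖trace (σ s)‖ ^ 2 - 1`, and
there are no nonzero fixed vectors. For `z ∈ S ∩ C` the operator `σ z` commutes with all `σ s`, so it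
is a scalar (`irr_scalar`) and acts trivially on `W` by conjugation. By `lift_hom` the action
extends to `X`, with `C` acting trivially; it has no nonzero fixed vectors. By `ratSec_rep`, for
`s ∉ C`: `m (‖trace (σ s)‖ ^ 2 - 1) ≤ N ^ 2 - 1`, and by `rat_lower` `m ^ 2 ≤ 2 (N ^ 2 - 1) ^ 2`, so
`m ≤ 2 (N ^ 2 - 1)`. Together `m ‖trace (σ s)‖ ^ 2 ≤ m + N ^ 2 - 1 ≤ 3 N ^ 2`. -/
theorem rat_proj (m : ℕ) (hm : 0 < m) (X S C : Subgroup K) (hX : Finite X) (hSX : S ≤ X)
    (hCX : C ≤ X) (hXC : NormIn X C) (hsup : X ≤ S ⊔ C) (h : RatSec m X C)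
    (hmX : m ^ 2 * Nat.card C ≤ Nat.card X) {E : Type v} [AddCommGroup E] [Module ℂ E]
    [FiniteDimensional ℂ E] (σ : S →* Module.End ℂ E) (hσ : Irr σ)
    (hdim : 1 < Module.finrank ℂ E) (hz : ∀ z s : S, (z : K) ∈ C → Commute (σ z) (σ s)) :
    ∀ s : S, (s : K) ∉ C →
      m * ‖LinearMap.trace ℂ E (σ s)‖ ^ 2 ≤ 3 * (Module.finrank ℂ E : ℝ) ^ 2 := by
  intro s hs
  haveI : Finite X := hX
  haveI : Finite S := Finite.of_injective _ (Subgroup.inclusion_injective hSX)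
  haveI : Nontrivial E := hσ.1
  obtain ⟨hW, hfr, htr, hfx⟩ := cjr_zero σ hσ.1
  set W := LinearMap.ker (LinearMap.trace ℂ E) with hWdef
  -- the kernel of the trace is not zero
  have hw1 : 0 < Module.finrank ℂ W := by
    have h4 : 2 ^ 2 ≤ Module.finrank ℂ E ^ 2 := Nat.pow_le_pow_left hdim 2
    omega
  haveI : Nontrivial W := Module.nontrivial_of_finrank_pos hw1
  -- the central part acts trivially
  have hφ : ∀ z : S, (z : K) ∈ C → subRep (cjr σ) W hW z = 1 := by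
    intro z hzC
    obtain ⟨c, hc⟩ := irr_scalar σ hσ (σ z) (fun g => (hz z g hzC).eq.symm)
    ext w v
    have h1 : cjr σ z (w : Module.End ℂ E) = w := by
      have h2 : cjr σ z (w : Module.End ℂ E) = σ z * ((w : Module.End ℂ E) * σ z⁻¹) := rfl
      have h3 : σ z * (w : Module.End ℂ E) = (w : Module.End ℂ E) * σ z := by
        rw [hc]
        simp
      rw [h2, ← mul_assoc, h3, mul_assoc, ← map_mul, mul_inv_cancel, map_one, mul_one]
    have h4 : ((subRep (cjr σ) W hW z w : W) : Module.End ℂ E) = cjr σ z (w : Module.End ℂ E) := rfl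
    rw [h4, h1]
    rfl
  obtain ⟨ψ, hψ, hψC⟩ := lift_hom X S C hSX hCX hXC hsup (subRep (cjr σ) W hW) hφ
  have hfix : ∀ v : W, (∀ x, ψ x v = v) → v = 0 := by
    intro v hv
    apply Subtype.ext
    refine hfx hσ v.1 v.2 fun g => ?_
    have h1 := hv ⟨g, hSX g.2⟩
    rw [hψ g] at h1
    exact congrArg Subtype.val h1
  have hA := ratSec_rep m X C h ψ hψC hfix ⟨s, hSX s.2⟩ hs
  rw [hψ s, htr s] at hA
  have hB := rat_lower m hm X C hX hCX h hmX ψ hψC hfix
  -- numerical part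
  set a : ℝ := ‖LinearMap.trace ℂ E (σ s)‖ ^ 2 with ha
  have h1 : a - 1 ≤ ‖((a : ℝ) : ℂ) - 1‖ := by
    have h2 : ((a : ℝ) : ℂ) - 1 = ((a - 1 : ℝ) : ℂ) := by push_cast; ring
    rw [h2, Complex.norm_real]
    exact le_abs_self _
  have hm0 : (0 : ℝ) ≤ m := Nat.cast_nonneg m
  have h3 : (m : ℝ) * (a - 1) ≤ Module.finrank ℂ W := (mul_le_mul_of_nonneg_left h1 hm0).trans hA
  have h4 : (m : ℝ) ≤ 2 * Module.finrank ℂ W := by
    have h5 : m ≤ 2 * Module.finrank ℂ W := by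
      by_contra hcon
      have h6 : 2 * Module.finrank ℂ W + 1 ≤ m := by omega
      have h7 := Nat.pow_le_pow_left h6 2
      nlinarith
    exact_mod_cast h5
  have h8 : (Module.finrank ℂ W : ℝ) + 1 = (Module.finrank ℂ E : ℝ) ^ 2 := by exact_mod_cast hfr
  nlinarith

end H49KE
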