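import Pool.Agent.H49.KE.Defs
import Pool.Agent.H49.KE.R2
import Pool.Agent.H49.KE.R5
import Pool.Agent.H49.KE.R7
import Pool.Agent.H49.KE.R8
import Pool.Agent.H49.KE.T3
import Pool.Agent.H49.KA.C3

namespace H49KE

open H49KA H49KB H49KC

universe u v w

variable {K : Type u} [Group K]

/-- Proof. Let `ρ_X` be the restriction of `ρ` to `X`. By `exists_irr` (for `y = s s' s⁻¹ s'⁻¹`) there is
an irreducible `X`-invariant `U ≤ V` on which `y` acts nontrivially. It is enough to show that the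
operators of `F` on `U` are linearly independent; by `H49KA.linIndep_of_trace` (`KA/C3`) it is
enough that `|F| ‖χ f‖ ≤ n` for `1 ≠ f ∈ F`, where `n = finrank U`, `χ x` the trace of `x` on `U`.
Operators of `C` and of `S` on `U` commute by `hcom`. Let `σ` be an irreducible `S`-invariant
subspace of `U` (`irr_exists`), `N = finrank σ`. For `s ∈ S` let `T_s` be the average of the
operators of `y s y⁻¹`, `y ∈ S`, on `U`. It commutes with `S` and with `C`, hence with `X`
(`X ≤ S ⊔ C`), so it is a scalar `τ` (`irr_scalar`). Taking traces on `σ` gives `N τ = χ_σ s` and on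
`U` `n τ = χ s`. For `c ∈ C` the elements `y s c y⁻¹` and `y s y⁻¹ c` act in the same way, so
`χ (s c)` is the trace of `T_s ρ(c)`, that is `τ χ(c)`, and `‖χ (s c)‖ ≤ ‖τ‖ n` by `tr_inv`. Now
`N > 1`: otherwise commutators of `S` act trivially on `σ`, then also on all `ρ(x) σ`, `x ∈ X`
(`x = s c`, `ρ(c) σ` is an `S`-invariant subspace isomorphic to `σ` by `ρ(c)`), whose sum is `U`; but
`y` acts nontrivially on `U`. Apply `rat_proj` with `m = 3 |F| ^ 2` to `σ` (as representation of `S`;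
`hz` by `hcom`): for `s ∉ C`, `3 |F| ^ 2 ‖χ_σ s‖ ^ 2 ≤ 3 N ^ 2`, so `|F| ‖τ‖ ≤ 1`. For `1 ≠ f ∈ F` write
`f = s c` (`f ∈ X ≤ S ⊔ C`, as in `lift_hom`); `f ∉ C` since `F ⊓ C = ⊥`, so `s ∉ C`, and
`|F| ‖χ f‖ ≤ |F| ‖τ‖ n ≤ n`. -/
theorem rat_step [Finite K] (F S C X : Subgroup K) (hFX : F ≤ X) (hSX : S ≤ X) (hCX : C ≤ X)
    (hXC : NormIn X C) (hsup : X ≤ S ⊔ C) (hFC : F ⊓ C = ⊥)
    (h : RatSec (3 * Nat.card F ^ 2) X C)
    (hmX : (3 * Nat.card F ^ 2) ^ 2 * Nat.card C ≤ Nat.card X) {V : Type v} [AddCommGroup V]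
    [Module ℂ V] [FiniteDimensional ℂ V] (ρ : K →* Module.End ℂ V)
    (hcom : ∀ c ∈ C, ∀ s ∈ S, ρ (c * s * c⁻¹ * s⁻¹) = 1)
    (hne : ∃ s ∈ S, ∃ s' ∈ S, ρ (s * s' * s⁻¹ * s'⁻¹) ≠ 1) :
    LinearIndependent ℂ (fun f : F => ρ f) := by
  classical
  have hN : S ≤ Subgroup.normalizer (C : Set K) := by
    intro s hs
    rw [Subgroup.mem_normalizer_iff]
    intro g
    constructor
    · intro hg
      exact hXC s (hSX hs) g hg
    · intro hg
      have h1 := hXC s⁻¹ (X.inv_mem (hSX hs)) _ hg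
      have h2 : s⁻¹ * (s * g * s⁻¹) * s⁻¹⁻¹ = g := by group
      rwa [h2] at h1
  have hprod : ∀ x ∈ X, ∃ s ∈ S, ∃ c ∈ C, s * c = x := by
    intro x hxX
    have hx : x ∈ ((S ⊔ C : Subgroup K) : Set K) := hsup hxX
    rw [Subgroup.coe_mul_of_left_le_normalizer_right S C hN] at hx
    obtain ⟨s, hs, c, hc, hsc⟩ := Set.mem_mul.1 hx
    exact ⟨s, hs, c, hc, hsc⟩
  obtain ⟨s₀, hs₀, s₁, hs₁, hy⟩ := hne
  have hyX : s₀ * s₁ * s₀⁻¹ * s₁⁻¹ ∈ X :=
    X.mul_mem (X.mul_mem (X.mul_mem (hSX hs₀) (hSX hs₁)) (X.inv_mem (hSX hs₀)))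
      (X.inv_mem (hSX hs₁))
  let ρX : X →* Module.End ℂ V := ρ.comp X.subtype
  obtain ⟨W, hW, hirr, hWy⟩ := exists_irr ρX ⟨_, hyX⟩ hy
  have hWn : Nontrivial W := hirr.1
  obtain ⟨π, hπ⟩ : ∃ π : X →* Module.End ℂ W, π = subRep ρX W hW := ⟨_, rfl⟩
  have hπv : ∀ (x : X) (w : W), ((π x w : W) : V) = ρ x (w : V) := by
    intro x w
    rw [hπ]
    rfl
  have hπirr : Irr π := by rw [hπ]; exact hirr
  -- operators of `S` and `C` commute
  have hcomV : ∀ c ∈ C, ∀ s ∈ S, ρ s * ρ c = ρ c * ρ s := by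
    intro c hc s hs
    have h1 : (c * s * c⁻¹ * s⁻¹) * (s * c) = c * s := by group
    rw [← map_mul, ← map_mul, ← h1, map_mul ρ (c * s * c⁻¹ * s⁻¹), hcom c hc s hs, one_mul]
  have hcomW : ∀ s c : X, (s : K) ∈ S → (c : K) ∈ C → π s * π c = π c * π s := by
    intro s c hs hc
    refine LinearMap.ext fun w => Subtype.ext ?_
    rw [Module.End.mul_apply, Module.End.mul_apply, hπv, hπv, hπv, hπv,
      ← Module.End.mul_apply, ← Module.End.mul_apply, hcomV _ hc _ hs]
  -- the restriction to `S`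
  let πS : S →* Module.End ℂ W := π.comp (Subgroup.inclusion hSX)
  have hπS : ∀ s : S, πS s = π ⟨s, hSX s.2⟩ := fun s => rfl
  obtain ⟨A, hA, -, hAirr⟩ := irr_exists πS ⊤ (fun _ _ _ => Submodule.mem_top) top_ne_bot
  have hAn : Nontrivial A := hAirr.1
  obtain ⟨σ, hσ⟩ : ∃ σ : S →* Module.End ℂ A, σ = subRep πS A hA := ⟨_, rfl⟩
  have hσv : ∀ (s : S) (a : A), ((σ s a : A) : W) = πS s (a : W) := by
    intro s a
    rw [hσ]
    rfl
  have hσirr : Irr σ := by rw [hσ]; exact hAirr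
  -- the dimension of `A`
  have hdim : 1 < Module.finrank ℂ A := by
    by_contra hle
    have hone : Module.finrank ℂ A = 1 := by
      have : 0 < Module.finrank ℂ A := Module.finrank_pos
      omega
    have hcommσ : ∀ s t : S, σ s * σ t = σ t * σ s := by
      intro s t
      obtain ⟨v, hv0, hv⟩ := finrank_eq_one_iff'.1 hone
      obtain ⟨a, ha⟩ := hv (σ s v)
      obtain ⟨b, hb⟩ := hv (σ t v)
      refine LinearMap.ext fun w => ?_
      obtain ⟨c, rfl⟩ := hv w
      rw [Module.End.mul_apply, Module.End.mul_apply, map_smul, map_smul, map_smul, map_smul,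
        ← ha, ← hb, map_smul, map_smul, ← ha, ← hb, smul_comm a b v]
    have hσ1 : ∀ s t : S, σ (s * t * s⁻¹ * t⁻¹) = 1 := by
      intro s t
      have h1 : s * t * s⁻¹ * t⁻¹ * (t * s) = s * t := by group
      have h2 : σ (s * t * s⁻¹ * t⁻¹) * σ (t * s) = σ (t * s) := by
        rw [← map_mul, h1, map_mul, map_mul, hcommσ]
      have h3 : σ (t * s) * σ (t * s)⁻¹ = 1 := by
        rw [← map_mul, mul_inv_cancel, map_one]
      calc σ (s * t * s⁻¹ * t⁻¹) = σ (s * t * s⁻¹ * t⁻¹) * (σ (t * s) * σ (t * s)⁻¹) := by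
            rw [h3, mul_one]
        _ = 1 := by rw [← mul_assoc, h2, h3]
    let B : Submodule ℂ W :=
      { carrier := {w | ∀ s t : S, πS (s * t * s⁻¹ * t⁻¹) w = w}
        add_mem' := by
          intro v w hv hw s t
          rw [map_add, hv s t, hw s t]
        zero_mem' := fun s t => map_zero _
        smul_mem' := by
          intro c v hv s t
          rw [map_smul, hv s t] }
    have hBmem : ∀ w, w ∈ B ↔ ∀ s t : S, πS (s * t * s⁻¹ * t⁻¹) w = w := fun w => Iff.rfl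
    have hBS : ∀ (r : S), ∀ w ∈ B, πS r w ∈ B := by
      intro r w hw s t
      have h1 := hw (r⁻¹ * s * r) (r⁻¹ * t * r)
      have h2 : s * t * s⁻¹ * t⁻¹ * r = r * ((r⁻¹ * s * r) * (r⁻¹ * t * r) *
          (r⁻¹ * s * r)⁻¹ * (r⁻¹ * t * r)⁻¹) := by group
      rw [← Module.End.mul_apply, ← map_mul, h2, map_mul, Module.End.mul_apply, h1]
    have hBC : ∀ c : X, (c : K) ∈ C → ∀ w ∈ B, π c w ∈ B := by
      intro c hc w hw s t
      have h1 := hcomW ⟨(s * t * s⁻¹ * t⁻¹ : S), hSX (s * t * s⁻¹ * t⁻¹ : S).2⟩ c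
        (s * t * s⁻¹ * t⁻¹ : S).2 hc
      rw [hπS, ← Module.End.mul_apply, h1, Module.End.mul_apply, ← hπS, hw s t]
    have hBX : ∀ x : X, ∀ w ∈ B, π x w ∈ B := by
      intro x w hw
      obtain ⟨s, hs, c, hc, hsc⟩ := hprod x x.2
      have h1 : x = ⟨s, hSX hs⟩ * ⟨c, hCX hc⟩ := Subtype.ext hsc.symm
      rw [h1, map_mul, Module.End.mul_apply]
      exact hBS ⟨s, hs⟩ _ (hBC _ hc w hw)
    rcases hπirr.2 B hBX with hB | hB
    · obtain ⟨a, ha⟩ := exists_ne (0 : A)
      apply ha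
      have h1 : (a : W) ∈ B := by
        intro s t
        rw [← hσv, hσ1]
        rfl
      rw [hB] at h1
      exact Subtype.ext ((Submodule.mem_bot ℂ).1 h1)
    · apply hWy
      refine LinearMap.ext fun w => ?_
      have h1 : w ∈ B := by rw [hB]; exact Submodule.mem_top
      have h2 := h1 ⟨s₀, hs₀⟩ ⟨s₁, hs₁⟩
      rw [hπS, hπ] at h2
      exact h2
  -- the bound for the character of `σ`
  have hF0 : 0 < Nat.card F := Nat.card_pos
  have hproj := rat_proj (3 * Nat.card F ^ 2) (by positivity) X S C inferInstance hSX hCX hXC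
    hsup h hmX σ hσirr hdim (by
      intro z s hz
      refine LinearMap.ext fun a => Subtype.ext ?_
      rw [Module.End.mul_apply, Module.End.mul_apply, hσv, hσv, hσv, hσv,
        ← Module.End.mul_apply, ← Module.End.mul_apply, hπS, hπS,
        hcomW _ ⟨z, hSX z.2⟩ s.2 hz])
  -- the averages
  have : Fintype S := Fintype.ofFinite S
  have hS0 : (0 : ℝ) < Fintype.card S := by
    have : 0 < Fintype.card S := Fintype.card_pos
    exact_mod_cast this
  have havg : ∀ s : S, ∃ τ : ℂ, ∑ y : S, πS (y * s * y⁻¹) = τ • (1 : Module.End ℂ W) := by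
    intro s
    refine irr_scalar π hπirr _ fun x => ?_
    obtain ⟨r, hr, c, hc, hrc⟩ := hprod x x.2
    have h1 : x = ⟨r, hSX hr⟩ * ⟨c, hCX hc⟩ := Subtype.ext hrc.symm
    have h2 : ∀ c : X, (c : K) ∈ C → π c * ∑ y : S, πS (y * s * y⁻¹) =
        (∑ y : S, πS (y * s * y⁻¹)) * π c := by
      intro c hc
      rw [Finset.mul_sum, Finset.sum_mul]
      refine Finset.sum_congr rfl fun y _ => ?_
      rw [hπS, hcomW _ c (y * s * y⁻¹ : S).2 hc]
    have h3 : ∀ r : S, πS r * ∑ y : S, πS (y * s * y⁻¹) =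
        (∑ y : S, πS (y * s * y⁻¹)) * πS r := by
      intro r
      rw [Finset.mul_sum, Finset.sum_mul]
      refine Fintype.sum_equiv (Equiv.mulLeft r) _ _ fun y => ?_
      rw [Equiv.coe_mulLeft, ← map_mul, ← map_mul]
      congr 1
      group
    rw [h1, map_mul, mul_assoc, h2 _ hc, ← mul_assoc, ← mul_assoc]
    congr 1
    exact h3 ⟨r, hr⟩
  have htr : ∀ s : S, (s : K) ∉ C → ∀ c : X, (c : K) ∈ C →
      (Nat.card F : ℝ) * ‖LinearMap.trace ℂ W (π (⟨s, hSX s.2⟩ * c))‖ ≤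
        Module.finrank ℂ W := by
    intro s hs c hc
    obtain ⟨τ, hτ⟩ := havg s
    -- trace on `A`
    have e1 : ∑ y : S, σ (y * s * y⁻¹) = τ • (1 : Module.End ℂ A) := by
      refine LinearMap.ext fun a => Subtype.ext ?_
      have h1 := LinearMap.congr_fun hτ (a : W)
      rw [LinearMap.sum_apply] at h1 ⊢
      rw [Submodule.coe_sum, Finset.sum_congr rfl fun y _ => hσv (y * s * y⁻¹) a, h1]
      rfl
    have e2 : (Fintype.card S : ℂ) * LinearMap.trace ℂ A (σ s) = τ * Module.finrank ℂ A := by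
      have h1 := congrArg (LinearMap.trace ℂ A) e1
      rw [map_sum, map_smul, LinearMap.trace_one, smul_eq_mul] at h1
      rw [← h1, Finset.sum_congr rfl (fun y _ => ?_), Finset.sum_const, nsmul_eq_mul,
        Finset.card_univ]
      rw [map_mul σ (y * s), map_mul σ y, LinearMap.trace_mul_comm, ← mul_assoc,
        ← map_mul σ y⁻¹, inv_mul_cancel, map_one σ, one_mul]
    -- trace on `W`
    have e3 : (Fintype.card S : ℂ) * LinearMap.trace ℂ W (π (⟨s, hSX s.2⟩ * c)) =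
        τ * LinearMap.trace ℂ W (π c) := by
      have h1 := congrArg (fun T => LinearMap.trace ℂ W (T * π c)) hτ
      simp only [Finset.sum_mul, map_sum, smul_mul_assoc, one_mul, map_smul, smul_eq_mul] at h1
      rw [← h1, Finset.sum_congr rfl (fun y _ => ?_), Finset.sum_const, nsmul_eq_mul,
        Finset.card_univ]
      have h2 : πS (y * s * y⁻¹) * π c = πS y * (πS s * π c) * πS y⁻¹ := by
        have h3 : πS y⁻¹ * π c = π c * πS y⁻¹ := hcomW _ c (y⁻¹ : S).2 hc
        rw [map_mul, map_mul, mul_assoc, h3]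
        simp only [mul_assoc]
      rw [h2, LinearMap.trace_mul_comm, ← mul_assoc, ← map_mul πS y⁻¹, inv_mul_cancel,
        map_one πS, one_mul, map_mul π, hπS]
    have hNpos : (0 : ℝ) < Module.finrank ℂ A := by
      have : 0 < Module.finrank ℂ A := Module.finrank_pos
      exact_mod_cast this
    have hFpos : (0 : ℝ) < Nat.card F := by exact_mod_cast hF0
    have e4 := hproj s hs
    push_cast at e4
    have e5 : (Nat.card F : ℝ) * ‖LinearMap.trace ℂ A (σ s)‖ ≤ Module.finrank ℂ A := by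
      have h1 : ((Nat.card F : ℝ) * ‖LinearMap.trace ℂ A (σ s)‖) ^ 2 ≤
          (Module.finrank ℂ A : ℝ) ^ 2 := by nlinarith
      exact abs_le_of_sq_le_sq' h1 hNpos.le |>.2
    have e6 : (Fintype.card S : ℝ) * ‖LinearMap.trace ℂ A (σ s)‖ =
        ‖τ‖ * Module.finrank ℂ A := by
      have h1 := congrArg norm e2
      rw [norm_mul, norm_mul, Complex.norm_natCast, Complex.norm_natCast] at h1
      exact h1
    have e7 : (Fintype.card S : ℝ) * ‖LinearMap.trace ℂ W (π (⟨s, hSX s.2⟩ * c))‖ =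
        ‖τ‖ * ‖LinearMap.trace ℂ W (π c)‖ := by
      have h1 := congrArg norm e3
      rw [norm_mul, norm_mul, Complex.norm_natCast] at h1
      exact h1
    have e8 : ‖LinearMap.trace ℂ W (π c)‖ ≤ Module.finrank ℂ W := (tr_inv π c).2
    have e9 : (Nat.card F : ℝ) * ‖τ‖ ≤ Fintype.card S := by
      refine le_of_mul_le_mul_right (a := (Module.finrank ℂ A : ℝ)) ?_ hNpos
      calc (Nat.card F : ℝ) * ‖τ‖ * Module.finrank ℂ A
          = Fintype.card S * (Nat.card F * ‖LinearMap.trace ℂ A (σ s)‖) := by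
            rw [mul_assoc, ← e6]; ring
        _ ≤ Fintype.card S * Module.finrank ℂ A := mul_le_mul_of_nonneg_left e5 hS0.le
    refine le_of_mul_le_mul_left (a := (Fintype.card S : ℝ)) ?_ hS0
    calc (Fintype.card S : ℝ) * (Nat.card F * ‖LinearMap.trace ℂ W (π (⟨s, hSX s.2⟩ * c))‖)
        = Nat.card F * ‖τ‖ * ‖LinearMap.trace ℂ W (π c)‖ := by
          rw [mul_assoc, ← e7]; ring
      _ ≤ Fintype.card S * Module.finrank ℂ W :=
          mul_le_mul e9 e8 (norm_nonneg _) hS0.le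
  -- conclusion
  let πF : F →* Module.End ℂ W := π.comp (Subgroup.inclusion hFX)
  have hlin : LinearIndependent ℂ (fun f : F => πF f) := by
    refine linIndep_of_trace πF fun f hf => ?_
    obtain ⟨s, hs, c, hc, hsc⟩ := hprod f (hFX f.2)
    have h1 : πF f = π (⟨s, hSX hs⟩ * ⟨c, hCX hc⟩) := by
      have h2 : (⟨s, hSX hs⟩ * ⟨c, hCX hc⟩ : X) = ⟨f, hFX f.2⟩ := Subtype.ext hsc
      rw [h2]
      rfl
    have hsC : s ∉ C := by
      intro hsC
      apply hf
      have h2 : (f : K) ∈ F ⊓ C := ⟨f.2, by rw [← hsc]; exact C.mul_mem hsC hc⟩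
      rw [hFC] at h2
      exact Subtype.ext ((Subgroup.mem_bot).1 h2)
    rw [h1]
    exact htr ⟨s, hs⟩ hsC ⟨c, hCX hc⟩ hc
  have : Fintype F := Fintype.ofFinite F
  rw [Fintype.linearIndependent_iff] at hlin ⊢
  intro g hg
  refine hlin g ?_
  refine LinearMap.ext fun w => Subtype.ext ?_
  have h1 := LinearMap.congr_fun hg (w : V)
  rw [LinearMap.sum_apply] at h1 ⊢
  rw [Submodule.coe_sum]
  refine Eq.trans (Finset.sum_congr rfl fun f _ => ?_) h1
  rw [LinearMap.smul_apply, LinearMap.smul_apply, Submodule.coe_smul]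
  congr 1
  exact hπv _ w

end H49KE
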