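import Pool.Agent.H49.KE.Defs
import Pool.Agent.H49.KA.B1
import Pool.Agent.H49.KA.B2
import Pool.Agent.H49.KA.B3

namespace H49KE

open H49KA H49KB H49KC
open Equiv

universe u v w

section t5
variable {K : Type u} [Group K]

/-- The elements commuting with `Y` modulo `R`. -/
private def t5_cz (R : Subgroup K) (hR : R.Normal) (Y : Set K) : Subgroup K where
  carrier := {k | ∀ y ∈ Y, k * y * k⁻¹ * y⁻¹ ∈ R}
  mul_mem' := by
    intro k l hk hl y hy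
    have e : k * l * y * (k * l)⁻¹ * y⁻¹ =
        (k * (l * y * l⁻¹ * y⁻¹) * k⁻¹) * (k * y * k⁻¹ * y⁻¹) := by group
    rw [e]
    exact R.mul_mem (hR.conj_mem _ (hl y hy) k) (hk y hy)
  one_mem' := by
    intro y hy
    have e : (1 : K) * y * 1⁻¹ * y⁻¹ = 1 := by group
    rw [e]
    exact R.one_mem
  inv_mem' := by
    intro k hk y hy
    have e : k⁻¹ * y * k⁻¹⁻¹ * y⁻¹ = k⁻¹ * (k * y * k⁻¹ * y⁻¹)⁻¹ * k⁻¹⁻¹ := by group
    rw [e]
    exact hR.conj_mem _ (R.inv_mem (hk y hy)) k⁻¹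

private lemma t5_mem_cz {R : Subgroup K} {hR : R.Normal} {Y : Set K} {k : K} :
    k ∈ t5_cz R hR Y ↔ ∀ y ∈ Y, k * y * k⁻¹ * y⁻¹ ∈ R := Iff.rfl

private lemma t5_symm {R : Subgroup K} {a b : K} (h : a * b * a⁻¹ * b⁻¹ ∈ R) :
    b * a * b⁻¹ * a⁻¹ ∈ R := by
  have e : b * a * b⁻¹ * a⁻¹ = (a * b * a⁻¹ * b⁻¹)⁻¹ := by group
  rw [e]
  exact R.inv_mem h

private lemma t5_cz_normal (R : Subgroup K) (hR : R.Normal) (Y : Set K)
    (hY : ∀ g : K, ∀ y ∈ Y, g⁻¹ * y * g ∈ Y) : (t5_cz R hR Y).Normal := by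
  constructor
  intro k hk g y hy
  have e : g * k * g⁻¹ * y * (g * k * g⁻¹)⁻¹ * y⁻¹ =
      g * (k * (g⁻¹ * y * g) * k⁻¹ * (g⁻¹ * y * g)⁻¹) * g⁻¹ := by group
  rw [e]
  exact hR.conj_mem _ (hk _ (hY g y hy)) g

/-- The normaliser of `T`. -/
private def t5_nz (T : Subgroup K) : Subgroup K where
  carrier := {k | ∀ x, k * x * k⁻¹ ∈ T ↔ x ∈ T}
  mul_mem' := by
    intro k l hk hl x
    have e : k * l * x * (k * l)⁻¹ = k * (l * x * l⁻¹) * k⁻¹ := by group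
    rw [e, hk, hl]
  one_mem' := by
    intro x
    have e : (1 : K) * x * 1⁻¹ = x := by group
    rw [e]
  inv_mem' := by
    intro k hk x
    rw [← hk (k⁻¹ * x * k⁻¹⁻¹)]
    have e : k * (k⁻¹ * x * k⁻¹⁻¹) * k⁻¹ = x := by group
    rw [e]

private lemma t5_mem_nz {T : Subgroup K} {k : K} :
    k ∈ t5_nz T ↔ ∀ x, k * x * k⁻¹ ∈ T ↔ x ∈ T := Iff.rfl

private lemma t5_mem_map {T : Subgroup K} {g x : K} :
    x ∈ T.map (MulAut.conj g).toMonoidHom ↔ g⁻¹ * x * g ∈ T := by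
  constructor
  · rintro ⟨y, hy, rfl⟩
    have e : g⁻¹ * (MulAut.conj g).toMonoidHom y * g = y := by
      change g⁻¹ * (g * y * g⁻¹) * g = y
      group
    rw [e]
    exact hy
  · intro h
    refine ⟨_, h, ?_⟩
    change g * (g⁻¹ * x * g) * g⁻¹ = x
    group

/-- Closure of a commuting set modulo `R`. -/
private lemma t5_comm (R : Subgroup K) (hR : R.Normal) (Y : Set K)
    (hY : ∀ a ∈ Y, ∀ b ∈ Y, a * b * a⁻¹ * b⁻¹ ∈ R) :
    ∀ a ∈ Subgroup.closure Y, ∀ b ∈ Subgroup.closure Y, a * b * a⁻¹ * b⁻¹ ∈ R := by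
  have h1 : Subgroup.closure Y ≤ t5_cz R hR Y := by
    rw [Subgroup.closure_le]
    exact fun a ha b hb => hY a ha b hb
  have h2 : Subgroup.closure Y ≤ t5_cz R hR (Subgroup.closure Y : Set K) := by
    rw [Subgroup.closure_le]
    exact fun b hb a ha => t5_symm (h1 ha b hb)
  exact fun a ha b hb => h2 ha b hb

private lemma t5_comm2 (R : Subgroup K) (hR : R.Normal) {r c : K} (hr : r ∈ R) :
    r * c * r⁻¹ * c⁻¹ ∈ R := by
  have e : r * c * r⁻¹ * c⁻¹ = r * (c * r⁻¹ * c⁻¹) := by group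
  rw [e]
  exact R.mul_mem hr (hR.conj_mem _ (R.inv_mem hr) c)

end t5

section t5b
open scoped commutatorElement
variable {K : Type u} [Group K]

/-- The case of an abelian chief factor. -/
private lemma t5_caseA (F L X R N N₀ : Subgroup K) (hR : R.Normal) (hc : Chief X R N N₀)
    (d1 : ∀ N : Subgroup K, N.Normal → F ≤ N → X ≤ N) (hN : ⁅N, N⁆ ≠ N) :
    ∃ A : Subgroup K, NormIn L A ∧
      (∀ a ∈ A, ∀ b ∈ A, ∀ c ∈ A,
        (a * b * a⁻¹ * b⁻¹) * c * (a * b * a⁻¹ * b⁻¹)⁻¹ * c⁻¹ ∈ R) ∧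
      ∃ a ∈ A, ∃ f ∈ F, a * f * a⁻¹ * f⁻¹ ∉ R := by
  have hNn := hc.nN
  have h1 : ⁅N, N⁆ ≤ N₀ := by
    have h2 : ⁅N, N⁆ ≤ N := Subgroup.commutator_le_left N N
    rcases hc.min ⁅N, N⁆ (Subgroup.commutator_normal N N) h2 with h | h
    · exact absurd h hN
    · exact h
  refine ⟨N, fun x _ t ht => hNn.conj_mem t ht x, fun a ha b hb c hc' => ?_, ?_⟩
  · refine hc.cent _ (h1 ?_) c (hc.NX hc')
    exact Subgroup.commutator_mem_commutator ha hb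
  · by_contra hcon
    push Not at hcon
    have hZ : (t5_cz R hR (N : Set K)).Normal := t5_cz_normal R hR _ (fun g y hy => by
      have := hNn.conj_mem y hy g⁻¹
      rwa [inv_inv] at this)
    have hX := d1 _ hZ (fun f hf a ha => t5_symm (hcon a ha f hf))
    have h3 : ⁅N, X⁆ ≤ R := by
      rw [Subgroup.commutator_le]
      intro n hn x hx
      exact t5_symm (hX hx n hn)
    rw [hc.comm] at h3
    have h4 : N ≤ N₀ := fun n hn => hc.RN ⟨h3 hn, hn⟩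
    exact hc.ne (le_antisymm hc.le h4)

/-- The case in which a factor is moved. -/
private lemma t5_caseB [Finite K] (F L X R N N₀ : Subgroup K) (hFL : F ≤ L) (hR : R.Normal)
    (hFR : ¬ F ≤ R) (hc : Chief X R N N₀) (hperf : ⁅N, N⁆ = N)
    (roL : ∀ H : Subgroup K, ¬ F ≤ H → ∃ k : K, ∀ l ∈ L, k⁻¹ * l * k ∈ H → l = 1)
    (T : Subgroup K) (hT : Fac N N₀ T) (hmove : ¬ F ≤ t5_nz T) :
    ∃ A : Subgroup K, NormIn L A ∧
      (∀ a ∈ A, ∀ b ∈ A, ∀ c ∈ A,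
        (a * b * a⁻¹ * b⁻¹) * c * (a * b * a⁻¹ * b⁻¹)⁻¹ * c⁻¹ ∈ R) ∧
      ∃ a ∈ A, ∃ f ∈ F, a * f * a⁻¹ * f⁻¹ ∉ R := by
  obtain ⟨_, hfac, hint, _, hsup, hcom, _⟩ := fac_structure X R N N₀ hR hc hperf
  obtain ⟨k, hk⟩ := roL _ hmove
  set S : Subgroup K := T.map (MulAut.conj k).toMonoidHom with hS
  have hSf : Fac N N₀ S := hfac T hT k
  -- the conjugates of S by L are distinct
  have hdis : ∀ l ∈ L, S.map (MulAut.conj l).toMonoidHom = S → l = 1 := by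
    intro l hl hlS
    refine hk l hl fun x => ?_
    have e1 : ∀ y : K, y ∈ T ↔ k * y * k⁻¹ ∈ S := by
      intro y
      rw [hS, t5_mem_map]
      have e : k⁻¹ * (k * y * k⁻¹) * k = y := by group
      rw [e]
    have e2 : ∀ y : K, y ∈ S ↔ l * y * l⁻¹ ∈ S := by
      intro y
      conv_rhs => rw [← hlS, t5_mem_map]
      have e : l⁻¹ * (l * y * l⁻¹) * l = y := by group
      rw [e]
    rw [e1, e1, e2 (k * x * k⁻¹)]
    have e : k * (k⁻¹ * l * k * x * (k⁻¹ * l * k)⁻¹) * k⁻¹ = l * (k * x * k⁻¹) * l⁻¹ := by group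
    rw [e]
  -- an element of the derived subgroup
  have ht : ∃ t ∈ ⁅S, S⁆, t ∉ N₀ := by
    by_contra hcon
    push Not at hcon
    have h1 := hsup S hSf
    rw [sup_eq_right.2 hcon] at h1
    exact hSf.2.2.1 h1.symm
  obtain ⟨t, ht1, ht2⟩ := ht
  have htS : t ∈ S := Subgroup.commutator_le_self S ht1
  set Y : Set K := {y | ∃ l ∈ L, y = l * t * l⁻¹} with hY
  have hcomY : ∀ a ∈ Y, ∀ b ∈ Y, a * b * a⁻¹ * b⁻¹ ∈ R := by
    rintro _ ⟨l, hl, rfl⟩ _ ⟨l', hl', rfl⟩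
    by_cases hll : l = l'
    · subst hll
      have e : (l * t * l⁻¹) * (l * t * l⁻¹) * (l * t * l⁻¹)⁻¹ * (l * t * l⁻¹)⁻¹ = 1 := by group
      rw [e]
      exact R.one_mem
    · refine hcom (S.map (MulAut.conj l).toMonoidHom) (S.map (MulAut.conj l').toMonoidHom)
        (hfac S hSf l) (hfac S hSf l') ?_ _ ?_ _ ?_
      · intro heq
        have h2 : S.map (MulAut.conj (l'⁻¹ * l)).toMonoidHom = S := by
          ext x
          rw [t5_mem_map]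
          have h3 : ∀ y, y ∈ S.map (MulAut.conj l).toMonoidHom ↔
              y ∈ S.map (MulAut.conj l').toMonoidHom := fun y => by rw [heq]
          have h4 := h3 (l' * x * l'⁻¹)
          rw [t5_mem_map (T := S) (g := l), t5_mem_map (T := S) (g := l')] at h4
          have e1 : (l'⁻¹ * l)⁻¹ * x * (l'⁻¹ * l) = l⁻¹ * (l' * x * l'⁻¹) * l := by group
          have e2 : l'⁻¹ * (l' * x * l'⁻¹) * l' = x := by group
          rw [e1, h4, e2]
        have h5 := hdis _ (L.mul_mem (L.inv_mem hl') hl) h2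
        exact hll (inv_mul_eq_one.1 h5).symm
      · rw [← Subgroup.map_commutator]
        rw [t5_mem_map]
        have e : l⁻¹ * (l * t * l⁻¹) * l = t := by group
        rw [e]
        exact ht1
      · rw [t5_mem_map]
        have e : l'⁻¹ * (l' * t * l'⁻¹) * l' = t := by group
        rw [e]
        exact htS
  have hcomA := t5_comm R hR Y hcomY
  refine ⟨Subgroup.closure Y, ?_, fun a ha b hb c _ => t5_comm2 R hR (hcomA a ha b hb), ?_⟩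
  · intro x hx a ha
    have h6 : Subgroup.closure Y ≤ (Subgroup.closure Y).comap (MulAut.conj x).toMonoidHom := by
      rw [Subgroup.closure_le]
      rintro _ ⟨l, hl, rfl⟩
      change x * (l * t * l⁻¹) * x⁻¹ ∈ Subgroup.closure Y
      refine Subgroup.subset_closure ⟨x * l, L.mul_mem hx hl, ?_⟩
      group
    exact h6 ha
  · obtain ⟨f, hf, hf1⟩ : ∃ f ∈ F, f ≠ 1 := by
      by_contra hcon
      push Not at hcon
      exact hFR fun f hf => by rw [hcon f hf]; exact R.one_mem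
    refine ⟨t, Subgroup.subset_closure ⟨1, L.one_mem, by group⟩, f, hf, fun htf => ?_⟩
    have hN := hc.nN
    have htN : t ∈ N := hSf.2.1 htS
    have h7 : t * f * t⁻¹ * f⁻¹ ∈ N := by
      have e : t * f * t⁻¹ * f⁻¹ = t * (f * t⁻¹ * f⁻¹) := by group
      rw [e]
      exact N.mul_mem htN (hN.conj_mem _ (N.inv_mem htN) f)
    have h8 : t * f * t⁻¹ * f⁻¹ ∈ N₀ := hc.RN ⟨htf, h7⟩
    have hSf' := hfac S hSf f
    have h9 : t ∈ S.map (MulAut.conj f).toMonoidHom := by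
      have h10 : f * t * f⁻¹ ∈ S.map (MulAut.conj f).toMonoidHom := by
        rw [t5_mem_map]
        have e : f⁻¹ * (f * t * f⁻¹) * f = t := by group
        rw [e]
        exact htS
      have e : t = (t * f * t⁻¹ * f⁻¹) * (f * t * f⁻¹) := by group
      rw [e]
      exact Subgroup.mul_mem _ (hSf'.1 h8) h10
    have h11 : S.map (MulAut.conj f).toMonoidHom ≠ S := fun h =>
      hf1 (hdis f (hFL hf) h)
    have h12 := hint _ _ hSf' hSf h11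
    apply ht2
    rw [← h12]
    exact ⟨h9, htS⟩

/-- The elements normalising all factors. -/
private def t5_fx (N N₀ : Subgroup K) : Subgroup K where
  carrier := {k | ∀ T, Fac N N₀ T → k ∈ t5_nz T}
  mul_mem' := fun hk hl T hT => (t5_nz T).mul_mem (hk T hT) (hl T hT)
  one_mem' := fun T _ => (t5_nz T).one_mem
  inv_mem' := fun hk T hT => (t5_nz T).inv_mem (hk T hT)

private lemma t5_fx_normal (N N₀ : Subgroup K)
    (hfac : ∀ T, Fac N N₀ T → ∀ k : K, Fac N N₀ (T.map (MulAut.conj k).toMonoidHom)) :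
    (t5_fx N N₀).Normal := by
  constructor
  intro k hk g T hT x
  have h1 := hk _ (hfac T hT g⁻¹) (g⁻¹ * x * g)
  rw [t5_mem_map, t5_mem_map] at h1
  have e1 : g⁻¹⁻¹ * (k * (g⁻¹ * x * g) * k⁻¹) * g⁻¹ = g * k * g⁻¹ * x * (g * k * g⁻¹)⁻¹ := by group
  have e2 : g⁻¹⁻¹ * (g⁻¹ * x * g) * g⁻¹ = x := by group
  rw [e1, e2] at h1
  exact h1

/-- Elements of a join. -/
private lemma t5_mem_sup (A C : Subgroup K) (h : ∀ a ∈ A, ∀ c ∈ C, a * c * a⁻¹ ∈ C) {x : K}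
    (hx : x ∈ A ⊔ C) : ∃ a ∈ A, ∃ c ∈ C, x = a * c := by
  let S : Subgroup K :=
    { carrier := {x | ∃ a ∈ A, ∃ c ∈ C, x = a * c}
      mul_mem' := by
        rintro _ _ ⟨a, ha, c, hc, rfl⟩ ⟨a', ha', c', hc', rfl⟩
        refine ⟨a * a', A.mul_mem ha ha', (a'⁻¹ * c * a'⁻¹⁻¹) * c',
          C.mul_mem (h _ (A.inv_mem ha') _ hc) hc', ?_⟩
        group
      one_mem' := ⟨1, A.one_mem, 1, C.one_mem, by group⟩
      inv_mem' := by
        rintro _ ⟨a, ha, c, hc, rfl⟩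
        refine ⟨a⁻¹, A.inv_mem ha, a * c⁻¹ * a⁻¹, h a ha _ (C.inv_mem hc), ?_⟩
        group }
  have h1 : A ⊔ C ≤ S := by
    refine sup_le (fun a ha => ⟨a, ha, 1, C.one_mem, by group⟩)
      (fun c hc => ⟨1, A.one_mem, c, hc, by group⟩)
  exact h1 hx

/-- The case in which all factors are fixed. -/
private lemma t5_caseC [Finite K] (F L X R N N₀ : Subgroup K) (hFL : F ≤ L) (hLX : L ≤ X)
    (hR : R.Normal) (hc : Chief X R N N₀) (hperf : ⁅N, N⁆ = N)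
    (d1 : ∀ N : Subgroup K, N.Normal → F ≤ N → X ≤ N)
    (d4 : ∀ T C : Subgroup K, AlmostSimpleSec X T C → ¬ F ≤ C →
      (∃ E : Subgroup K, C ≤ E ∧ E ≤ T ∧ NormIn L E ∧
        (∀ a ∈ E, ∀ b ∈ E, a * b * a⁻¹ * b⁻¹ ∈ C) ∧
        ∃ a ∈ E, ∃ f ∈ F, a * f * a⁻¹ * f⁻¹ ∉ C) ∨
      (T = X ∧ F ⊓ C = ⊥ ∧ RatSec (3 * Nat.card F ^ 2) X C ∧
        (3 * Nat.card F ^ 2) ^ 2 * Nat.card C ≤ Nat.card X))
    (hfix : ∀ T, Fac N N₀ T → F ≤ t5_nz T) :
    (∃ A : Subgroup K, NormIn L A ∧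
      (∀ a ∈ A, ∀ b ∈ A, ∀ c ∈ A,
        (a * b * a⁻¹ * b⁻¹) * c * (a * b * a⁻¹ * b⁻¹)⁻¹ * c⁻¹ ∈ R) ∧
      ∃ a ∈ A, ∃ f ∈ F, a * f * a⁻¹ * f⁻¹ ∉ R) ∨
    (∃ S C : Subgroup K, S ≤ X ∧ C ≤ X ∧ NormIn X C ∧ X ≤ S ⊔ C ∧ F ⊓ C = ⊥ ∧
      RatSec (3 * Nat.card F ^ 2) X C ∧
      (3 * Nat.card F ^ 2) ^ 2 * Nat.card C ≤ Nat.card X ∧
      (∀ c ∈ C, ∀ s ∈ S, c * s * c⁻¹ * s⁻¹ ∈ R) ∧
      ∃ s ∈ S, ∃ s' ∈ S, s * s' * s⁻¹ * s'⁻¹ ∉ R) := by
  obtain ⟨_, hfac, _, hsimple, hsup, _, hgen⟩ := fac_structure X R N N₀ hR hc hperf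
  have hXfix : X ≤ t5_fx N N₀ := d1 _ (t5_fx_normal N N₀ hfac) (fun f hf T hT => hfix T hT hf)
  have hN := hc.nN
  have hN₀ := hc.nN₀
  -- some factor is not centralised by F
  obtain ⟨T, hT, hFT⟩ : ∃ T, Fac N N₀ T ∧ ¬ F ≤ X ⊓ t5_cz N₀ hN₀ (T : Set K) := by
    by_contra hcon
    push Not at hcon
    have h1 : N ≤ t5_cz N₀ hN₀ (F : Set K) := by
      refine hgen _ fun T hT t ht f hf => t5_symm ?_
      exact (hcon T hT hf).2 t ht
    have hZ : (t5_cz N₀ hN₀ (N : Set K)).Normal := t5_cz_normal N₀ hN₀ _ (fun g y hy => by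
      have := hN.conj_mem y hy g⁻¹
      rwa [inv_inv] at this)
    have hX := d1 _ hZ (fun f hf a ha => t5_symm (h1 ha f hf))
    have h3 : ⁅N, X⁆ ≤ N₀ := by
      rw [Subgroup.commutator_le]
      intro n hn x hx
      exact t5_symm (hX hx n hn)
    rw [hc.comm] at h3
    exact hc.ne (le_antisymm hc.le h3)
  set C : Subgroup K := X ⊓ t5_cz N₀ hN₀ (T : Set K) with hC
  have hTN : T ≤ N := hT.2.1
  have hTX : T ≤ X := hTN.trans hc.NX
  have hN₀T : N₀ ≤ T := hT.1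
  have hXT : ∀ x ∈ X, ∀ t, x * t * x⁻¹ ∈ T ↔ t ∈ T := fun x hx => hXfix hx T hT
  have hXT' : ∀ x ∈ X, ∀ t ∈ T, x * t * x⁻¹ ∈ T := fun x hx t ht => (hXT x hx t).2 ht
  have hCX : C ≤ X := inf_le_left
  have hCT : ∀ x ∈ C, ∀ t ∈ T, x * t * x⁻¹ * t⁻¹ ∈ N₀ := fun x hx t ht => hx.2 t ht
  have hN₀C : N₀ ≤ C := by
    intro n hn
    refine ⟨hc.NX (hc.le hn), fun t ht => ?_⟩
    exact t5_comm2 N₀ hN₀ hn
  have hXC : NormIn X C := by
    intro x hx c hcc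
    refine ⟨X.mul_mem (X.mul_mem hx hcc.1) (X.inv_mem hx), fun t ht => ?_⟩
    have e : x * c * x⁻¹ * t * (x * c * x⁻¹)⁻¹ * t⁻¹ =
        x * (c * (x⁻¹ * t * x⁻¹⁻¹) * c⁻¹ * (x⁻¹ * t * x⁻¹⁻¹)⁻¹) * x⁻¹ := by group
    rw [e]
    exact hN₀.conj_mem _ (hcc.2 _ (hXT' _ (X.inv_mem hx) t ht)) x
  have hTC : ∀ t ∈ T, ∀ c ∈ C, t * c * t⁻¹ ∈ C := fun t ht c hcc => hXC t (hTX ht) c hcc
  obtain ⟨_, _, hsimp, a₀, ha₀, b₀, hb₀, hab₀⟩ := hsimple T hT
  have hinf : T ⊓ C = N₀ := by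
    have h1 : N₀ ≤ T ⊓ C := le_inf hN₀T hN₀C
    have h2 : NormIn T (T ⊓ C) := fun t ht s hs =>
      ⟨T.mul_mem (T.mul_mem ht hs.1) (T.inv_mem ht), hTC t ht s hs.2⟩
    rcases hsimp _ h1 inf_le_left h2 with h | h
    · exact h
    · exfalso
      have h3 : T ≤ C := by
        rw [← h]
        exact inf_le_right
      exact hab₀ (hCT a₀ (h3 ha₀) b₀ hb₀)
  have hsupX : T ⊔ C ≤ X := sup_le hTX hCX
  have hXsup : NormIn X (T ⊔ C) := by
    intro x hx s hs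
    obtain ⟨t, ht, c, hcc, rfl⟩ := t5_mem_sup T C hTC hs
    have e : x * (t * c) * x⁻¹ = (x * t * x⁻¹) * (x * c * x⁻¹) := by group
    rw [e]
    exact Subgroup.mul_mem _ ((le_sup_left : T ≤ T ⊔ C) (hXT' x hx t ht))
      ((le_sup_right : C ≤ T ⊔ C) (hXC x hx c hcc))
  have hAS : AlmostSimpleSec X (T ⊔ C) C := by
    refine ⟨hsupX, hXC, hXsup, ⟨le_sup_right, fun s hs c hcc => hXC s (hsupX hs) c hcc, ?_,
      a₀, le_sup_left (a := T) ha₀, b₀, le_sup_left (a := T) hb₀, ?_⟩, ?_⟩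
    · intro M hCM hMT hMn
      have h1 : N₀ ≤ T ⊓ M := le_inf hN₀T (hN₀C.trans hCM)
      have h2 : NormIn T (T ⊓ M) := fun t ht s hs =>
        ⟨T.mul_mem (T.mul_mem ht hs.1) (T.inv_mem ht),
          hMn t ((le_sup_left : T ≤ T ⊔ C) ht) s hs.2⟩
      rcases hsimp _ h1 inf_le_left h2 with h | h
      · left
        refine le_antisymm (fun m hm => ?_) hCM
        obtain ⟨t, ht, c, hcc, rfl⟩ := t5_mem_sup T C hTC (hMT hm)
        have h3 : t ∈ T ⊓ M := by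
          refine ⟨ht, ?_⟩
          have := M.mul_mem hm (M.inv_mem (hCM hcc))
          rwa [mul_inv_cancel_right] at this
        rw [h] at h3
        exact C.mul_mem (hN₀C h3) hcc
      · right
        refine le_antisymm hMT (sup_le ?_ hCM)
        rw [← h]
        exact inf_le_right
    · intro hab
      apply hab₀
      rw [← hinf]
      refine ⟨?_, hab⟩
      exact T.mul_mem (T.mul_mem (T.mul_mem ha₀ hb₀) (T.inv_mem ha₀)) (T.inv_mem hb₀)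
    · intro x hx hxt
      refine ⟨hx, fun t ht => ?_⟩
      rw [← hinf]
      exact ⟨T.mul_mem (hXT' x hx t ht) (T.inv_mem ht),
        hxt t ((le_sup_left : T ≤ T ⊔ C) ht)⟩
  have hTTT : ⁅T, T⁆ ≤ T := Subgroup.commutator_le_self T
  -- C centralises the derived subgroup of T modulo R
  have hCR : ∀ x ∈ C, ∀ c ∈ ⁅T, T⁆, x * c * x⁻¹ * c⁻¹ ∈ R := by
    intro x hx c hcc
    have h1 : ⁅T, T⁆ ≤ t5_cz R hR {x} := by
      rw [Subgroup.commutator_le]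
      intro b hb b' hb' y hy
      rw [Set.mem_singleton_iff] at hy
      subst hy
      apply t5_symm
      -- work in the quotient by R
      have hz := hCT y hx b hb
      have hz' := hCT y hx b' hb'
      set z := y * b * y⁻¹ * b⁻¹ with hzd
      set z' := y * b' * y⁻¹ * b'⁻¹ with hzd'
      have q1 : y * b * y⁻¹ = z * b := by rw [hzd]; group
      have q2 : y * b' * y⁻¹ = z' * b' := by rw [hzd']; group
      have e : y * ⁅b, b'⁆ * y⁻¹ * ⁅b, b'⁆⁻¹ =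
          (y * b * y⁻¹) * (y * b' * y⁻¹) * (y * b * y⁻¹)⁻¹ * (y * b' * y⁻¹)⁻¹ *
            (b * b' * b⁻¹ * b'⁻¹)⁻¹ := by
        rw [commutatorElement_def]
        group
      rw [e, q1, q2]
      have cm : ∀ n ∈ N₀, ∀ w ∈ X, (QuotientGroup.mk' R) n * (QuotientGroup.mk' R) w =
          (QuotientGroup.mk' R) w * (QuotientGroup.mk' R) n := by
        intro n hn w hw
        have h2 := hc.cent n hn w hw
        have h3 : (QuotientGroup.mk' R) (n * w * n⁻¹ * w⁻¹) = 1 := by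
          rw [← MonoidHom.mem_ker, QuotientGroup.ker_mk']
          exact h2
        rw [map_mul, map_mul, map_mul, map_inv, map_inv, mul_inv_eq_one, mul_inv_eq_iff_eq_mul]
          at h3
        exact h3
      rw [← QuotientGroup.ker_mk' R, MonoidHom.mem_ker]
      simp only [map_mul, map_inv]
      have c1 := cm z hz b (hTX hb)
      have c2 := cm z hz b' (hTX hb')
      have c3 := cm z' hz' b (hTX hb)
      have c4 := cm z' hz' b' (hTX hb')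
      have c5 := cm z hz z' (hc.NX (hc.le hz'))
      generalize (QuotientGroup.mk' R) z = Z at *
      generalize (QuotientGroup.mk' R) z' = Z' at *
      generalize (QuotientGroup.mk' R) b = B at *
      generalize (QuotientGroup.mk' R) b' = B' at *
      rw [mul_inv_eq_one, mul_inv_eq_iff_eq_mul, mul_inv_eq_iff_eq_mul]
      have s1 : B * B' * B⁻¹ * B'⁻¹ * (Z' * B') * (Z * B) = Z * B * (Z' * B') := by
        calc B * B' * B⁻¹ * B'⁻¹ * (Z' * B') * (Z * B)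
            = B * B' * B⁻¹ * B'⁻¹ * (B' * Z') * (B * Z) := by rw [c4, c1]
          _ = B * B' * B⁻¹ * (Z' * B) * Z := by group
          _ = B * B' * B⁻¹ * (B * Z') * Z := by rw [c3]
          _ = B * (B' * Z') * Z := by group
          _ = B * (Z' * B') * Z := by rw [c4]
          _ = B * Z' * (B' * Z) := by group
          _ = B * Z' * (Z * B') := by rw [c2]
          _ = B * (Z' * Z) * B' := by group
          _ = B * (Z * Z') * B' := by rw [c5]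
          _ = (B * Z) * Z' * B' := by group
          _ = (Z * B) * Z' * B' := by rw [c1]
          _ = Z * B * (Z' * B') := by group
      exact s1.symm
    exact t5_symm (h1 hcc x rfl)
  rcases d4 _ _ hAS hFT with h41 | ⟨hTCX, hFC, hrat, hcard⟩
  swap
  · right
    refine ⟨⁅T, T⁆, C, hTTT.trans hTX, hCX, hXC, ?_, hFC, hrat, hcard, hCR, ?_⟩
    · have h1 : T ⊔ C ≤ ⁅T, T⁆ ⊔ C := by
        refine sup_le ?_ le_sup_right
        conv_lhs => rw [← hsup T hT]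
        exact sup_le le_sup_left (hN₀C.trans le_sup_right)
      rw [hTCX] at h1
      exact h1
    · by_contra hcon
      push Not at hcon
      -- the derived subgroup of the derived subgroup lies in N₀
      have hTTN : ⁅T, T⁆ ≤ N := hTTT.trans hTN
      have hq : ∀ a ∈ ⁅T, T⁆, ∀ b ∈ ⁅T, T⁆, a * b * a⁻¹ * b⁻¹ ∈ N₀ := by
        intro a ha b hb
        refine hc.RN ⟨hcon a ha b hb, ?_⟩
        exact N.mul_mem (N.mul_mem (N.mul_mem (hTTN ha) (hTTN hb)) (N.inv_mem (hTTN ha)))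
          (N.inv_mem (hTTN hb))
      have hle1 : ⁅T, T⁆ ⊔ N₀ ≤ t5_cz N₀ hN₀ ((⁅T, T⁆ : Subgroup K) : Set K) := by
        refine sup_le (fun a ha b hb => hq a ha b hb) (fun n hn b _ => t5_comm2 N₀ hN₀ hn)
      have hle2 : ⁅T, T⁆ ⊔ N₀ ≤ t5_cz N₀ hN₀ (T : Set K) := by
        refine sup_le (fun a ha b hb => t5_symm ?_) (fun n hn b _ => t5_comm2 N₀ hN₀ hn)
        have hb' : b ∈ ⁅T, T⁆ ⊔ N₀ := by
          rw [hsup T hT]
          exact hb
        exact hle1 hb' a ha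
      have ha₀' : a₀ ∈ ⁅T, T⁆ ⊔ N₀ := by
        rw [hsup T hT]
        exact ha₀
      exact hab₀ (hle2 ha₀' b₀ hb₀)
  left
  obtain ⟨E, hCE, hET, hLE, hEab, a, haE, f, hf, haf⟩ := h41
  have hfX : f ∈ X := hLX (hFL hf)
  have hLTT : ∀ x ∈ L, ∀ c ∈ ⁅T, T⁆, x * c * x⁻¹ ∈ ⁅T, T⁆ := by
    intro x hx c hcc
    have h1 : ⁅T, T⁆ ≤ ⁅T, T⁆.comap (MulAut.conj x).toMonoidHom := by
      rw [Subgroup.commutator_le]
      intro b hb b' hb'
      change x * ⁅b, b'⁆ * x⁻¹ ∈ ⁅T, T⁆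
      have e : x * ⁅b, b'⁆ * x⁻¹ = ⁅x * b * x⁻¹, x * b' * x⁻¹⁆ := by
        rw [commutatorElement_def, commutatorElement_def]
        group
      rw [e]
      exact Subgroup.commutator_mem_commutator (hXT' x (hLX hx) b hb) (hXT' x (hLX hx) b' hb')
    exact h1 hcc
  refine ⟨E ⊓ ⁅T, T⁆, fun x hx c hcc => ⟨hLE x hx c hcc.1, hLTT x hx c hcc.2⟩,
    fun b hb b' hb' c hcc => hCR _ (hEab b hb.1 b' hb'.1) c hcc.2, ?_⟩
  -- nontriviality
  have hTC2 : ∀ t ∈ ⁅T, T⁆, ∀ c ∈ C, t * c * t⁻¹ ∈ C := fun t ht c hcc => hTC t (hTTT ht) c hcc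
  have ha' : a ∈ ⁅T, T⁆ ⊔ C := by
    have h1 : T ⊔ C ≤ ⁅T, T⁆ ⊔ C := by
      refine sup_le ?_ le_sup_right
      conv_lhs => rw [← hsup T hT]
      exact sup_le le_sup_left (hN₀C.trans le_sup_right)
    exact h1 (hET haE)
  obtain ⟨a', ha1, c, hcc, rfl⟩ := t5_mem_sup _ _ hTC2 ha'
  have ha2 : a' ∈ E := by
    have := E.mul_mem haE (E.inv_mem (hCE hcc))
    rwa [mul_inv_cancel_right] at this
  refine ⟨a', ⟨ha2, ha1⟩, f, hf, fun haR => haf ?_⟩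
  have haN : a' ∈ N := hTN (hTTT ha1)
  have h7 : a' * f * a'⁻¹ * f⁻¹ ∈ N := by
    have e : a' * f * a'⁻¹ * f⁻¹ = a' * (f * a'⁻¹ * f⁻¹) := by group
    rw [e]
    exact N.mul_mem haN (hN.conj_mem _ (N.inv_mem haN) f)
  have h8 : a' * f * a'⁻¹ * f⁻¹ ∈ C := hN₀C (hc.RN ⟨haR, h7⟩)
  have h9 : c * f * c⁻¹ * f⁻¹ ∈ C := by
    have e : c * f * c⁻¹ * f⁻¹ = c * (f * c⁻¹ * f⁻¹) := by group
    rw [e]
    exact C.mul_mem hcc (hXC f hfX _ (C.inv_mem hcc))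
  have e : a' * c * f * (a' * c)⁻¹ * f⁻¹ =
      (a' * (c * f * c⁻¹ * f⁻¹) * a'⁻¹) * (a' * f * a'⁻¹ * f⁻¹) := by group
  rw [e]
  exact C.mul_mem (hTC2 a' ha1 _ h9) h8

end t5b


variable {K : Type u} [Group K]

/-- One step along a chief factor. -/
theorem chief_stepF [Finite K] (F L X R : Subgroup K) (hFL : F ≤ L) (hLX : L ≤ X)
    (hXn : X.Normal) (hX : ⁅X, X⁆ = X) (hR : R.Normal) (hFR : ¬ F ≤ R)
    (roL : ∀ H : Subgroup K, ¬ F ≤ H → ∃ k : K, ∀ l ∈ L, k⁻¹ * l * k ∈ H → l = 1)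
    (d1 : ∀ N : Subgroup K, N.Normal → F ≤ N → X ≤ N)
    (d4 : ∀ T C : Subgroup K, AlmostSimpleSec X T C → ¬ F ≤ C →
      (∃ E : Subgroup K, C ≤ E ∧ E ≤ T ∧ NormIn L E ∧
        (∀ a ∈ E, ∀ b ∈ E, a * b * a⁻¹ * b⁻¹ ∈ C) ∧
        ∃ a ∈ E, ∃ f ∈ F, a * f * a⁻¹ * f⁻¹ ∉ C) ∨
      (T = X ∧ F ⊓ C = ⊥ ∧ RatSec (3 * Nat.card F ^ 2) X C ∧
        (3 * Nat.card F ^ 2) ^ 2 * Nat.card C ≤ Nat.card X)) :
    (∃ A : Subgroup K, NormIn L A ∧
      (∀ a ∈ A, ∀ b ∈ A, ∀ c ∈ A,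
        (a * b * a⁻¹ * b⁻¹) * c * (a * b * a⁻¹ * b⁻¹)⁻¹ * c⁻¹ ∈ R) ∧
      ∃ a ∈ A, ∃ f ∈ F, a * f * a⁻¹ * f⁻¹ ∉ R) ∨
    (∃ S C : Subgroup K, S ≤ X ∧ C ≤ X ∧ NormIn X C ∧ X ≤ S ⊔ C ∧ F ⊓ C = ⊥ ∧
      RatSec (3 * Nat.card F ^ 2) X C ∧
      (3 * Nat.card F ^ 2) ^ 2 * Nat.card C ≤ Nat.card X ∧
      (∀ c ∈ C, ∀ s ∈ S, c * s * c⁻¹ * s⁻¹ ∈ R) ∧
      ∃ s ∈ S, ∃ s' ∈ S, s * s' * s⁻¹ * s'⁻¹ ∉ R) := by
  obtain ⟨N, N₀, hc⟩ := exists_chief F X R (hFL.trans hLX) hXn hX hR hFR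
  by_cases hperf : ⁅N, N⁆ = N
  · by_cases hfix : ∀ T, Fac N N₀ T → F ≤ t5_nz T
    · exact t5_caseC F L X R N N₀ hFL hLX hR hc hperf d1 d4 hfix
    · push Not at hfix
      obtain ⟨T, hT, hmove⟩ := hfix
      exact Or.inl (t5_caseB F L X R N N₀ hFL hR hFR hc hperf roL T hT hmove)
  · exact Or.inl (t5_caseA F L X R N N₀ hR hc d1 hperf)

end H49KE
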