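import Pool.Agent.H49.KE.Defs
import Pool.Agent.H49.KA.C7
import Pool.Agent.H49.KE.T4
import Pool.Agent.H49.KE.T5

open Equiv

namespace H49KE

open H49KA H49KB H49KC

universe u v w

theorem klevel {K : Type u} [Group K] {F P D L X : Subgroup K} (h : KData K F P D L X)
    {V : Type v} [AddCommGroup V] [Module ℂ V] [FiniteDimensional ℂ V]
    (ρ : K →* Module.End ℂ V) (hρ : ∃ f ∈ F, ρ f ≠ 1) :
    LinearIndependent ℂ (fun f : F => ρ f) := by
  haveI := h.finK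
  have hFL : F ≤ L := h.hFP.trans (h.hPD.trans h.hDL)
  have hFR : ¬ F ≤ ρ.ker := by
    intro hle
    obtain ⟨f, hf, hne⟩ := hρ
    exact hne (MonoidHom.mem_ker.1 (hle hf))
  rcases chief_stepF F L X ρ.ker hFL h.hLX h.hXn h.hX
    (MonoidHom.normal_ker ρ) hFR h.roL h.d1 h.d4 with
    ⟨A, hLA, hcl, a, ha, f, hf, haf⟩ | ⟨S, C, hSX, hCX, hXC, hsup, hFC, hR, hcard, hcom, s, hs,
      s', hs', hne⟩
  · refine class2 ρ F P D L A h.hFP h.hPD h.hDL h.hP h.roD h.tD h.gr hLA ?_ ?_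
    · intro a ha b hb c hc
      exact MonoidHom.mem_ker.1 (hcl a ha b hb c hc)
    · refine ⟨a, ha, f, hf, fun h1 => haf ?_⟩
      exact MonoidHom.mem_ker.2 h1
  · refine rat_step F S C X (hFL.trans h.hLX) hSX hCX hXC hsup hFC hR hcard ρ ?_ ?_
    · intro c hc t ht
      exact MonoidHom.mem_ker.1 (hcom c hc t ht)
    · exact ⟨s, hs, s', hs', fun h1 => hne (MonoidHom.mem_ker.2 h1)⟩

end H49KE
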