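import Pool.Agent.H49.KE.Defs
import Pool.Agent.H49.KE.F1
import Pool.Agent.H49.KE.K8

open Equiv

namespace H49KE

open H49KA H49KB H49KC

universe u

variable {G : Type u} [Group G]

theorem repInd_of (hG : LocFin G) [IsSimpleGroup G] [Infinite G] (hC : NoConf G)
    (𝓛 : Set (Subgroup G)) (h𝓛 : LocalSystem 𝓛) (hE : HypF 𝓛) : RepInd G := by
  classical
  intro M _ _ ρ hρ
  obtain ⟨g₀, hg₀⟩ := hρ
  have hg₀1 : g₀ ≠ 1 := by
    rintro rfl
    exact hg₀ (map_one ρ)
  rw [linearIndependent_iff']
  intro s g hg i hi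
  -- the finite subgroup
  let F : Subgroup G := Subgroup.closure ((insert g₀ s : Finset G) : Set G)
  have hFfin : Finite F := hG _
  have hg₀F : g₀ ∈ F := Subgroup.subset_closure (by simp)
  have hsF : ∀ x ∈ s, x ∈ F := fun x hx => Subgroup.subset_closure (by simp [hx])
  have hF : F ≠ ⊥ := by
    intro h
    rw [h, Subgroup.mem_bot] at hg₀F
    exact hg₀1 hg₀F
  obtain ⟨K, hK, hFK, P, D, L, X, hdata⟩ := exists_kdata hG hC 𝓛 h𝓛 hE F hF
  have hKfin : Finite K := hdata.finK
  have hm : ∃ m : M, ρ g₀ m ≠ m := by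
    by_contra hcon
    push Not at hcon
    apply hg₀
    ext m
    exact hcon m
  obtain ⟨m, hm⟩ := hm
  let V : Submodule ℂ M := Submodule.span ℂ (Set.range fun k : K => ρ k m)
  have hVfin : FiniteDimensional ℂ V :=
    FiniteDimensional.span_of_finite ℂ (Set.finite_range _)
  have hinv : ∀ k : K, ∀ v ∈ V, ρ k v ∈ V := by
    intro k v hv
    have hle : V ≤ V.comap (ρ k) := by
      rw [Submodule.span_le]
      rintro _ ⟨k', rfl⟩
      refine Submodule.subset_span ⟨k * k', ?_⟩
      simp
    exact hle hv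
  let σ : K →* Module.End ℂ V :=
    { toFun := fun k => (ρ k).restrict (hinv k)
      map_one' := by
        ext v
        simp [LinearMap.restrict_apply]
      map_mul' := fun k k' => by
        ext v
        simp [LinearMap.restrict_apply] }
  have hmV : m ∈ V := Submodule.subset_span ⟨1, by simp⟩
  have hσ : ∃ f ∈ F.subgroupOf K, σ f ≠ 1 := by
    refine ⟨⟨g₀, hFK hg₀F⟩, hg₀F, ?_⟩
    intro h
    have h1 := congrArg (fun T : Module.End ℂ V => ((T ⟨m, hmV⟩ : V) : M)) h
    exact hm h1
  have hlin := klevel hdata σ hσ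
  let φ : s → F.subgroupOf K := fun x => ⟨⟨x, hFK (hsF x x.2)⟩, hsF x x.2⟩
  have hφ : Function.Injective φ := by
    intro x y h
    apply Subtype.ext
    exact congrArg (fun z : F.subgroupOf K => ((z : K) : G)) h
  have hlin2 := hlin.comp φ hφ
  rw [Fintype.linearIndependent_iff] at hlin2
  have h3 := hlin2 (fun x => g x) ?_ ⟨i, hi⟩
  · exact h3
  · ext v
    have h4 := congrArg (fun T : Module.End ℂ M => T (v : M)) hg
    simp only [LinearMap.sum_apply, LinearMap.smul_apply, LinearMap.zero_apply] at h4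
    simp only [LinearMap.sum_apply, LinearMap.smul_apply, LinearMap.zero_apply,
      Submodule.coe_sum, Submodule.coe_smul, Submodule.coe_zero]
    rw [← h4, ← Finset.sum_coe_sort s]
    rfl

end H49KE
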