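import Pool.Agent.H49.KE.Defs
import Pool.Agent.H49.KA.A1
import Pool.Agent.H49.KD.Defs
import Pool.Agent.H49.KD.RO

namespace H49KE

open H49KA H49KB H49KC

universe u v w

variable {G : Type u} [Group G]

/-- Proof. `¬ AltQuot G` gives a finite set `S` such that for all finite `X ≥ S` and all `p` from `X`
onto an alternating group some `1 ≠ x` in the subgroup generated by `S` has `p x = 1`. Given `D`, let
`Y` be generated by `S` and `D` and `M = Y'` from `H49KA.exists_plus`. If `X ≥ M` and `p` is a
homomorphism onto an alternating group, then the kernel of `p` (as a subgroup of `G`) is normalised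
by `X` and contains a nontrivial element of `Y`, so it contains `Y`, and `p` is trivial on `D`: the
condition of `RegOrb` is vacuous. (This is `H49KD.regOrb_of_notAltQuot`.) -/
theorem regOrb_of_notAltQuot (hG : LocFin G) [IsSimpleGroup G] (hQ : ¬ AltQuot G) :
    H49KD.RegOrb G := H49KD.regOrb_of_notAltQuot hG hQ

end H49KE
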