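import Pool.Agent.H49.KE.Defs
import Pool.Agent.H49.KE.R7
import Pool.Agent.H49.KE.T1

namespace H49KE

open H49KA H49KB H49KC

universe u v w

section perm
variable {X : Type u} [Group X] {Ω : Type u} [MulAction X Ω]

/-- the permutation representation -/
private def t7rep (X : Type u) [Group X] (Ω : Type u) [MulAction X Ω] :
    X →* Module.End ℂ (Ω → ℂ) where
  toFun x := LinearMap.funLeft ℂ ℂ (fun ω => x⁻¹ • ω)
  map_one' := by
    ext v ω
    simp [LinearMap.funLeft_apply]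
  map_mul' x y := by
    apply LinearMap.ext
    intro v
    funext ω
    simp [LinearMap.funLeft_apply, mul_smul]

private theorem t7rep_apply (x : X) (v : Ω → ℂ) (ω : Ω) : t7rep X Ω x v ω = v (x⁻¹ • ω) := rfl

private theorem t7_trace [Finite Ω] (x : X) :
    LinearMap.trace ℂ (Ω → ℂ) (t7rep X Ω x) = Nat.card {ω : Ω // x • ω = ω} := by
  classical
  have := Fintype.ofFinite Ω
  rw [LinearMap.trace_eq_matrix_trace ℂ (Pi.basisFun ℂ Ω), Matrix.trace]
  have h1 : ∀ ω : Ω, Matrix.diag (LinearMap.toMatrix (Pi.basisFun ℂ Ω) (Pi.basisFun ℂ Ω)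
      (t7rep X Ω x)) ω = if x • ω = ω then 1 else 0 := by
    intro ω
    rw [Matrix.diag_apply, LinearMap.toMatrix_apply, Pi.basisFun_repr, Pi.basisFun_apply,
      t7rep_apply, Pi.single_apply]
    congr 1
    rw [eq_iff_iff, inv_smul_eq_iff, eq_comm]
  rw [Finset.sum_congr rfl fun ω _ => h1 ω, Finset.sum_boole, Nat.card_eq_fintype_card,
    Fintype.card_subtype]

private theorem t7_fx [Finite Ω] [Nonempty Ω] (htr : ∀ a b : Ω, ∃ x : X, x • a = b) :
    Module.finrank ℂ (Fx (t7rep X Ω) ⊤) = 1 := by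
  have hfix : ∀ v : Ω → ℂ, v ∈ Fx (t7rep X Ω) ⊤ → ∀ a b, v a = v b := by
    intro v hv a b
    obtain ⟨x, hx⟩ := htr a b
    have h1 := congrFun (hv x (Subgroup.mem_top x)) b
    rw [t7rep_apply, ← hx, inv_smul_smul] at h1
    rw [← hx]
    exact h1
  obtain ⟨a⟩ := ‹Nonempty Ω›
  rw [finrank_eq_one_iff']
  refine ⟨⟨fun _ => 1, fun x _ => by funext ω; rfl⟩, ?_, ?_⟩
  · intro h
    have h1 := congrFun (congrArg Subtype.val h) a
    exact one_ne_zero h1
  · rintro ⟨v, hv⟩
    refine ⟨v a, ?_⟩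
    apply Subtype.ext
    funext ω
    change v a * 1 = v ω
    rw [mul_one]
    exact hfix v hv a ω

end perm

variable {K : Type u} [Group K]

theorem top_rat (s : ℕ) (X C U : Subgroup K) (hX : Finite X) (f : Fin s → K)
    (hfX : ∀ i, f i ∈ X) (hfC : ∀ i, f i ∉ C) (hS : SimpleSec X C)
    (h : RatSec (2 * s) X C) (hbig : (2 * s).factorial * Nat.card C < Nat.card X)
    (hCU : C ≤ U) (hUX : U ≤ X) (hconf : ∀ x ∈ X, ∃ i, x * f i * x⁻¹ ∈ U) : U = X := by
  classical
  by_contra hne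
  have hXU : ¬ X ≤ U := fun h1 => hne (le_antisymm hUX h1)
  obtain ⟨hCX, hXC, hmin, -⟩ := hS
  have hs : 0 < s := by
    obtain ⟨i, -⟩ := hconf 1 X.one_mem
    exact Fin.pos i
  let Ω := X ⧸ U.subgroupOf X
  have hΩ : Finite Ω := inferInstance
  have htr : ∀ a b : Ω, ∃ x : X, x • a = b := by
    intro a b
    exact MulAction.exists_smul_eq X a b
  obtain ⟨n, hn⟩ : ∃ n, n = Nat.card Ω := ⟨_, rfl⟩
  have hmk : ∀ (x y : X), x • (QuotientGroup.mk y : Ω) = QuotientGroup.mk y ↔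
      (y : K)⁻¹ * x * y ∈ U := by
    intro x y
    change (QuotientGroup.mk (x * y) : Ω) = QuotientGroup.mk y ↔ _
    rw [eq_comm, QuotientGroup.eq, Subgroup.mem_subgroupOf]
    simp [mul_assoc]
  -- `C` acts trivially
  have hCtriv : ∀ x : X, (x : K) ∈ C → ∀ ω : Ω, x • ω = ω := by
    intro x hx ω
    obtain ⟨y, rfl⟩ := QuotientGroup.mk_surjective ω
    rw [hmk]
    apply hCU
    have := hXC _ (X.inv_mem y.2) _ hx
    rwa [inv_inv] at this
  -- the representation
  obtain ⟨W, hW, hWfix, hWdim, hWtr⟩ := fixed_split (t7rep X Ω)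
  have hF1 : Module.finrank ℂ (Fx (t7rep X Ω) ⊤) = 1 := t7_fx htr
  have hdim : Module.finrank ℂ (Ω → ℂ) = n := by
    have := Fintype.ofFinite Ω
    rw [Module.finrank_fintype_fun_eq_card, hn, Nat.card_eq_fintype_card]
  rw [hF1, hdim] at hWdim
  have hrat : ∀ i, ((2 * s : ℕ) : ℝ) *
      ‖((Nat.card {ω : Ω // (⟨f i, hfX i⟩ : X) • ω = ω} : ℂ)) - 1‖ ≤
      (Module.finrank ℂ W : ℝ) := by
    intro i
    have h1 := ratSec_rep (2 * s) X C h (subRep (t7rep X Ω) W hW) ?_ ?_ ⟨f i, hfX i⟩ (hfC i)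
    · have h2 := hWtr ⟨f i, hfX i⟩
      rw [t7_trace, hF1] at h2
      rw [h2]
      simpa using h1
    · intro x hx
      apply LinearMap.ext
      intro w
      apply Subtype.ext
      change t7rep X Ω x (w : Ω → ℂ) = w
      funext ω
      rw [t7rep_apply, inv_smul_eq_iff.2 (hCtriv x hx ω).symm]
    · intro w hw
      apply Subtype.ext
      refine hWfix w w.2 fun g => ?_
      exact congrArg Subtype.val (hw g)
  have hπ : ∀ i, 2 * s * Nat.card {ω : Ω // (⟨f i, hfX i⟩ : X) • ω = ω} ≤ 2 * s + (n - 1) := by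
    intro i
    have h1 := hrat i
    set π := Nat.card {ω : Ω // (⟨f i, hfX i⟩ : X) • ω = ω} with hπ'
    have h2 : (π : ℝ) - 1 ≤ ‖(π : ℂ) - 1‖ := by
      have h3 : ((π : ℂ) - 1).re ≤ ‖(π : ℂ) - 1‖ := Complex.re_le_norm _
      simpa using h3
    have h4 : ((2 * s : ℕ) : ℝ) * ((π : ℝ) - 1) ≤ (Module.finrank ℂ W : ℝ) :=
      le_trans (mul_le_mul_of_nonneg_left h2 (Nat.cast_nonneg _)) h1
    have h5 : ((2 * s * π : ℕ) : ℝ) ≤ ((2 * s + Module.finrank ℂ W : ℕ) : ℝ) := by
      push_cast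
      push_cast at h4
      linarith
    have h6 : Module.finrank ℂ W = n - 1 := by omega
    rw [h6] at h5
    exact_mod_cast h5
  -- every coset is fixed by some `f i`
  have hcov : n ≤ ∑ i, Nat.card {ω : Ω // (⟨f i, hfX i⟩ : X) • ω = ω} := by
    have hex : ∀ ω : Ω, ∃ i, (⟨f i, hfX i⟩ : X) • ω = ω := by
      intro ω
      obtain ⟨y, rfl⟩ := QuotientGroup.mk_surjective ω
      obtain ⟨i, hi⟩ := hconf (y : K)⁻¹ (X.inv_mem y.2)
      refine ⟨i, ?_⟩
      rw [hmk]
      rwa [inv_inv] at hi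
    choose j hj using hex
    let g : Ω → (Σ i : Fin s, {ω : Ω // (⟨f i, hfX i⟩ : X) • ω = ω}) := fun ω => ⟨j ω, ω, hj ω⟩
    have hg : Function.Injective g := by
      intro a b hab
      have h1 := congrArg (fun z : (Σ i : Fin s, {ω : Ω // (⟨f i, hfX i⟩ : X) • ω = ω}) =>
        (z.2 : Ω)) hab
      exact h1
    have h1 := Nat.card_le_card_of_injective g hg
    rw [Nat.card_sigma] at h1
    rwa [hn]
  have hn1 : 1 ≤ n := by
    rw [hn]
    exact Nat.card_pos
  have hn2 : n ≤ 2 * s := by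
    have h1 : 2 * s * n ≤ ∑ i : Fin s, (2 * s + (n - 1)) := by
      refine le_trans (Nat.mul_le_mul_left _ hcov) ?_
      rw [Finset.mul_sum]
      exact Finset.sum_le_sum fun i _ => hπ i
    rw [Finset.sum_const, Finset.card_univ, Fintype.card_fin, smul_eq_mul, mul_comm 2 s,
      mul_assoc] at h1
    have h2 := Nat.le_of_mul_le_mul_left h1 hs
    omega
  -- the kernel
  let θ : X →* Equiv.Perm Ω := MulAction.toPermHom X Ω
  have hker : ∀ x : X, x ∈ θ.ker ↔ ∀ ω : Ω, x • ω = ω := by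
    intro x
    rw [MonoidHom.mem_ker]
    constructor
    · intro h1 ω
      have h2 := congrArg (fun e : Equiv.Perm Ω => e ω) h1
      exact h2
    · intro h1
      ext ω
      exact h1 ω
  have hN := hmin (θ.ker.map X.subtype) ?_ ?_ ?_
  · have hcardX : Nat.card θ.ker * Nat.card θ.range = Nat.card X := by
      rw [← Subgroup.index_ker]
      exact Subgroup.card_mul_index _
    have hr : Nat.card θ.range ≤ (2 * s).factorial := by
      refine le_trans (Nat.card_le_card_of_injective _ Subtype.val_injective) ?_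
      have := Fintype.ofFinite Ω
      rw [Nat.card_eq_fintype_card, Fintype.card_perm, ← Nat.card_eq_fintype_card, ← hn]
      exact Nat.factorial_le hn2
    have hmapcard : Nat.card (θ.ker.map X.subtype) = Nat.card θ.ker :=
      Nat.card_congr (θ.ker.equivMapOfInjective _ X.subtype_injective).toEquiv.symm
    rcases hN with h1 | h1
    · rw [h1] at hmapcard
      rw [← hcardX, ← hmapcard, mul_comm] at hbig
      exact absurd (lt_of_mul_lt_mul_left hbig (Nat.zero_le _)) (not_lt.2 hr)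
    · apply hXU
      intro x hx
      have h2 : x ∈ θ.ker.map X.subtype := by
        rw [h1]
        exact hx
      obtain ⟨y, hy, rfl⟩ := h2
      have h3 := (hker y).1 hy (QuotientGroup.mk (1 : X))
      rw [hmk] at h3
      simpa using h3
  · intro c hc
    exact ⟨⟨c, hCX hc⟩, (hker _).2 (hCtriv _ hc), rfl⟩
  · rintro _ ⟨y, -, rfl⟩
    exact y.2
  · rintro x hx _ ⟨y, hy, rfl⟩
    refine ⟨⟨x, hx⟩ * y * ⟨x, hx⟩⁻¹, ?_, rfl⟩
    exact (MonoidHom.normal_ker θ).conj_mem y hy ⟨x, hx⟩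

end H49KE
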