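import Pool.Agent.H49.KE.Defs
import Pool.Agent.H49.KA.A5

namespace H49KE

open H49KA H49KB H49KC

universe u v w

variable {G : Type u} [Group G]

/-- Proof. Let `k, V, ρ` be as in `FinFin`, `q = |k|`, `f ≠ 1`, `r` the rank of `ρ f - 1`. By
`H49KA.growth` with the constant `q ^ (2 r)` there are `t` and `g i` (`i < t`) such that the group
`D` generated by the `f i = g i f (g i)⁻¹` has order greater than `(q ^ (2 r)) ^ t`. Put
`N = (q ^ r) ^ t`. `G` acts on `V` through `ρ` (`MulAction` with `g • v = ρ g v`); `0` is fixed; the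
action is faithful. `W_i = range (ρ (f i) - 1)` has `q ^ r` elements (it is the image of
`range (ρ f - 1)` under `ρ (g i)`). `T = ∀ i, W_i`, `τ v = fun i => (ρ (f i) - 1) v`; `|T| = N`. The sum `W` of
the `W_i` has at most `N` elements and is mapped to itself by `D`, `(ρ d - 1) v ∈ W` for `d ∈ D` (closure
induction), so every `D`-orbit is contained in some `v + W`. Last part: let `τ v = τ v'`. Then
`(ρ d - 1) v = (ρ d - 1) v'` for all `d ∈ D`: true for the generators; if it holds for `d` and `e` then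
`(ρ (f i) - 1) (ρ e v) = (ρ (f i) - 1) ((ρ e - 1) v) + (ρ (f i) - 1) v` shows `τ (ρ e v) = τ (ρ e v')`;
so prove by closure induction (`Subgroup.closure_induction`) the statement
`∀ v v', τ v = τ v' → (ρ d - 1) v = (ρ d - 1) v'`, products: `(ρ (d e) - 1) v = (ρ d - 1) (ρ e v) +
(ρ e - 1) v`, inverses: `(ρ d⁻¹ - 1) v = - ρ d⁻¹ ((ρ d - 1) v)`. And `d • v = d' • v` iff
`(ρ d - 1) v = (ρ d' - 1) v`. -/
theorem finFin_data (hG : LocFin G) [IsSimpleGroup G] [Infinite G] (h : FinFin G) :
    ∃ (V : Type u) (_ : MulAction G V) (D : Subgroup G) (N : ℕ) (T : Type u) (_ : Finite T)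
      (τ : V → T), Finite D ∧ D ≠ ⊥ ∧ N * N < Nat.card D ∧ Nat.card T ≤ N ∧
      (∀ g : G, g ≠ 1 → ∃ v : V, g • v ≠ v) ∧ (∃ v₀ : V, ∀ g : G, g • v₀ = v₀) ∧
      (∀ v : V, Nat.card (Set.range fun d : D => (d : G) • v) ≤ N) ∧
      (∀ v v' : V, τ v = τ v' → ∀ d ∈ D, ∀ d' ∈ D,
        (d • v = d' • v ↔ d • v' = d' • v')) := by
  classical
  obtain ⟨k, hk, hkf, V, hV, hM, ρ, hρ, hfin⟩ := h
  obtain ⟨f, hf⟩ := exists_ne (1 : G)
  have hWfin : ∀ g : G, Finite (LinearMap.range (ρ g - 1)) := by
    intro g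
    haveI := hfin g
    exact Module.finite_of_finite k
  set M : ℕ := Nat.card (LinearMap.range (ρ f - 1)) with hMdef
  have hMpos : 0 < M := by
    haveI := hWfin f
    exact Nat.card_pos
  obtain ⟨t, g, hgt⟩ := growth hG f hf (M * M)
  let fi : Fin t → G := fun i => g i * f * (g i)⁻¹
  have hWcard : ∀ i, Nat.card (LinearMap.range (ρ (fi i) - 1)) ≤ M := by
    intro i
    haveI := hWfin f
    have hmem : ∀ w : LinearMap.range (ρ f - 1),
        ρ (g i) (w : V) ∈ LinearMap.range (ρ (fi i) - 1) := by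
      rintro ⟨w, v, rfl⟩
      refine ⟨ρ (g i) v, ?_⟩
      have h1 : ρ (fi i) (ρ (g i) v) = ρ (g i) (ρ f v) := by
        change ρ (g i * f * (g i)⁻¹) (ρ (g i) v) = _
        rw [← Module.End.mul_apply, ← map_mul, ← Module.End.mul_apply, ← map_mul]
        congr 2
        group
      simp only [LinearMap.sub_apply, Module.End.one_apply, map_sub, h1]
    refine Nat.card_le_card_of_surjective
      (fun w : LinearMap.range (ρ f - 1) =>
        (⟨ρ (g i) (w : V), hmem w⟩ : LinearMap.range (ρ (fi i) - 1))) ?_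
    rintro ⟨w, v, rfl⟩
    refine ⟨⟨(ρ f - 1) (ρ (g i)⁻¹ v), ⟨_, rfl⟩⟩, ?_⟩
    apply Subtype.ext
    change ρ (g i) ((ρ f - 1) (ρ (g i)⁻¹ v)) = (ρ (fi i) - 1) v
    have h2 : ρ (g i) (ρ f (ρ (g i)⁻¹ v)) = ρ (fi i) v := by
      change _ = ρ (g i * f * (g i)⁻¹) v
      simp only [map_mul, Module.End.mul_apply]
    have h3 : ρ (g i) (ρ (g i)⁻¹ v) = v := by
      rw [← Module.End.mul_apply, ← map_mul, mul_inv_cancel, map_one, Module.End.one_apply]
    simp only [LinearMap.sub_apply, Module.End.one_apply, map_sub, h2, h3]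
  let act : MulAction G V :=
    { smul := fun g v => ρ g v
      one_smul := fun v => by
        change ρ 1 v = v
        rw [map_one, Module.End.one_apply]
      mul_smul := fun a b v => by
        change ρ (a * b) v = ρ a (ρ b v)
        rw [map_mul, Module.End.mul_apply] }
  have hsm : ∀ (a : G) (v : V), (act.toSMul.smul a v) = ρ a v := fun _ _ => rfl
  let D : Subgroup G := Subgroup.closure (Set.range fi)
  have hDcard : (M * M) ^ t < Nat.card D := hgt
  have hpow : M ^ t * M ^ t = (M * M) ^ t := by rw [mul_pow]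
  have hDfin : Finite D := by
    apply Nat.finite_of_card_ne_zero
    have := Nat.zero_le ((M * M) ^ t)
    omega
  let T : Type u := (i : Fin t) → LinearMap.range (ρ (fi i) - 1)
  have hTfin : Finite T := by
    haveI : ∀ i, Finite (LinearMap.range (ρ (fi i) - 1)) := fun i => hWfin _
    exact inferInstanceAs (Finite ((i : Fin t) → LinearMap.range (ρ (fi i) - 1)))
  have hTcard : Nat.card T ≤ M ^ t := by
    change Nat.card ((i : Fin t) → LinearMap.range (ρ (fi i) - 1)) ≤ M ^ t
    rw [Nat.card_pi]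
    calc ∏ i, Nat.card (LinearMap.range (ρ (fi i) - 1)) ≤ ∏ _i : Fin t, M :=
          Finset.prod_le_prod' fun i _ => hWcard i
      _ = M ^ t := by simp
  let L : ((i : Fin t) → LinearMap.range (ρ (fi i) - 1)) →ₗ[k] V :=
    ∑ i, (LinearMap.range (ρ (fi i) - 1)).subtype ∘ₗ LinearMap.proj i
  have hLmem : ∀ i, ∀ v : V, ρ (fi i) v - v ∈ LinearMap.range L := by
    intro i v
    refine ⟨Pi.single i ⟨(ρ (fi i) - 1) v, ⟨v, rfl⟩⟩, ?_⟩
    simp only [L, LinearMap.sum_apply, LinearMap.comp_apply, LinearMap.proj_apply,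
      Submodule.subtype_apply]
    rw [Finset.sum_eq_single i]
    · simp
    · intro j _ hj
      rw [Pi.single_eq_of_ne hj]
      rfl
    · intro hi
      exact absurd (Finset.mem_univ i) hi
  have hDmem : ∀ d ∈ D, ∀ v : V, ρ d v - v ∈ LinearMap.range L := by
    intro d hd
    induction hd using Subgroup.closure_induction with
    | mem x hx =>
      obtain ⟨i, rfl⟩ := hx
      exact hLmem i
    | one =>
      intro v
      rw [map_one, Module.End.one_apply, sub_self]
      exact Submodule.zero_mem _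
    | mul x y _ _ hx hy =>
      intro v
      have : ρ (x * y) v - v = (ρ x (ρ y v) - ρ y v) + (ρ y v - v) := by
        rw [map_mul, Module.End.mul_apply]
        abel
      rw [this]
      exact Submodule.add_mem _ (hx _) (hy _)
    | inv x _ hx =>
      intro v
      have h3 : ρ x (ρ x⁻¹ v) = v := by
        rw [← Module.End.mul_apply, ← map_mul, mul_inv_cancel, map_one, Module.End.one_apply]
      have : ρ x⁻¹ v - v = - (ρ x (ρ x⁻¹ v) - ρ x⁻¹ v) := by
        rw [h3]
        abel
      rw [this]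
      exact Submodule.neg_mem _ (hx _)
  have hfix : ∀ u : V, (∀ i, ρ (fi i) u = u) → ∀ d ∈ D, ρ d u = u := by
    intro u hu d hd
    induction hd using Subgroup.closure_induction with
    | mem x hx =>
      obtain ⟨i, rfl⟩ := hx
      exact hu i
    | one => rw [map_one, Module.End.one_apply]
    | mul x y _ _ hx hy => rw [map_mul, Module.End.mul_apply, hy, hx]
    | inv x _ hx =>
      have h3 : ρ x⁻¹ (ρ x u) = u := by
        rw [← Module.End.mul_apply, ← map_mul, inv_mul_cancel, map_one, Module.End.one_apply]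
      rw [hx] at h3
      exact h3
  refine ⟨V, act, D, M ^ t, T, hTfin, fun v i => ⟨(ρ (fi i) - 1) v, ⟨v, rfl⟩⟩, hDfin, ?_, ?_,
    hTcard, ?_, ⟨0, ?_⟩, ?_, ?_⟩
  · intro hD
    have h1 : Nat.card D = 1 := by rw [hD]; simp
    have h2 : 0 < (M * M) ^ t := Nat.pow_pos (Nat.mul_pos hMpos hMpos)
    omega
  · rw [hpow]
    exact hDcard
  · intro a ha
    by_contra hcon
    push_neg at hcon
    apply ha
    apply hρ
    rw [map_one]
    ext v
    exact hcon v
  · intro a
    change ρ a 0 = 0
    exact map_zero _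
  · intro v
    haveI := hTfin
    have hsub : (Set.range fun d : D => (act.toSMul.smul (d : G) v)) ⊆
        Set.range fun w : T => v + L w := by
      rintro _ ⟨d, rfl⟩
      obtain ⟨w, hw⟩ := hDmem d d.2 v
      refine ⟨w, ?_⟩
      change v + L w = ρ (d : G) v
      rw [hw]
      abel
    calc Nat.card (Set.range fun d : D => (act.toSMul.smul (d : G) v))
        ≤ Nat.card (Set.range fun w : T => v + L w) := by
          apply Nat.card_mono _ hsub
          exact Set.finite_range _
      _ ≤ Nat.card T := Finite.card_range_le _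
      _ ≤ M ^ t := hTcard
  · intro v v' hvv d hd d' hd'
    have hu : ∀ i, ρ (fi i) (v - v') = v - v' := by
      intro i
      have h1 := congrArg Subtype.val (congrFun hvv i)
      simp only [LinearMap.sub_apply, Module.End.one_apply] at h1
      rw [map_sub]
      have h2 : ρ (fi i) v = ρ (fi i) v' - v' + v := by
        rw [← h1]
        abel
      rw [h2]
      abel
    have h1 := hfix _ hu d hd
    have h2 := hfix _ hu d' hd'
    rw [map_sub] at h1 h2
    change ρ d v = ρ d' v ↔ ρ d v' = ρ d' v'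
    have e1 : ρ d v = v - v' + ρ d v' := by
      rw [← h1]
      abel
    have e2 : ρ d' v = v - v' + ρ d' v' := by
      rw [← h2]
      abel
    rw [e1, e2]
    constructor
    · intro h
      exact add_left_cancel h
    · intro h
      rw [h]

end H49KE
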