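import Pool.Agent.H49.KE.Defs
import Pool.Agent.H49.KE.U4
import Pool.Agent.H49.KA.A2
import Pool.Agent.H49.KA.SN

namespace H49KE

open H49KA H49KB H49KC

universe u v w

variable {G : Type u} [Group G]

/-- Proof. `G` is simple (`H49KA.simple_of_noConf`, `Pool/Agent/H49/KA/SN.lean` or wherever it is).
Suppose `FinFin G` and take the data of `finFin_data`. Let `K₀` be as in `H49KA.exists_ro hG hC D`.
There are `1 ≠ d ∈ D` and `v` with `d • v ≠ v`; let `H` be the stabiliser of `v`, `¬ D ≤ H`. So there is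
`k` with: `d ∈ D`, `k⁻¹ d k ∈ H` implies `d = 1`, i.e. the stabiliser of `k • v` in `D` is trivial, so
its `D`-orbit has `|D|` elements, but it has at most `N ≤ N * N < |D|`. (`N = 0` is impossible, orbits
are not empty.) -/
theorem not_finFin_of_noConf (hG : LocFin G) [Infinite G] (hC : NoConf G) : ¬ FinFin G := by
  intro h
  have hs : IsSimpleGroup G := simple_of_noConf hC
  obtain ⟨V, _, D, N, T, _, τ, hDf, hD, hN, -, hfaith, -, horb, -⟩ := finFin_data hG h
  obtain ⟨K₀, -, -, hro⟩ := exists_ro hG hC D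
  obtain ⟨d, hd1⟩ := (Subgroup.ne_bot_iff_exists_ne_one (H := D)).1 hD
  obtain ⟨v, hv⟩ := hfaith (d : G) (fun h => hd1 (Subtype.ext h))
  obtain ⟨k, -, hk⟩ := hro (MulAction.stabilizer G v) (fun hle => hv (hle d.2))
  have hinj : Function.Injective (fun e : D => (e : G) • (k • v)) := by
    intro a b hab
    have h1 : (a : G) • k • v = (b : G) • k • v := hab
    have h2 : ((b : G)⁻¹ * a : G) = 1 := by
      apply hk _ (D.mul_mem (D.inv_mem b.2) a.2)
      rw [MulAction.mem_stabilizer_iff, mul_smul, mul_smul, mul_smul, h1, inv_smul_smul,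
        inv_smul_smul]
    exact Subtype.ext (inv_mul_eq_one.1 h2).symm
  have hcard : Nat.card D = Nat.card (Set.range fun e : D => (e : G) • (k • v)) :=
    Nat.card_congr (Equiv.ofInjective _ hinj)
  have h1 : Nat.card D ≤ N := by
    rw [hcard]
    exact horb (k • v)
  rcases Nat.eq_zero_or_pos N with h0 | h0
  · rw [h0] at hN h1
    omega
  · have h2 : N ≤ N * N := Nat.le_mul_of_pos_left N h0
    omega

end H49KE
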