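import Pool.Agent.H49.KA.SN
import Pool.Agent.H49.KA.C10
import Pool.Agent.H49.KC.Main
import Pool.Agent.H49.KD.TA
import Pool.Agent.H49.KD.RO
import Pool.Agent.H49.KE.CE
import Pool.Agent.H49.KE.C1
import Pool.Agent.H49.KE.C2
import Pool.Agent.H49.KE.C3
import Pool.Agent.H49.KE.K9
import Pool.Agent.H49.KE.T7
import Pool.Agent.H49.KE.T8
import Pool.Agent.H49.KE.F2
import Pool.Agent.H49.KE.F3
import Pool.Agent.H49.KE.RQ
import Pool.Agent.H49.KE.U5
import Pool.Agent.H49.KE.U6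

namespace H49KE

open H49KA H49KB H49KC

universe u v w

variable {G : Type u} [Group G]

theorem noConf_of_regOrb (hG : LocFin G) [IsSimpleGroup G] [Infinite G] (hn : ¬ FinFin G)
    (hR : H49KD.RegOrb G) (d : ℕ) (𝓛 : Set (Subgroup G)) (h𝓛 : LocalSystem 𝓛)
    (hT : TopsF d 𝓛) : NoConf G := by
  intro H hH
  by_contra hH1
  obtain ⟨s, m, hs, hex⟩ := exists_cdata hG hn hR d 𝓛 h𝓛 hT H hH hH1
  obtain ⟨c₁, htop⟩ := top_small.{u} s hs
  obtain ⟨b₁, htop'⟩ := H49KD.top_alt.{u} s m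
  obtain ⟨q, K, f, Y, X, U, hq, hd, hm⟩ := hex (max (max ((s ^ 2) ^ (s ^ 2))
    (((s ^ 2).factorial) ^ ((s ^ 2).factorial))) b₁) (max c₁ (max (s ^ 2) (10 * (s + 1) ^ 2)))
  have hq2 : 2 ≤ q := by omega
  have hqs : s ^ 2 ≤ q := by omega
  obtain ⟨N, N₀, hN⟩ := chf_exists hd
  have hperf := case1 hd (le_trans (le_max_left _ _) (le_max_left _ _))
    (le_trans (le_max_left _ _) (le_max_right _ _)) hqs hN
  have hfix := case2 hd hq2 (le_trans (le_max_right _ _) (le_max_right _ _)) hN hperf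
  refine case3 hd (le_trans (le_max_right _ _) (le_max_left _ _)) hN hperf hfix ?_
  intro C U' hs1 hs2 hf hCU hUX hconf
  rcases hs2 with hs2 | hs2 | hs2
  · refine htop q K X C U' f hs1 hs2 (fun i => hd.hYX (hd.hfY i)) hf ?_ hCU hUX hconf
    intro k _ _ hk V _ _ p x i hx hp g a hg hsm
    exact hd.rk k hk V p x i hx hp g a hg (smallRank_mono (le_max_left _ _) hsm)
  · have hK := hd.finK
    exact top_rat s X C U' inferInstance f (fun i => hd.hYX (hd.hfY i)) hf hs1 hs2.1 hs2.2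
      hCU hUX hconf
  · exact htop' K X C U' Y f hs2 hd.hYX hd.hfY hd.hf1
      (lt_of_le_of_lt (le_max_right _ _) hd.big) hm hCU hUX hconf

theorem regOrb_of (hG : LocFin G) [IsSimpleGroup G]
    (hR : AltQuot G → H49KD.RegOrb G) : H49KD.RegOrb G := by
  by_cases hQ : AltQuot G
  · exact hR hQ
  · exact regOrb_of_notAltQuot hG hQ

theorem mainF (G : Type u) [Group G] [Infinite G] (hG : LocFin G) (d : ℕ)
    (𝓛 : Set (Subgroup G)) (h𝓛 : LocalSystem 𝓛) (hT : TopsF d 𝓛) :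
    (AugSimple G ↔ NoConf G) ∧
    (AugSimple G ↔ IsSimpleGroup G ∧ ¬ FinFin G ∧ (AltQuot G → H49KD.RegOrb G)) := by
  have hAN : AugSimple G → NoConf G := by
    intro hA
    have hs := simple_of_augSimple hA
    by_cases hQ : AltQuot G
    · exact noConf_of_augSimple hG hQ hA
    · exact noConf_of_regOrb hG (not_finFin_of_augSimple hG hA) (regOrb_of_notAltQuot hG hQ) d 𝓛
        h𝓛 hT
  have hNA : NoConf G → AugSimple G := by
    intro hC
    have hs := simple_of_noConf hC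
    exact augSimple_of_repInd hG (repInd_of hG hC 𝓛 h𝓛
      (hypF_of_tops hG hC (not_finFin_of_noConf hG hC) d 𝓛 h𝓛 hT))
  refine ⟨⟨hAN, hNA⟩, fun hA => ?_, ?_⟩
  · exact ⟨simple_of_augSimple hA, not_finFin_of_augSimple hG hA,
      fun _ => H49KD.regOrb_of_noConf hG (hAN hA)⟩
  · rintro ⟨hs, hn, hR⟩
    exact hNA (noConf_of_regOrb hG hn (regOrb_of hG hR) d 𝓛 h𝓛 hT)

end H49KE
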