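import Pool.Agent.H49.KE.Defs
import Pool.Agent.H49.KE.U4
import Pool.Agent.H49.KA.SN
import Pool.Agent.H49.KA.C11

namespace H49KE

open H49KA H49KB H49KC

universe u v w

variable {G : Type u} [Group G]

/-- more unknowns than equations -/
private theorem u6_exists {ι κ : Type*} [Fintype ι] [Fintype κ]
    (h : Fintype.card κ < Fintype.card ι) (f : (ι → ℂ) →ₗ[ℂ] (κ → ℂ)) :
    ∃ a : ι → ℂ, a ≠ 0 ∧ f a = 0 := by
  have h1 : LinearMap.ker f ≠ ⊥ := by
    apply LinearMap.ker_ne_bot_of_finrank_lt
    rw [Module.finrank_fintype_fun_eq_card, Module.finrank_fintype_fun_eq_card]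
    exact h
  obtain ⟨a, ha, ha0⟩ := Submodule.exists_mem_ne_zero_of_ne_bot h1
  exact ⟨a, ha0, ha⟩

/-- the permutation module -/
private noncomputable def u6_rho (G : Type u) [Group G] (V : Type v) [MulAction G V] :
    G →* Module.End ℂ (V →₀ ℂ) where
  toFun g := Finsupp.lmapDomain ℂ ℂ (fun v => g • v)
  map_one' := by
    ext v
    simp
  map_mul' a b := by
    apply Finsupp.lhom_ext
    intro v c
    simp [mul_smul]

private theorem u6_rho_single {V : Type v} [MulAction G V] (g : G) (v : V) (c : ℂ) :
    u6_rho G V g (Finsupp.single v c) = Finsupp.single (g • v) c := by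
  simp [u6_rho]

private noncomputable def u6_R (G : Type u) [Group G] (V : Type v) [MulAction G V] :
    MonoidAlgebra ℂ G →ₐ[ℂ] Module.End ℂ (V →₀ ℂ) :=
  MonoidAlgebra.lift ℂ (Module.End ℂ (V →₀ ℂ)) G (u6_rho G V)

private theorem u6_R_single {V : Type v} [MulAction G V] (g : G) (c : ℂ) (v : V) :
    u6_R G V (MonoidAlgebra.single g c) (Finsupp.single v 1) = Finsupp.single (g • v) c := by
  rw [u6_R, MonoidAlgebra.lift_single, LinearMap.smul_apply, u6_rho_single,
    Finsupp.smul_single, smul_eq_mul, mul_one]

private theorem u6_R_aug {V : Type v} [MulAction G V] (v₀ : V) (hv : ∀ g : G, g • v₀ = v₀)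
    (a : MonoidAlgebra ℂ G) :
    u6_R G V a (Finsupp.single v₀ 1) = Finsupp.single v₀ (aug a) := by
  rw [u6_R, MonoidAlgebra.lift_apply, Finsupp.sum, LinearMap.sum_apply, aug, Finsupp.sum,
    Finsupp.single_finsetSum]
  refine Finset.sum_congr rfl fun g _ => ?_
  rw [LinearMap.smul_apply, u6_rho_single, hv, Finsupp.smul_single, smul_eq_mul, mul_one]

/-- Proof. `G` is simple (`H49KA.simple_of_augSimple`). Suppose `FinFin G` and take the data of
`finFin_data`. Linear algebra: there is a nonzero family of complex numbers `α d`, `d ∈ D`, such that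
for all `v w : V` the sum of the `α d` over the `d ∈ D` with `d • v = w` vanishes. Indeed for each value
`t` of `τ` choose `v_t` with `τ v_t = t`; the conditions for `v_t` and all `w` in the orbit of `v_t` are at
most `N` equations, together at most `N * N < |D|` equations, so there is a nonzero solution
(e.g. `LinearMap.exists_ne_zero_of_finrank_lt` style: the linear map from `D → ℂ` to the product of
the function spaces has a nontrivial kernel); for arbitrary `v` with `τ v = t` the partition of `D`
given by `d ↦ d • v` is the same as the one given by `v_t`. Now let `M = V →₀ ℂ` be the permutation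
module and `I = {a ∈ ℂ[G] | a annihilates M}` (`a` acts by `single g c * δ_v = c δ_{g • v}`; define the
action by `MonoidAlgebra.lift` into `Module.End ℂ (V →₀ ℂ)`, `g ↦ Finsupp.lmapDomain`). `I` is the
kernel of a ring homomorphism; all `a ∈ I` have `aug a = 0` (apply `a` to `δ_{v₀}`); `∑ α d d` is a
nonzero element of `I`; `g - 1 ∉ I` for `g ≠ 1` and `aug (g - 1) = 0`. This contradicts `AugSimple`. -/
theorem not_finFin_of_augSimple (hG : LocFin G) [Infinite G] (hA : AugSimple G) :
    ¬ FinFin G := by
  classical
  intro h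
  have hs : IsSimpleGroup G := simple_of_augSimple hA
  obtain ⟨V, act, D, N, T, hT, τ, hDf, hD, hN, hTN, hfaith, ⟨v₀, hv₀⟩, horb, hτ⟩ :=
    finFin_data hG h
  letI := Fintype.ofFinite D
  letI := Fintype.ofFinite T
  -- representatives
  have hrep : ∀ t : T, ∃ v : V, (∃ v', τ v' = t) → τ v = t := by
    intro t
    by_cases ht : ∃ v', τ v' = t
    · obtain ⟨v, hv⟩ := ht
      exact ⟨v, fun _ => hv⟩
    · exact ⟨v₀, fun h => absurd h ht⟩
  choose r hr using hrep
  let O : T → Set V := fun t => Set.range fun d : D => (d : G) • r t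
  have hOf : ∀ t, Finite (O t) := fun t => Set.finite_range _
  letI : ∀ t, Fintype (O t) := fun t => Fintype.ofFinite _
  have hcard : Fintype.card (Σ t : T, O t) < Fintype.card D := by
    rw [Fintype.card_sigma]
    have h1 : ∑ t : T, Fintype.card (O t) ≤ ∑ _t : T, N := by
      apply Finset.sum_le_sum
      intro t _
      rw [← Nat.card_eq_fintype_card]
      exact horb (r t)
    rw [Finset.sum_const, smul_eq_mul, Finset.card_univ] at h1
    rw [← Nat.card_eq_fintype_card (α := T)] at h1
    rw [← Nat.card_eq_fintype_card (α := D)]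
    have h2 : Nat.card T * N ≤ N * N := Nat.mul_le_mul_right N hTN
    omega
  let f : (D → ℂ) →ₗ[ℂ] ((Σ t : T, O t) → ℂ) :=
    { toFun := fun α x => ∑ d : D, if (d : G) • r x.1 = (x.2 : V) then α d else 0
      map_add' := by
        intro α β
        funext x
        simp only [Pi.add_apply]
        rw [← Finset.sum_add_distrib]
        refine Finset.sum_congr rfl fun d _ => ?_
        split_ifs <;> simp
      map_smul' := by
        intro c α
        funext x
        simp only [Pi.smul_apply, smul_eq_mul, RingHom.id_apply]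
        rw [Finset.mul_sum]
        refine Finset.sum_congr rfl fun d _ => ?_
        split_ifs <;> simp }
  obtain ⟨α, hα0, hα⟩ := u6_exists hcard f
  have hα' : ∀ v w : V, (∑ d : D, if (d : G) • v = w then α d else 0) = 0 := by
    intro v w
    by_cases hw : ∃ d₀ : D, (d₀ : G) • v = w
    · obtain ⟨d₀, rfl⟩ := hw
      have h1 := congrFun hα ⟨τ v, ⟨(d₀ : G) • r (τ v), ⟨d₀, rfl⟩⟩⟩
      have h2 : (∑ d : D, if (d : G) • r (τ v) = (d₀ : G) • r (τ v) then α d else 0) = 0 := h1
      refine Eq.trans (Finset.sum_congr rfl fun d _ => ?_) h2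
      have h3 := hτ v (r (τ v)) (hr (τ v) ⟨v, rfl⟩).symm d d.2 d₀ d₀.2
      by_cases h4 : (d : G) • v = (d₀ : G) • v
      · rw [if_pos h4, if_pos (h3.1 h4)]
      · rw [if_neg h4, if_neg (fun h5 => h4 (h3.2 h5))]
    · refine Finset.sum_eq_zero fun d _ => ?_
      rw [if_neg fun h => hw ⟨d, h⟩]
  let R := u6_R G V
  let a : MonoidAlgebra ℂ G := ∑ d : D, MonoidAlgebra.single (d : G) (α d)
  have hRa : R a = 0 := by
    apply Finsupp.lhom_ext
    intro v c
    have h1 : R a (Finsupp.single v 1) = 0 := by
      change u6_R G V (∑ d : D, MonoidAlgebra.single (d : G) (α d)) (Finsupp.single v 1) = 0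
      rw [map_sum, LinearMap.sum_apply]
      ext w
      rw [Finsupp.finsetSum_apply]
      rw [Finsupp.coe_zero, Pi.zero_apply]
      refine Eq.trans (Finset.sum_congr rfl fun d _ => ?_) (hα' v w)
      rw [u6_R_single, Finsupp.single_apply]
    have h2 : (Finsupp.single v c : V →₀ ℂ) = c • Finsupp.single v 1 := by
      rw [Finsupp.smul_single, smul_eq_mul, mul_one]
    rw [h2, map_smul, h1, smul_zero, LinearMap.zero_apply]
  have ha0 : a ≠ 0 := by
    intro h0
    apply hα0
    funext d
    have h1 : a.coeff (d : G) = 0 := by rw [h0]; rfl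
    have h2 : a.coeff (d : G) = α d := by
      change (∑ e : D, MonoidAlgebra.single (e : G) (α e) : MonoidAlgebra ℂ G).coeff (d : G) = α d
      rw [MonoidAlgebra.coeff_sum, Finsupp.finsetSum_apply, Finset.sum_eq_single d]
      · rw [MonoidAlgebra.coeff_single, Finsupp.single_eq_same]
      · intro e _ he
        rw [MonoidAlgebra.coeff_single, Finsupp.single_eq_of_ne]
        intro h3
        exact he (Subtype.ext h3.symm)
      · intro h3
        exact absurd (Finset.mem_univ d) h3
    rw [← h2, h1]
    rfl
  let I : AddSubgroup (MonoidAlgebra ℂ G) :=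
    { carrier := {b | R b = 0}
      add_mem' := by
        intro b c hb hc
        change R (b + c) = 0
        rw [map_add, show R b = 0 from hb, show R c = 0 from hc, add_zero]
      zero_mem' := map_zero R
      neg_mem' := by
        intro b hb
        change R (-b) = 0
        have h1 : R (-b) + R b = 0 := by rw [← map_add, neg_add_cancel, map_zero]
        rwa [show R b = 0 from hb, add_zero] at h1 }
  have hIaug : ∀ b ∈ I, aug b = 0 := by
    intro b hb
    have h1 := u6_R_aug v₀ hv₀ b
    have h2 : u6_R G V b = 0 := hb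
    rw [h2, LinearMap.zero_apply] at h1
    exact (Finsupp.single_eq_zero.1 h1.symm)
  rcases hA.2 I hIaug (fun b hb c _ => ⟨by
    change R (b * c) = 0
    rw [map_mul, show R b = 0 from hb, zero_mul], by
    change R (c * b) = 0
    rw [map_mul, show R b = 0 from hb, mul_zero]⟩) with h1 | h1
  · exact ha0 (h1 a hRa)
  · obtain ⟨g, hg⟩ := exists_ne (1 : G)
    obtain ⟨v, hv⟩ := hfaith g hg
    have hadd : ∀ a b : MonoidAlgebra ℂ G, aug (a + b) = aug a + aug b := by
      intro a b
      unfold aug
      rw [MonoidAlgebra.coeff_add, Finsupp.sum_add_index']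
      · intro _; rfl
      · intro _ _ _; rfl
    have hsg : ∀ (g : G) (c : ℂ), aug (MonoidAlgebra.single g c) = c := by
      intro g c
      unfold aug
      rw [MonoidAlgebra.coeff_single, Finsupp.sum_single_index rfl]
    have h2 : aug (MonoidAlgebra.single g 1 - MonoidAlgebra.single 1 1 : MonoidAlgebra ℂ G) = 0 := by
      have h1 := hadd (MonoidAlgebra.single g 1 - MonoidAlgebra.single 1 1)
        (MonoidAlgebra.single 1 1)
      rw [sub_add_cancel, hsg, hsg] at h1
      exact (add_eq_right.1 h1.symm)
    have h3 : R (MonoidAlgebra.single g 1 - MonoidAlgebra.single 1 1) = 0 := h1 _ h2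
    have h4 : R (MonoidAlgebra.single g 1 - MonoidAlgebra.single 1 1) (Finsupp.single v 1) = 0 := by
      rw [h3, LinearMap.zero_apply]
    rw [map_sub, LinearMap.sub_apply, u6_R_single, u6_R_single, one_smul, sub_eq_zero] at h4
    have h5 := Finsupp.single_left_injective (one_ne_zero (α := ℂ)) h4
    exact hv h5

end H49KE
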